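import Pool.Agent.Lib.MP_f82811_pr.TC.Defs

/-!
# Module Alg: algebra of `am`, `ip`, `tot`, `qf`, parity and dependence

All statements are finite sums; `D v f` does not see the spin at `v` (`HT` may have lemmas on `D`).
-/

set_option autoImplicit false

namespace Pool.Agent.Lib.MP_f82811_pr.TC

open Finset HT

variable {V : Type*} [Fintype V] [DecidableEq V] {w : (V → Bool) → ℝ}

/-! ### The half difference -/

omit [Fintype V] in
theorem D_add (v : V) (f g : (V → Bool) → ℝ) (σ : V → Bool) :
    D v (fun σ => f σ + g σ) σ = D v f σ + D v g σ := by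
  unfold D; ring

omit [Fintype V] in
theorem D_smul (v : V) (c : ℝ) (f : (V → Bool) → ℝ) (σ : V → Bool) :
    D v (fun σ => c * f σ) σ = c * D v f σ := by
  unfold D; ring

omit [Fintype V] in
theorem D_const (v : V) (c : ℝ) (σ : V → Bool) : D v (fun _ => c) σ = 0 := by
  unfold D; ring

omit [Fintype V] in
theorem D_sq (v : V) (f : (V → Bool) → ℝ) (σ : V → Bool) :
    D v f σ * D v f σ = (f σ - f (flip v σ)) ^ 2 / 4 := by
  have h := sub_flip v f σ
  rw [h]
  have h2 := sp_sq v σ
  calc D v f σ * D v f σ = (sp v σ * sp v σ) * (D v f σ * D v f σ) := by rw [h2]; ring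
    _ = _ := by ring

omit [Fintype V] in
theorem D_flip (v : V) (f : (V → Bool) → ℝ) (σ : V → Bool) : D v f (flip v σ) = D v f σ := by
  unfold flip
  exact D_update v f σ _

omit [Fintype V] in
theorem D_odd {f : (V → Bool) → ℝ} (hf : Odd' f) (v : V) : Even' (D v f) := by
  intro σ
  unfold D
  have h1 : Function.update (neg σ) v true = neg (Function.update σ v false) := by
    funext i
    by_cases h : i = v
    · subst h
      simp [neg]
    · simp [neg, h]
  have h2 : Function.update (neg σ) v false = neg (Function.update σ v true) := by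
    funext i
    by_cases h : i = v
    · subst h
      simp [neg]
    · simp [neg, h]
  rw [h1, h2, hf, hf]
  ring

omit [Fintype V] in
theorem D_even {f : (V → Bool) → ℝ} (hf : Even' f) (v : V) : Odd' (D v f) := by
  intro σ
  unfold D
  have h1 : Function.update (neg σ) v true = neg (Function.update σ v false) := by
    funext i
    by_cases h : i = v
    · subst h
      simp [neg]
    · simp [neg, h]
  have h2 : Function.update (neg σ) v false = neg (Function.update σ v true) := by
    funext i
    by_cases h : i = v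
    · subst h
      simp [neg]
    · simp [neg, h]
  rw [h1, h2, hf, hf]
  ring

omit [Fintype V] in
theorem D_of_dep {X : Finset V} {f : (V → Bool) → ℝ} (hf : Dep X f) {v : V} (hv : v ∉ X)
    (σ : V → Bool) : D v f σ = 0 := by
  unfold D
  have h : f (Function.update σ v true) = f (Function.update σ v false) := by
    apply hf
    intro i hi
    have hiv : i ≠ v := fun h => hv (h ▸ hi)
    rw [Function.update_of_ne hiv, Function.update_of_ne hiv]
  rw [h]
  ring

omit [Fintype V] in
theorem flip_of_dep {X : Finset V} {f : (V → Bool) → ℝ} (hf : Dep X f) {v : V} (hv : v ∉ X)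
    (σ : V → Bool) : f (flip v σ) = f σ := by
  apply hf
  intro i hi
  have hiv : i ≠ v := fun h => hv (h ▸ hi)
  unfold flip
  rw [Function.update_of_ne hiv]

omit [Fintype V] in
theorem dep_D {X : Finset V} {f : (V → Bool) → ℝ} (hf : Dep X f) (v : V) :
    Dep (X.erase v) (D v f) := by
  intro σ τ h
  have key : ∀ b, f (Function.update σ v b) = f (Function.update τ v b) := by
    intro b
    apply hf
    intro i hi
    by_cases hiv : i = v
    · subst hiv
      rw [Function.update_self, Function.update_self]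
    · rw [Function.update_of_ne hiv, Function.update_of_ne hiv]
      exact h i (Finset.mem_erase.2 ⟨hiv, hi⟩)
  unfold D
  rw [key, key]

omit [Fintype V] [DecidableEq V] in
theorem Dep.mono {X Y : Finset V} {f : (V → Bool) → ℝ} (hf : Dep X f) (h : X ⊆ Y) : Dep Y f :=
  fun σ τ hst => hf σ τ fun v hv => hst v (h hv)

omit [Fintype V] [DecidableEq V] in
theorem Dep.mul {X : Finset V} {f g : (V → Bool) → ℝ} (hf : Dep X f) (hg : Dep X g) :
    Dep X (fun σ => f σ * g σ) := fun σ τ h => by
  show f σ * g σ = f τ * g τ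
  rw [hf σ τ h, hg σ τ h]

omit [Fintype V] [DecidableEq V] in
theorem Dep.add {X : Finset V} {f g : (V → Bool) → ℝ} (hf : Dep X f) (hg : Dep X g) :
    Dep X (fun σ => f σ + g σ) := fun σ τ h => by
  show f σ + g σ = f τ + g τ
  rw [hf σ τ h, hg σ τ h]

omit [Fintype V] [DecidableEq V] in
theorem Dep.neg {X : Finset V} {f : (V → Bool) → ℝ} (hf : Dep X f) :
    Dep X (fun σ => f (neg σ)) := fun σ τ h => by
  apply hf
  intro v hv
  show (!σ v) = !τ v
  rw [h v hv]

/-! ### Bilinearity -/

theorem am_comm (f g : (V → Bool) → ℝ) : am w f g = am w g f := by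
  unfold am
  exact Finset.sum_congr rfl fun v _ => Finset.sum_congr rfl fun σ _ => by ring

theorem am_add_left (f g h : (V → Bool) → ℝ) :
    am w (fun σ => f σ + g σ) h = am w f h + am w g h := by
  unfold am
  rw [← Finset.sum_add_distrib]
  refine Finset.sum_congr rfl fun v _ => ?_
  rw [← Finset.sum_add_distrib]
  refine Finset.sum_congr rfl fun σ _ => ?_
  rw [D_add]
  ring

theorem am_smul_left (c : ℝ) (f h : (V → Bool) → ℝ) :
    am w (fun σ => c * f σ) h = c * am w f h := by
  unfold am
  rw [Finset.mul_sum]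
  refine Finset.sum_congr rfl fun v _ => ?_
  rw [Finset.mul_sum]
  refine Finset.sum_congr rfl fun σ _ => ?_
  rw [D_smul]
  ring

theorem am_const_left (c : ℝ) (h : (V → Bool) → ℝ) : am w (fun _ => c) h = 0 := by
  unfold am
  refine Finset.sum_eq_zero fun v _ => Finset.sum_eq_zero fun σ _ => ?_
  rw [D_const]
  ring

theorem am_nonneg (hw : ∀ σ, 0 ≤ w σ) (f : (V → Bool) → ℝ) : 0 ≤ am w f f := by
  unfold am
  exact Finset.sum_nonneg fun v _ => Finset.sum_nonneg fun σ _ =>
    mul_nonneg (hw σ) (mul_self_nonneg _)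

/-- `am` is linear in the weight. -/
theorem am_weight (a b : ℝ) (u v f g : (V → Bool) → ℝ) :
    am (fun σ => a * u σ + b * v σ) f g = a * am u f g + b * am v f g := by
  unfold am
  rw [Finset.mul_sum, Finset.mul_sum, ← Finset.sum_add_distrib]
  refine Finset.sum_congr rfl fun x _ => ?_
  rw [Finset.mul_sum, Finset.mul_sum, ← Finset.sum_add_distrib]
  exact Finset.sum_congr rfl fun σ _ => by ring

theorem ip_weight (a b : ℝ) (u v f g : (V → Bool) → ℝ) :
    ip (fun σ => a * u σ + b * v σ) f g = a * ip u f g + b * ip v f g := by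
  unfold ip
  rw [Finset.mul_sum, Finset.mul_sum, ← Finset.sum_add_distrib]
  exact Finset.sum_congr rfl fun σ _ => by ring

theorem tot_weight (a b : ℝ) (u v f : (V → Bool) → ℝ) :
    tot (fun σ => a * u σ + b * v σ) f = a * tot u f + b * tot v f := by
  unfold tot
  rw [Finset.mul_sum, Finset.mul_sum, ← Finset.sum_add_distrib]
  exact Finset.sum_congr rfl fun σ _ => by ring

theorem tot_add (f g : (V → Bool) → ℝ) : tot w (fun σ => f σ + g σ) = tot w f + tot w g := by
  unfold tot
  rw [← Finset.sum_add_distrib]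
  exact Finset.sum_congr rfl fun σ _ => by ring

theorem tot_smul (c : ℝ) (f : (V → Bool) → ℝ) : tot w (fun σ => c * f σ) = c * tot w f := by
  unfold tot
  rw [Finset.mul_sum]
  exact Finset.sum_congr rfl fun σ _ => by ring

theorem ip_const_right (c : ℝ) (f : (V → Bool) → ℝ) : ip w f (fun _ => c) = c * tot w f := by
  unfold ip tot
  rw [Finset.mul_sum]
  exact Finset.sum_congr rfl fun σ _ => by ring

variable {lam : ℝ}

theorem qf_comm (f g : (V → Bool) → ℝ) : qf lam w f g = qf lam w g f := by
  unfold qf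
  rw [am_comm, ip_comm]

theorem qf_add_left (f g h : (V → Bool) → ℝ) :
    qf lam w (fun σ => f σ + g σ) h = qf lam w f h + qf lam w g h := by
  unfold qf
  rw [am_add_left, ip_add_left]
  ring

theorem qf_add_right (f g h : (V → Bool) → ℝ) :
    qf lam w h (fun σ => f σ + g σ) = qf lam w h f + qf lam w h g := by
  rw [qf_comm, qf_add_left, qf_comm, qf_comm g]

theorem qf_smul_left (c : ℝ) (f h : (V → Bool) → ℝ) :
    qf lam w (fun σ => c * f σ) h = c * qf lam w f h := by
  unfold qf
  rw [am_smul_left, ip_smul_left]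
  ring

theorem qf_smul_right (c : ℝ) (f h : (V → Bool) → ℝ) :
    qf lam w h (fun σ => c * f σ) = c * qf lam w h f := by
  rw [qf_comm, qf_smul_left, qf_comm]

theorem qf_weight (a b : ℝ) (u v f g : (V → Bool) → ℝ) :
    qf lam (fun σ => a * u σ + b * v σ) f g = a * qf lam u f g + b * qf lam v f g := by
  unfold qf
  rw [am_weight, ip_weight]
  ring

/-! ### Parity -/

theorem tot_odd (hw : Even' w) {f : (V → Bool) → ℝ} (hf : Odd' f) : tot w f = 0 := by
  have h : tot w f = -tot w f := by
    unfold tot
    conv_lhs => rw [← sum_neg]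
    rw [← Finset.sum_neg_distrib]
    refine Finset.sum_congr rfl fun σ _ => ?_
    rw [hw, hf]
    ring
  linarith

theorem tot_even (hw : Odd' w) {f : (V → Bool) → ℝ} (hf : Even' f) : tot w f = 0 := by
  have h : tot w f = -tot w f := by
    unfold tot
    conv_lhs => rw [← sum_neg]
    rw [← Finset.sum_neg_distrib]
    refine Finset.sum_congr rfl fun σ _ => ?_
    rw [hw, hf]
    ring
  linarith

private theorem Alg_am_zero {f g : (V → Bool) → ℝ}
    (h : ∀ v, Odd' (fun σ => w σ * (D v f σ * D v g σ))) : am w f g = 0 := by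
  unfold am
  refine Finset.sum_eq_zero fun v _ => ?_
  have h1 : ∑ σ, w σ * (D v f σ * D v g σ) = -∑ σ, w σ * (D v f σ * D v g σ) := by
    conv_lhs => rw [← sum_neg]
    rw [← Finset.sum_neg_distrib]
    exact Finset.sum_congr rfl fun σ _ => h v σ
  linarith

private theorem Alg_ip_zero {f g : (V → Bool) → ℝ}
    (h : Odd' (fun σ => w σ * (f σ * g σ))) : ip w f g = 0 := by
  unfold ip
  have h1 : ∑ σ, w σ * (f σ * g σ) = -∑ σ, w σ * (f σ * g σ) := by
    conv_lhs => rw [← sum_neg]
    rw [← Finset.sum_neg_distrib]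
    exact Finset.sum_congr rfl fun σ _ => h σ
  linarith

/-- Even weight, odd and even function. -/
theorem qf_odd_even (hw : Even' w) {f g : (V → Bool) → ℝ} (hf : Odd' f) (hg : Even' g) :
    qf lam w f g = 0 := by
  unfold qf
  rw [Alg_am_zero, Alg_ip_zero]
  · ring
  · intro σ
    show w (neg σ) * (f (neg σ) * g (neg σ)) = _
    rw [hw, hf, hg]
    ring
  · intro v σ
    show w (neg σ) * (D v f (neg σ) * D v g (neg σ)) = _
    rw [hw, D_odd hf v, D_even hg v]
    ring

/-- Odd weight, two odd functions. -/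
theorem qf_odd_odd (hw : Odd' w) {f g : (V → Bool) → ℝ} (hf : Odd' f) (hg : Odd' g) :
    qf lam w f g = 0 := by
  unfold qf
  rw [Alg_am_zero, Alg_ip_zero]
  · ring
  · intro σ
    show w (neg σ) * (f (neg σ) * g (neg σ)) = _
    rw [hw, hf, hg]
    ring
  · intro v σ
    show w (neg σ) * (D v f (neg σ) * D v g (neg σ)) = _
    rw [hw, D_odd hf v, D_odd hg v]
    ring

/-- Odd weight, two even functions. -/
theorem qf_even_even (hw : Odd' w) {f g : (V → Bool) → ℝ} (hf : Even' f) (hg : Even' g) :
    qf lam w f g = 0 := by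
  unfold qf
  rw [Alg_am_zero, Alg_ip_zero]
  · ring
  · intro σ
    show w (neg σ) * (f (neg σ) * g (neg σ)) = _
    rw [hw, hf, hg]
    ring
  · intro v σ
    show w (neg σ) * (D v f (neg σ) * D v g (neg σ)) = _
    rw [hw, D_even hf v, D_even hg v]
    ring

/-! ### Weights that agree after averaging over one spin -/

/-- If `(w σ + w (flip u σ)) / 2 = s σ`, the two weights agree on functions not depending on the
spin at `u`. -/
theorem qf_marg {s : (V → Bool) → ℝ} {u : V} (h : ∀ σ, w σ + w (flip u σ) = 2 * s σ)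
    {X : Finset V} (hu : u ∉ X) {f g : (V → Bool) → ℝ} (hf : Dep X f) (hg : Dep X g) :
    qf lam w f g = qf lam s f g := by
  have key : ∀ F : (V → Bool) → ℝ, (∀ σ, F (flip u σ) = F σ) →
      ∑ σ, w σ * F σ = ∑ σ, s σ * F σ := by
    intro F hF
    have h1 : ∑ σ, w σ * F σ = ∑ σ, w (flip u σ) * F σ := by
      rw [← sum_flip u]
      exact Finset.sum_congr rfl fun σ _ => by rw [hF]
    have h2 : ∑ σ, w σ * F σ + ∑ σ, w (flip u σ) * F σ = 2 * ∑ σ, s σ * F σ := by
      rw [← Finset.sum_add_distrib, Finset.mul_sum]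
      refine Finset.sum_congr rfl fun σ _ => ?_
      rw [← add_mul, h]
      ring
    linarith
  have hDu : ∀ (v : V) (e : (V → Bool) → ℝ), Dep X e → ∀ σ, D v e (flip u σ) = D v e σ := by
    intro v e he σ
    exact flip_of_dep (dep_D he v) (fun hm => hu (Finset.mem_of_mem_erase hm)) σ
  unfold qf am ip
  rw [key (fun σ => f σ * g σ) fun σ => by
    show f (flip u σ) * g (flip u σ) = _
    rw [flip_of_dep hf hu, flip_of_dep hg hu]]
  congr 1
  refine Finset.sum_congr rfl fun v _ => ?_
  exact key (fun σ => D v f σ * D v g σ) fun σ => by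
    show D v f (flip u σ) * D v g (flip u σ) = _
    rw [hDu v f hf, hDu v g hg]

/-! ### Reflection -/

omit [Fintype V] in
private theorem Alg_D_neg (v : V) (f : (V → Bool) → ℝ) (σ : V → Bool) :
    D v (fun σ => f (neg σ)) σ = -D v f (neg σ) := by
  unfold D
  have h1 : neg (Function.update σ v true) = Function.update (neg σ) v false := by
    funext i
    by_cases h : i = v
    · subst h
      simp [neg]
    · simp [neg, h]
  have h2 : neg (Function.update σ v false) = Function.update (neg σ) v true := by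
    funext i
    by_cases h : i = v
    · subst h
      simp [neg]
    · simp [neg, h]
  show (f (neg (Function.update σ v true)) - f (neg (Function.update σ v false))) / 2 = _
  rw [h1, h2]
  ring

private theorem Alg_am_neg (f g : (V → Bool) → ℝ) :
    am (fun σ => w (neg σ)) (fun σ => f (neg σ)) (fun σ => g (neg σ)) = am w f g := by
  unfold am
  refine Finset.sum_congr rfl fun v _ => ?_
  rw [← sum_neg (fun σ => w σ * (D v f σ * D v g σ))]
  refine Finset.sum_congr rfl fun σ _ => ?_
  rw [Alg_D_neg, Alg_D_neg]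
  ring

private theorem Alg_ip_neg (f g : (V → Bool) → ℝ) :
    ip (fun σ => w (neg σ)) (fun σ => f (neg σ)) (fun σ => g (neg σ)) = ip w f g := by
  unfold ip
  rw [← sum_neg (fun σ => w σ * (f σ * g σ))]

theorem qf_neg (f g : (V → Bool) → ℝ) :
    qf lam (fun σ => w (neg σ)) (fun σ => f (neg σ)) (fun σ => g (neg σ)) = qf lam w f g := by
  unfold qf
  rw [Alg_am_neg, Alg_ip_neg]

theorem am_neg (f g : (V → Bool) → ℝ) :
    am (fun σ => w (neg σ)) (fun σ => f (neg σ)) (fun σ => g (neg σ)) = am w f g := by
  exact Alg_am_neg f g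

theorem ip_negw (f g : (V → Bool) → ℝ) :
    ip (fun σ => w (neg σ)) (fun σ => f (neg σ)) (fun σ => g (neg σ)) = ip w f g := by
  exact Alg_ip_neg f g

theorem tot_neg (f : (V → Bool) → ℝ) :
    tot (fun σ => w (neg σ)) (fun σ => f (neg σ)) = tot w f := by
  unfold tot
  rw [← sum_neg (fun σ => w σ * f σ)]

private theorem Alg_qf_scale (c : ℝ) (f : (V → Bool) → ℝ) :
    qf lam (fun σ => c * w σ) f f = c * qf lam w f f := by
  have h := qf_weight (lam := lam) c 0 w w f f
  have h2 : (fun σ => c * w σ + 0 * w σ) = fun σ => c * w σ := by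
    funext σ
    ring
  rw [h2] at h
  rw [h]
  ring

theorem FrzR.scale {X : Finset V} {c : ℝ} (hc : 0 < c) (h : FrzR w X lam) :
    FrzR (fun σ => c * w σ) X lam := by
  intro f hf ht
  rw [Alg_qf_scale]
  refine mul_nonneg hc.le (h f hf ?_)
  have h1 := tot_weight c 0 w w f
  have h2 : (fun σ => c * w σ + 0 * w σ) = fun σ => c * w σ := by
    funext σ
    ring
  rw [h2, ht] at h1
  have h3 : c * tot w f = 0 := by linarith
  exact (mul_eq_zero.1 h3).resolve_left hc.ne'

theorem OddR.scale {X : Finset V} {c : ℝ} (hc : 0 < c) (h : OddR w X lam) :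
    OddR (fun σ => c * w σ) X lam := by
  intro f hf hd
  rw [Alg_qf_scale]
  exact mul_nonneg hc.le (h f hf hd)

theorem FrzR.neg {X : Finset V} (h : FrzR w X lam) : FrzR (fun σ => w (neg σ)) X lam := by
  intro f hf ht
  have h1 : (fun σ => (fun σ => f (MP_f82811_pr.neg σ)) (MP_f82811_pr.neg σ)) = f := by
    funext σ
    show f (MP_f82811_pr.neg (MP_f82811_pr.neg σ)) = f σ
    rw [neg_neg']
  have h2 := qf_neg (w := w) (lam := lam) (fun σ => f (MP_f82811_pr.neg σ))
    (fun σ => f (MP_f82811_pr.neg σ))
  rw [h1] at h2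
  rw [h2]
  apply h _ hf.neg
  have h3 := tot_neg (w := w) (fun σ => f (MP_f82811_pr.neg σ))
  rw [h1] at h3
  rw [← h3, ht]

theorem OddR.mono {X Y : Finset V} (h : OddR w X lam) (hYX : Y ⊆ X) : OddR w Y lam :=
  fun f hf hd => h f hf (hd.mono hYX)

end Pool.Agent.Lib.MP_f82811_pr.TC
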