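import Pool.Agent.Lib.MP_f82811_pr.TC.Pin

/-!
# Module Amin: the configurations with different spins at `k` and `l`

Proof. Both sides are sums over the spins of the other vertices. For `σ k = true, σ l = false`:
`W J σ = nuw J k l σ` (`W_off` twice, `J k l = 0`), and `nuw J k l` does not see the spins at `k, l`. The
configurations with `σ k = false, σ l = true` give the same sum (global flip, `g` odd). Left hand side:
every term is summed over four values of the spins at `k, l`, so it is
`2 * ∑_{σ k = true, σ l = false} nuw σ * (..)`. Sites `v ≠ k, l`: `D v g σ = D v (slc k l g) σ` if `σ k = true`, `σ l = false`. Sites `k` and `l`: with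
`v σ = slc k l g σ` and `u σ = g (σ, k = true, l = true)`: `D k g σ = (v σ + u (neg σ)) / 2`,
`D l g σ = (u σ - v σ) / 2`, `v σ ≤ u σ`, `0 ≤ u σ + v (neg σ)` and `0 ≤ v σ + u (neg σ)`. Pointwise
`(D k g σ) ^ 2 + (D l g σ) ^ 2 ≥ (sy v σ) ^ 2`: if `sy v σ ≥ 0` then `v σ + u (neg σ) ≥ v σ + v (neg σ)`,
otherwise `u σ - v σ ≥ - v (neg σ) - v σ ≥ 0`.
-/

set_option autoImplicit false

namespace Pool.Agent.Lib.MP_f82811_pr.TC

open Finset HT

variable {V : Type*} [Fintype V] [DecidableEq V] {J : V → V → ℝ}

private theorem sum4 (k l : V) (F : (V → Bool) → ℝ) : ∑ σ, F σ =
    ∑ σ, (F (Function.update (Function.update σ k true) l true) +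
      F (Function.update (Function.update σ k true) l false) +
      F (Function.update (Function.update σ k false) l true) +
      F (Function.update (Function.update σ k false) l false)) / 4 := by
  rw [← sum_M l F, ← sum_M k (M l F)]
  refine Finset.sum_congr rfl fun σ _ => ?_
  unfold M
  ring

omit [Fintype V] in
private theorem neg_up (k : V) (b : Bool) (σ : V → Bool) :
    neg (Function.update σ k b) = Function.update (neg σ) k (!b) := by
  funext i
  by_cases h : i = k
  · subst h
    simp [neg]
  · simp [neg, h]

private theorem W_up (hJ : Coup J) {k l : V} (hkl : k ≠ l) (h0 : J k l = 0) (σ : V → Bool) :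
    W J (Function.update (Function.update σ k true) l false) = nuw J k l σ := by
  have hlk : J l k = 0 := by rw [hJ.symm, h0]
  obtain ⟨ρ, hρ⟩ : ∃ ρ, ρ = Function.update (Function.update σ k true) l false := ⟨_, rfl⟩
  have hk : ρ k = true := by
    rw [hρ, Function.update_of_ne hkl, Function.update_self]
  have hl : ρ l = false := by rw [hρ, Function.update_self]
  have ho : ∀ v, v ≠ k → v ≠ l → ρ v = σ v := fun v h1 h2 => by
    rw [hρ, Function.update_of_ne h2, Function.update_of_ne h1]
  have hX : Supp (off (off J k) l) ((univ.erase k).erase l) :=
    supp_off (supp_off (fun a b _ => ⟨Finset.mem_univ a, Finset.mem_univ b⟩) k) l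
  have hW : W (off (off J k) l) ρ = W (off (off J k) l) σ :=
    dep_W hX ρ σ fun v hv => by
      have h1 := Finset.mem_erase.1 hv
      exact ho v (Finset.ne_of_mem_erase h1.2) h1.1
  have hfk : fld J k ρ = fld J k σ := by
    unfold fld
    refine Finset.sum_congr rfl fun b _ => ?_
    by_cases h1 : b = k
    · rw [h1, hJ.diag]
      ring
    · by_cases h2 : b = l
      · rw [h2, h0]
        ring
      · unfold sp
        rw [ho b h1 h2]
  have hfl : fld (off J k) l ρ = fld J l σ := by
    unfold fld
    refine Finset.sum_congr rfl fun b _ => ?_
    by_cases h1 : b = k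
    · rw [h1, hlk]
      unfold off
      simp
    · by_cases h2 : b = l
      · rw [h2, hJ.diag, (coup_off hJ k).diag]
        ring
      · have h3 : off J k l b = J l b := by
          unfold off
          rw [if_neg]
          rintro (h | h)
          · exact hkl h.symm
          · exact h1 h
        rw [h3]
        unfold sp
        rw [ho b h1 h2]
  rw [← hρ, W_off hJ k ρ, W_off (coup_off hJ k) l ρ, hW, hfk, hfl]
  unfold nuw
  have e1 : sp k ρ = 1 := by unfold sp; rw [hk]; exact spin_true
  have e2 : sp l ρ = -1 := by unfold sp; rw [hl]; exact spin_false
  rw [e1, e2, mul_assoc, ← Real.exp_add]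
  congr 2
  ring

omit [Fintype V] in
private theorem D_slc_ne {k l x : V} (hk : x ≠ k) (hl : x ≠ l) (g : (V → Bool) → ℝ)
    (σ : V → Bool) :
    D x (slc k l g) σ = D x g (Function.update (Function.update σ k true) l false) := by
  unfold D slc
  rw [Function.update_comm hk, Function.update_comm hl, Function.update_comm hk,
    Function.update_comm hl]

omit [Fintype V] in
private theorem D_slc_k {k l : V} (hkl : k ≠ l) (g : (V → Bool) → ℝ) (σ : V → Bool) :
    D k (slc k l g) σ = 0 := by
  unfold D slc
  rw [Function.update_idem, Function.update_idem]
  ring

omit [Fintype V] in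
private theorem D_slc_l {k l : V} (hkl : k ≠ l) (g : (V → Bool) → ℝ) (σ : V → Bool) :
    D l (slc k l g) σ = 0 := by
  unfold D slc
  rw [Function.update_comm hkl.symm, Function.update_idem, Function.update_comm hkl.symm,
    Function.update_idem]
  ring

/-- The sites `k` and `l`. -/
private theorem two_sites {k l : V} (hkl : k ≠ l) {g : (V → Bool) → ℝ} (hg : Odd' g)
    (hm : Monotone g) (σ : V → Bool) :
    sy (slc k l g) σ ^ 2 ≤
      D k g (Function.update (Function.update σ k true) l false) *
        D k g (Function.update (Function.update σ k true) l false) +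
      D l g (Function.update (Function.update σ k true) l false) *
        D l g (Function.update (Function.update σ k true) l false) := by
  obtain ⟨u, hu⟩ : ∃ u : (V → Bool) → ℝ,
      u = fun σ => g (Function.update (Function.update σ k true) l true) := ⟨_, rfl⟩
  have hv : ∀ σ, slc k l g σ = g (Function.update (Function.update σ k true) l false) :=
    fun _ => rfl
  have hvu : ∀ σ, slc k l g σ ≤ u σ := by
    intro σ
    rw [hu, hv]
    refine hm fun i => ?_
    by_cases h : i = l
    · subst h
      rw [Function.update_self, Function.update_self]
      exact Bool.false_le _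
    · rw [Function.update_of_ne h, Function.update_of_ne h]
  have hsum : ∀ σ, 0 ≤ u σ + slc k l g (neg σ) := by
    intro σ
    have h1 : slc k l g (neg σ) = -g (Function.update (Function.update σ k false) l true) := by
      rw [hv, ← hg, neg_up, neg_up]
      simp
    have h2 : g (Function.update (Function.update σ k false) l true) ≤ u σ := by
      rw [hu]
      refine hm fun i => ?_
      by_cases h : i = l
      · subst h
        rw [Function.update_self, Function.update_self]
      · rw [Function.update_of_ne h, Function.update_of_ne h]
        by_cases h' : i = k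
        · subst h'
          rw [Function.update_self, Function.update_self]
          exact Bool.false_le _
        · rw [Function.update_of_ne h', Function.update_of_ne h']
    rw [h1]
    linarith
  have hDk : D k g (Function.update (Function.update σ k true) l false) =
      (slc k l g σ + u (neg σ)) / 2 := by
    have h1 : u (neg σ) = -g (Function.update (Function.update σ k false) l false) := by
      rw [hu]
      show g (Function.update (Function.update (neg σ) k true) l true) = _
      rw [← hg, neg_up, neg_up]
      rfl
    have c1 : ∀ b, Function.update (Function.update (Function.update σ k true) l false) k b =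
        Function.update (Function.update σ k b) l false := fun b => by
      rw [Function.update_comm hkl.symm, Function.update_idem]
    rw [h1]
    unfold D slc
    rw [c1, c1]
    ring
  have hDl : D l g (Function.update (Function.update σ k true) l false) =
      (u σ - slc k l g σ) / 2 := by
    rw [hu]
    unfold D slc
    rw [Function.update_idem, Function.update_idem]
  rw [hDk, hDl]
  unfold sy
  have a1 := hvu σ
  have a2 := hvu (neg σ)
  have a3 := hsum σ
  have a4 := hsum (neg σ)
  rw [neg_neg'] at a4
  rcases le_total 0 (slc k l g σ + slc k l g (neg σ)) with h | h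
  · nlinarith [mul_self_nonneg (u σ - slc k l g σ)]
  · nlinarith [mul_self_nonneg (slc k l g σ + u (neg σ))]

theorem Amin (hJ : Coup J) {k l : V} (hkl : k ≠ l) (h0 : J k l = 0) {g : (V → Bool) → ℝ}
    (hg : Odd' g) (hm : Monotone g) (lam : ℝ) :
    (am (nuw J k l) (slc k l g) (slc k l g) + ∑ σ, nuw J k l σ * sy (slc k l g) σ ^ 2 -
        lam * ip (nuw J k l) (slc k l g) (slc k l g)) / 2 ≤
      ∑ σ, (if σ k = σ l then 0 else W J σ) * ((∑ v, D v g σ * D v g σ) - lam * (g σ * g σ)) := by
  obtain ⟨Q, hQ⟩ : ∃ Q : (V → Bool) → ℝ,
      Q = fun σ => (∑ v, D v g σ * D v g σ) - lam * (g σ * g σ) := ⟨_, rfl⟩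
  have hQn : ∀ σ, Q (neg σ) = Q σ := by
    intro σ
    rw [hQ]
    show (∑ v, D v g (neg σ) * D v g (neg σ)) - lam * (g (neg σ) * g (neg σ)) = _
    rw [hg σ]
    rw [Finset.sum_congr rfl fun v _ => by rw [D_odd hg v σ]]
    ring
  have hR : ∑ σ, (if σ k = σ l then 0 else W J σ) * Q σ =
      (∑ σ, nuw J k l σ * Q (Function.update (Function.update σ k true) l false)) / 2 := by
    rw [sum4 k l]
    have h1 : ∀ σ : V → Bool, ∀ a b : Bool,
        (Function.update (Function.update σ k a) l b) k = a := fun σ a b => by
      rw [Function.update_of_ne hkl, Function.update_self]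
    have h2 : ∀ σ : V → Bool, ∀ a b : Bool,
        (Function.update (Function.update σ k a) l b) l = b := fun σ a b => by
      rw [Function.update_self]
    simp only [h1, h2]
    simp only [if_true, if_false, zero_mul, zero_add, add_zero, Bool.true_eq_false,
      Bool.false_eq_true]
    rw [← Finset.sum_div, Finset.sum_add_distrib]
    have h3 : ∑ σ, W J (Function.update (Function.update σ k false) l true) *
        Q (Function.update (Function.update σ k false) l true) =
        ∑ σ, W J (Function.update (Function.update σ k true) l false) *
          Q (Function.update (Function.update σ k true) l false) := by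
      rw [← sum_neg (fun σ => W J (Function.update (Function.update σ k true) l false) *
          Q (Function.update (Function.update σ k true) l false))]
      refine Finset.sum_congr rfl fun σ _ => ?_
      have h4 : Function.update (Function.update (neg σ) k true) l false =
          neg (Function.update (Function.update σ k false) l true) := by
        rw [neg_up, neg_up]
        rfl
      rw [h4, W_neg, hQn]
    rw [h3, Finset.sum_congr rfl fun σ _ => by rw [W_up hJ hkl h0 σ]]
    ring
  have hR' : ∑ σ, (if σ k = σ l then 0 else W J σ) *
      ((∑ v, D v g σ * D v g σ) - lam * (g σ * g σ)) =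
      ∑ σ, (if σ k = σ l then 0 else W J σ) * Q σ := by rw [hQ]
  rw [hR', hR]
  apply div_le_div_of_nonneg_right _ (by norm_num)
  unfold am ip
  rw [Finset.sum_comm, Finset.mul_sum, ← Finset.sum_add_distrib, ← Finset.sum_sub_distrib]
  refine Finset.sum_le_sum fun σ _ => ?_
  have hν : 0 ≤ nuw J k l σ := (mul_pos (W_pos _ _) (Real.exp_pos _)).le
  have hl : l ∈ univ.erase k := Finset.mem_erase.2 ⟨hkl.symm, Finset.mem_univ l⟩
  have e1 : ∑ v, nuw J k l σ * (D v (slc k l g) σ * D v (slc k l g) σ) =
      nuw J k l σ * ∑ v ∈ (univ.erase k).erase l,
        D v g (Function.update (Function.update σ k true) l false) *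
          D v g (Function.update (Function.update σ k true) l false) := by
    rw [← Finset.add_sum_erase _ _ (Finset.mem_univ k), D_slc_k hkl,
      ← Finset.add_sum_erase _ _ hl, D_slc_l hkl, Finset.mul_sum]
    have : ∑ v ∈ (univ.erase k).erase l, nuw J k l σ * (D v (slc k l g) σ * D v (slc k l g) σ) =
        ∑ v ∈ (univ.erase k).erase l, nuw J k l σ *
          (D v g (Function.update (Function.update σ k true) l false) *
          D v g (Function.update (Function.update σ k true) l false)) := by
      refine Finset.sum_congr rfl fun v hv => ?_
      have h1 := Finset.mem_erase.1 hv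
      rw [D_slc_ne (Finset.ne_of_mem_erase h1.2) h1.1]
    rw [this]
    ring
  have e2 : Q (Function.update (Function.update σ k true) l false) =
      D k g (Function.update (Function.update σ k true) l false) *
          D k g (Function.update (Function.update σ k true) l false) +
        (D l g (Function.update (Function.update σ k true) l false) *
          D l g (Function.update (Function.update σ k true) l false) +
        ∑ v ∈ (univ.erase k).erase l,
          D v g (Function.update (Function.update σ k true) l false) *
            D v g (Function.update (Function.update σ k true) l false)) -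
        lam * (slc k l g σ * slc k l g σ) := by
    rw [hQ]
    show (∑ v, D v g (Function.update (Function.update σ k true) l false) *
      D v g (Function.update (Function.update σ k true) l false)) - _ = _
    rw [← Finset.add_sum_erase univ _ (Finset.mem_univ k), ← Finset.add_sum_erase _ _ hl]
    rfl
  rw [e1, e2]
  have e3 := mul_le_mul_of_nonneg_left (two_sites hkl hg hm σ) hν
  linarith

omit [Fintype V] in
theorem slc_mono {k l : V} {g : (V → Bool) → ℝ} (hm : Monotone g) : Monotone (slc k l g) := by
  intro σ τ hst
  unfold slc
  refine hm fun i => ?_
  by_cases h : i = l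
  · subst h
    rw [Function.update_self, Function.update_self]
  · rw [Function.update_of_ne h, Function.update_of_ne h]
    by_cases h' : i = k
    · subst h'
      rw [Function.update_self, Function.update_self]
    · rw [Function.update_of_ne h', Function.update_of_ne h']
      exact hst i

theorem slc_dep {k l : V} {g : (V → Bool) → ℝ} {X : Finset V} (hX : ∀ v, v ≠ k → v ≠ l → v ∈ X) :
    Dep X (slc k l g) := by
  intro σ τ h
  unfold slc
  congr 1
  funext i
  by_cases h1 : i = l
  · subst h1
    rw [Function.update_self, Function.update_self]
  · rw [Function.update_of_ne h1, Function.update_of_ne h1]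
    by_cases h2 : i = k
    · subst h2
      rw [Function.update_self, Function.update_self]
    · rw [Function.update_of_ne h2, Function.update_of_ne h2]
      exact h i (hX i h2 h1)

end Pool.Agent.Lib.MP_f82811_pr.TC
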