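import Pool.Agent.Lib.MP_f82811_pr.TC.Hopm

/-!
# Module Attr: attractiveness

Proof. Let `σ v = false`, `τ = flip v σ`, `f` monotone, `Δ = f τ - f σ ≥ 0` and
`c_u σ = (1 + w (flip u σ) / w σ) / 4`. In `Hop w f τ - Hop w f σ` the term of the site `u = v` is
`(c_v τ + c_v σ) * Δ`. For `u ≠ v` let `p = c_u σ`, `q = c_u τ` (nonnegative), `Δ_u = f (flip u τ)
- f (flip u σ) ≥ 0` (`flip u τ = flip v (flip u σ)`). If `σ u = false`: `p ≤ q` (lattice condition for
`flip u σ` and `τ`: `w (flip u σ) * w τ ≤ w σ * w (flip u τ)`) and `f τ - f (flip u τ) ≤ 0`, so the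
term is at most `p * ((f τ - f (flip u τ)) - (f σ - f (flip u σ))) = p * (Δ - Δ_u) ≤ p * Δ`. If `σ u =
true`: `q ≤ p` and `f τ - f (flip u τ) ≥ 0`, same bound. So `C` = the sum of the maxima of the
`c_u` (twice) works. Second statement: monotonicity need only be checked for `σ` and `flip v σ`
(chain of flips), and `c * Δ - (Hop τ - Hop σ) ≥ (c - C) * Δ ≥ 0`.
-/

set_option autoImplicit false

namespace Pool.Agent.Lib.MP_f82811_pr.TC

open Finset HT

variable {V : Type*} [Fintype V] [DecidableEq V] {w : (V → Bool) → ℝ}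

/-- Monotonicity can be checked on single flips. -/
theorem monotone_of_flip {f : (V → Bool) → ℝ}
    (h : ∀ (σ : V → Bool) (v : V), σ v = false → f σ ≤ f (flip v σ)) : Monotone f := by
  have key : ∀ (n : ℕ) (σ τ : V → Bool), (univ.filter fun v => σ v ≠ τ v).card = n → σ ≤ τ →
      f σ ≤ f τ := by
    intro n
    induction n with
    | zero =>
      intro σ τ hn _
      have h1 : σ = τ := by
        funext v
        by_contra hv
        have h2 : v ∈ univ.filter fun v => σ v ≠ τ v := by simp [hv]
        rw [Finset.card_eq_zero.1 hn] at h2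
        exact absurd h2 (Finset.notMem_empty v)
      rw [h1]
    | succ n ih =>
      intro σ τ hn hle
      have hne : (univ.filter fun v => σ v ≠ τ v).Nonempty := by
        rw [← Finset.card_pos, hn]
        exact Nat.succ_pos n
      obtain ⟨v, hv⟩ := hne
      have hv' : σ v ≠ τ v := (Finset.mem_filter.1 hv).2
      have hσ : σ v = false := by
        by_contra h1
        have h2 : σ v = true := by simpa using h1
        have h3 := hle v
        rw [h2] at h3 hv'
        exact hv' (le_antisymm h3 (Bool.le_true _))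
      have hτ : τ v = true := by
        cases h1 : τ v
        · rw [hσ, h1] at hv'; exact absurd rfl hv'
        · rfl
      refine (h σ v hσ).trans (ih (flip v σ) τ ?_ ?_)
      · have h4 : (univ.filter fun u => flip v σ u ≠ τ u) = (univ.filter fun u => σ u ≠ τ u).erase v := by
          ext u
          simp only [Finset.mem_filter, Finset.mem_univ, true_and, Finset.mem_erase]
          by_cases huv : u = v
          · subst huv
            simp [flip, hσ, hτ]
          · simp [flip, huv]
        rw [h4, Finset.card_erase_of_mem hv, hn, Nat.add_sub_cancel]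
      · intro u
        by_cases huv : u = v
        · subst huv
          rw [hτ]; exact Bool.le_true _
        · simp only [flip, Function.update_of_ne huv]
          exact hle u
  intro σ τ hle
  exact key _ σ τ rfl hle

theorem Attr_update_false {σ : V → Bool} {u : V} (h : σ u = false) :
    Function.update σ u true = flip u σ ∧ Function.update σ u false = σ := by
  constructor
  · simp [flip, h]
  · rw [← h, Function.update_eq_self]

theorem Attr_update_true {σ : V → Bool} {u : V} (h : σ u = true) :
    Function.update σ u true = σ ∧ Function.update σ u false = flip u σ := by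
  constructor
  · rw [← h, Function.update_eq_self]
  · simp [flip, h]

theorem Attr_le_flip {σ : V → Bool} {v : V} (h : σ v = false) : σ ≤ flip v σ := by
  intro u
  by_cases huv : u = v
  · subst huv; simp [flip, h]
  · simp [flip, huv]

theorem Attr_term (hF : Fkg w) {f : (V → Bool) → ℝ} (hf : Monotone f) {σ : V → Bool} {v u : V}
    (hv : σ v = false) (huv : u ≠ v) :
    (1 + w (flip u (flip v σ)) / w (flip v σ)) * (f (flip v σ) - f (flip u (flip v σ))) / 4 -
      (1 + w (flip u σ) / w σ) * (f σ - f (flip u σ)) / 4 ≤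
      (1 + w (flip u σ) / w σ) / 4 * (f (flip v σ) - f σ) := by
  set τ := flip v σ with hτ
  have hle : σ ≤ τ := Attr_le_flip hv
  have hcross := update_cross hF.lat u hle
  have hτu : τ u = σ u := by simp [hτ, flip, huv]
  have hleu : flip u σ ≤ flip u τ := by
    intro x
    by_cases hx : x = u
    · subst hx
      simp [flip, hτu]
    · have := hle x
      simp only [flip, Function.update_of_ne hx]
      exact this
  have hfu := hf hleu
  have hwσ := hF.pos σ
  have hwτ := hF.pos τ
  cases hσu : σ u
  · -- spin at u is minus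
    rw [(Attr_update_false hσu).1, (Attr_update_false hσu).2, (Attr_update_false (hτu.trans hσu)).1,
      (Attr_update_false (hτu.trans hσu)).2] at hcross
    have hpq : w (flip u σ) / w σ ≤ w (flip u τ) / w τ := by
      rw [div_le_div_iff₀ hwσ hwτ]
      linarith
    have hfτ : f τ ≤ f (flip u τ) := hf (Attr_le_flip (hτu.trans hσu))
    have hp : 0 ≤ w (flip u σ) / w σ := (div_pos (hF.pos _) hwσ).le
    generalize w (flip u σ) / w σ = p at *
    generalize w (flip u τ) / w τ = q at *
    nlinarith [mul_nonneg (sub_nonneg.2 hpq) (sub_nonneg.2 hfτ), mul_nonneg hp (sub_nonneg.2 hfu)]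
  · rw [(Attr_update_true hσu).1, (Attr_update_true hσu).2, (Attr_update_true (hτu.trans hσu)).1,
      (Attr_update_true (hτu.trans hσu)).2] at hcross
    have hpq : w (flip u τ) / w τ ≤ w (flip u σ) / w σ := by
      rw [div_le_div_iff₀ hwτ hwσ]
      linarith
    have hfτ : f (flip u τ) ≤ f τ := by
      have h1 : flip u τ u = false := by simp [flip, hτu.trans hσu]
      have h2 := hf (Attr_le_flip h1)
      rwa [flip_flip] at h2
    have hp : 0 ≤ w (flip u σ) / w σ := (div_pos (hF.pos _) hwσ).le
    generalize w (flip u σ) / w σ = p at *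
    generalize w (flip u τ) / w τ = q at *
    nlinarith [mul_nonneg (sub_nonneg.2 hpq) (sub_nonneg.2 hfτ), mul_nonneg hp (sub_nonneg.2 hfu)]

theorem Hop_diff (hF : Fkg w) : ∃ C : ℝ, 0 ≤ C ∧ ∀ f : (V → Bool) → ℝ, Monotone f →
    ∀ (σ : V → Bool) (v : V), σ v = false →
      Hop w f (flip v σ) - Hop w f σ ≤ C * (f (flip v σ) - f σ) := by
  have hc0 : ∀ (u : V) (σ : V → Bool), 0 ≤ (1 + w (flip u σ) / w σ) / 4 := by
    intro u σ
    have := div_pos (hF.pos (flip u σ)) (hF.pos σ)
    positivity
  set C0 : ℝ := ∑ σ : V → Bool, ∑ u : V, (1 + w (flip u σ) / w σ) / 4 with hC0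
  have hrow : ∀ σ : V → Bool, ∑ u : V, (1 + w (flip u σ) / w σ) / 4 ≤ C0 := fun σ =>
    Finset.single_le_sum (f := fun σ : V → Bool => ∑ u : V, (1 + w (flip u σ) / w σ) / 4)
      (fun σ _ => Finset.sum_nonneg fun u _ => hc0 u σ) (Finset.mem_univ σ)
  have hone : ∀ (u : V) (σ : V → Bool), (1 + w (flip u σ) / w σ) / 4 ≤ C0 := fun u σ =>
    (Finset.single_le_sum (f := fun u : V => (1 + w (flip u σ) / w σ) / 4)
      (fun u _ => hc0 u σ) (Finset.mem_univ u)).trans (hrow σ)
  refine ⟨2 * C0, ?_, fun f hf σ v hv => ?_⟩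
  · have : 0 ≤ C0 := Finset.sum_nonneg fun σ _ => Finset.sum_nonneg fun u _ => hc0 u σ
    linarith
  have hΔ : 0 ≤ f (flip v σ) - f σ := sub_nonneg.2 (hf (Attr_le_flip hv))
  have hterm : ∀ u : V, (1 + w (flip u (flip v σ)) / w (flip v σ)) * (f (flip v σ) - f (flip u (flip v σ))) / 4 -
      (1 + w (flip u σ) / w σ) * (f σ - f (flip u σ)) / 4 ≤
      (1 + w (flip u σ) / w σ) / 4 * (f (flip v σ) - f σ) +
        (if u = v then (1 + w (flip v (flip v σ)) / w (flip v σ)) / 4 * (f (flip v σ) - f σ) else 0) := by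
    intro u
    by_cases huv : u = v
    · subst huv
      rw [if_pos rfl, flip_flip]
      apply le_of_eq
      ring
    · rw [if_neg huv, add_zero]
      exact Attr_term hF hf hv huv
  have hsum : Hop w f (flip v σ) - Hop w f σ ≤
      ∑ u : V, ((1 + w (flip u σ) / w σ) / 4 * (f (flip v σ) - f σ) +
        (if u = v then (1 + w (flip v (flip v σ)) / w (flip v σ)) / 4 * (f (flip v σ) - f σ) else 0)) := by
    unfold Hop
    rw [← Finset.sum_sub_distrib]
    exact Finset.sum_le_sum fun u _ => hterm u
  refine hsum.trans ?_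
  rw [Finset.sum_add_distrib, ← Finset.sum_mul, Finset.sum_ite_eq' Finset.univ v]
  rw [if_pos (Finset.mem_univ v)]
  have h1 := mul_le_mul_of_nonneg_right (hrow σ) hΔ
  have h2 := mul_le_mul_of_nonneg_right (hone v (flip v σ)) hΔ
  linarith

/-- If a monotone function is constant on a pair then its image decreases on the pair. -/
theorem Hop_contact (hF : Fkg w) {f : (V → Bool) → ℝ} (hf : Monotone f) {σ : V → Bool} {v : V}
    (hv : σ v = false) (h : f (flip v σ) = f σ) : Hop w f (flip v σ) ≤ Hop w f σ := by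
  obtain ⟨C, _, hC⟩ := Hop_diff hF
  have := hC f hf σ v hv
  rw [h, sub_self, mul_zero] at this
  linarith

theorem Attr_mono (hF : Fkg w) : ∃ C : ℝ, 0 ≤ C ∧ ∀ c, C ≤ c → ∀ f : (V → Bool) → ℝ, Monotone f →
    Monotone (fun σ => c * f σ - Hop w f σ) := by
  obtain ⟨C, hC0, hC⟩ := Hop_diff hF
  refine ⟨C, hC0, fun c hc f hf => ?_⟩
  apply monotone_of_flip
  intro σ v hv
  have h1 := hC f hf σ v hv
  have hΔ : 0 ≤ f (flip v σ) - f σ := sub_nonneg.2 (hf (Attr_le_flip hv))
  have h2 := mul_le_mul_of_nonneg_right hc hΔ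
  show c * f σ - Hop w f σ ≤ c * f (flip v σ) - Hop w f (flip v σ)
  linarith

end Pool.Agent.Lib.MP_f82811_pr.TC
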