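import Pool.Agent.Lib.MP_f82811_pr.TC.Defs

/-!
# Module Rchm: reachability

`Rch J S a b` is `Relation.ReflTransGen`. `rch_last`: induction from the head: take the last visit of
`a`. Precisely, if `Rch J S x b` for any `x` then either `Rch J (insert a S) x b` or
`∃ y, J a y ≠ 0 ∧ y ∉ S ∧ Rch J (insert a S) y b` or `b = a`
(`Relation.ReflTransGen.head_induction_on`).
-/

set_option autoImplicit false

namespace Pool.Agent.Lib.MP_f82811_pr.TC

open Finset HT

variable {V : Type*} [Fintype V] [DecidableEq V] {J : V → V → ℝ}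

theorem rch_symm (hJ : Coup J) {S : Finset V} {a b : V} (h : Rch J S a b) : Rch J S b a := by
  unfold Rch at h ⊢
  induction h with
  | refl => exact Relation.ReflTransGen.refl
  | tail _ h2 ih =>
    refine Relation.ReflTransGen.head ⟨?_, h2.2.2, h2.2.1⟩ ih
    rw [hJ.symm]
    exact h2.1

theorem rch_mono {J' : V → V → ℝ} {S S' : Finset V} (hJ : ∀ a b, J a b ≠ 0 → J' a b ≠ 0)
    (hS : S' ⊆ S) {a b : V} (h : Rch J S a b) : Rch J' S' a b := by
  unfold Rch at h ⊢
  induction h with
  | refl => exact Relation.ReflTransGen.refl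
  | tail _ h2 ih =>
    exact Relation.ReflTransGen.tail ih
      ⟨hJ _ _ h2.1, fun h => h2.2.1 (hS h), fun h => h2.2.2 (hS h)⟩

theorem rch_edge {S : Finset V} {a b : V} (h : J a b ≠ 0) (ha : a ∉ S) (hb : b ∉ S) :
    Rch J S a b := Relation.ReflTransGen.single ⟨h, ha, hb⟩

/-- The last visit of the starting point. -/
theorem rch_last {S : Finset V} {a b : V} (hab : a ≠ b) (h : Rch J S a b) :
    ∃ y, J a y ≠ 0 ∧ y ∉ S ∧ Rch J (insert a S) y b := by
  have h0 : ¬ Rch J (insert a S) a b := by
    intro h1
    rcases Relation.ReflTransGen.cases_head h1 with h2 | ⟨c, h2, -⟩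
    · exact hab h2
    · exact h2.2.1 (mem_insert_self a S)
  have key : ∀ x, Rch J S x b → Rch J (insert a S) x b ∨
      ∃ y, J a y ≠ 0 ∧ y ∉ S ∧ Rch J (insert a S) y b := by
    intro x hx
    induction hx using Relation.ReflTransGen.head_induction_on with
    | refl => exact Or.inl Relation.ReflTransGen.refl
    | head h1 _ ih =>
      rename_i u v h2
      rcases ih with ih | ih
      · by_cases hu : u = a
        · right
          refine ⟨v, ?_, h1.2.2, ih⟩
          rw [← hu]
          exact h1.1
        · left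
          have hv : v ≠ a := by
            intro hv
            rw [hv] at ih
            exact h0 ih
          refine Relation.ReflTransGen.head ⟨h1.1, ?_, ?_⟩ ih
          · intro h2
            rcases mem_insert.1 h2 with h2 | h2
            · exact hu h2
            · exact h1.2.1 h2
          · intro h2
            rcases mem_insert.1 h2 with h2 | h2
            · exact hv h2
            · exact h1.2.2 h2
      · exact Or.inr ih
  rcases key a h with h1 | h1
  · exact absurd h1 h0
  · exact h1

theorem Sh.mono {J' : V → V → ℝ} {k l : V} (hJ : ∀ a b, J a b ≠ 0 → J' a b ≠ 0)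
    (h : Sh J' k l) : Sh J k l := fun a b h1 h2 h3 h4 h5 =>
  h a b (hJ _ _ h1) (hJ _ _ h2) h3 h4 (rch_mono hJ (Subset.refl _) h5)

/-- Two adjacent vertices are in the same component. -/
theorem Cac.adj (hJ : Coup J) {k l : V} (hkl : J k l ≠ 0) (h : Cac J k) : Cac J l := by
  intro x a b c hx
  exact h x a b c (Relation.ReflTransGen.head ⟨hkl, notMem_empty k, notMem_empty l⟩ hx)

theorem Cac.mono {J' : V → V → ℝ} {u : V} (hJ : ∀ a b, J a b ≠ 0 → J' a b ≠ 0) (h : Cac J' u) :
    Cac J u := fun x a b c hx h1 h2 h3 h4 h5 h6 h7 h8 =>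
  h x a b c (rch_mono hJ (Subset.refl _) hx) (hJ _ _ h1) (hJ _ _ h2) (hJ _ _ h3) h4 h5 h6
    (rch_mono hJ (Subset.refl _) h7) (rch_mono hJ (Subset.refl _) h8)

end Pool.Agent.Lib.MP_f82811_pr.TC
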