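import Pool.Agent.Lib.MP_f82811_pr.TC.Virt
import Pool.Agent.Lib.MP_f82811_pr.TC.Rchm

/-!
# Module BrAM: bridges for the arithmetic mean dynamics

Proof. Let `t = J a b`, `A i = decide (Rch (setc J a b 0) ∅ a i)` (classical), so `A a = true`, `A b = false`
by `hbr`, and for every other pair `i, j` with `J i j ≠ 0` one has `A i = A j`. The gauge transformation
`gauge A` (Bridge.lean) changes the sign of `sp a * sp b` and leaves all other bonds with nonzero
coupling, so `W (setc J a b (-t)) σ = W J (gauge A σ)`, and `qf lam (fun σ => w (gauge A σ)) f f =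
qf lam w (f ∘ gauge A) (f ∘ gauge A)` (`D v (f ∘ gauge A) σ = ± D v f (gauge A σ)`, `sum_gauge`). So
`OddR (W (setc J a b (-t))) univ lam`. For `|s| ≤ t`, `0 < t`, `W (setc J a b s)` is a combination with nonnegative
coefficients of `W (setc J a b t) = W J` and `W (setc J a b (-t))` (`exp_combination` in Bridge.lean or
Ising.lean). If `t = 0` then `s = 0` and there is nothing to show.
-/

set_option autoImplicit false

namespace Pool.Agent.Lib.MP_f82811_pr.TC

open Finset HT

variable {V : Type*} [Fintype V] [DecidableEq V] {J : V → V → ℝ}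

private theorem bram_am_gauge (w : (V → Bool) → ℝ) (S : V → Bool) (f : (V → Bool) → ℝ) :
    am (fun σ => w (gauge S σ)) f f = am w (fun σ => f (gauge S σ)) (fun σ => f (gauge S σ)) := by
  unfold am
  refine Finset.sum_congr rfl fun v _ => ?_
  rw [← sum_gauge S (fun σ => w σ * (D v (fun σ => f (gauge S σ)) σ *
    D v (fun σ => f (gauge S σ)) σ))]
  refine Finset.sum_congr rfl fun σ _ => ?_
  rw [D_sq, D_sq]
  show w (gauge S σ) * ((f σ - f (flip v σ)) ^ 2 / 4) =
    w (gauge S σ) * ((f (gauge S (gauge S σ)) - f (gauge S (flip v (gauge S σ)))) ^ 2 / 4)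
  rw [gauge_flip, gauge_gauge]

private theorem bram_odd_gauge {w : (V → Bool) → ℝ} {lam : ℝ} (S : V → Bool)
    (h : OddR w Finset.univ lam) : OddR (fun σ => w (gauge S σ)) Finset.univ lam := by
  intro f hf _
  have h1 := h (fun σ => f (gauge S σ)) (odd_gauge S hf) (fun σ τ hst => by
    have : σ = τ := funext fun v => hst v (Finset.mem_univ v)
    rw [this])
  unfold qf at h1 ⊢
  rw [bram_am_gauge, ip_gauge]
  exact h1

private theorem bram_sp_gauge (S : V → Bool) (v : V) (σ : V → Bool) :
    sp v (gauge S σ) = (if S v = true then -1 else 1) * sp v σ := by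
  unfold sp gauge
  cases S v <;> cases σ v <;> simp [spin]

private theorem bram_setc_self (hJ : Coup J) (a b : V) : setc J a b (J a b) = J := by
  funext u v
  unfold setc
  split_ifs with h
  · rcases h with ⟨rfl, rfl⟩ | ⟨rfl, rfl⟩
    · rfl
    · exact hJ.symm _ _
  · rfl

private theorem bram_W_gauge (hJ : Coup J) {a b : V} (hab : a ≠ b)
    (hbr : ¬ Rch (setc J a b 0) ∅ a b) :
    ∃ S : V → Bool, ∀ σ, W (setc J a b (-(J a b))) σ = W J (gauge S σ) := by
  classical
  refine ⟨fun i => decide (Rch (setc J a b 0) ∅ a i), fun σ => ?_⟩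
  unfold W en
  congr 2
  refine Finset.sum_congr rfl fun u _ => Finset.sum_congr rfl fun v _ => ?_
  rw [bram_sp_gauge, bram_sp_gauge]
  have ha : Rch (setc J a b 0) ∅ a a := Relation.ReflTransGen.refl
  by_cases huv : (u = a ∧ v = b) ∨ (u = b ∧ v = a)
  · have e1 : setc J a b (-(J a b)) u v = -(J a b) := by
      unfold setc
      rw [if_pos huv]
    rw [e1]
    rcases huv with ⟨rfl, rfl⟩ | ⟨rfl, rfl⟩
    · simp only [ha, hbr, decide_true, decide_false, if_true, Bool.false_eq_true, if_false]
      ring
    · simp only [ha, hbr, decide_true, decide_false, if_true, Bool.false_eq_true, if_false]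
      rw [hJ.symm u v]
      ring
  · have e1 : ∀ t, setc J a b t u v = J u v := fun t => by
      unfold setc
      rw [if_neg huv]
    rw [e1]
    by_cases h0 : J u v = 0
    · rw [h0]; ring
    · have huv' : ¬ ((v = a ∧ u = b) ∨ (v = b ∧ u = a)) := fun h => huv (by tauto)
      have e2 : setc J a b 0 v u = J v u := by
        unfold setc
        rw [if_neg huv']
      have h1 : Rch (setc J a b 0) ∅ u v :=
        rch_edge (by rw [e1]; exact h0) (Finset.notMem_empty _) (Finset.notMem_empty _)
      have h2 : Rch (setc J a b 0) ∅ v u :=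
        rch_edge (by rw [e2, hJ.symm]; exact h0) (Finset.notMem_empty _) (Finset.notMem_empty _)
      have h3 : Rch (setc J a b 0) ∅ a u ↔ Rch (setc J a b 0) ∅ a v :=
        ⟨fun h => Relation.ReflTransGen.trans h h1, fun h => Relation.ReflTransGen.trans h h2⟩
      by_cases h4 : Rch (setc J a b 0) ∅ a v
      · have h5 := h3.2 h4
        simp only [h4, h5, decide_true, if_true]
        ring
      · have h5 : ¬ Rch (setc J a b 0) ∅ a u := fun h => h4 (h3.1 h)
        simp only [h4, h5, decide_false, Bool.false_eq_true, if_false]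
        ring

theorem bridge_low (hJ : Coup J) {a b : V} (hab : a ≠ b)
    (hbr : ¬ Rch (setc J a b 0) ∅ a b) {s lam : ℝ} (hs : 0 ≤ s) (hs' : s ≤ J a b)
    (h : OddR (W J) Finset.univ lam) : OddR (W (setc J a b s)) Finset.univ lam := by
  rcases hs'.eq_or_lt with he | hlt
  · rw [he, bram_setc_self hJ]
    exact h
  have ht : 0 < J a b := lt_of_le_of_lt hs hlt
  obtain ⟨S, hS⟩ := bram_W_gauge hJ hab hbr
  have h2 : OddR (W (setc J a b (-(J a b)))) Finset.univ lam := by
    have e : W (setc J a b (-(J a b))) = fun σ => W J (gauge S σ) := funext hS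
    rw [e]
    exact bram_odd_gauge S h
  have hlt' : -(J a b) < J a b := by linarith
  have hsinh : 0 < Real.sinh (J a b - -(J a b)) := Real.sinh_pos_iff.2 (sub_pos.2 hlt')
  have hα : 0 ≤ Real.sinh (J a b - s) / Real.sinh (J a b - -(J a b)) :=
    div_nonneg (Real.sinh_nonneg_iff.2 (sub_nonneg.2 hs')) hsinh.le
  have hβ : 0 ≤ Real.sinh (s - -(J a b)) / Real.sinh (J a b - -(J a b)) :=
    div_nonneg (Real.sinh_nonneg_iff.2 (by linarith)) hsinh.le
  have hw : W (setc J a b s) = fun σ =>
      Real.sinh (J a b - s) / Real.sinh (J a b - -(J a b)) * W (setc J a b (-(J a b))) σ +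
      Real.sinh (s - -(J a b)) / Real.sinh (J a b - -(J a b)) * W J σ := by
    funext σ
    have hsq : sp a σ * sp b σ = 1 ∨ sp a σ * sp b σ = -1 := by
      unfold sp
      cases σ a <;> cases σ b <;> simp [spin]
    rw [W_setc hJ hab s σ, W_setc hJ hab (-(J a b)) σ]
    have e1 : Real.exp ((s - J a b) * (sp a σ * sp b σ)) =
        Real.exp (s * (sp a σ * sp b σ)) * Real.exp (-(J a b) * (sp a σ * sp b σ)) := by
      rw [← Real.exp_add]; congr 1; ring
    have e2 : Real.exp ((-(J a b) - J a b) * (sp a σ * sp b σ)) =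
        Real.exp (-(J a b) * (sp a σ * sp b σ)) * Real.exp (-(J a b) * (sp a σ * sp b σ)) := by
      rw [← Real.exp_add]; congr 1; ring
    have e3 : Real.exp (J a b * (sp a σ * sp b σ)) *
        Real.exp (-(J a b) * (sp a σ * sp b σ)) = 1 := by
      rw [← Real.exp_add, ← Real.exp_zero]; congr 1; ring
    rw [e1, e2, exp_combination hlt' hsq (y := s)]
    linear_combination (Real.sinh (s - -(J a b)) / Real.sinh (J a b - -(J a b)) * W J σ) * e3
  intro f hf hd
  rw [hw, qf_weight]
  exact add_nonneg (mul_nonneg hα (h2 f hf hd)) (mul_nonneg hβ (h f hf hd))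

end Pool.Agent.Lib.MP_f82811_pr.TC
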