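import Pool.Agent.Lib.MP_f82811_pr.TC.Rchm

/-!
# Module CacC: replacing a vertex with two neighbours by a virtual edge

Proof. `J' = setc (off J u) z1 z2 t'` has, besides the couplings of `off J u`, at most the pair `z1, z2`.
Let `x` be reachable from `z1` in `J'` with neighbours `a, b, c` in `J'`, mutually reachable outside `x`.
`x ≠ u` and `a, b, c ≠ u` because `J' u _ = 0`, `J' _ u = 0`. Replace every step `z1 z2` of a path in `J'`
by the two steps through `u` in `J`: so `Rch J' S p q` implies `Rch J S p q` if `u ∉ S`. In particular `x`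
is reachable from `u` in `J`. If `x ≠ z1, z2` the neighbours are neighbours in `J` and we are done. If
`x = z1`: at most one of `a, b, c` is `z2`; the others are neighbours of `z1` in `off J u`. If
`J z1 z2 ≠ 0` or none is `z2`, use the same three. Otherwise replace `z2` by `u`: `J z1 u ≠ 0`, and `u` is
reachable from `z2` outside `z1`. Same for `x = z2`.
-/

set_option autoImplicit false

namespace Pool.Agent.Lib.MP_f82811_pr.TC

open Finset HT

variable {V : Type*} [Fintype V] [DecidableEq V] {J : V → V → ℝ}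

private theorem CacC_edge {u z1 z2 a b : V} {t' : ℝ} (hz1 : z1 ≠ u) (hz2 : z2 ≠ u)
    (h : setc (off J u) z1 z2 t' a b ≠ 0) :
    a ≠ u ∧ b ≠ u ∧ (J a b ≠ 0 ∨ (a = z1 ∧ b = z2) ∨ (a = z2 ∧ b = z1)) := by
  unfold setc off at h
  by_cases hc : (a = z1 ∧ b = z2) ∨ (a = z2 ∧ b = z1)
  · refine ⟨?_, ?_, Or.inr hc⟩
    · rcases hc with hc | hc
      · rw [hc.1]; exact hz1
      · rw [hc.1]; exact hz2
    · rcases hc with hc | hc
      · rw [hc.2]; exact hz2
      · rw [hc.2]; exact hz1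
  · rw [if_neg hc] at h
    by_cases hu : a = u ∨ b = u
    · rw [if_pos hu] at h
      exact absurd rfl h
    · rw [if_neg hu] at h
      push Not at hu
      exact ⟨hu.1, hu.2, Or.inl h⟩

private theorem CacC_rch (hJ : Coup J) {u z1 z2 : V} {t' : ℝ} (hz1 : z1 ≠ u) (hz2 : z2 ≠ u)
    (h1 : J u z1 ≠ 0) (h2 : J u z2 ≠ 0) {S : Finset V} (hu : u ∉ S) {p q : V}
    (h : Rch (setc (off J u) z1 z2 t') S p q) : Rch J S p q := by
  induction h with
  | refl => exact Relation.ReflTransGen.refl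
  | tail _ hbc ih =>
    obtain ⟨hE, hb, hc⟩ := hbc
    obtain ⟨_, _, h3⟩ := CacC_edge hz1 hz2 hE
    rcases h3 with h3 | ⟨h3, h4⟩ | ⟨h3, h4⟩
    · exact ih.trans (rch_edge h3 hb hc)
    · subst h3
      subst h4
      exact ih.trans ((rch_edge (by rw [hJ.symm]; exact h1) hb hu).trans (rch_edge h2 hu hc))
    · subst h3
      subst h4
      exact ih.trans ((rch_edge (by rw [hJ.symm]; exact h2) hb hu).trans (rch_edge h1 hu hc))

private theorem CacC_core (hJ : Coup J) {u z1 z2 : V} (h12 : z1 ≠ z2) (h1 : J u z1 ≠ 0) (h2 : J u z2 ≠ 0)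
    (hC : Cac J u) (t' : ℝ) {z : V} (hz : J u z ≠ 0) :
    Cac (setc (off J u) z1 z2 t') z := by
  have hz1 : z1 ≠ u := by
    rintro rfl
    exact h1 (hJ.diag z1)
  have hz2 : z2 ≠ u := by
    rintro rfl
    exact h2 (hJ.diag z2)
  intro x a b c hx ha hb hc hab hbc hac hrab hrbc
  have hxu : x ≠ u := (CacC_edge hz1 hz2 ha).1
  have hus : u ∉ ({x} : Finset V) := by
    simpa using hxu.symm
  have hx' : Rch J ∅ u x :=
    (rch_edge hz (by simp) (by simp)).trans (CacC_rch hJ hz1 hz2 h1 h2 (by simp) hx)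
  have hrab' := CacC_rch hJ hz1 hz2 h1 h2 hus hrab
  have hrbc' := CacC_rch hJ hz1 hz2 h1 h2 hus hrbc
  have key : ∀ y, setc (off J u) z1 z2 t' x y ≠ 0 → ∃ s, J x s ≠ 0 ∧ Rch J {x} y s ∧
      (s = y ∨ (s = u ∧ ((x = z1 ∧ y = z2) ∨ (x = z2 ∧ y = z1)))) ∧ y ≠ u := by
    intro y hy
    obtain ⟨_, hyu, h3⟩ := CacC_edge hz1 hz2 hy
    by_cases hxy : J x y ≠ 0
    · exact ⟨y, hxy, Relation.ReflTransGen.refl, Or.inl rfl, hyu⟩
    have h3' : (x = z1 ∧ y = z2) ∨ (x = z2 ∧ y = z1) := by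
      rcases h3 with h3 | h3
      · exact absurd h3 hxy
      · exact h3
    have hyx : y ∉ ({x} : Finset V) := by
      rw [Finset.mem_singleton]
      rintro rfl
      rcases h3' with ⟨h4, h5⟩ | ⟨h4, h5⟩
      · exact h12 (h4.symm.trans h5)
      · exact h12 (h5.symm.trans h4)
    refine ⟨u, ?_, ?_, Or.inr ⟨rfl, h3'⟩, hyu⟩
    · rcases h3' with ⟨h4, _⟩ | ⟨h4, _⟩
      · rw [h4, hJ.symm]; exact h1
      · rw [h4, hJ.symm]; exact h2
    · refine rch_edge ?_ hyx hus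
      rcases h3' with ⟨_, h4⟩ | ⟨_, h4⟩
      · rw [h4, hJ.symm]; exact h2
      · rw [h4, hJ.symm]; exact h1
  have inj : ∀ y y' s s', y ≠ y' →
      (s = y ∨ (s = u ∧ ((x = z1 ∧ y = z2) ∨ (x = z2 ∧ y = z1)))) → y ≠ u →
      (s' = y' ∨ (s' = u ∧ ((x = z1 ∧ y' = z2) ∨ (x = z2 ∧ y' = z1)))) → y' ≠ u → s ≠ s' := by
    rintro y y' s s' hyy hs hyu hs' hyu' rfl
    rcases hs with hs | ⟨hs, hs2⟩
    · rcases hs' with hs' | ⟨hs', _⟩
      · exact hyy (hs.symm.trans hs')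
      · exact hyu (hs.symm.trans hs')
    · rcases hs' with hs' | ⟨_, hs3⟩
      · exact hyu' (hs'.symm.trans hs)
      · rcases hs2 with ⟨h4, h5⟩ | ⟨h4, h5⟩ <;> rcases hs3 with ⟨h6, h7⟩ | ⟨h6, h7⟩
        · exact hyy (h5.trans h7.symm)
        · exact h12 (h4.symm.trans h6)
        · exact h12 (h6.symm.trans h4)
        · exact hyy (h5.trans h7.symm)
  obtain ⟨sa, ha1, ha2, ha3, ha4⟩ := key a ha
  obtain ⟨sb, hb1, hb2, hb3, hb4⟩ := key b hb
  obtain ⟨sc, hc1, hc2, hc3, hc4⟩ := key c hc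
  exact hC x sa sb sc hx' ha1 hb1 hc1 (inj a b sa sb hab ha3 ha4 hb3 hb4)
    (inj b c sb sc hbc hb3 hb4 hc3 hc4) (inj a c sa sc hac ha3 ha4 hc3 hc4)
    (((rch_symm hJ ha2).trans hrab').trans hb2) (((rch_symm hJ hb2).trans hrbc').trans hc2)

theorem cac_virt (hJ : Coup J) {u z1 z2 : V} (h12 : z1 ≠ z2) (h1 : J u z1 ≠ 0) (h2 : J u z2 ≠ 0)
    (hC : Cac J u) (t' : ℝ) :
    Cac (setc (off J u) z1 z2 t') z1 ∧ Cac (setc (off J u) z1 z2 t') z2 :=
  ⟨CacC_core hJ h12 h1 h2 hC t' h1, CacC_core hJ h12 h1 h2 hC t' h2⟩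

theorem cac_off (hJ : Coup J) {u z : V} (h1 : J u z ≠ 0) (hC : Cac J u) : Cac (off J u) z := by
  refine Cac.mono (fun a b hab => ?_) (Cac.adj hJ h1 hC)
  unfold off at hab
  split_ifs at hab
  · exact absurd rfl hab
  · exact hab

end Pool.Agent.Lib.MP_f82811_pr.TC
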