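import Pool.Agent.Lib.MP_f82811_pr.TC.Attr

/-!
# Module Cone: moving inside the cone of monotone functions

`contact`: finitely many pairs `σ`, `flip v σ` with `σ v = false`. Where `f σ < f (flip v σ)` a small
multiple of `ξ` does no harm, where `f σ = f (flip v σ)` the increment of `ξ` is nonnegative. Take
`t0` the minimum over the strict pairs of `(f (flip v σ) - f σ) / (1 + |ξ (flip v σ) - ξ σ|)`.
`monotone_of_flip` is in the module Attr.
-/

set_option autoImplicit false

namespace Pool.Agent.Lib.MP_f82811_pr.TC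

open Finset HT

variable {V : Type*} [Fintype V] [DecidableEq V]

omit [Fintype V] in
private theorem Cone_le_flip {σ : V → Bool} {v : V} (hv : σ v = false) : σ ≤ flip v σ := by
  intro i
  unfold flip
  by_cases hi : i = v
  · subst hi
    rw [hv]
    exact Bool.false_le _
  · rw [Function.update_of_ne hi]

private theorem Cone_lower {ι : Type*} [Fintype ι] (d : ι → ℝ) (hd : ∀ i, 0 < d i) :
    ∃ t0 : ℝ, 0 < t0 ∧ ∀ i, t0 ≤ d i := by
  have hS : 0 ≤ ∑ i, 1 / d i := Finset.sum_nonneg fun i _ => (one_div_pos.2 (hd i)).le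
  refine ⟨1 / (1 + ∑ i, 1 / d i), by positivity, fun i => ?_⟩
  have h1 : 1 / d i ≤ ∑ i, 1 / d i :=
    Finset.single_le_sum (f := fun i => 1 / d i) (fun i _ => (one_div_pos.2 (hd i)).le)
      (Finset.mem_univ i)
  have h2 : 1 / d i ≤ 1 + ∑ i, 1 / d i := by linarith
  exact (one_div_le (by linarith) (hd i)).2 h2

theorem contact {f ξ : (V → Bool) → ℝ} (hf : Monotone f)
    (h : ∀ (σ : V → Bool) (v : V), σ v = false → f (flip v σ) = f σ → ξ σ ≤ ξ (flip v σ)) :
    ∃ t0 : ℝ, 0 < t0 ∧ ∀ t, 0 ≤ t → t ≤ t0 → Monotone (fun σ => f σ + t * ξ σ) := by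
  classical
  obtain ⟨d, hd⟩ : ∃ d : (V → Bool) × V → ℝ, d = fun p =>
      if f p.1 < f (flip p.2 p.1) then
        (f (flip p.2 p.1) - f p.1) / (1 + |ξ (flip p.2 p.1) - ξ p.1|) else 1 := ⟨_, rfl⟩
  have hpos : ∀ p, 0 < d p := by
    intro p
    rw [hd]
    by_cases hp : f p.1 < f (flip p.2 p.1)
    · simp only [hp, if_true]
      have : 0 < 1 + |ξ (flip p.2 p.1) - ξ p.1| := by positivity
      exact div_pos (sub_pos.2 hp) this
    · simp only [hp, if_false]
      norm_num
  obtain ⟨t0, ht0, hle⟩ := Cone_lower d hpos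
  refine ⟨t0, ht0, fun t ht htt => monotone_of_flip fun σ v hv => ?_⟩
  show f σ + t * ξ σ ≤ f (flip v σ) + t * ξ (flip v σ)
  have hmon : f σ ≤ f (flip v σ) := hf (Cone_le_flip hv)
  rcases hmon.lt_or_eq with hlt | heq
  · have h1 : t ≤ (f (flip v σ) - f σ) / (1 + |ξ (flip v σ) - ξ σ|) := by
      have h2 := htt.trans (hle (σ, v))
      rw [hd] at h2
      simp only [hlt, if_true] at h2
      exact h2
    have h3 : 0 < 1 + |ξ (flip v σ) - ξ σ| := by positivity
    have h4 : t * (1 + |ξ (flip v σ) - ξ σ|) ≤ f (flip v σ) - f σ := by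
      rwa [le_div_iff₀ h3] at h1
    have h5 : -(t * |ξ (flip v σ) - ξ σ|) ≤ t * (ξ (flip v σ) - ξ σ) := by
      have h6 := neg_abs_le (ξ (flip v σ) - ξ σ)
      have h7 := mul_le_mul_of_nonneg_left h6 ht
      linarith
    nlinarith
  · have h1 := h σ v hv heq.symm
    have h2 := mul_le_mul_of_nonneg_left h1 ht
    rw [heq]
    linarith

end Pool.Agent.Lib.MP_f82811_pr.TC
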