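import Pool.Agent.Lib.MP_f82811_pr.TC.Rchm

/-!
# Module Cyc: cactus components in terms of cycles

Proof. Suppose `x` is reachable from `u` and has three different neighbours `a, b, c` (in `G`) that are
mutually reachable outside `x`. `Rch J {x} a b` gives a walk of `G` from `a` to `b` avoiding `x` (induction on
`ReflTransGen`), hence a path (`toPath` / `bypass`, its support is contained in the support of the walk), and
`x a ... b x` is a cycle (`SimpleGraph.Walk.cons_isCycle_iff`, `a ≠ b`) whose edges at `x` are `s(x, a)` and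
`s(x, b)` only (the path avoids `x`). In the same way there is a cycle whose edges at `x` are `s(x, b)` and `s(x, c)`. They share
`s(x, b)`, so `s(x, a)` belongs to the second cycle, so `a = b` or `a = c`. Contradiction. (The neighbours and reachability in the sense of
`mat G J` are neighbours and reachability in `G`: `mat G J a b ≠ 0` implies `G.Adj a b`.)
-/

set_option autoImplicit false
set_option linter.unusedSectionVars false

namespace Pool.Agent.Lib.MP_f82811_pr.TC

open Finset HT

/-- The component of `u` is a cactus: two cycles in it that share an edge have the same edges. -/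
def CactusAt {V : Type*} (G : SimpleGraph V) (u : V) : Prop :=
  ∀ (x y : V) (p : G.Walk x x) (q : G.Walk y y), G.Reachable u x → p.IsCycle → q.IsCycle →
    (∃ e ∈ p.edges, e ∈ q.edges) → ∀ e ∈ p.edges, e ∈ q.edges

variable {V : Type*} [Fintype V] [DecidableEq V]

private theorem Cyc_adj (G : SimpleGraph V) [DecidableRel G.Adj] (J : Sym2 V → ℝ) {a b : V}
    (h : mat G J a b ≠ 0) : G.Adj a b := by
  by_contra hcon
  apply h
  unfold mat
  simp [hcon]

private theorem Cyc_reach (G : SimpleGraph V) [DecidableRel G.Adj] (J : Sym2 V → ℝ) {a b : V}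
    {S : Finset V} (h : Rch (mat G J) S a b) : G.Reachable a b := by
  induction h with
  | refl => exact SimpleGraph.Reachable.refl _
  | tail _ hbc ih => exact ih.trans (Cyc_adj G J hbc.1).reachable

private theorem Cyc_walk (G : SimpleGraph V) [DecidableRel G.Adj] (J : Sym2 V → ℝ) {x a b : V}
    (hax : a ≠ x) (h : Rch (mat G J) {x} a b) : ∃ p : G.Walk a b, x ∉ p.support := by
  induction h with
  | refl => exact ⟨SimpleGraph.Walk.nil, by simpa using hax.symm⟩
  | tail _ hbc ih =>
    obtain ⟨p, hp⟩ := ih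
    refine ⟨p.concat (Cyc_adj G J hbc.1), ?_⟩
    rw [SimpleGraph.Walk.support_concat, List.mem_append, List.mem_singleton]
    rintro (h | h)
    · exact hp h
    · exact hbc.2.2 (by rw [← h]; exact mem_singleton_self _)

private theorem Cyc_cycle (G : SimpleGraph V) {x a b : V} (hxa : G.Adj x a) (hxb : G.Adj x b)
    (hab : a ≠ b) (p : G.Walk a b) (hp : x ∉ p.support) :
    ∃ c : G.Walk x x, c.IsCycle ∧ s(x, a) ∈ c.edges ∧ s(x, b) ∈ c.edges ∧
      ∀ y, s(x, y) ∈ c.edges → y = a ∨ y = b := by
  have hq : x ∉ p.bypass.support := fun h => hp (SimpleGraph.Walk.support_bypass_subset_support p h)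
  have hqp : p.bypass.IsPath := SimpleGraph.Walk.bypass_isPath p
  set q := p.bypass with hqd
  have hedge : ∀ y, s(x, y) ∉ q.edges := fun y h =>
    hq (SimpleGraph.Walk.fst_mem_support_of_mem_edges q h)
  have hpath : (q.concat hxb.symm).IsPath := hqp.concat hq hxb.symm
  have hedges : (q.concat hxb.symm).edges = q.edges ++ [s(b, x)] := by
    rw [SimpleGraph.Walk.edges_concat, List.concat_eq_append]
  refine ⟨SimpleGraph.Walk.cons hxa (q.concat hxb.symm), ?_, ?_, ?_, ?_⟩
  · rw [SimpleGraph.Walk.cons_isCycle_iff]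
    refine ⟨hpath, ?_⟩
    rw [hedges, List.mem_append, List.mem_singleton]
    rintro (h | h)
    · exact hedge a h
    · rw [Sym2.eq_iff] at h
      rcases h with ⟨h1, h2⟩ | ⟨h1, h2⟩
      · exact hxa.ne h2.symm
      · exact hab h2
  · rw [SimpleGraph.Walk.edges_cons]
    exact List.mem_cons_self
  · rw [SimpleGraph.Walk.edges_cons, hedges, Sym2.eq_swap]
    simp
  · intro y hy
    rw [SimpleGraph.Walk.edges_cons, hedges, List.mem_cons, List.mem_append,
      List.mem_singleton] at hy
    rcases hy with h | h | h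
    · rw [Sym2.eq_iff] at h
      rcases h with ⟨_, h2⟩ | ⟨h1, h2⟩
      · exact Or.inl h2
      · exact absurd h1 hxa.ne
    · exact absurd h (hedge y)
    · rw [Sym2.eq_iff] at h
      rcases h with ⟨h1, h2⟩ | ⟨_, h2⟩
      · exact absurd h1 hxb.ne
      · exact Or.inr h2

theorem cac_of_cactus (G : SimpleGraph V) [DecidableRel G.Adj] (J : Sym2 V → ℝ) {u : V}
    (h : CactusAt G u) : Cac (mat G J) u := by
  intro x a b c hx ha hb hc hab hbc hac h1 h2
  have hA := Cyc_adj G J ha
  have hB := Cyc_adj G J hb
  have hC := Cyc_adj G J hc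
  obtain ⟨p, hp⟩ := Cyc_walk G J hA.ne' h1
  obtain ⟨q, hq⟩ := Cyc_walk G J hB.ne' h2
  obtain ⟨C1, c1, c2, c3, c4⟩ := Cyc_cycle G hA hB hab p hp
  obtain ⟨C2, d1, d2, d3, d4⟩ := Cyc_cycle G hB hC hbc q hq
  have h3 := h x x C1 C2 (Cyc_reach G J hx) c1 d1 ⟨s(x, b), c3, d2⟩ s(x, a) c2
  rcases d4 a h3 with h4 | h4
  · exact hab h4
  · exact hac h4

end Pool.Agent.Lib.MP_f82811_pr.TC
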