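import Pool.Agent.Lib.MP_f82811_pr.TC.Rchm

/-!
# Module DblG: the doubled couplings

`dbl A K (a, false) (b, false) = A a b`, `dbl A K (a, x) (a, !x) = K`, all other entries vanish.
`cac_dbl`: let `q` have three different neighbours `p1, p2, p3`, mutually reachable outside `q`. The only
neighbour of `(x, true)` is `(x, false)`, so `q = (x, false)`. If `p_i = (x, true)` then from `p_i` nothing else is reachable
outside `q` (its only neighbour is `q`), contradiction with `p_1, p_2, p_3` different. So `p_i = (a_i, false)`, `A x a_i ≠ 0`.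
Project to the first coordinate: a path in `dbl A K` outside `(x, false)` from `(a_1, false)`, `a_1 ≠ x`, never visits
`(x, true)`, and its projection is a path of `A` outside `x` (steps `(a, y) (a, !y)` disappear). So `Rch A {x} a_1 a_2`, etc.
Reachability from `(k, false)` projects in the same way. `sh_dbl`: neighbours of `(k, false)`, `(l, false)`:
`(k, true)` reaches nothing else outside `(k, false)`, `(l, false)`, the same for `(l, true)`; the others project.
-/

set_option autoImplicit false
set_option linter.unusedSectionVars false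

namespace Pool.Agent.Lib.MP_f82811_pr.TC

open Finset HT

variable {V : Type*} [Fintype V] [DecidableEq V] {A : V → V → ℝ}

private theorem DblG_adj {K : ℝ} {p q : V × Bool} (h : dbl A K p q ≠ 0) :
    (p.2 = false ∧ q.2 = false ∧ A p.1 q.1 ≠ 0) ∨ (p.1 = q.1 ∧ p.2 ≠ q.2) := by
  unfold dbl at h
  split_ifs at h with h1 h2
  · exact Or.inl ⟨h1.1, h1.2, h⟩
  · exact Or.inr h2
  · exact absurd rfl h

theorem coup_dbl (hA : Coup A) {K : ℝ} (hK : 0 ≤ K) : Coup (dbl A K) := by
  refine ⟨?_, ?_, ?_⟩
  · rintro ⟨a, x⟩ ⟨b, y⟩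
    unfold dbl
    cases x <;> cases y <;> simp [hA.symm a b, eq_comm]
  · rintro ⟨a, x⟩ ⟨b, y⟩
    unfold dbl
    split_ifs
    · exact hA.nonneg _ _
    · exact hK
    · exact le_rfl
  · rintro ⟨a, x⟩
    unfold dbl
    cases x <;> simp [hA.diag a]

theorem dbl_setc (A : V → V → ℝ) (K : ℝ) {k l : V} (hkl : k ≠ l) (s : ℝ) :
    dbl (setc A k l s) K = setc (dbl A K) (k, false) (l, false) s := by
  funext p q
  obtain ⟨a, x⟩ := p
  obtain ⟨b, y⟩ := q
  unfold dbl setc
  cases x <;> cases y <;> simp

private theorem DblG_proj {K : ℝ} {S : Finset V} {S' : Finset (V × Bool)}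
    (hS : ∀ a ∈ S, (a, false) ∈ S') {p q : V × Bool} (hp : p.1 ∉ S)
    (h : Rch (dbl A K) S' p q) : Rch A S p.1 q.1 ∧ q.1 ∉ S := by
  induction h with
  | refl => exact ⟨Relation.ReflTransGen.refl, hp⟩
  | @tail r q _ hrq ih =>
    rcases DblG_adj hrq.1 with ⟨h1, h2, h3⟩ | ⟨h1, h2⟩
    · have hq : q.1 ∉ S := by
        intro hq
        apply hrq.2.2
        have h4 := hS q.1 hq
        have h5 : q = (q.1, false) := by rw [← h2]
        rw [h5]
        exact h4
      exact ⟨ih.1.tail ⟨h3, ih.2, hq⟩, hq⟩
    · rw [← h1]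
      exact ih

private theorem DblG_iso {K : ℝ} {S' : Finset (V × Bool)} {x : V} (hx : (x, false) ∈ S')
    {q : V × Bool} (h : Rch (dbl A K) S' (x, true) q) : q = (x, true) := by
  rcases Relation.ReflTransGen.cases_head h with h | ⟨r, hr, -⟩
  · exact h.symm
  · exfalso
    rcases DblG_adj hr.1 with ⟨h1, -, -⟩ | ⟨h1, h2⟩
    · exact absurd h1 (by simp)
    · apply hr.2.2
      have h3 : r = (x, false) := by
        obtain ⟨r1, r2⟩ := r
        simp only at h1 h2
        rw [← h1]
        cases r2
        · rfl
        · exact absurd rfl h2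
      rw [h3]
      exact hx

private theorem DblG_nb {K : ℝ} {x : V} {p : V × Bool} (h : dbl A K (x, false) p ≠ 0) :
    (∃ a, p = (a, false) ∧ A x a ≠ 0) ∨ p = (x, true) := by
  obtain ⟨a, y⟩ := p
  rcases DblG_adj h with ⟨-, h2, h3⟩ | ⟨h1, h2⟩
  · left
    simp only at h2 h3
    exact ⟨a, by rw [h2], h3⟩
  · right
    simp only at h1 h2
    rw [← h1]
    cases y
    · exact absurd rfl h2
    · rfl

theorem cac_dbl (hA : Coup A) {K : ℝ} {k : V} (hC : Cac A k) : Cac (dbl A K) (k, false) := by
  intro q p1 p2 p3 hq h1 h2 h3 h12 h23 h13 r12 r23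
  obtain ⟨x, b⟩ := q
  have hsymm : ∀ {p p' : V × Bool} {S' : Finset (V × Bool)}, Rch (dbl A K) S' p p' →
      Rch (dbl A K) S' p' p := by
    intro p p' S' h
    induction h with
    | refl => exact Relation.ReflTransGen.refl
    | @tail r t _ hrt ih =>
      refine Relation.ReflTransGen.head ⟨?_, hrt.2.2, hrt.2.1⟩ ih
      have h4 := hrt.1
      obtain ⟨a, y⟩ := r
      obtain ⟨c, z⟩ := t
      intro h5
      apply h4
      rw [← h5]
      unfold dbl
      cases y <;> cases z <;> simp [hA.symm a c, eq_comm]
  cases b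
  · rcases DblG_nb h1 with ⟨a1, rfl, g1⟩ | rfl
    · rcases DblG_nb h2 with ⟨a2, rfl, g2⟩ | rfl
      · rcases DblG_nb h3 with ⟨a3, rfl, g3⟩ | rfl
        · have hx : ∀ a, A x a ≠ 0 → a ∉ ({x} : Finset V) := by
            intro a ha hax
            rw [mem_singleton] at hax
            rw [hax] at ha
            exact ha (hA.diag x)
          have hS : ∀ a ∈ ({x} : Finset V), (a, false) ∈ ({(x, false)} : Finset (V × Bool)) := by
            intro a ha
            rw [mem_singleton] at ha
            rw [ha, mem_singleton]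
          exact hC x a1 a2 a3
            (DblG_proj (S := ∅) (by simp) (by simp) hq).1 g1 g2 g3
            (fun h => h12 (by rw [h])) (fun h => h23 (by rw [h])) (fun h => h13 (by rw [h]))
            (DblG_proj hS (hx a1 g1) r12).1 (DblG_proj hS (hx a2 g2) r23).1
        · exact h23 (DblG_iso (mem_singleton_self _) (hsymm r23))
      · exact h23 (DblG_iso (mem_singleton_self _) r23).symm
    · exact h12 (DblG_iso (mem_singleton_self _) r12).symm
  · have hone : ∀ p : V × Bool, dbl A K (x, true) p ≠ 0 → p = (x, false) := by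
      intro p hp
      obtain ⟨a, y⟩ := p
      rcases DblG_adj hp with ⟨h4, -, -⟩ | ⟨h4, h5⟩
      · exact absurd h4 (by simp)
      · simp only at h4 h5
        rw [← h4]
        cases y
        · rfl
        · exact absurd rfl h5
    exact h12 ((hone p1 h1).trans (hone p2 h2).symm)

theorem sh_dbl (hA : Coup A) {K : ℝ} {k l : V} (hkl : k ≠ l) (h : Sh A k l) :
    Sh (dbl A K) (k, false) (l, false) := by
  intro p q hp hq hpl hqk r
  have hsymm : ∀ {p p' : V × Bool} {S' : Finset (V × Bool)}, Rch (dbl A K) S' p p' →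
      Rch (dbl A K) S' p' p := by
    intro p p' S' h
    induction h with
    | refl => exact Relation.ReflTransGen.refl
    | @tail r t _ hrt ih =>
      refine Relation.ReflTransGen.head ⟨?_, hrt.2.2, hrt.2.1⟩ ih
      have h4 := hrt.1
      obtain ⟨a, y⟩ := r
      obtain ⟨c, z⟩ := t
      intro h5
      apply h4
      rw [← h5]
      unfold dbl
      cases y <;> cases z <;> simp [hA.symm a c, eq_comm]
  rcases DblG_nb hp with ⟨a, rfl, ga⟩ | rfl
  · rcases DblG_nb hq with ⟨b, rfl, gb⟩ | rfl
    · have hal : a ≠ l := fun h' => hpl (by rw [h'])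
      have hbk : b ≠ k := fun h' => hqk (by rw [h'])
      have hak : a ≠ k := by
        intro h'
        rw [h'] at ga
        exact ga (hA.diag k)
      have hS : ∀ c ∈ ({k, l} : Finset V),
          (c, false) ∈ ({(k, false), (l, false)} : Finset (V × Bool)) := by
        intro c hc
        rw [mem_insert, mem_singleton] at hc
        rw [mem_insert, mem_singleton]
        rcases hc with rfl | rfl
        · exact Or.inl rfl
        · exact Or.inr rfl
      have ha : a ∉ ({k, l} : Finset V) := by
        rw [mem_insert, mem_singleton]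
        rintro (h' | h')
        · exact hak h'
        · exact hal h'
      rw [h a b ga gb hal hbk (DblG_proj hS ha r).1]
    · have h1 := DblG_iso (x := l) (by simp) (hsymm r)
      exact h1
  · exact (DblG_iso (x := k) (by simp) r).symm

end Pool.Agent.Lib.MP_f82811_pr.TC
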