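import Pool.Agent.Lib.MP_f82811_pr.TC.Inc

/-!
# Module IncMean: monotone functions suffice

Proof. `inc_cone` with `K f` = monotone, depending on `X`, integral zero (`inc_mean`), or monotone and
odd (`inc_odd`). `K` is preserved by `Top w c` for large `c`: `Attr_mono`, `Hop_dep`, `tot w (Hop w f)
= ip w (fun _ => 1) (Hop w f) = am w (fun _ => 1) f = 0`, `Hop_odd`. Every `f` depending on `X` with
integral zero is a difference: for `mX σ = ∑ v ∈ X, sp v σ` and `B = ∑ σ, |f σ|` the functions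
`B * mX + f - B * mean` and `B * mX - B * mean` are monotone (if `σ ≤ τ` differ on `X` then
`mX σ + 2 ≤ mX τ`, `|f σ - f τ| ≤ 2 B`; if they agree on `X` then all values agree), depend on `X` and
have integral zero. For odd `f`: `K * mag + f` and `K * mag` (`exists_monotone`).
-/

set_option autoImplicit false

namespace Pool.Agent.Lib.MP_f82811_pr.TC

open Finset HT

variable {V : Type*} [Fintype V] [DecidableEq V] {w : (V → Bool) → ℝ}

/-- The magnetisation of `X`. -/
private noncomputable def IncMean_mag (X : Finset V) (σ : V → Bool) : ℝ := ∑ v ∈ X, sp v σ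

omit [Fintype V] [DecidableEq V] in
private theorem IncMean_sp_le {σ τ : V → Bool} (h : σ ≤ τ) (v : V) : sp v σ ≤ sp v τ := by
  have key : ∀ a b : Bool, a ≤ b → a = b ∨ (a = false ∧ b = true) := by decide
  unfold sp spin
  rcases key _ _ (h v) with h1 | ⟨h1, h2⟩
  · rw [h1]
  · rw [h1, h2]
    norm_num

omit [Fintype V] [DecidableEq V] in
private theorem IncMean_sp_lt {σ τ : V → Bool} (h : σ ≤ τ) {v : V} (hv : σ v ≠ τ v) :
    sp v σ + 2 ≤ sp v τ := by
  have key : ∀ a b : Bool, a ≤ b → a = b ∨ (a = false ∧ b = true) := by decide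
  unfold sp spin
  rcases key _ _ (h v) with h1 | ⟨h1, h2⟩
  · exact absurd h1 hv
  · rw [h1, h2]
    norm_num

omit [Fintype V] in
private theorem IncMean_mag_lt {X : Finset V} {σ τ : V → Bool} (h : σ ≤ τ) {v : V} (hX : v ∈ X)
    (hv : σ v ≠ τ v) : IncMean_mag X σ + 2 ≤ IncMean_mag X τ := by
  unfold IncMean_mag
  rw [← Finset.add_sum_erase _ _ hX, ← Finset.add_sum_erase _ (fun v => sp v τ) hX]
  have h1 : ∑ x ∈ X.erase v, sp x σ ≤ ∑ x ∈ X.erase v, sp x τ :=
    Finset.sum_le_sum fun x _ => IncMean_sp_le h x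
  have h2 := IncMean_sp_lt h hv
  linarith

omit [Fintype V] [DecidableEq V] in
private theorem IncMean_mag_dep (X : Finset V) : Dep X (IncMean_mag X) := by
  intro σ τ h
  unfold IncMean_mag
  refine Finset.sum_congr rfl fun v hv => ?_
  unfold sp
  rw [h v hv]

private theorem IncMean_tot_Hop (hw : ∀ σ, 0 < w σ) (f : (V → Bool) → ℝ) :
    tot w (Hop w f) = 0 := by
  have h1 : ip w (fun _ => 1) (Hop w f) = am w (fun _ => 1) f := ip_Hop hw f _
  rw [am_const_left, ip_comm, ip_const_right, one_mul] at h1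
  exact h1

private theorem IncMean_tot_Top (hw : ∀ σ, 0 < w σ) (c : ℝ) {f : (V → Bool) → ℝ}
    (hf : tot w f = 0) : tot w (Top w c f) = 0 := by
  have h1 : Top w c f = fun σ => c * f σ + (-1) * Hop w f σ := by
    funext σ
    unfold Top
    ring
  rw [h1, tot_add, tot_smul, tot_smul, hf, IncMean_tot_Hop hw]
  ring

theorem inc_mean (hF : Fkg w) {X : Finset V} (hX : Dep X w) {lam : ℝ}
    (h : ∀ f : (V → Bool) → ℝ, Monotone f → Dep X f → tot w f = 0 → 0 ≤ qf lam w f f) :
    FrzR w X lam := by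
  intro f hf ht
  obtain ⟨C, -, hC⟩ := Attr_mono hF
  have hZ : 0 < ∑ σ : V → Bool, w σ := Finset.sum_pos (fun σ _ => hF.pos σ) Finset.univ_nonempty
  obtain ⟨B, hBdef⟩ : ∃ B : ℝ, B = ∑ σ, |f σ| := ⟨_, rfl⟩
  have hB : ∀ σ, |f σ| ≤ B := fun σ => by
    rw [hBdef]
    exact Finset.single_le_sum (f := fun σ => |f σ|) (fun σ _ => abs_nonneg _)
      (Finset.mem_univ σ)
  have hB0 : 0 ≤ B := (abs_nonneg _).trans (hB (fun _ => false))
  obtain ⟨m, hm⟩ : ∃ m : ℝ, m = tot w (IncMean_mag X) / ∑ σ : V → Bool, w σ := ⟨_, rfl⟩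
  obtain ⟨G, hG⟩ : ∃ G : (V → Bool) → ℝ, G = fun σ => B * (IncMean_mag X σ + (-m)) := ⟨_, rfl⟩
  obtain ⟨F, hFd⟩ : ∃ F : (V → Bool) → ℝ, F = fun σ => G σ + f σ := ⟨_, rfl⟩
  have hGtot : tot w G = 0 := by
    rw [hG, tot_smul, tot_add]
    have h1 : tot w (fun _ => -m) = -m * ∑ σ : V → Bool, w σ := by
      unfold tot
      rw [Finset.mul_sum]
      exact Finset.sum_congr rfl fun σ _ => by ring
    rw [h1, hm, neg_mul, div_mul_cancel₀ _ hZ.ne']
    ring
  have hFtot : tot w F = 0 := by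
    rw [hFd, tot_add, hGtot, ht]
    ring
  have hGdep : Dep X G := by
    intro σ τ hst
    rw [hG]
    simp only
    rw [IncMean_mag_dep X σ τ hst]
  have hFdep : Dep X F := by
    rw [hFd]
    exact hGdep.add hf
  have hmon : ∀ (g : (V → Bool) → ℝ), Dep X g → (∀ σ, |g σ| ≤ B) →
      Monotone (fun σ => G σ + g σ) := by
    intro g hgd hgb σ τ hst
    by_cases hag : ∀ v ∈ X, σ v = τ v
    · simp only
      rw [hGdep σ τ hag, hgd σ τ hag]
    · push Not at hag
      obtain ⟨v, hv, hne⟩ := hag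
      have h1 := IncMean_mag_lt hst hv hne
      have h2 := abs_le.1 (hgb σ)
      have h3 := abs_le.1 (hgb τ)
      simp only [hG]
      nlinarith [mul_le_mul_of_nonneg_left h1 hB0]
  have hFmon : Monotone F := by
    rw [hFd]
    exact hmon f hf hB
  have hGmon : Monotone G := by
    have h1 := hmon (fun _ => 0) (fun _ _ _ => rfl) (fun σ => by simpa using hB0)
    simpa using h1
  have key := inc_cone hF.pos (lam := lam)
    (fun g => Monotone g ∧ Dep X g ∧ tot w g = 0) (C := C)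
    (fun c hc g hg => by
      refine ⟨hC c hc g hg.1, ?_, IncMean_tot_Top hF.pos c hg.2.2⟩
      intro σ τ hst
      unfold Top
      rw [hg.2.1 σ τ hst, Hop_dep hX hg.2.1 σ τ hst])
    (fun g hg => h g hg.1 hg.2.1 hg.2.2) (f := F) (g := G)
    ⟨hFmon, hFdep, hFtot⟩ ⟨hGmon, hGdep, hGtot⟩
  have hfe : (fun σ => F σ - G σ) = f := by
    funext σ
    rw [hFd]
    ring
  rwa [hfe] at key

theorem inc_odd (hF : Fkg w) (hev : Even' w) {lam : ℝ}
    (h : ∀ f : (V → Bool) → ℝ, Monotone f → Odd' f → 0 ≤ qf lam w f f) :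
    OddR w Finset.univ lam := by
  intro f hf _
  obtain ⟨C, -, hC⟩ := Attr_mono hF
  obtain ⟨K, hK1, hK2⟩ := exists_monotone f
  obtain ⟨F, hFd⟩ : ∃ F : (V → Bool) → ℝ, F = fun σ => (1 / 2) * (K * mag σ + 1 * f σ) := ⟨_, rfl⟩
  obtain ⟨G, hGd⟩ : ∃ G : (V → Bool) → ℝ, G = fun σ => (1 / 2) * (K * mag σ + (-1) * f σ) :=
    ⟨_, rfl⟩
  have hFmon : Monotone F := by
    intro σ τ hst
    rw [hFd]
    have h1 := hK1 hst
    simp only at h1 ⊢
    linarith
  have hGmon : Monotone G := by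
    intro σ τ hst
    rw [hGd]
    have h1 := hK2 hst
    simp only at h1 ⊢
    linarith
  have hFodd : Odd' F := by
    intro σ
    rw [hFd]
    simp only
    rw [mag_odd σ, hf σ]
    ring
  have hGodd : Odd' G := by
    intro σ
    rw [hGd]
    simp only
    rw [mag_odd σ, hf σ]
    ring
  have key := inc_cone hF.pos (lam := lam)
    (fun g => Monotone g ∧ Odd' g) (C := C)
    (fun c hc g hg => by
      refine ⟨hC c hc g hg.1, ?_⟩
      intro σ
      unfold Top
      rw [hg.2 σ, Hop_odd hev hg.2 σ]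
      ring)
    (fun g hg => h g hg.1 hg.2) (f := F) (g := G) ⟨hFmon, hFodd⟩ ⟨hGmon, hGodd⟩
  have hfe : (fun σ => F σ - G σ) = f := by
    funext σ
    rw [hFd, hGd]
    ring
  rwa [hfe] at key

end Pool.Agent.Lib.MP_f82811_pr.TC
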