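import Pool.Agent.Lib.MP_f82811_pr.TC.DblW
import Pool.Agent.Lib.MP_f82811_pr.TC.DblG
import Pool.Agent.Lib.MP_f82811_pr.TC.IncMean

/-!
# Module DblLow: lower bound for the doubled arithmetic mean dynamics

Proof. It is enough to show the inequality for `wd A K` (`odd_wd`), and by `inc_odd` (for `W (dbl A K)`,
`fkg_W`, `coup_dbl`) for monotone odd `g` on the doubled configurations; scale: `g (all plus) = 1` (if it is zero
then `g = 0`), so `|g| ≤ 1`. Let `f σ = g (diag σ)`, odd, `f (all plus) = 1`. Keep only the configurations `diag σ` in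
`am` (`sum_diag_le`): for every `v`, `x` the configurations `diag σ` and `diag (flip v σ)` share the broken configuration
`τ = flip (v, x) (diag σ) = flip (v, !x) (diag (flip v σ))` (`flip_diag`), and
`W A σ * (f σ - g τ) ^ 2 + W A (flip v σ) * (f (flip v σ) - g τ) ^ 2 ≥
W A σ * W A (flip v σ) / (W A σ + W A (flip v σ)) * (f σ - f (flip v σ)) ^ 2`. Sum over `σ, v, x` with the factor `1/4`
(`D_sq`): `am (wd A K) g g ≥ dir (W A) f / 4 ≥ lamh / 4 * ip (W A) f f`. On the other hand
`ip (wd A K) g g ≤ ip (W A) f f + δ`, `δ = 2 ^ (2 n) * exp (-2 K) * ∑ W A` (`sum_le_diag`, `wd_broken`, `|g| ≤ 1`), and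
`ip (W A) f f ≥ W A (all plus) =: c > 0`, so `ip (wd A K) g g ≤ (1 + δ / c) * ip (W A) f f`. For large `K`:
`(lamh - eps) * (1 + δ / c) ≤ lamh`.
-/

set_option autoImplicit false

namespace Pool.Agent.Lib.MP_f82811_pr.TC

open Finset HT

variable {V : Type*} [Fintype V] [DecidableEq V] {A : V → V → ℝ}

private theorem DblLow_two {a b x y z : ℝ} (ha : 0 < a) (hb : 0 < b) :
    a * b / (a + b) * (x - y) ^ 2 ≤ a * (x - z) ^ 2 + b * (y - z) ^ 2 := by
  have hab : 0 < a + b := by linarith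
  rw [div_mul_eq_mul_div, div_le_iff₀ hab]
  nlinarith [sq_nonneg (a * (x - z) + b * (y - z))]

private theorem DblLow_odd {g : (V × Bool → Bool) → ℝ} (hg : Odd' g) :
    Odd' (fun σ : V → Bool => g (diag σ)) := by
  intro σ
  exact hg (diag σ)

private theorem DblLow_am [Nonempty V] (hA : Coup A) (K : ℝ) (g : (V × Bool → Bool) → ℝ) :
    dir (W A) (fun σ => g (diag σ)) / 4 ≤ am (wd A K) g g := by
  have h1 : ∀ p : V × Bool, ∑ σ : V → Bool, W A σ * ((g (diag σ) - g (flip p (diag σ))) ^ 2 / 4) ≤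
      ∑ σ, wd A K σ * (D p g σ * D p g σ) := by
    intro p
    have h2 := sum_diag_le (F := fun σ => wd A K σ * (D p g σ * D p g σ))
      (fun σ => mul_nonneg (wd_pos A K σ).le (mul_self_nonneg _))
    refine le_trans (le_of_eq ?_) h2
    refine sum_congr rfl fun σ _ => ?_
    show _ = wd A K (diag σ) * (D p g (diag σ) * D p g (diag σ))
    rw [wd_diag hA, D_sq]
  have h3 : ∀ v : V, ∑ σ : V → Bool, W A σ * W A (flip v σ) / (W A σ + W A (flip v σ)) *
      (g (diag σ) - g (diag (flip v σ))) ^ 2 ≤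
      ∑ x : Bool, ∑ σ : V → Bool, W A σ * (g (diag σ) - g (flip (v, x) (diag σ))) ^ 2 := by
    intro v
    have h4 : ∀ x : Bool, ∑ σ : V → Bool, W A σ * (g (diag σ) - g (flip (v, !x) (diag σ))) ^ 2 =
        ∑ σ : V → Bool, W A (flip v σ) * (g (diag (flip v σ)) - g (flip (v, x) (diag σ))) ^ 2 := by
      intro x
      rw [← sum_flip v]
      refine sum_congr rfl fun σ _ => ?_
      rw [flip_diag]
    have h5 : ∀ x : Bool, ∑ σ : V → Bool, W A σ * W A (flip v σ) / (W A σ + W A (flip v σ)) *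
        (g (diag σ) - g (diag (flip v σ))) ^ 2 ≤
        ∑ σ : V → Bool, W A σ * (g (diag σ) - g (flip (v, x) (diag σ))) ^ 2 +
        ∑ σ : V → Bool, W A σ * (g (diag σ) - g (flip (v, !x) (diag σ))) ^ 2 := by
      intro x
      rw [h4 x, ← sum_add_distrib]
      refine sum_le_sum fun σ _ => ?_
      exact DblLow_two (Real.exp_pos _) (Real.exp_pos _)
    rw [Fintype.sum_bool]
    exact h5 true
  unfold am dir
  rw [sum_comm, sum_div, Fintype.sum_prod_type]
  refine sum_le_sum fun v _ => ?_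
  refine le_trans ?_ (sum_le_sum fun x _ => h1 (v, x))
  have h6 : ∀ x : Bool, ∑ σ : V → Bool,
      W A σ * ((g (diag σ) - g (flip (v, x) (diag σ))) ^ 2 / 4) =
      (∑ σ : V → Bool, W A σ * (g (diag σ) - g (flip (v, x) (diag σ))) ^ 2) / 4 := by
    intro x
    rw [sum_div]
    exact sum_congr rfl fun σ _ => by ring
  rw [sum_congr rfl fun x _ => h6 x, ← sum_div]
  exact div_le_div_of_nonneg_right (h3 v) (by norm_num)

private theorem DblLow_ip [Nonempty V] (hA : Coup A) {K : ℝ} (hK : 0 ≤ K)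
    {g : (V × Bool → Bool) → ℝ} {m : ℝ} (hm : ∀ σ, |g σ| ≤ m) :
    ip (wd A K) g g ≤ ip (W A) (fun σ => g (diag σ)) (fun σ => g (diag σ)) +
      2 ^ (2 * Fintype.card V) * (Real.exp (-(2 * K)) * (∑ τ, W A τ) * m ^ 2) := by
  have hS : 0 ≤ ∑ τ, W A τ := sum_nonneg fun τ _ => (Real.exp_pos _).le
  have h1 := sum_le_diag (F := fun σ => wd A K σ * (g σ * g σ))
    (B := Real.exp (-(2 * K)) * (∑ τ, W A τ) * m ^ 2)
    (mul_nonneg (mul_nonneg (Real.exp_pos _).le hS) (sq_nonneg _)) (fun σ hσ => by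
      have h2 := wd_broken hA hK hσ
      have h3 : g σ * g σ ≤ m ^ 2 := by
        have h4 := hm σ
        have h5 := pow_le_pow_left₀ (abs_nonneg _) h4 2
        rw [sq_abs] at h5
        linarith [sq (g σ)]
      exact mul_le_mul h2 h3 (mul_self_nonneg _) (mul_nonneg (Real.exp_pos _).le hS))
  refine le_trans h1 (le_of_eq ?_)
  congr 1
  unfold ip
  refine sum_congr rfl fun σ _ => ?_
  show wd A K (diag σ) * _ = _
  rw [wd_diag hA]

private theorem DblLow_num {M eps K : ℝ} (hM : 0 ≤ M) (heps : 0 < eps) (hK : M / eps ≤ K) :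
    M * Real.exp (-(2 * K)) ≤ eps := by
  have h1 := Real.add_one_le_exp (2 * K)
  have h2 : 0 < Real.exp (2 * K) := Real.exp_pos _
  rw [Real.exp_neg, ← div_eq_mul_inv, div_le_iff₀ h2]
  rw [div_le_iff₀ heps] at hK
  have h3 : eps * (2 * K + 1) ≤ eps * Real.exp (2 * K) := mul_le_mul_of_nonneg_left h1 heps.le
  nlinarith

theorem dbl_low [Nonempty V] (hA : Coup A) {lamh : ℝ} (h0 : 0 ≤ lamh)
    (h : ∀ f : (V → Bool) → ℝ, Odd' f → lamh * ip (W A) f f ≤ dir (W A) f) {eps : ℝ}
    (heps : 0 < eps) :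
    ∃ K0 : ℝ, 0 ≤ K0 ∧ ∀ K, K0 ≤ K → OddR (W (dbl A K)) Finset.univ ((lamh - eps) / 4) := by
  set S : ℝ := ∑ τ, W A τ with hS
  have hS0 : 0 ≤ S := sum_nonneg fun τ _ => (Real.exp_pos _).le
  set c : ℝ := W A (fun _ => true) with hc
  have hc0 : 0 < c := Real.exp_pos _
  clear_value S c
  set N : ℝ := 2 ^ (2 * Fintype.card V) with hN
  have hN0 : 0 ≤ N := by positivity
  clear_value N
  obtain ⟨M, hM⟩ : ∃ M : ℝ, M = N * S * lamh / c := ⟨_, rfl⟩
  have hM0 : 0 ≤ M := by
    rw [hM]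
    exact div_nonneg (mul_nonneg (mul_nonneg hN0 hS0) h0) hc0.le
  refine ⟨M / eps, div_nonneg hM0 heps.le, fun K hK => ?_⟩
  have hK0 : 0 ≤ K := le_trans (div_nonneg hM0 heps.le) hK
  have hnum := DblLow_num hM0 heps hK
  refine inc_odd (fkg_W (coup_dbl hA hK0)) (even_W _) fun g hg hodd => ?_
  -- the bound for the normalised weight is enough
  have hscale : qf ((lamh - eps) / 4) (wd A K) g g =
      Real.exp (-(K * Fintype.card V)) * qf ((lamh - eps) / 4) (W (dbl A K)) g g := by
    have h1 := qf_weight (lam := (lamh - eps) / 4) (Real.exp (-(K * Fintype.card V))) 0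
      (W (dbl A K)) (W (dbl A K)) g g
    rw [zero_mul, add_zero] at h1
    rw [← h1]
    congr 1
    funext σ
    unfold wd
    ring
  have hexp : 0 < Real.exp (-(K * Fintype.card V)) := Real.exp_pos _
  suffices hmain : 0 ≤ qf ((lamh - eps) / 4) (wd A K) g g by
    rw [hscale] at hmain
    exact nonneg_of_mul_nonneg_right hmain hexp
  set m : ℝ := g (fun _ => true) with hm
  have hgm : ∀ σ, |g σ| ≤ m := by
    intro σ
    rw [abs_le]
    constructor
    · have h1 : g (neg σ) ≤ m := hg fun i => Bool.le_true _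
      rw [hodd σ] at h1
      linarith
    · exact hg fun i => Bool.le_true _
  set f : (V → Bool) → ℝ := fun σ => g (diag σ) with hf
  have hfo : Odd' f := DblLow_odd hodd
  have hfm : f (fun _ => true) = m := rfl
  have hip0 : c * m ^ 2 ≤ ip (W A) f f := by
    unfold ip
    have h1 := single_le_sum (f := fun σ => W A σ * (f σ * f σ))
      (fun σ _ => mul_nonneg (Real.exp_pos _).le (mul_self_nonneg _)) (mem_univ (fun _ : V => true))
    refine le_trans (le_of_eq ?_) h1
    show _ = W A (fun _ => true) * (f (fun _ => true) * f (fun _ => true))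
    rw [hfm, ← hc, sq]
  have hipn : 0 ≤ ip (W A) f f := le_trans (mul_nonneg hc0.le (sq_nonneg m)) hip0
  have ham : lamh / 4 * ip (W A) f f ≤ am (wd A K) g g := by
    have h1 := DblLow_am hA K g
    have h2 := h f hfo
    linarith
  have hipg0 : 0 ≤ ip (wd A K) g g := by
    unfold ip
    exact sum_nonneg fun σ _ => mul_nonneg (wd_pos A K σ).le (mul_self_nonneg _)
  have hip : ip (wd A K) g g ≤ (1 + N * S * Real.exp (-(2 * K)) / c) * ip (W A) f f := by
    refine (DblLow_ip hA hK0 hgm).trans ?_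
    rw [← hN, ← hS]
    have h1 : N * (Real.exp (-(2 * K)) * S * m ^ 2) ≤
        N * S * Real.exp (-(2 * K)) / c * ip (W A) f f := by
      rw [div_mul_eq_mul_div, le_div_iff₀ hc0]
      have h2 := mul_le_mul_of_nonneg_left hip0
        (mul_nonneg (mul_nonneg hN0 hS0) (Real.exp_pos (-(2 * K))).le)
      calc N * (Real.exp (-(2 * K)) * S * m ^ 2) * c =
          N * S * Real.exp (-(2 * K)) * (c * m ^ 2) := by ring
        _ ≤ _ := h2
    rw [add_mul, one_mul]
    exact add_le_add le_rfl h1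
  unfold qf
  rw [sub_nonneg]
  by_cases hl : lamh - eps ≤ 0
  · have h1 : (lamh - eps) / 4 * ip (wd A K) g g ≤ 0 :=
      mul_nonpos_of_nonpos_of_nonneg (by linarith) hipg0
    have h2 : 0 ≤ lamh / 4 * ip (W A) f f := mul_nonneg (by linarith) hipn
    linarith
  · push Not at hl
    refine le_trans ?_ ham
    have h1 := mul_le_mul_of_nonneg_left hip (show (0 : ℝ) ≤ (lamh - eps) / 4 by linarith)
    refine h1.trans ?_
    rw [← mul_assoc]
    refine mul_le_mul_of_nonneg_right ?_ hipn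
    have h3 : (lamh - eps) * (N * S * Real.exp (-(2 * K)) / c) ≤ eps := by
      have h4 : lamh * (N * S * Real.exp (-(2 * K)) / c) = M * Real.exp (-(2 * K)) := by
        rw [hM]
        ring
      have h5 : 0 ≤ eps * (N * S * Real.exp (-(2 * K)) / c) :=
        mul_nonneg heps.le (div_nonneg (mul_nonneg (mul_nonneg hN0 hS0)
          (Real.exp_pos (-(2 * K))).le) hc0.le)
      rw [sub_mul]
      linarith
    nlinarith

end Pool.Agent.Lib.MP_f82811_pr.TC
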