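import Pool.Agent.Lib.MP_f82811_pr.TC.DblW
import Pool.Agent.Lib.MP_f82811_pr.TC.DblG

/-!
# Module DblUp: upper bound for the doubled arithmetic mean dynamics

Extend an odd function to the doubled configurations by the conditional expectations on the
configurations with exactly one broken vertex and let the dimer coupling tend to infinity.
-/

set_option autoImplicit false

namespace Pool.Agent.Lib.MP_f82811_pr.TC

open Finset HT

variable {V : Type*} [Fintype V] [DecidableEq V] {A : V → V → ℝ}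

omit [Fintype V] [DecidableEq V] in
private theorem DblUp_unique {τ : V × Bool → Bool} (h : ¬ IsDiag τ) {v v' : V}
    (hv : ∀ u, u ≠ v → τ (u, false) = τ (u, true)) (hv' : ∀ u, u ≠ v' → τ (u, false) = τ (u, true)) :
    v = v' := by
  by_contra hne
  apply h
  intro u
  by_cases hu : u = v
  · exact hv' u (hu ▸ hne)
  · exact hv u hu

open Classical in
/-- The extension. -/
private noncomputable def DblUp_F (w : (V → Bool) → ℝ) (f : (V → Bool) → ℝ)
    (τ : V × Bool → Bool) : ℝ :=
  if IsDiag τ then f (fun u => τ (u, false))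
  else if h : ∃ v, ∀ u, u ≠ v → τ (u, false) = τ (u, true) then
    ce w h.choose f (fun u => τ (u, false))
  else 0

private theorem DblUp_F_diag (w f : (V → Bool) → ℝ) {τ : V × Bool → Bool} (h : IsDiag τ) :
    DblUp_F w f τ = f (fun u => τ (u, false)) := by
  unfold DblUp_F
  rw [if_pos h]

private theorem DblUp_F_one (w f : (V → Bool) → ℝ) {τ : V × Bool → Bool} (h : ¬ IsDiag τ) {v : V}
    (hv : ∀ u, u ≠ v → τ (u, false) = τ (u, true)) :
    DblUp_F w f τ = ce w v f (fun u => τ (u, false)) := by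
  have he : ∃ v, ∀ u, u ≠ v → τ (u, false) = τ (u, true) := ⟨v, hv⟩
  unfold DblUp_F
  rw [if_neg h, dif_pos he]
  congr 1
  exact DblUp_unique h he.choose_spec hv

private theorem DblUp_F_zero (w f : (V → Bool) → ℝ) {τ : V × Bool → Bool} (h : ¬ IsDiag τ)
    (he : ¬ ∃ v, ∀ u, u ≠ v → τ (u, false) = τ (u, true)) : DblUp_F w f τ = 0 := by
  unfold DblUp_F
  rw [if_neg h, dif_neg he]

private theorem DblUp_abs_ce {w : (V → Bool) → ℝ} (hw : ∀ σ, 0 < w σ) {f : (V → Bool) → ℝ} {B : ℝ}
    (hB : ∀ σ, |f σ| ≤ B) (v : V) (σ : V → Bool) : |ce w v f σ| ≤ B := by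
  unfold ce
  have h1 := hw σ
  have h2 := hw (flip v σ)
  have hpos : 0 < w σ + w (flip v σ) := add_pos h1 h2
  rw [abs_div, abs_of_pos hpos, div_le_iff₀ hpos]
  calc |w σ * f σ + w (flip v σ) * f (flip v σ)|
      ≤ |w σ * f σ| + |w (flip v σ) * f (flip v σ)| := abs_add_le _ _
    _ = w σ * |f σ| + w (flip v σ) * |f (flip v σ)| := by
        rw [abs_mul, abs_mul, abs_of_pos h1, abs_of_pos h2]
    _ ≤ w σ * B + w (flip v σ) * B :=
        add_le_add (mul_le_mul_of_nonneg_left (hB _) h1.le)
          (mul_le_mul_of_nonneg_left (hB _) h2.le)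
    _ = B * (w σ + w (flip v σ)) := by ring

private theorem DblUp_abs_F {w : (V → Bool) → ℝ} (hw : ∀ σ, 0 < w σ) {f : (V → Bool) → ℝ} {B : ℝ}
    (hB0 : 0 ≤ B) (hB : ∀ σ, |f σ| ≤ B) (τ : V × Bool → Bool) : |DblUp_F w f τ| ≤ B := by
  by_cases h : IsDiag τ
  · rw [DblUp_F_diag w f h]
    exact hB _
  · by_cases he : ∃ v, ∀ u, u ≠ v → τ (u, false) = τ (u, true)
    · obtain ⟨v, hv⟩ := he
      rw [DblUp_F_one w f h hv]
      exact DblUp_abs_ce hw hB v _
    · rw [DblUp_F_zero w f h he, abs_zero]
      exact hB0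

omit [Fintype V] [DecidableEq V] in
private theorem DblUp_isDiag_neg {τ : V × Bool → Bool} : IsDiag (neg τ) ↔ IsDiag τ := by
  unfold IsDiag neg
  refine forall_congr' fun v => ?_
  simp

private theorem DblUp_ce_neg {w : (V → Bool) → ℝ} (hsym : ∀ σ, w (neg σ) = w σ)
    {f : (V → Bool) → ℝ} (hf : Odd' f) (v : V) (σ : V → Bool) :
    ce w v f (neg σ) = -ce w v f σ := by
  rw [← ce_neg hsym]
  have e : (fun τ => f (neg τ)) = fun τ => -f τ := by
    funext τ
    exact hf τ
  rw [e]
  unfold ce
  ring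

private theorem DblUp_odd {w : (V → Bool) → ℝ} (hsym : ∀ σ, w (neg σ) = w σ)
    {f : (V → Bool) → ℝ} (hf : Odd' f) : Odd' (DblUp_F w f) := by
  intro τ
  have e0 : (fun u => neg τ (u, false)) = neg (fun u => τ (u, false)) := rfl
  by_cases h : IsDiag τ
  · rw [DblUp_F_diag w f h, DblUp_F_diag w f (DblUp_isDiag_neg.mpr h), e0]
    exact hf _
  · have h' : ¬ IsDiag (neg τ) := fun h1 => h (DblUp_isDiag_neg.mp h1)
    by_cases he : ∃ v, ∀ u, u ≠ v → τ (u, false) = τ (u, true)
    · obtain ⟨v, hv⟩ := he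
      have hv' : ∀ u, u ≠ v → neg τ (u, false) = neg τ (u, true) := by
        intro u hu
        show (!τ (u, false)) = !τ (u, true)
        rw [hv u hu]
      rw [DblUp_F_one w f h hv, DblUp_F_one w f h' hv', e0]
      exact DblUp_ce_neg hsym hf v _
    · have he' : ¬ ∃ v, ∀ u, u ≠ v → neg τ (u, false) = neg τ (u, true) := by
        rintro ⟨v, hv⟩
        apply he
        refine ⟨v, fun u hu => ?_⟩
        have h2 : (!τ (u, false)) = !τ (u, true) := hv u hu
        simpa using h2
      rw [DblUp_F_zero w f h he, DblUp_F_zero w f h' he', neg_zero]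

private theorem DblUp_F_flip (w f : (V → Bool) → ℝ) (v : V) (x : Bool) (σ : V → Bool)
    (hnd : ¬ IsDiag (flip (v, x) (diag σ))) :
    DblUp_F w f (flip (v, x) (diag σ)) = ce w v f σ := by
  have hv : ∀ u, u ≠ v → flip (v, x) (diag σ) (u, false) = flip (v, x) (diag σ) (u, true) := by
    intro u hu
    have h1 : ∀ b, flip (v, x) (diag σ) (u, b) = σ u := by
      intro b
      unfold flip
      rw [Function.update_of_ne (by
        intro h
        exact hu (congrArg Prod.fst h))]
      rfl
    rw [h1, h1]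
  rw [DblUp_F_one w f hnd hv]
  cases x
  · have e : (fun u => flip (v, false) (diag σ) (u, false)) = flip v σ := by
      funext u
      unfold flip
      by_cases hu : u = v
      · subst hu
        rw [Function.update_self, Function.update_self]
        rfl
      · rw [Function.update_of_ne hu, Function.update_of_ne (by
          intro h
          exact hu (congrArg Prod.fst h))]
        rfl
    rw [e, ce_flip]
  · have e : (fun u => flip (v, true) (diag σ) (u, false)) = σ := by
      funext u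
      unfold flip
      rw [Function.update_of_ne (by
        intro h
        exact absurd (congrArg Prod.snd h) (by simp))]
      rfl
    rw [e]

private theorem DblUp_sq {w : (V → Bool) → ℝ} (hw : ∀ σ, 0 < w σ) (f : (V → Bool) → ℝ) :
    ∑ v, ∑ σ, w σ * ((f σ - ce w v f σ) ^ 2 / 4) * 2 = dir w f / 4 := by
  have h1 : ∀ v, ∑ σ, w σ * ((f σ - ce w v f σ) ^ 2 / 4) * 2 =
      (∑ σ, w σ * w (flip v σ) / (w σ + w (flip v σ)) * (f σ - f (flip v σ)) ^ 2) / 4 := by
    intro v
    have h2 := ip_sub_ce hw v f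
    have h3 := ip_ce hw v f f
    have h4 : ∑ σ, w σ * ((f σ - ce w v f σ) ^ 2 / 4) * 2 =
        (ip w f f - 2 * ip w f (ce w v f) + ip w (ce w v f) (ce w v f)) / 2 := by
      unfold ip
      rw [Finset.mul_sum, ← Finset.sum_sub_distrib, ← Finset.sum_add_distrib, Finset.sum_div]
      refine Finset.sum_congr rfl fun σ _ => ?_
      ring
    rw [h4, ← h3]
    linarith
  rw [Finset.sum_congr rfl fun v _ => h1 v, ← Finset.sum_div]
  unfold dir
  rw [Finset.sum_comm]

theorem dbl_up (hA : Coup A) {lam K0 : ℝ} (h0 : 0 ≤ lam)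
    (h : ∀ K, K0 ≤ K → OddR (W (dbl A K)) Finset.univ lam) {f : (V → Bool) → ℝ} (hf : Odd' f) :
    4 * lam * ip (W A) f f ≤ dir (W A) f := by
  set B : ℝ := ∑ σ, |f σ| with hBdef
  have hB0 : 0 ≤ B := Finset.sum_nonneg fun σ _ => abs_nonneg _
  have hB : ∀ σ, |f σ| ≤ B := fun σ =>
    Finset.single_le_sum (f := fun σ => |f σ|) (fun σ _ => abs_nonneg _) (Finset.mem_univ σ)
  have hw : ∀ σ, 0 < W A σ := W_pos A
  set Z : ℝ := ∑ τ, W A τ with hZ
  have hZ0 : 0 ≤ Z := Finset.sum_nonneg fun σ _ => (hw σ).le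
  set F : (V × Bool → Bool) → ℝ := DblUp_F (W A) f with hF
  have hFodd : Odd' F := DblUp_odd (fun σ => W_neg σ) hf
  have hFB : ∀ τ, |F τ| ≤ B := DblUp_abs_F hw hB0 hB
  have hDB : ∀ p τ, D p F τ * D p F τ ≤ B ^ 2 := by
    intro p τ
    have h1 : |D p F τ| ≤ B := by
      unfold D
      rw [abs_div, abs_of_pos (by norm_num : (0 : ℝ) < 2), div_le_iff₀ (by norm_num : (0 : ℝ) < 2)]
      have := abs_sub (F (Function.update τ p true)) (F (Function.update τ p false))
      linarith [hFB (Function.update τ p true), hFB (Function.update τ p false)]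
    rw [← sq, ← sq_abs]
    exact pow_le_pow_left₀ (abs_nonneg _) h1 2
  have hmain : ∀ K : ℝ, max K0 0 ≤ K → lam * ip (W A) f f ≤ dir (W A) f / 4 +
      (Fintype.card (V × Bool) : ℝ) * (2 ^ (2 * Fintype.card V) *
        (Real.exp (-(2 * K)) * Z * B ^ 2)) := by
    intro K hK
    have hK0 : K0 ≤ K := (le_max_left _ _).trans hK
    have hKp : 0 ≤ K := (le_max_right _ _).trans hK
    have hodd : OddR (wd A K) Finset.univ lam := odd_wd.mpr (h K hK0)
    have h1 := hodd F hFodd (fun σ τ hst => by
      have : σ = τ := funext fun v => hst v (Finset.mem_univ v)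
      rw [this])
    unfold qf at h1
    -- lower bound for the inner product
    have h2 : ip (W A) f f ≤ ip (wd A K) F F := by
      have h3 := sum_diag_le (V := V) (F := fun τ => wd A K τ * (F τ * F τ))
        (fun τ => mul_nonneg (wd_pos A K τ).le (mul_self_nonneg _))
      refine le_trans (le_of_eq ?_) h3
      unfold ip
      refine Finset.sum_congr rfl fun σ _ => ?_
      have e1 : F (diag σ) = f σ := DblUp_F_diag (W A) f (fun v => rfl)
      show W A σ * (f σ * f σ) = wd A K (diag σ) * (F (diag σ) * F (diag σ))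
      rw [wd_diag hA, e1]
    -- upper bound for the Dirichlet form
    have h4 : ∀ p : V × Bool, ∑ τ, wd A K τ * (D p F τ * D p F τ) ≤
        ∑ σ, W A σ * ((f σ - ce (W A) p.1 f σ) ^ 2 / 4) +
          2 ^ (2 * Fintype.card V) * (Real.exp (-(2 * K)) * Z * B ^ 2) := by
      intro p
      have h5 := sum_le_diag (V := V) (F := fun τ => wd A K τ * (D p F τ * D p F τ))
        (B := Real.exp (-(2 * K)) * Z * B ^ 2) (by positivity)
        (fun τ hτ => by
          have h6 := wd_broken hA hKp hτ
          exact mul_le_mul h6 (hDB p τ) (mul_self_nonneg _) (by positivity))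
      refine h5.trans (le_of_eq ?_)
      congr 1
      refine Finset.sum_congr rfl fun σ _ => ?_
      obtain ⟨v, x⟩ := p
      have e1 : F (diag σ) = f σ := DblUp_F_diag (W A) f (fun v => rfl)
      have e2 : F (flip (v, x) (diag σ)) = ce (W A) v f σ :=
        DblUp_F_flip (W A) f v x σ (not_diag_flip (v, x) σ)
      show wd A K (diag σ) * (D (v, x) F (diag σ) * D (v, x) F (diag σ)) = _
      rw [wd_diag hA, D_sq, e1, e2]
    have h7 : am (wd A K) F F ≤ dir (W A) f / 4 + (Fintype.card (V × Bool) : ℝ) *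
        (2 ^ (2 * Fintype.card V) * (Real.exp (-(2 * K)) * Z * B ^ 2)) := by
      unfold am
      refine (Finset.sum_le_sum fun p _ => h4 p).trans (le_of_eq ?_)
      rw [Finset.sum_add_distrib, Finset.sum_const, Finset.card_univ, nsmul_eq_mul]
      congr 1
      rw [Fintype.sum_prod_type, ← DblUp_sq hw f]
      refine Finset.sum_congr rfl fun v _ => ?_
      rw [Fintype.sum_bool, ← Finset.sum_add_distrib]
      refine Finset.sum_congr rfl fun σ _ => ?_
      ring
    have h8 := mul_le_mul_of_nonneg_left h2 h0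
    linarith
  -- the limit
  have hlim : Filter.Tendsto (fun K : ℝ => dir (W A) f / 4 +
      (Fintype.card (V × Bool) : ℝ) * (2 ^ (2 * Fintype.card V) *
        (Real.exp (-(2 * K)) * Z * B ^ 2))) Filter.atTop (nhds (dir (W A) f / 4 +
      (Fintype.card (V × Bool) : ℝ) * (2 ^ (2 * Fintype.card V) * (0 * Z * B ^ 2)))) := by
    have h1 : Filter.Tendsto (fun K : ℝ => Real.exp (-(2 * K))) Filter.atTop (nhds 0) := by
      refine Real.tendsto_exp_neg_atTop_nhds_zero.comp ?_
      exact Filter.Tendsto.const_mul_atTop (by norm_num) Filter.tendsto_id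
    exact Filter.Tendsto.const_add _ (Filter.Tendsto.const_mul _ (Filter.Tendsto.const_mul _
      ((h1.mul_const _).mul_const _)))
  have hfin := ge_of_tendsto hlim (Filter.eventually_atTop.mpr ⟨max K0 0, hmain⟩)
  have e : dir (W A) f / 4 + (Fintype.card (V × Bool) : ℝ) * (2 ^ (2 * Fintype.card V) *
      (0 * Z * B ^ 2)) = dir (W A) f / 4 := by ring
  rw [e] at hfin
  linarith

end Pool.Agent.Lib.MP_f82811_pr.TC
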