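import Pool.Agent.Lib.MP_f82811_pr.TC.Pin

/-!
# Module DblW: the doubled weight

`wd A K σ = exp (-K n) * W (dbl A K) σ`, `n = |V|`. `en (dbl A K) σ = en A (fun v => σ (v, false)) + K * ∑ v, sp (v, false) σ *
sp (v, true) σ` (the pair `(v, false), (v, true)` appears twice in the double sum, with the factor one half).
So `wd A K (diag σ) = W A σ`, and if `σ` is not of the form `diag τ` at least one of the products is `-1`,
so `wd A K σ ≤ exp (-2 K) * W A (σ (·, false))` (for `K ≥ 0`), which is at most `exp (-2 K)` times `B = ∑ τ, W A τ`.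
`sum_diag`: the configurations `diag σ` and the others.
`flip_diag`: flipping `(v, x)` in `diag σ` and `(v, !x)` in `diag (flip v σ)` gives the same configuration; it is
not of the form `diag τ`.
-/

set_option autoImplicit false

namespace Pool.Agent.Lib.MP_f82811_pr.TC

open Finset HT

variable {V : Type*} [Fintype V] [DecidableEq V] {A : V → V → ℝ}

/-- The configuration has equal copies. -/
def IsDiag (σ : V × Bool → Bool) : Prop := ∀ v, σ (v, false) = σ (v, true)

/-- The normalised doubled weight. -/
noncomputable def wd (A : V → V → ℝ) (K : ℝ) (σ : V × Bool → Bool) : ℝ :=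
  Real.exp (-(K * Fintype.card V)) * W (dbl A K) σ

theorem wd_pos (A : V → V → ℝ) (K : ℝ) (σ : V × Bool → Bool) : 0 < wd A K σ :=
  mul_pos (Real.exp_pos _) (Real.exp_pos _)

omit [DecidableEq V] in
private theorem spin_mul_le (a b : Bool) : spin a * spin b ≤ 1 := by
  cases a <;> cases b <;> norm_num [spin]

private theorem en_dbl (A : V → V → ℝ) (K : ℝ) (σ : V × Bool → Bool) :
    en (dbl A K) σ = en A (fun v => σ (v, false)) +
      K * ∑ v, spin (σ (v, false)) * spin (σ (v, true)) := by
  have h1 : ∀ a : V, ∀ x : Bool, ∑ q : V × Bool, dbl A K (a, x) q * sp (a, x) σ * sp q σ =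
      (if x = false then ∑ b, A a b * spin (σ (a, false)) * spin (σ (b, false)) else 0) +
        K * (spin (σ (a, false)) * spin (σ (a, true))) := by
    intro a x
    rw [Fintype.sum_prod_type]
    simp only [Fintype.sum_bool]
    cases x
    · have h2 : ∀ b : V, dbl A K (a, false) (b, true) * sp (a, false) σ * sp (b, true) σ +
          dbl A K (a, false) (b, false) * sp (a, false) σ * sp (b, false) σ =
          (if b = a then K * (spin (σ (a, false)) * spin (σ (a, true))) else 0) +
            A a b * spin (σ (a, false)) * spin (σ (b, false)) := by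
        intro b
        by_cases hb : b = a
        · subst hb
          simp [dbl, sp]
          ring
        · have hb' : a ≠ b := fun e => hb e.symm
          simp [dbl, sp, hb, hb']
      rw [Finset.sum_congr rfl fun b _ => h2 b, Finset.sum_add_distrib, Finset.sum_ite_eq']
      simp
      ring
    · have h2 : ∀ b : V, dbl A K (a, true) (b, true) * sp (a, true) σ * sp (b, true) σ +
          dbl A K (a, true) (b, false) * sp (a, true) σ * sp (b, false) σ =
          (if b = a then K * (spin (σ (a, false)) * spin (σ (a, true))) else 0) := by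
        intro b
        by_cases hb : b = a
        · subst hb
          simp [dbl, sp]
          ring
        · have hb' : a ≠ b := fun e => hb e.symm
          simp [dbl, hb, hb']
      rw [Finset.sum_congr rfl fun b _ => h2 b, Finset.sum_ite_eq']
      simp
  unfold en
  rw [Fintype.sum_prod_type]
  simp only [Fintype.sum_bool]
  rw [Finset.sum_congr rfl fun a _ => by rw [h1 a true, h1 a false]]
  simp only [Bool.true_eq_false, if_false, if_true, zero_add]
  rw [Finset.sum_add_distrib, Finset.sum_add_distrib, ← Finset.mul_sum]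
  simp only [sp]
  ring

theorem wd_diag (hA : Coup A) (K : ℝ) (σ : V → Bool) : wd A K (diag σ) = W A σ := by
  unfold wd W
  rw [en_dbl, ← Real.exp_add]
  congr 1
  have h1 : ∀ v : V, spin (diag σ (v, false)) * spin (diag σ (v, true)) = 1 := by
    intro v
    show spin (σ v) * spin (σ v) = 1
    cases σ v <;> norm_num [spin]
  rw [Finset.sum_congr rfl fun v _ => h1 v]
  simp only [Finset.sum_const, Finset.card_univ, nsmul_eq_mul, mul_one]
  have h2 : (fun v => diag σ (v, false)) = σ := rfl
  rw [h2]
  ring

theorem wd_broken (hA : Coup A) {K : ℝ} (hK : 0 ≤ K) {σ : V × Bool → Bool} (h : ¬ IsDiag σ) :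
    wd A K σ ≤ Real.exp (-(2 * K)) * ∑ τ, W A τ := by
  have h1 : wd A K σ ≤ Real.exp (-(2 * K)) * W A (fun v => σ (v, false)) := by
    unfold wd W
    rw [en_dbl, ← Real.exp_add, ← Real.exp_add]
    refine Real.exp_le_exp.2 ?_
    obtain ⟨v, hv⟩ : ∃ v, σ (v, false) ≠ σ (v, true) := by
      by_contra hc
      push Not at hc
      exact h hc
    have h2 : ∑ v, spin (σ (v, false)) * spin (σ (v, true)) ≤ (Fintype.card V : ℝ) - 2 := by
      rw [← Finset.add_sum_erase _ _ (Finset.mem_univ v)]
      have h3 : spin (σ (v, false)) * spin (σ (v, true)) = -1 := by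
        revert hv
        cases σ (v, false) <;> cases σ (v, true) <;> norm_num [spin]
      have h4 : ∑ u ∈ Finset.univ.erase v, spin (σ (u, false)) * spin (σ (u, true)) ≤
          ((Finset.univ.erase v).card : ℝ) := by
        have := Finset.sum_le_sum (s := Finset.univ.erase v)
          (f := fun u => spin (σ (u, false)) * spin (σ (u, true))) (g := fun _ => (1 : ℝ))
          fun u _ => spin_mul_le _ _
        simpa using this
      have h5 : ((Finset.univ.erase v).card : ℝ) = (Fintype.card V : ℝ) - 1 := by
        rw [Finset.card_erase_of_mem (Finset.mem_univ v), Finset.card_univ]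
        have : 1 ≤ Fintype.card V := Fintype.card_pos_iff.2 ⟨v⟩
        push_cast [Nat.cast_sub this]
        ring
      rw [h3]
      linarith
    have h3 := mul_le_mul_of_nonneg_left h2 hK
    linarith
  refine h1.trans (mul_le_mul_of_nonneg_left ?_ (Real.exp_pos _).le)
  exact Finset.single_le_sum (f := fun τ => W A τ) (fun τ _ => (Real.exp_pos _).le)
    (Finset.mem_univ _)

theorem not_diag_flip (p : V × Bool) (σ : V → Bool) : ¬ IsDiag (flip p (diag σ)) := by
  obtain ⟨v, x⟩ := p
  intro h
  have h1 := h v
  cases x <;> simp [flip, diag] at h1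

theorem flip_diag (v : V) (x : Bool) (σ : V → Bool) :
    flip (v, !x) (diag (flip v σ)) = flip (v, x) (diag σ) := by
  funext ⟨u, y⟩
  by_cases hu : u = v
  · subst hu
    cases x <;> cases y <;> simp [flip, diag]
  · simp [flip, diag, hu]

private theorem diag_inj : Function.Injective (diag : (V → Bool) → V × Bool → Bool) := by
  intro σ τ h
  funext v
  exact congrFun h (v, false)

private theorem isDiag_iff (ρ : V × Bool → Bool) :
    IsDiag ρ ↔ ρ ∈ Finset.univ.image (diag : (V → Bool) → V × Bool → Bool) := by
  constructor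
  · intro h
    refine Finset.mem_image.2 ⟨fun v => ρ (v, false), Finset.mem_univ _, ?_⟩
    funext ⟨u, y⟩
    cases y
    · rfl
    · exact h u
  · intro h
    obtain ⟨σ, _, rfl⟩ := Finset.mem_image.1 h
    intro v
    rfl

/-- A sum over the doubled configurations of a nonnegative function is at least the sum over the
configurations with equal copies. -/
theorem sum_diag_le {F : (V × Bool → Bool) → ℝ} (hF : ∀ σ, 0 ≤ F σ) :
    ∑ σ : V → Bool, F (diag σ) ≤ ∑ σ, F σ := by
  rw [← Finset.sum_image (f := F) (s := Finset.univ) (g := diag) (fun a _ b _ h => diag_inj h)]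
  exact Finset.sum_le_sum_of_subset_of_nonneg (Finset.subset_univ _) fun σ _ _ => hF σ

/-- If `F` is bounded by `B` on the other configurations. -/
theorem sum_le_diag {F : (V × Bool → Bool) → ℝ} {B : ℝ} (hB : 0 ≤ B)
    (hF : ∀ σ, ¬ IsDiag σ → F σ ≤ B) :
    ∑ σ, F σ ≤ ∑ σ : V → Bool, F (diag σ) + 2 ^ (2 * Fintype.card V) * B := by
  rw [← Finset.sum_image (f := F) (s := Finset.univ) (g := diag) (fun a _ b _ h => diag_inj h),
    ← Finset.sum_add_sum_compl (Finset.univ.image (diag : (V → Bool) → V × Bool → Bool)) F]
  have h1 : ∑ σ ∈ (Finset.univ.image (diag : (V → Bool) → V × Bool → Bool))ᶜ, F σ ≤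
      ((Finset.univ.image (diag : (V → Bool) → V × Bool → Bool))ᶜ.card : ℝ) * B := by
    have := Finset.sum_le_sum (s := (Finset.univ.image (diag : (V → Bool) → V × Bool → Bool))ᶜ)
      (f := F) (g := fun _ => B) fun σ hσ => hF σ fun h => by
        rw [Finset.mem_compl] at hσ
        exact hσ ((isDiag_iff σ).1 h)
    rwa [Finset.sum_const, nsmul_eq_mul] at this
  have h2 : ((Finset.univ.image (diag : (V → Bool) → V × Bool → Bool))ᶜ.card : ℝ) ≤
      2 ^ (2 * Fintype.card V) := by
    have h3 := Finset.card_le_univ (Finset.univ.image (diag : (V → Bool) → V × Bool → Bool))ᶜ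
    have h4 : Fintype.card (V × Bool → Bool) = 2 ^ (2 * Fintype.card V) := by
      simp [mul_comm]
    rw [h4] at h3
    exact_mod_cast h3
  have h3 := mul_le_mul_of_nonneg_right h2 hB
  linarith

/-- `qf` for the normalised weight. -/
theorem odd_wd {K lam : ℝ} :
    OddR (wd A K) Finset.univ lam ↔ OddR (W (dbl A K)) Finset.univ lam := by
  have hc : 0 < Real.exp (-(K * Fintype.card V)) := Real.exp_pos _
  constructor
  · intro h
    have h1 := OddR.scale (inv_pos.2 hc) h
    have h2 : (fun σ => (Real.exp (-(K * Fintype.card V)))⁻¹ * wd A K σ) = W (dbl A K) := by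
      funext σ
      unfold wd
      rw [← mul_assoc, inv_mul_cancel₀ hc.ne', one_mul]
    rwa [h2] at h1
  · intro h
    exact OddR.scale hc h

end Pool.Agent.Lib.MP_f82811_pr.TC
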