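import Pool.Agent.Lib.MP_f82811_pr.HT.Path
import Pool.Agent.Lib.MP_f82811_pr.HT.Sym
import Pool.Agent.Lib.MP_f82811_pr.HT.Graph
import Pool.Agent.Lib.MP_f82811_pr.Bridge

/-!
# Raising couplings of a triangle in a cactus: definitions

The arithmetic mean dynamics (its Dirichlet form is linear in the weight), functions of the spins in
a finite set, pinned weights, reachability.
-/

set_option autoImplicit false

namespace Pool.Agent.Lib.MP_f82811_pr.TC

open Finset HT

variable {V : Type*} [Fintype V] [DecidableEq V]

/-- `f` depends only on the spins in `X`. -/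
def Dep (X : Finset V) (f : (V → Bool) → ℝ) : Prop :=
  ∀ σ τ, (∀ v ∈ X, σ v = τ v) → f σ = f τ

/-- The arithmetic mean Dirichlet form. -/
noncomputable def am (w f g : (V → Bool) → ℝ) : ℝ := ∑ v, ∑ σ, w σ * (D v f σ * D v g σ)

/-- The quadratic form `am - lam * ip`. -/
noncomputable def qf (lam : ℝ) (w f g : (V → Bool) → ℝ) : ℝ := am w f g - lam * ip w f g

/-- The integral of `f`. -/
noncomputable def tot (w f : (V → Bool) → ℝ) : ℝ := ∑ σ, w σ * f σ

/-- The generator of the arithmetic mean dynamics. -/
noncomputable def Hop (w f : (V → Bool) → ℝ) (σ : V → Bool) : ℝ :=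
  ∑ v, (1 + w (flip v σ) / w σ) * (f σ - f (flip v σ)) / 4

/-- The Poincare inequality for the odd functions of the spins in `X`. -/
def OddR (w : (V → Bool) → ℝ) (X : Finset V) (lam : ℝ) : Prop :=
  ∀ f : (V → Bool) → ℝ, Odd' f → Dep X f → 0 ≤ qf lam w f f

/-- The Poincare inequality for the functions of the spins in `X` with integral zero. -/
def FrzR (w : (V → Bool) → ℝ) (X : Finset V) (lam : ℝ) : Prop :=
  ∀ f : (V → Bool) → ℝ, Dep X f → tot w f = 0 → 0 ≤ qf lam w f f

/-- Positive weights with the lattice condition. -/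
structure Fkg (w : (V → Bool) → ℝ) : Prop where
  pos : ∀ σ, 0 < w σ
  lat : ∀ σ τ, w σ * w τ ≤ w (σ ⊓ τ) * w (σ ⊔ τ)

/-- The even part. -/
noncomputable def sy (f : (V → Bool) → ℝ) (σ : V → Bool) : ℝ := (f σ + f (neg σ)) / 2

/-- The couplings live on `X`. -/
def Supp (J : V → V → ℝ) (X : Finset V) : Prop := ∀ a b, J a b ≠ 0 → a ∈ X ∧ b ∈ X

/-- Remove the couplings of `u`. -/
def off (J : V → V → ℝ) (u a b : V) : ℝ := if a = u ∨ b = u then 0 else J a b

/-- Keep only the couplings inside `X`. -/
def res (J : V → V → ℝ) (X : Finset V) (a b : V) : ℝ := if a ∈ X ∧ b ∈ X then J a b else 0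

/-- Change the coupling of the pair `k, l` to `t`. -/
def setc (J : V → V → ℝ) (k l : V) (t : ℝ) (a b : V) : ℝ :=
  if (a = k ∧ b = l) ∨ (a = l ∧ b = k) then t else J a b

/-- The weight of the other spins when the spin at `u` is plus. -/
noncomputable def Fw (J : V → V → ℝ) (u : V) (σ : V → Bool) : ℝ :=
  W (off J u) σ * Real.exp (fld J u σ)

/-- Half of the marginal weight of the spins different from `u`. -/
noncomputable def Sw (J : V → V → ℝ) (u : V) (σ : V → Bool) : ℝ :=
  W (off J u) σ * Real.cosh (fld J u σ)

/-- Reachability through couplings different from zero, outside `S`. -/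
def Rch (J : V → V → ℝ) (S : Finset V) (a b : V) : Prop :=
  Relation.ReflTransGen (fun x y => J x y ≠ 0 ∧ x ∉ S ∧ y ∉ S) a b

/-- No vertex which is reachable from `u` has three neighbours that are mutually reachable outside
it: the component of `u` is a cactus. -/
def Cac (J : V → V → ℝ) (u : V) : Prop :=
  ∀ x a b c, Rch J ∅ u x → J x a ≠ 0 → J x b ≠ 0 → J x c ≠ 0 → a ≠ b → b ≠ c → a ≠ c →
    Rch J {x} a b → Rch J {x} b c → False

/-- The pair `k, l` is short: a neighbour of `k` and a neighbour of `l` that are mutually reachable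
outside `k, l` are equal. -/
def Sh (J : V → V → ℝ) (k l : V) : Prop :=
  ∀ a b, J k a ≠ 0 → J l b ≠ 0 → a ≠ l → b ≠ k → Rch J {k, l} a b → a = b

/-- The configuration that agrees with `σ` in `C` and with `τ` outside. -/
def mix (C : Finset V) (σ τ : V → Bool) : V → Bool := fun v => if v ∈ C then σ v else τ v

/-- The average of `f` over the spins outside `C` with the weight `b`. -/
noncomputable def avg (C : Finset V) (b f : (V → Bool) → ℝ) (σ : V → Bool) : ℝ :=
  (∑ τ, b τ * f (mix C σ τ)) / ∑ τ, b τ

/-- The values of `g` when the spin at `k` is plus and the spin at `l` is minus. -/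
def slc (k l : V) (g : (V → Bool) → ℝ) (σ : V → Bool) : ℝ :=
  g (Function.update (Function.update σ k true) l false)

/-- The weight of the other spins when the spin at `k` is plus and the spin at `l` is minus. -/
noncomputable def nuw (J : V → V → ℝ) (k l : V) (σ : V → Bool) : ℝ :=
  W (off (off J k) l) σ * Real.exp (fld J k σ - fld J l σ)

/-- The reduced couplings: `k` keeps the excess over `l` on `P`, `l` keeps the excess over `k`
outside `P`, the pair `k, l` is decoupled. -/
noncomputable def low (J : V → V → ℝ) (k l : V) (P : Finset V) (a b : V) : ℝ :=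
  if (a = k ∨ a = l) ∧ (b = k ∨ b = l) then 0
  else if a = k then (if b ∈ P then J k b - J l b else 0)
  else if b = k then (if a ∈ P then J k a - J l a else 0)
  else if a = l then (if b ∈ P then 0 else J l b - J k b)
  else if b = l then (if a ∈ P then 0 else J l a - J k a)
  else J a b

/-- Two copies of every vertex, coupled by `K`; the first copies carry the couplings `A`. -/
def dbl (A : V → V → ℝ) (K : ℝ) (p q : V × Bool) : ℝ :=
  if p.2 = false ∧ q.2 = false then A p.1 q.1
  else if p.1 = q.1 ∧ p.2 ≠ q.2 then K else 0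

/-- The configuration with equal copies. -/
def diag (σ : V → Bool) (p : V × Bool) : Bool := σ p.1

end Pool.Agent.Lib.MP_f82811_pr.TC
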