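import Pool.Agent.Lib.MP_f82811_pr.TC.Pin

/-!
# Module Dom: stochastic domination

Proof. `b σ = Fw J l (neg σ) = W (off J l) σ * exp (- fld J l σ)` (`W` is even, `fld` is odd), so
`tot (b ∘ neg) f - tot b f = ∑ W (off J l) σ * (2 * sinh (fld J l σ)) * f σ = ip (W (off J l)) (2 sinh (fld)) f ≥ 0` by
`fkg_ip`: `sinh (fld J l)` is monotone and odd, so its integral against the even weight is zero.
-/

set_option autoImplicit false

namespace Pool.Agent.Lib.MP_f82811_pr.TC

open Finset HT

variable {V : Type*} [Fintype V] [DecidableEq V] {J : V → V → ℝ}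

omit [DecidableEq V] in
theorem Dom_fld_neg (l : V) (σ : V → Bool) : fld J l (neg σ) = -fld J l σ := by
  unfold fld
  rw [← Finset.sum_neg_distrib]
  refine Finset.sum_congr rfl fun u _ => ?_
  rw [sp_neg]
  ring

omit [DecidableEq V] in
theorem Dom_fld_mono (hJ : Coup J) (l : V) : Monotone (fld J l) := by
  intro σ τ h
  unfold fld
  refine Finset.sum_le_sum fun u _ => mul_le_mul_of_nonneg_left ?_ (hJ.nonneg l u)
  have h1 := h u
  unfold sp spin
  cases h2 : σ u <;> cases h3 : τ u
  · simp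
  · simp
  · rw [h2, h3] at h1
    exact (Bool.false_ne_true (le_antisymm (Bool.false_le _) h1)).elim
  · simp

theorem tot_dom (hJ : Coup J) (l : V) {f : (V → Bool) → ℝ} (hf : Monotone f) :
    tot (fun σ => Fw J l (neg σ)) f ≤ tot (fun σ => Fw J l (neg (neg σ))) f := by
  have h1 : tot (fun σ => Fw J l (neg (neg σ))) f - tot (fun σ => Fw J l (neg σ)) f =
      ip (W (off J l)) (fun σ => 2 * Real.sinh (fld J l σ)) f := by
    unfold tot ip
    rw [← Finset.sum_sub_distrib]
    refine Finset.sum_congr rfl fun σ _ => ?_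
    simp only [neg_neg']
    unfold Fw
    rw [Dom_fld_neg, W_neg, Real.sinh_eq]
    ring
  have h2 : 0 ≤ ip (W (off J l)) (fun σ => 2 * Real.sinh (fld J l σ)) f := by
    refine fkg_ip (fun σ => W_pos _ σ) (fun σ τ => W_fkg (coup_off hJ l) σ τ) ?_ hf ?_
    · intro σ τ h
      have := Real.sinh_le_sinh.2 (Dom_fld_mono hJ l h)
      show 2 * Real.sinh (fld J l σ) ≤ 2 * Real.sinh (fld J l τ)
      linarith
    · refine ip_odd_even (fun σ => W_neg σ) ?_ (fun _ => rfl)
      intro σ
      show 2 * Real.sinh (fld J l (neg σ)) = -(2 * Real.sinh (fld J l σ))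
      rw [Dom_fld_neg, Real.sinh_neg]
      ring
  linarith

end Pool.Agent.Lib.MP_f82811_pr.TC
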