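import Mathlib

/-!
# Module Num: numbers

`num_two`: let `s_i = √(a + lam * N_i ^ 2)`. Adding the hypotheses `τ N2 ≤ N1`, `τ N1 ≤ N2` gives
`N1, N2 ≥ 0`. From `(N1 - τ N2) (N2 - τ N1) ≥ 0`: `N1 ^ 2 + N2 ^ 2 ≤ N1 N2 (τ + 1 / τ)`, hence
`(s1 s2) ^ 2 = a ^ 2 + a lam (N1 ^ 2 + N2 ^ 2) + lam ^ 2 N1 ^ 2 N2 ^ 2 ≤ (lam N1 N2 + a (τ + 1 / τ) / 2) ^ 2`
(`τ + 1 / τ ≥ 2`), so `s1 s2 ≤ lam N1 N2 + a (τ + 1 / τ) / 2` and
`(α s1 + β s2) ^ 2 ≤ a (α ^ 2 + β ^ 2 + α β (τ + 1 / τ)) + lam (α N1 + β N2) ^ 2 = a + lam (..) ^ 2`.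
With `|k_i| ≤ s_i √b`: `2 |α k1 + β k2| ≤ 2 (α s1 + β s2) √b ≤ a + lam (..) ^ 2 + b`.
`tanh_two`: four cases for the signs, `tanh (x + y) = (tanh x + tanh y) / (1 + tanh x tanh y)`.
-/

set_option autoImplicit false

namespace Pool.Agent.Lib.MP_f82811_pr.TC

theorem tanh_pos' {x : ℝ} (h : 0 < x) : 0 < Real.tanh x := by
  rw [Real.tanh_eq_sinh_div_cosh]
  exact div_pos (Real.sinh_pos_iff.2 h) (Real.cosh_pos x)

theorem tanh_nonneg' {x : ℝ} (h : 0 ≤ x) : 0 ≤ Real.tanh x := by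
  rw [Real.tanh_eq_sinh_div_cosh]
  exact div_nonneg (Real.sinh_nonneg_iff.2 h) (Real.cosh_pos x).le

theorem num_one {a b lam k N α : ℝ} (ha : 0 ≤ a) (hb : 0 ≤ b) (hlam : 0 ≤ lam) (hα : 0 ≤ α)
    (hα1 : α ≤ 1) (h : k ^ 2 ≤ (a + lam * N ^ 2) * b) :
    0 ≤ a + b + 2 * (α * k) + lam * (α * N) ^ 2 := by
  have hα2 : α ^ 2 ≤ 1 := by nlinarith
  have h1 : (2 * (α * k)) ^ 2 ≤ (α ^ 2 * (a + lam * N ^ 2) + b) ^ 2 := by
    have h2 : α ^ 2 * k ^ 2 ≤ α ^ 2 * ((a + lam * N ^ 2) * b) :=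
      mul_le_mul_of_nonneg_left h (sq_nonneg α)
    nlinarith [sq_nonneg (α ^ 2 * (a + lam * N ^ 2) - b)]
  have h3 : 0 ≤ α ^ 2 * (a + lam * N ^ 2) + b := by positivity
  have h4 := abs_le_of_sq_le_sq' h1 h3
  have h5 : α ^ 2 * a ≤ a := by nlinarith
  nlinarith [h4.1]

theorem num_two {a b lam k1 k2 N1 N2 τ α β : ℝ} (ha : 0 ≤ a) (hb : 0 ≤ b) (hlam : 0 ≤ lam)
    (hτ0 : 0 < τ) (hτ1 : τ < 1) (hα : 0 ≤ α) (hβ : 0 ≤ β)
    (h1 : k1 ^ 2 ≤ (a + lam * N1 ^ 2) * b) (h2 : k2 ^ 2 ≤ (a + lam * N2 ^ 2) * b)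
    (hN1 : τ * N2 ≤ N1) (hN2 : τ * N1 ≤ N2)
    (hαβ : α ^ 2 + β ^ 2 + α * β * (τ + 1 / τ) = 1) :
    0 ≤ a + b + 2 * (α * k1 + β * k2) + lam * (α * N1 + β * N2) ^ 2 := by
  have hN1' : 0 ≤ N1 := by
    have h3 : τ * (τ * N1) ≤ N1 := (mul_le_mul_of_nonneg_left hN2 hτ0.le).trans hN1
    have h4 : 0 < 1 - τ ^ 2 := by nlinarith
    have h5 : 0 ≤ (1 - τ ^ 2) * N1 := by nlinarith
    exact nonneg_of_mul_nonneg_right h5 h4
  have hN2' : 0 ≤ N2 := (mul_nonneg hτ0.le hN1').trans hN2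
  have hc2 : 2 ≤ τ + 1 / τ := by
    have h3 : τ + 1 / τ - 2 = (1 - τ) ^ 2 / τ := by
      field_simp
      ring
    have h4 : 0 ≤ (1 - τ) ^ 2 / τ := by positivity
    linarith
  have hNN : N1 ^ 2 + N2 ^ 2 ≤ N1 * N2 * (τ + 1 / τ) := by
    have h3 : 0 ≤ (N1 - τ * N2) * (N2 - τ * N1) / τ :=
      div_nonneg (mul_nonneg (by linarith) (by linarith)) hτ0.le
    have h4 : (N1 - τ * N2) * (N2 - τ * N1) / τ =
        N1 * N2 * (τ + 1 / τ) - (N1 ^ 2 + N2 ^ 2) := by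
      field_simp
      ring
    linarith
  obtain ⟨c, hc⟩ : ∃ c, c = τ + 1 / τ := ⟨_, rfl⟩
  rw [← hc] at hc2 hNN hαβ
  have hA1 : 0 ≤ a + lam * N1 ^ 2 := by positivity
  have hA2 : 0 ≤ a + lam * N2 ^ 2 := by positivity
  obtain ⟨s1, hs1, hs1'⟩ : ∃ s : ℝ, 0 ≤ s ∧ s ^ 2 = a + lam * N1 ^ 2 :=
    ⟨_, Real.sqrt_nonneg _, Real.sq_sqrt hA1⟩
  obtain ⟨s2, hs2, hs2'⟩ : ∃ s : ℝ, 0 ≤ s ∧ s ^ 2 = a + lam * N2 ^ 2 :=
    ⟨_, Real.sqrt_nonneg _, Real.sq_sqrt hA2⟩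
  obtain ⟨r, hr, hr'⟩ : ∃ s : ℝ, 0 ≤ s ∧ s ^ 2 = b := ⟨_, Real.sqrt_nonneg _, Real.sq_sqrt hb⟩
  have hk1 : -(s1 * r) ≤ k1 := by
    refine (abs_le_of_sq_le_sq' ?_ (mul_nonneg hs1 hr)).1
    rw [mul_pow, hs1', hr']
    exact h1
  have hk2 : -(s2 * r) ≤ k2 := by
    refine (abs_le_of_sq_le_sq' ?_ (mul_nonneg hs2 hr)).1
    rw [mul_pow, hs2', hr']
    exact h2
  have hs12 : s1 * s2 ≤ lam * (N1 * N2) + a * c / 2 := by
    have h3 : 0 ≤ lam * (N1 * N2) + a * c / 2 := by positivity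
    refine (abs_le_of_sq_le_sq' ?_ h3).2
    rw [mul_pow, hs1', hs2']
    have h4 : a * lam * (N1 ^ 2 + N2 ^ 2) ≤ a * lam * (N1 * N2 * c) :=
      mul_le_mul_of_nonneg_left hNN (mul_nonneg ha hlam)
    have h5 : a ^ 2 * 1 ≤ a ^ 2 * (c ^ 2 / 4) := by
      refine mul_le_mul_of_nonneg_left ?_ (sq_nonneg a)
      nlinarith
    nlinarith
  have hT : (α * s1 + β * s2) ^ 2 ≤ a + lam * (α * N1 + β * N2) ^ 2 := by
    have h3 : α * β * (s1 * s2) ≤ α * β * (lam * (N1 * N2) + a * c / 2) :=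
      mul_le_mul_of_nonneg_left hs12 (mul_nonneg hα hβ)
    have h4 : (α * s1 + β * s2) ^ 2 =
        α ^ 2 * s1 ^ 2 + β ^ 2 * s2 ^ 2 + 2 * (α * β * (s1 * s2)) := by ring
    rw [h4, hs1', hs2']
    have h5 : a * (α ^ 2 + β ^ 2 + α * β * c) = a * 1 := by rw [hαβ]
    nlinarith
  have hlow : -((α * s1 + β * s2) * r) ≤ α * k1 + β * k2 := by
    have h3 := mul_le_mul_of_nonneg_left hk1 hα
    have h4 := mul_le_mul_of_nonneg_left hk2 hβ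
    nlinarith
  nlinarith [sq_nonneg (α * s1 + β * s2 - r)]

/-- The coefficients. -/
theorem num_coef {t1 t2 : ℝ} (h1 : 0 < t1) (h1' : t1 < 1) (h2 : 0 < t2) (h2' : t2 < 1) :
    0 ≤ t1 * (1 - t2 ^ 2) / (1 - (t1 * t2) ^ 2) ∧ 0 ≤ t2 * (1 - t1 ^ 2) / (1 - (t1 * t2) ^ 2) ∧
    (t1 * (1 - t2 ^ 2) / (1 - (t1 * t2) ^ 2)) ^ 2 + (t2 * (1 - t1 ^ 2) / (1 - (t1 * t2) ^ 2)) ^ 2 +
      t1 * (1 - t2 ^ 2) / (1 - (t1 * t2) ^ 2) * (t2 * (1 - t1 ^ 2) / (1 - (t1 * t2) ^ 2)) *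
        (t1 * t2 + 1 / (t1 * t2)) = 1 := by
  have h3 : 0 < 1 - t1 ^ 2 := by nlinarith
  have h4 : 0 < 1 - t2 ^ 2 := by nlinarith
  have h5 : t1 * t2 < 1 := by nlinarith
  have h6 : 0 < t1 * t2 := mul_pos h1 h2
  have h7 : 0 < 1 - (t1 * t2) ^ 2 := by nlinarith
  refine ⟨by positivity, by positivity, ?_⟩
  have h8 : 1 - (t1 * t2) ^ 2 ≠ 0 := h7.ne'
  have h9 : t1 ≠ 0 := h1.ne'
  have h10 : t2 ≠ 0 := h2.ne'
  have h11 : 1 - t1 ^ 2 * t2 ^ 2 ≠ 0 := by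
    rw [← mul_pow]
    exact h8
  field_simp
  ring

private theorem num_sgn (x s : ℝ) (hs : s = 1 ∨ s = -1) :
    Real.cosh (x * s) = Real.cosh x ∧ Real.sinh (x * s) = s * Real.sinh x := by
  rcases hs with rfl | rfl
  · simp
  · simp

theorem cosh_two (x y s r : ℝ) (hs : s = 1 ∨ s = -1) (hr : r = 1 ∨ r = -1) :
    Real.cosh (x * s + y * r) =
      Real.cosh x * Real.cosh y * (1 + Real.tanh x * Real.tanh y * (s * r)) := by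
  rw [Real.cosh_add, (num_sgn x s hs).1, (num_sgn y r hr).1, (num_sgn x s hs).2,
    (num_sgn y r hr).2, Real.tanh_eq_sinh_div_cosh, Real.tanh_eq_sinh_div_cosh]
  have h1 := (Real.cosh_pos x).ne'
  have h2 := (Real.cosh_pos y).ne'
  field_simp
  try ring

theorem exp_one (x s : ℝ) (hs : s = 1 ∨ s = -1) :
    Real.exp (x * s) = Real.cosh x * (1 + Real.tanh x * s) := by
  rw [← Real.cosh_add_sinh, (num_sgn x s hs).1, (num_sgn x s hs).2, Real.tanh_eq_sinh_div_cosh]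
  have h1 := (Real.cosh_pos x).ne'
  field_simp
  try ring

private theorem num_tanh_lt {x : ℝ} : Real.tanh x < 1 := by
  rw [Real.tanh_eq_sinh_div_cosh, div_lt_one (Real.cosh_pos x)]
  exact Real.sinh_lt_cosh x

theorem exp_two {x y : ℝ} (hx : 0 < x) (hy : 0 < y) (s r : ℝ) (hs : s = 1 ∨ s = -1)
    (hr : r = 1 ∨ r = -1) :
    Real.exp (x * s + y * r) =
      Real.cosh x * Real.cosh y * (1 + Real.tanh x * Real.tanh y * (s * r)) *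
        (1 + Real.tanh x * (1 - Real.tanh y ^ 2) / (1 - (Real.tanh x * Real.tanh y) ^ 2) * s +
          Real.tanh y * (1 - Real.tanh x ^ 2) / (1 - (Real.tanh x * Real.tanh y) ^ 2) * r) := by
  rw [Real.exp_add, exp_one x s hs, exp_one y r hr]
  have h1 := tanh_pos' hx
  have h2 := tanh_pos' hy
  have h3 : Real.tanh x < 1 := num_tanh_lt
  have h4 : Real.tanh y < 1 := num_tanh_lt
  have hs2 : s ^ 2 = 1 := by rcases hs with rfl | rfl <;> norm_num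
  have hr2 : r ^ 2 = 1 := by rcases hr with rfl | rfl <;> norm_num
  obtain ⟨t1, ht1⟩ : ∃ t, t = Real.tanh x := ⟨_, rfl⟩
  obtain ⟨t2, ht2⟩ : ∃ t, t = Real.tanh y := ⟨_, rfl⟩
  rw [← ht1] at h1 h3 ⊢
  rw [← ht2] at h2 h4 ⊢
  have h5 : t1 * t2 < 1 := by nlinarith
  have h6 : 0 < t1 * t2 := mul_pos h1 h2
  have h7 : 0 < 1 - (t1 * t2) ^ 2 := by nlinarith
  have h8 : 1 - (t1 * t2) ^ 2 ≠ 0 := h7.ne'
  have h11 : 1 - t1 ^ 2 * t2 ^ 2 ≠ 0 := by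
    rw [← mul_pow]
    exact h8
  have key : (1 + t1 * s) * (1 + t2 * r) = (1 + t1 * t2 * (s * r)) *
      (1 + t1 * (1 - t2 ^ 2) / (1 - (t1 * t2) ^ 2) * s +
        t2 * (1 - t1 ^ 2) / (1 - (t1 * t2) ^ 2) * r) := by
    have h9 : 1 + t1 * (1 - t2 ^ 2) / (1 - (t1 * t2) ^ 2) * s +
        t2 * (1 - t1 ^ 2) / (1 - (t1 * t2) ^ 2) * r =
        (1 - (t1 * t2) ^ 2 + t1 * (1 - t2 ^ 2) * s + t2 * (1 - t1 ^ 2) * r) /
          (1 - (t1 * t2) ^ 2) := by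
      field_simp
    rw [h9, ← mul_div_assoc, eq_div_iff h8]
    have e1 : s * s = 1 := by rw [← sq]; exact hs2
    have e2 : r * r = 1 := by rw [← sq]; exact hr2
    linear_combination (-(t1 * t2 * r * (t1 * (1 - t2 ^ 2)))) * e1 +
      (-(t1 * t2 * s * (t2 * (1 - t1 ^ 2)))) * e2
  calc Real.cosh x * (1 + t1 * s) * (Real.cosh y * (1 + t2 * r)) =
      Real.cosh x * Real.cosh y * ((1 + t1 * s) * (1 + t2 * r)) := by ring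
    _ = _ := by rw [key]; ring

/-- Every number in `[0, 1)` is a hyperbolic tangent. -/
theorem exists_tanh {τ : ℝ} (h0 : 0 < τ) (h1 : τ < 1) : ∃ t : ℝ, 0 < t ∧ Real.tanh t = τ := by
  have h2 : 0 < (1 + τ) / (1 - τ) := div_pos (by linarith) (by linarith)
  have h3 : 1 < (1 + τ) / (1 - τ) := by
    rw [one_lt_div (by linarith)]
    linarith
  refine ⟨Real.log ((1 + τ) / (1 - τ)) / 2, by
    have := Real.log_pos h3
    linarith, ?_⟩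
  obtain ⟨x, hx⟩ : ∃ x, x = Real.log ((1 + τ) / (1 - τ)) / 2 := ⟨_, rfl⟩
  rw [← hx]
  have h4 : Real.exp x * Real.exp x = (1 + τ) / (1 - τ) := by
    rw [← Real.exp_add, hx, add_halves, Real.exp_log h2]
  rw [Real.tanh_eq_sinh_div_cosh, Real.sinh_eq, Real.cosh_eq, Real.exp_neg]
  have h5 := Real.exp_pos x
  have h6 : (0 : ℝ) < 1 - τ := by linarith
  rw [eq_div_iff h6.ne'] at h4
  have h7 : Real.exp x * Real.exp x + 1 ≠ 0 := by positivity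
  field_simp
  nlinarith

end Pool.Agent.Lib.MP_f82811_pr.TC
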