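import Pool.Agent.Lib.MP_f82811_pr.TC.Good
import Pool.Agent.Lib.MP_f82811_pr.TC.Num
import Pool.Agent.Lib.MP_f82811_pr.TC.IncMean

/-!
# Module F12: fields at one or two vertices

Proof. By `inc_mean` (the weight is assumed to satisfy `Fkg`) and `frz_of_good` it is enough to show
the inequality for `φ` odd, `ψ` even, `tot S ψ = 0`, `φ + ψ` monotone. `O = α * sp z` or `α * sp z1 +
β * sp z2`: `qf lam (S * O) φ ψ = α * k1 + β * k2`, `tot (S * O) φ = α * N1 + β * N2`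
(`qf_weight`, `tot_weight`). `good_of_frz` for `sp z1`, `sp z2` gives the hypotheses of `num_one`,
`num_two` with `lam / Z` in place of `lam`. For `F_two`: `φ σ = (f σ - f (neg σ)) / 2` for the monotone
`f = φ + ψ`, so `φ` is monotone, and `N1 - τ * N2 = ∑ σ, S σ * (sp z1 σ - τ * sp z2 σ) * φ σ =
(1 - τ ^ 2) * ip S0 (sp z1) φ ≥ 0` because `(1 + τ s r) * (s - τ r) = (1 - τ ^ 2) * s` for `s, r = ±1`,
and `fkg_ip` for the weight `S0` (`sp z1` is monotone with integral zero).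
-/

set_option autoImplicit false

namespace Pool.Agent.Lib.MP_f82811_pr.TC

open Finset HT

variable {V : Type*} [Fintype V] [DecidableEq V]

private theorem F12_qf {S : (V → Bool) → ℝ} {lam α : ℝ} {u : (V → Bool) → ℝ}
    (φ ψ : (V → Bool) → ℝ) :
    qf lam (fun σ => S σ * (α * u σ)) φ ψ = α * qf lam (fun σ => S σ * u σ) φ ψ := by
  have h := qf_weight (lam := lam) α 0 (fun σ => S σ * u σ) (fun σ => S σ * u σ) φ ψ
  have h2 : (fun σ => α * (S σ * u σ) + 0 * (S σ * u σ)) = fun σ => S σ * (α * u σ) := by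
    funext σ
    ring
  rw [h2] at h
  rw [h]
  ring

private theorem F12_tot {S : (V → Bool) → ℝ} {α : ℝ} {u : (V → Bool) → ℝ}
    (φ : (V → Bool) → ℝ) :
    tot (fun σ => S σ * (α * u σ)) φ = α * tot (fun σ => S σ * u σ) φ := by
  unfold tot
  rw [Finset.mul_sum]
  exact Finset.sum_congr rfl fun σ _ => by ring

omit [Fintype V] [DecidableEq V] in
private theorem F12_odd (z : V) : Odd' (sp z) := fun σ => sp_neg z σ

omit [Fintype V] [DecidableEq V] in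
private theorem F12_dep {X : Finset V} {z : V} (hz : z ∈ X) : Dep X (sp z) := by
  intro σ τ h
  unfold sp
  rw [h z hz]

omit [Fintype V] [DecidableEq V] in
private theorem F12_mono (z : V) : Monotone (sp z) := by
  intro σ τ h
  unfold sp
  have h1 := h z
  cases h2 : σ z <;> cases h3 : τ z
  · exact le_rfl
  · simp [spin]
  · rw [h2, h3] at h1
    exact absurd (h1 rfl) Bool.false_ne_true
  · exact le_rfl

theorem F_one {S : (V → Bool) → ℝ} (hS : Even' S) {X : Finset V} {z : V} {lam α : ℝ}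
    (hlam : 0 ≤ lam) (hα : 0 ≤ α) (hα1 : α ≤ 1) (hX : Dep X S) (hz : z ∈ X)
    (hF : Fkg (fun σ => S σ * (1 + α * sp z σ))) (hpos : ∀ σ, 0 < S σ)
    (hodd : OddR S X lam) (hgood : FrzR (fun σ => S σ * (1 + sp z σ)) X lam) :
    FrzR (fun σ => S σ * (1 + α * sp z σ)) X lam := by
  have hZ : 0 < ∑ σ, S σ := Finset.sum_pos (fun σ _ => hpos σ) Finset.univ_nonempty
  have hO : Odd' (fun σ => α * sp z σ) := by
    intro σ
    show α * sp z (neg σ) = -(α * sp z σ)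
    rw [sp_neg]
    ring
  have hdep : Dep X (fun σ => S σ * (1 + α * sp z σ)) := by
    intro σ τ h
    show S σ * (1 + α * sp z σ) = S τ * (1 + α * sp z τ)
    rw [hX σ τ h, F12_dep hz σ τ h]
  refine inc_mean hF hdep fun f hf hfX hf0 => ?_
  refine frz_of_good (O := fun σ => α * sp z σ) hS hO hZ ?_ hf hfX hf0
  intro φ ψ hφ hφX hψ hψX hψ0 _
  obtain ⟨hb, hk⟩ := good_of_frz (O := sp z) hS (F12_odd z) hZ hgood hφ hφX hψ hψX hψ0
  rw [F12_qf, F12_tot]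
  exact num_one (hodd φ hφ hφX) hb (div_nonneg hlam hZ.le) hα hα1 hk

omit [Fintype V] [DecidableEq V] in
private theorem F12_neg_anti {σ τ : V → Bool} (h : σ ≤ τ) : neg τ ≤ neg σ := by
  intro v
  have h1 := h v
  unfold MP_f82811_pr.neg
  cases h2 : σ v <;> cases h3 : τ v
  · exact le_rfl
  · exact Bool.false_le _
  · rw [h2, h3] at h1
    exact absurd (h1 rfl) Bool.false_ne_true
  · exact le_rfl

private theorem F12_N {S0 : (V → Bool) → ℝ} (hS0 : Even' S0) (hF0 : Fkg S0) {z1 z2 : V} {τ : ℝ}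
    (hτ0 : 0 < τ) (hτ1 : τ < 1) {φ : (V → Bool) → ℝ} (hφ : Monotone φ) :
    τ * tot (fun σ => S0 σ * (1 + τ * (sp z1 σ * sp z2 σ)) * sp z2 σ) φ ≤
      tot (fun σ => S0 σ * (1 + τ * (sp z1 σ * sp z2 σ)) * sp z1 σ) φ := by
  have h0 : ip S0 (sp z1) (fun _ => 1) = 0 := by
    have h1 := tot_odd hS0 (F12_odd z1)
    unfold tot at h1
    unfold ip
    simpa using h1
  have h1 := fkg_ip hF0.pos hF0.lat (F12_mono z1) hφ h0
  have h2 : tot (fun σ => S0 σ * (1 + τ * (sp z1 σ * sp z2 σ)) * sp z1 σ) φ -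
      τ * tot (fun σ => S0 σ * (1 + τ * (sp z1 σ * sp z2 σ)) * sp z2 σ) φ =
      (1 - τ ^ 2) * ip S0 (sp z1) φ := by
    unfold tot ip
    rw [Finset.mul_sum, Finset.mul_sum, ← Finset.sum_sub_distrib]
    refine Finset.sum_congr rfl fun σ _ => ?_
    have e1 := sp_sq z1 σ
    have e2 := sp_sq z2 σ
    linear_combination (S0 σ * φ σ * τ * sp z2 σ) * e1 -
      (S0 σ * φ σ * τ ^ 2 * sp z1 σ) * e2
  have h3 : 0 ≤ (1 - τ ^ 2) * ip S0 (sp z1) φ := mul_nonneg (by nlinarith) h1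
  linarith

theorem F_two {S0 : (V → Bool) → ℝ} (hS0 : Even' S0) (hF0 : Fkg S0) {X : Finset V} {z1 z2 : V}
    {lam α β τ : ℝ} (hlam : 0 ≤ lam) (hτ0 : 0 < τ) (hτ1 : τ < 1) (hα : 0 ≤ α) (hβ : 0 ≤ β)
    (hαβ : α ^ 2 + β ^ 2 + α * β * (τ + 1 / τ) = 1) (hX : Dep X S0) (hz1 : z1 ∈ X) (hz2 : z2 ∈ X)
    (hF : Fkg (fun σ => S0 σ * (1 + τ * (sp z1 σ * sp z2 σ)) * (1 + (α * sp z1 σ + β * sp z2 σ))))
    (hodd : OddR (fun σ => S0 σ * (1 + τ * (sp z1 σ * sp z2 σ))) X lam)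
    (h1 : FrzR (fun σ => S0 σ * (1 + τ * (sp z1 σ * sp z2 σ)) * (1 + sp z1 σ)) X lam)
    (h2 : FrzR (fun σ => S0 σ * (1 + τ * (sp z1 σ * sp z2 σ)) * (1 + sp z2 σ)) X lam) :
    FrzR (fun σ => S0 σ * (1 + τ * (sp z1 σ * sp z2 σ)) * (1 + (α * sp z1 σ + β * sp z2 σ)))
      X lam := by
  have hS : Even' (fun σ => S0 σ * (1 + τ * (sp z1 σ * sp z2 σ))) := by
    intro σ
    show S0 (neg σ) * (1 + τ * (sp z1 (neg σ) * sp z2 (neg σ))) =
      S0 σ * (1 + τ * (sp z1 σ * sp z2 σ))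
    rw [sp_neg, sp_neg, hS0 σ]
    ring
  have hpos : ∀ σ, 0 < S0 σ * (1 + τ * (sp z1 σ * sp z2 σ)) := by
    intro σ
    refine mul_pos (hF0.pos σ) ?_
    have e1 := sp_sq z1 σ
    have e2 := sp_sq z2 σ
    have e3 : (sp z1 σ * sp z2 σ) ^ 2 = 1 := by
      calc (sp z1 σ * sp z2 σ) ^ 2 = (sp z1 σ * sp z1 σ) * (sp z2 σ * sp z2 σ) := by ring
        _ = 1 := by rw [e1, e2]; ring
    have e4 : -1 ≤ sp z1 σ * sp z2 σ := by nlinarith
    nlinarith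
  have hZ : 0 < ∑ σ, S0 σ * (1 + τ * (sp z1 σ * sp z2 σ)) :=
    Finset.sum_pos (fun σ _ => hpos σ) Finset.univ_nonempty
  have hO : Odd' (fun σ => α * sp z1 σ + β * sp z2 σ) := by
    intro σ
    show α * sp z1 (neg σ) + β * sp z2 (neg σ) = -(α * sp z1 σ + β * sp z2 σ)
    rw [sp_neg, sp_neg]
    ring
  have hdep : Dep X (fun σ => S0 σ * (1 + τ * (sp z1 σ * sp z2 σ)) *
      (1 + (α * sp z1 σ + β * sp z2 σ))) := by
    intro σ ρ h
    show S0 σ * (1 + τ * (sp z1 σ * sp z2 σ)) * (1 + (α * sp z1 σ + β * sp z2 σ)) =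
      S0 ρ * (1 + τ * (sp z1 ρ * sp z2 ρ)) * (1 + (α * sp z1 ρ + β * sp z2 ρ))
    rw [hX σ ρ h, F12_dep hz1 σ ρ h, F12_dep hz2 σ ρ h]
  refine inc_mean hF hdep fun f hf hfX hf0 => ?_
  refine frz_of_good (S := fun σ => S0 σ * (1 + τ * (sp z1 σ * sp z2 σ)))
    (O := fun σ => α * sp z1 σ + β * sp z2 σ) hS hO hZ ?_ hf hfX hf0
  intro φ ψ hφ hφX hψ hψX hψ0 hm
  have hφm : Monotone φ := by
    intro σ ρ h
    have m1 : φ σ + ψ σ ≤ φ ρ + ψ ρ := hm h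
    have m2 : φ (neg ρ) + ψ (neg ρ) ≤ φ (neg σ) + ψ (neg σ) := hm (F12_neg_anti h)
    rw [hφ ρ, hψ ρ, hφ σ, hψ σ] at m2
    linarith
  obtain ⟨hb, hk1⟩ := good_of_frz (S := fun σ => S0 σ * (1 + τ * (sp z1 σ * sp z2 σ)))
    (O := sp z1) hS (F12_odd z1) hZ h1 hφ hφX hψ hψX hψ0
  obtain ⟨-, hk2⟩ := good_of_frz (S := fun σ => S0 σ * (1 + τ * (sp z1 σ * sp z2 σ)))
    (O := sp z2) hS (F12_odd z2) hZ h2 hφ hφX hψ hψX hψ0
  have hN1 := F12_N (z1 := z1) (z2 := z2) hS0 hF0 hτ0 hτ1 hφm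
  have hN2 := F12_N (z1 := z2) (z2 := z1) hS0 hF0 hτ0 hτ1 hφm
  have hcomm : (fun σ => S0 σ * (1 + τ * (sp z2 σ * sp z1 σ)) * sp z1 σ) =
      fun σ => S0 σ * (1 + τ * (sp z1 σ * sp z2 σ)) * sp z1 σ := by
    funext σ
    ring
  have hcomm2 : (fun σ => S0 σ * (1 + τ * (sp z2 σ * sp z1 σ)) * sp z2 σ) =
      fun σ => S0 σ * (1 + τ * (sp z1 σ * sp z2 σ)) * sp z2 σ := by
    funext σ
    ring
  rw [hcomm, hcomm2] at hN2
  have key := num_two (hodd φ hφ hφX) hb (div_nonneg hlam hZ.le) hτ0 hτ1 hα hβ hk1 hk2 hN1 hN2 hαβ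
  have e1 : qf lam (fun σ => S0 σ * (1 + τ * (sp z1 σ * sp z2 σ)) *
      (α * sp z1 σ + β * sp z2 σ)) φ ψ =
      α * qf lam (fun σ => S0 σ * (1 + τ * (sp z1 σ * sp z2 σ)) * sp z1 σ) φ ψ +
      β * qf lam (fun σ => S0 σ * (1 + τ * (sp z1 σ * sp z2 σ)) * sp z2 σ) φ ψ := by
    rw [← qf_weight]
    congr 1
    funext σ
    ring
  have e2 : tot (fun σ => S0 σ * (1 + τ * (sp z1 σ * sp z2 σ)) *
      (α * sp z1 σ + β * sp z2 σ)) φ =
      α * tot (fun σ => S0 σ * (1 + τ * (sp z1 σ * sp z2 σ)) * sp z1 σ) φ +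
      β * tot (fun σ => S0 σ * (1 + τ * (sp z1 σ * sp z2 σ)) * sp z2 σ) φ := by
    rw [← tot_weight]
    congr 1
    funext σ
    ring
  rw [e1, e2]
  exact key

end Pool.Agent.Lib.MP_f82811_pr.TC
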