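import Pool.Agent.Lib.MP_f82811_pr.TC.Pin

/-!
# Module Fact: factorisation of Ising weights

`sum_mix`: `(σ, τ) ↦ (mix C σ τ, mix C τ σ)` is an involution.
`sum_prod_even`: for `g` depending on `A`, `h` depending on `B`, `A ∩ B ⊆ {u}`, `h` even:
`2 ^ |V| * ∑ g * h = (∑ g) * (∑ h)`. Proof: `∑_σ ∑_τ g (mix A σ τ) * h (mix A σ τ) = 2 ^ |V| * ∑ g * h`
(`sum_mix`); `g (mix A σ τ) = g σ`; `h (mix A σ τ)` depends only on `σ u` and the spins of `τ` in
`B \ {u}`, so `∑_τ h (mix A σ τ)` depends only on `σ u`, and since `h` is even it is the same for both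
values of `σ u` (sum over `neg τ`), so it is the constant `∑ h`.
`odd_split`: the energy of `J` is the sum of the energies of `res J (insert u C)` and
`res J (insert u R)` (every nonzero coupling lies in exactly one of the two sets: no coupling between
`C` and `R`, none at the pair `u, u`). So `W J = W1 * W2` with `W2` even, and for `F = f * f` and
`F = D v f * D v f`, which depend on `C`, `2 ^ |V| * ∑ W J * F = (∑ W2) * ∑ W1 * F`.
`odd_restrict`: the same with `A` and its complement (disjoint).
-/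

set_option autoImplicit false

namespace Pool.Agent.Lib.MP_f82811_pr.TC

open Finset HT

variable {V : Type*} [Fintype V] [DecidableEq V] {J : V → V → ℝ}

omit [Fintype V] in
private theorem mix_mix (C : Finset V) (σ τ : V → Bool) :
    mix C (mix C σ τ) (mix C τ σ) = σ := by
  funext v
  by_cases h : v ∈ C <;> simp [mix, h]

theorem sum_mix (C : Finset V) (F : (V → Bool) → (V → Bool) → ℝ) :
    ∑ σ, ∑ τ, F (mix C σ τ) (mix C τ σ) = ∑ σ, ∑ τ, F σ τ := by
  have hinv : Function.Involutive
      (fun p : (V → Bool) × (V → Bool) => (mix C p.1 p.2, mix C p.2 p.1)) := by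
    rintro ⟨σ, τ⟩
    simp only [mix_mix]
  have h := Function.Bijective.sum_comp hinv.bijective
    (fun p : (V → Bool) × (V → Bool) => F p.1 p.2)
  simp only [Fintype.sum_prod_type] at h
  exact h

private theorem sum_update {u : V} {h : (V → Bool) → ℝ} (hev : Even' h) (b : Bool) :
    ∑ τ, h (Function.update τ u b) = ∑ τ, h τ := by
  have h1 : ∀ b : Bool, ∑ τ, h (Function.update τ u b) = ∑ τ, h (Function.update τ u (!b)) := by
    intro b
    rw [← sum_neg]
    refine Finset.sum_congr rfl fun τ _ => ?_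
    rw [← hev]
    congr 1
    funext v
    by_cases hv : v = u
    · subst hv; simp [neg]
    · simp [neg, hv]
  have h2 : ∑ τ, h τ + ∑ τ, h τ =
      ∑ τ, h (Function.update τ u true) + ∑ τ, h (Function.update τ u false) := by
    have h3 : ∑ τ, h τ = ∑ τ, h (flip u τ) := (sum_flip u h).symm
    calc ∑ τ, h τ + ∑ τ, h τ = ∑ τ, h τ + ∑ τ, h (flip u τ) := by rw [← h3]
      _ = ∑ τ, (h τ + h (flip u τ)) := Finset.sum_add_distrib.symm
      _ = ∑ τ, (h (Function.update τ u true) + h (Function.update τ u false)) := by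
          refine Finset.sum_congr rfl fun τ _ => ?_
          rcases hb : τ u with _ | _
          · have e1 : Function.update τ u false = τ := by
              rw [← hb]; exact Function.update_eq_self _ _
            have e2 : flip u τ = Function.update τ u true := by simp [flip, hb]
            rw [e1, e2, add_comm]
          · have e1 : Function.update τ u true = τ := by
              rw [← hb]; exact Function.update_eq_self _ _
            have e2 : flip u τ = Function.update τ u false := by simp [flip, hb]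
            rw [e1, e2]
      _ = _ := Finset.sum_add_distrib
  have h3 := h1 true
  rcases b with _ | _
  · simp only [Bool.not_true] at h3
    linarith
  · simp only [Bool.not_true] at h3
    linarith

theorem sum_prod_even {A B : Finset V} {u : V} (hAB : A ∩ B ⊆ {u}) {g h : (V → Bool) → ℝ}
    (hg : Dep A g) (hh : Dep B h) (hev : Even' h) :
    (2 : ℝ) ^ Fintype.card V * ∑ σ, g σ * h σ = (∑ σ, g σ) * ∑ σ, h σ := by
  have h1 := sum_mix A (fun σ _ => g σ * h σ)
  have h2 : ∑ σ : V → Bool, ∑ _τ : V → Bool, g σ * h σ =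
      (2 : ℝ) ^ Fintype.card V * ∑ σ, g σ * h σ := by
    rw [Finset.mul_sum]
    refine Finset.sum_congr rfl fun σ _ => ?_
    rw [Finset.sum_const, Finset.card_univ, nsmul_eq_mul]
    congr 1
    simp
  rw [← h2, ← h1, Finset.sum_mul]
  refine Finset.sum_congr rfl fun σ _ => ?_
  have h3 : ∀ τ, g (mix A σ τ) = g σ := fun τ => hg _ _ fun v hv => by simp [mix, hv]
  simp only [h3]
  rw [← Finset.mul_sum]
  congr 1
  by_cases hu : u ∈ A
  · rw [← sum_update (u := u) hev (σ u)]
    refine Finset.sum_congr rfl fun τ _ => hh _ _ fun v hv => ?_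
    by_cases hvA : v ∈ A
    · have hvu : v = u := Finset.mem_singleton.1 (hAB (Finset.mem_inter.2 ⟨hvA, hv⟩))
      subst hvu
      simp [mix, hvA]
    · have hvu : v ≠ u := fun e => hvA (e ▸ hu)
      simp [mix, hvA, hvu]
  · refine Finset.sum_congr rfl fun τ _ => hh _ _ fun v hv => ?_
    have hvA : v ∉ A := by
      intro hvA
      have hvu : v = u := Finset.mem_singleton.1 (hAB (Finset.mem_inter.2 ⟨hvA, hv⟩))
      exact hu (hvu ▸ hvA)
    simp [mix, hvA]

theorem coup_res (hJ : Coup J) (X : Finset V) : Coup (res J X) := by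
  refine ⟨fun a b => ?_, fun a b => ?_, fun a => ?_⟩
  · unfold res
    by_cases ha : a ∈ X <;> by_cases hb : b ∈ X <;> simp [ha, hb, hJ.symm a b]
  · unfold res
    split_ifs
    · exact hJ.nonneg a b
    · exact le_rfl
  · unfold res
    rw [hJ.diag]
    simp

theorem supp_res (J : V → V → ℝ) (X : Finset V) : Supp (res J X) X := by
  intro a b h
  by_contra hc
  exact h (by simp [res, hc])

private theorem en_add {A A1 A2 : V → V → ℝ} (h : ∀ a b, A a b = A1 a b + A2 a b)
    (σ : V → Bool) : en A σ = en A1 σ + en A2 σ := by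
  unfold en
  rw [← add_div, ← Finset.sum_add_distrib]
  congr 1
  refine Finset.sum_congr rfl fun a _ => ?_
  rw [← Finset.sum_add_distrib]
  refine Finset.sum_congr rfl fun b _ => ?_
  rw [h]
  ring

private theorem W_add {A A1 A2 : V → V → ℝ} (h : ∀ a b, A a b = A1 a b + A2 a b)
    (σ : V → Bool) : W A σ = W A1 σ * W A2 σ := by
  unfold W
  rw [en_add h, Real.exp_add]

private theorem split_J (hJ : Coup J) {u : V} {X C R : Finset V} (hX : Supp J X)
    (hCR : X.erase u = C ∪ R) (hd : Disjoint C R) (hno : ∀ a ∈ C, ∀ b ∈ R, J a b = 0) (a b : V) :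
    J a b = res J (insert u C) a b + res J (insert u R) a b := by
  have hC : ∀ c ∈ C, c ≠ u ∧ c ∉ R := by
    intro c hc
    have h1 : c ∈ X.erase u := by rw [hCR]; exact Finset.mem_union_left _ hc
    exact ⟨Finset.ne_of_mem_erase h1, fun h => Finset.disjoint_left.1 hd hc h⟩
  have hR : ∀ c ∈ R, c ≠ u ∧ c ∉ C := by
    intro c hc
    have h1 : c ∈ X.erase u := by rw [hCR]; exact Finset.mem_union_right _ hc
    exact ⟨Finset.ne_of_mem_erase h1, fun h => Finset.disjoint_left.1 hd h hc⟩
  by_cases h : J a b = 0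
  · simp [res, h]
  obtain ⟨ha, hb⟩ := hX a b h
  have key : ∀ c ∈ X, c = u ∨ c ∈ C ∨ c ∈ R := by
    intro c hc
    by_cases hcu : c = u
    · exact Or.inl hcu
    · have h1 : c ∈ X.erase u := Finset.mem_erase.2 ⟨hcu, hc⟩
      rw [hCR, Finset.mem_union] at h1
      exact Or.inr h1
  have huC : u ∉ C := fun h => (hC u h).1 rfl
  have huR : u ∉ R := fun h => (hR u h).1 rfl
  rcases key a ha with rfl | haC | haR
  · rcases key b hb with rfl | hbC | hbR
    · exact absurd (hJ.diag _) h
    · simp [res, hbC, (hC b hbC).1, (hC b hbC).2]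
    · simp [res, hbR, (hR b hbR).1, (hR b hbR).2]
  · rcases key b hb with rfl | hbC | hbR
    · simp [res, haC, (hC a haC).1, (hC a haC).2]
    · simp [res, haC, hbC, (hC a haC).1, (hC a haC).2]
    · exact absurd (hno a haC b hbR) h
  · rcases key b hb with rfl | hbC | hbR
    · simp [res, haR, (hR a haR).1, (hR a haR).2]
    · exact absurd (by rw [hJ.symm]; exact hno b hbC a haR) h
    · simp [res, haR, hbR, (hR a haR).1, (hR a haR).2]

theorem W_split (hJ : Coup J) {u : V} {X C R : Finset V} (hX : Supp J X) (huX : u ∈ X)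
    (hCR : X.erase u = C ∪ R) (hd : Disjoint C R) (hno : ∀ a ∈ C, ∀ b ∈ R, J a b = 0)
    (σ : V → Bool) : W J σ = W (res J (insert u C)) σ * W (res J (insert u R)) σ :=
  W_add (split_J hJ hX hCR hd hno) σ

theorem Fw_split (hJ : Coup J) {u : V} {X C R : Finset V} (hX : Supp J X) (huX : u ∈ X)
    (hCR : X.erase u = C ∪ R) (hd : Disjoint C R) (hno : ∀ a ∈ C, ∀ b ∈ R, J a b = 0)
    (σ : V → Bool) : Fw J u σ = Fw (res J (insert u C)) u σ * Fw (res J (insert u R)) u σ := by
  have h1 := split_J hJ hX hCR hd hno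
  have h2 : ∀ a b, off J u a b =
      off (res J (insert u C)) u a b + off (res J (insert u R)) u a b := by
    intro a b
    unfold off
    split_ifs
    · simp
    · exact h1 a b
  have h3 : fld J u σ = fld (res J (insert u C)) u σ + fld (res J (insert u R)) u σ := by
    unfold fld
    rw [← Finset.sum_add_distrib]
    refine Finset.sum_congr rfl fun b _ => ?_
    rw [h1]
    ring
  unfold Fw
  rw [W_add h2, h3, Real.exp_add]
  ring

private theorem qf_fact {A B : Finset V} {u : V} (hAB : A ∩ B ⊆ {u}) {w w1 w2 : (V → Bool) → ℝ}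
    (hw : ∀ σ, w σ = w1 σ * w2 σ) (h1 : Dep A w1) (h2 : Dep B w2) (hev : Even' w2)
    {f : (V → Bool) → ℝ} (hf : Dep A f) (lam : ℝ) :
    (2 : ℝ) ^ Fintype.card V * qf lam w f f = (∑ σ, w2 σ) * qf lam w1 f f := by
  have key : ∀ F : (V → Bool) → ℝ, Dep A F →
      (2 : ℝ) ^ Fintype.card V * ∑ σ, w σ * F σ = (∑ σ, w2 σ) * ∑ σ, w1 σ * F σ := by
    intro F hF
    have h3 := sum_prod_even hAB (g := fun σ => w1 σ * F σ) (h1.mul hF) h2 hev
    rw [mul_comm (∑ σ, w2 σ), ← h3]
    congr 1
    refine Finset.sum_congr rfl fun σ _ => ?_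
    rw [hw]
    ring
  have e1 : ∀ v, (2 : ℝ) ^ Fintype.card V * ∑ σ, w σ * (D v f σ * D v f σ) =
      (∑ σ, w2 σ) * ∑ σ, w1 σ * (D v f σ * D v f σ) := fun v =>
    key _ (((dep_D hf v).mono (Finset.erase_subset _ _)).mul
      ((dep_D hf v).mono (Finset.erase_subset _ _)))
  have e2 := key _ (hf.mul hf)
  have e3 : (2 : ℝ) ^ Fintype.card V * ∑ v, ∑ σ, w σ * (D v f σ * D v f σ) =
      (∑ σ, w2 σ) * ∑ v, ∑ σ, w1 σ * (D v f σ * D v f σ) := by
    rw [Finset.mul_sum, Finset.mul_sum]
    exact Finset.sum_congr rfl fun v _ => e1 v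
  unfold qf am ip
  linear_combination e3 - lam * e2

private theorem qf_nonneg_of_fact {A B : Finset V} {u : V} (hAB : A ∩ B ⊆ {u})
    {w w1 w2 : (V → Bool) → ℝ}
    (hw : ∀ σ, w σ = w1 σ * w2 σ) (h1 : Dep A w1) (h2 : Dep B w2) (hev : Even' w2)
    (hpos : ∀ σ, 0 < w2 σ) {f : (V → Bool) → ℝ} (hf : Dep A f) {lam : ℝ}
    (h : 0 ≤ qf lam w f f) : 0 ≤ qf lam w1 f f := by
  have h3 := qf_fact hAB hw h1 h2 hev hf lam
  have h4 : 0 < ∑ σ, w2 σ := Finset.sum_pos (fun σ _ => hpos σ) Finset.univ_nonempty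
  have h5 : 0 ≤ (∑ σ, w2 σ) * qf lam w1 f f := by
    rw [← h3]
    positivity
  exact nonneg_of_mul_nonneg_right h5 h4

theorem odd_split (hJ : Coup J) {u : V} {X C R : Finset V} (hX : Supp J X) (huX : u ∈ X)
    (hCR : X.erase u = C ∪ R) (hd : Disjoint C R) (hno : ∀ a ∈ C, ∀ b ∈ R, J a b = 0) {lam : ℝ}
    (h : OddR (W J) (X.erase u) lam) : OddR (W (res J (insert u C))) C lam := by
  intro f hf hdep
  have h1 := h f hf (hdep.mono (by rw [hCR]; exact Finset.subset_union_left))
  refine qf_nonneg_of_fact (A := insert u C) (B := insert u R) (u := u) ?_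
    (W_split hJ hX huX hCR hd hno) (dep_W (supp_res J _)) (dep_W (supp_res J _))
    (even_W _) (fun σ => Real.exp_pos _) (hdep.mono (Finset.subset_insert _ _)) h1
  intro v hv
  rw [Finset.mem_inter, Finset.mem_insert, Finset.mem_insert] at hv
  rw [Finset.mem_singleton]
  rcases hv.1 with h2 | h2
  · exact h2
  · rcases hv.2 with h3 | h3
    · exact h3
    · exact absurd h3 (Finset.disjoint_left.1 hd h2)

theorem odd_restrict (hJ : Coup J) {A : Finset V} (hno : ∀ a ∈ A, ∀ b, b ∉ A → J a b = 0) {lam : ℝ}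
    (h : OddR (W J) Finset.univ lam) : OddR (W (res J A)) A lam := by
  intro f hf hdep
  have h1 := h f hf (hdep.mono (Finset.subset_univ _))
  rcases isEmpty_or_nonempty V with hV | ⟨⟨u⟩⟩
  · have h0 : ∀ σ, f σ = 0 := by
      intro σ
      have h2 := hf σ
      have h3 : neg σ = σ := funext fun v => (hV.false v).elim
      rw [h3] at h2
      linarith
    unfold qf am ip
    simp [h0]
  · refine qf_nonneg_of_fact (A := A) (B := Aᶜ) (u := u) ?_ (w := W J) (w2 := W (res J Aᶜ)) ?_
      (dep_W (supp_res J _)) (dep_W (supp_res J _))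
      (even_W _) (fun σ => Real.exp_pos _) hdep h1
    · intro v hv
      rw [Finset.mem_inter, Finset.mem_compl] at hv
      exact absurd hv.1 hv.2
    · refine W_add fun a b => ?_
      unfold res
      by_cases ha : a ∈ A
      · by_cases hb : b ∈ A
        · simp [ha, hb]
        · simp [ha, hb, hno a ha b hb]
      · by_cases hb : b ∈ A
        · have : J a b = 0 := by rw [hJ.symm]; exact hno b hb a ha
          simp [ha, hb, this]
        · simp [ha, hb]

end Pool.Agent.Lib.MP_f82811_pr.TC
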