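import Pool.Agent.Lib.MP_f82811_pr.TC.Alg

/-!
# Module Good: parity expansion of the Poincare inequality for `S * (1 + O)`

`S` is even with positive total mass `Z = tot S 1`, `O` is odd. For `f = φ + ψ`, `φ` odd, `ψ` even with
`tot S ψ = 0`, put `w = S * (1 + O)`. Then `qf lam w f f = qf lam S φ φ + qf lam S ψ ψ +
2 * qf lam (S * O) φ ψ` (`qf_weight`, the parity lemmas of Alg: the weight `S` is even, `S * O` is odd)
and `tot w f = tot (S * O) φ`, `tot w 1 = Z`. Let `N = tot (S * O) φ`.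
`good_of_frz`: subtract the mean `m = tot w f / Z`: `g = f - m` has integral zero, depends on `X`, so
`0 ≤ qf lam w g g = qf lam w f f + lam * N ^ 2 / Z` (`am` does not see constants,
`ip w g g = ip w f f - (tot w f) ^ 2 / Z`). Replace `ψ` by `t * ψ` and `φ` by `s * φ`: a nonnegative
quadratic form in `s, t`, so its discriminant is nonnegative.
`frz_of_good`: let `tot w f = 0`; `φ = (f σ - f (neg σ)) / 2`, `ψ = sy f - c`, `c = tot S (sy f) / Z`.
Then `0 ≤ qf lam w (φ + ψ) (φ + ψ) + lam * N ^ 2 / Z = qf lam w f f` by the same identity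
(`φ + ψ = f - c`, and `tot w f = 0`). `φ + ψ` is monotone if `f` is.
-/

set_option autoImplicit false

namespace Pool.Agent.Lib.MP_f82811_pr.TC

open Finset HT

variable {V : Type*} [Fintype V] [DecidableEq V] {S O : (V → Bool) → ℝ}

theorem Good_weight (lam : ℝ) (f g : (V → Bool) → ℝ) :
    qf lam (fun σ => S σ * (1 + O σ)) f g = qf lam S f g + qf lam (fun σ => S σ * O σ) f g := by
  have h := qf_weight (lam := lam) 1 1 S (fun σ => S σ * O σ) f g
  rw [one_mul, one_mul] at h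
  rw [← h]
  congr 1
  funext σ
  ring

theorem Good_tot_weight (f : (V → Bool) → ℝ) :
    tot (fun σ => S σ * (1 + O σ)) f = tot S f + tot (fun σ => S σ * O σ) f := by
  have h := tot_weight 1 1 S (fun σ => S σ * O σ) f
  rw [one_mul, one_mul] at h
  rw [← h]
  congr 1
  funext σ
  ring

theorem Good_odd (hS : Even' S) (hO : Odd' O) : Odd' (fun σ => S σ * O σ) := by
  intro σ
  show S (neg σ) * O (neg σ) = -(S σ * O σ)
  rw [hS, hO, mul_neg]

theorem Good_mass (hS : Even' S) (hO : Odd' O) : ∑ σ, S σ * (1 + O σ) = ∑ σ, S σ := by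
  have h1 : tot (fun σ => S σ * O σ) (fun _ => 1) = 0 := tot_even (Good_odd hS hO) (fun _ => rfl)
  have h2 : ∑ σ, S σ * O σ = 0 := by
    rw [← h1]
    unfold tot
    exact Finset.sum_congr rfl fun σ _ => by ring
  have h3 : ∑ σ, S σ * (1 + O σ) = ∑ σ, S σ + ∑ σ, S σ * O σ := by
    rw [← Finset.sum_add_distrib]
    exact Finset.sum_congr rfl fun σ _ => by ring
  rw [h3, h2, add_zero]

theorem Good_parts (hS : Even' S) (hO : Odd' O) (lam : ℝ) {φ ψ : (V → Bool) → ℝ} (hφ : Odd' φ)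
    (hψ : Even' ψ) (hψ0 : tot S ψ = 0) :
    qf lam (fun σ => S σ * (1 + O σ)) (fun σ => φ σ + ψ σ) (fun σ => φ σ + ψ σ) =
      qf lam S φ φ + qf lam S ψ ψ + 2 * qf lam (fun σ => S σ * O σ) φ ψ ∧
    tot (fun σ => S σ * (1 + O σ)) (fun σ => φ σ + ψ σ) = tot (fun σ => S σ * O σ) φ := by
  constructor
  · rw [Good_weight, qf_add_left, qf_add_right, qf_add_right, qf_add_left, qf_add_right, qf_add_right,
      qf_comm (w := S) ψ φ, qf_odd_even hS hφ hψ, qf_odd_odd (Good_odd hS hO) hφ hφ,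
      qf_even_even (Good_odd hS hO) hψ hψ, qf_comm (w := fun σ => S σ * O σ) ψ φ]
    ring
  · rw [Good_tot_weight, tot_add, tot_add, tot_odd hS hφ, hψ0, tot_even (Good_odd hS hO) hψ]
    ring

theorem Good_shift (lam c : ℝ) (w f : (V → Bool) → ℝ) :
    qf lam w (fun σ => f σ + c) (fun σ => f σ + c) =
      qf lam w f f - lam * (2 * c * tot w f + c ^ 2 * ∑ σ, w σ) := by
  have h1 : am w (fun σ => f σ + c) (fun σ => f σ + c) = am w f f := by
    have h := am_add_left (w := w) f (fun _ => c) (fun σ => f σ + c)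
    have h2 := am_add_left (w := w) f (fun _ => c) f
    rw [h, am_const_left, add_zero, am_comm, h2, am_const_left, add_zero]
  have h2 : ip w (fun σ => f σ + c) (fun σ => f σ + c) =
      ip w f f + (2 * c * tot w f + c ^ 2 * ∑ σ, w σ) := by
    unfold ip tot
    rw [Finset.mul_sum, Finset.mul_sum, ← Finset.sum_add_distrib, ← Finset.sum_add_distrib]
    exact Finset.sum_congr rfl fun σ _ => by ring
  unfold qf
  rw [h1, h2]
  ring

theorem Good_disc {P K B : ℝ} (h : ∀ s t : ℝ, 0 ≤ P * s ^ 2 + 2 * K * (s * t) + B * t ^ 2) :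
    0 ≤ B ∧ K ^ 2 ≤ P * B := by
  have hB : 0 ≤ B := by
    have := h 0 1
    simpa using this
  refine ⟨hB, ?_⟩
  rcases hB.lt_or_eq with hB' | hB'
  · have h1 := h B (-K)
    have h2 : P * B ^ 2 + 2 * K * (B * -K) + B * (-K) ^ 2 = B * (P * B - K ^ 2) := by ring
    rw [h2] at h1
    have := nonneg_of_mul_nonneg_right h1 hB'
    linarith
  · rw [← hB', mul_zero]
    by_cases hK : K = 0
    · rw [hK]; simp
    · exfalso
      have h1 := h 1 (-(P + 1) / (2 * K))
      rw [← hB'] at h1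
      have h2 : P * 1 ^ 2 + 2 * K * (1 * (-(P + 1) / (2 * K))) + 0 * (-(P + 1) / (2 * K)) ^ 2 = -1 := by
        field_simp
        ring
      rw [h2] at h1
      linarith

theorem good_of_frz (hS : Even' S) (hO : Odd' O) {X : Finset V} {lam : ℝ}
    (hZ : 0 < ∑ σ, S σ) (h : FrzR (fun σ => S σ * (1 + O σ)) X lam)
    {φ ψ : (V → Bool) → ℝ} (hφ : Odd' φ) (hφX : Dep X φ) (hψ : Even' ψ) (hψX : Dep X ψ)
    (hψ0 : tot S ψ = 0) :
    0 ≤ qf lam S ψ ψ ∧
      qf lam (fun σ => S σ * O σ) φ ψ ^ 2 ≤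
        (qf lam S φ φ + lam / (∑ σ, S σ) * tot (fun σ => S σ * O σ) φ ^ 2) * qf lam S ψ ψ := by
  set Z := ∑ σ, S σ with hZdef
  set N := tot (fun σ => S σ * O σ) φ with hN
  apply Good_disc
  intro s t
  have hφ' : Odd' (fun σ => s * φ σ) := fun σ => by
    show s * φ (neg σ) = -(s * φ σ)
    rw [hφ]; ring
  have hψ' : Even' (fun σ => t * ψ σ) := fun σ => by
    show t * ψ (neg σ) = t * ψ σ
    rw [hψ]
  have hψ0' : tot S (fun σ => t * ψ σ) = 0 := by rw [tot_smul, hψ0, mul_zero]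
  obtain ⟨h1, h2⟩ := Good_parts hS hO lam hφ' hψ' hψ0'
  rw [tot_smul, ← hN] at h2
  have h3 : Dep X (fun σ => (s * φ σ + t * ψ σ) + (-(s * N / Z))) := by
    intro σ τ hst
    show s * φ σ + t * ψ σ + -(s * N / Z) = s * φ τ + t * ψ τ + -(s * N / Z)
    rw [hφX σ τ hst, hψX σ τ hst]
  have h4 : tot (fun σ => S σ * (1 + O σ)) (fun σ => (s * φ σ + t * ψ σ) + (-(s * N / Z))) = 0 := by
    rw [tot_add, h2]
    have h5 : tot (fun σ => S σ * (1 + O σ)) (fun _ => -(s * N / Z)) = -(s * N / Z) * Z := by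
      unfold tot
      rw [← Finset.sum_mul, Good_mass hS hO, ← hZdef, mul_comm]
    rw [h5]
    field_simp
    ring
  have h5 := h _ h3 h4
  rw [Good_shift, h1, h2, Good_mass hS hO, ← hZdef, qf_smul_left, qf_smul_right, qf_smul_left, qf_smul_right,
    qf_smul_left, qf_smul_right] at h5
  have h6 : s * (s * qf lam S φ φ) + t * (t * qf lam S ψ ψ) + 2 * (s * (t * qf lam (fun σ => S σ * O σ) φ ψ)) -
      lam * (2 * -(s * N / Z) * (s * N) + (-(s * N / Z)) ^ 2 * Z) =
      (qf lam S φ φ + lam / Z * N ^ 2) * s ^ 2 + 2 * qf lam (fun σ => S σ * O σ) φ ψ * (s * t) +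
        qf lam S ψ ψ * t ^ 2 := by
    field_simp
    ring
  rw [h6] at h5
  exact h5

theorem frz_of_good (hS : Even' S) (hO : Odd' O) {X : Finset V} {lam : ℝ}
    (hZ : 0 < ∑ σ, S σ)
    (h : ∀ φ ψ : (V → Bool) → ℝ, Odd' φ → Dep X φ → Even' ψ → Dep X ψ → tot S ψ = 0 →
      Monotone (fun σ => φ σ + ψ σ) →
      0 ≤ qf lam S φ φ + qf lam S ψ ψ + 2 * qf lam (fun σ => S σ * O σ) φ ψ +
        lam / (∑ σ, S σ) * tot (fun σ => S σ * O σ) φ ^ 2)
    {f : (V → Bool) → ℝ} (hf : Monotone f) (hfX : Dep X f)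
    (hf0 : tot (fun σ => S σ * (1 + O σ)) f = 0) :
    0 ≤ qf lam (fun σ => S σ * (1 + O σ)) f f := by
  set Z := ∑ σ, S σ with hZdef
  set c := tot S (sy f) / Z with hc
  set φ : (V → Bool) → ℝ := fun σ => (f σ - f (neg σ)) / 2 with hφdef
  set ψ : (V → Bool) → ℝ := fun σ => sy f σ + (-c) with hψdef
  have hsum : ∀ σ, φ σ + ψ σ = f σ + (-c) := by
    intro σ
    simp only [hφdef, hψdef, sy]
    ring
  have hφ : Odd' φ := by
    intro σ
    simp only [hφdef, neg_neg']
    ring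
  have hψ : Even' ψ := by
    intro σ
    simp only [hψdef, sy, neg_neg']
    ring
  have hfn : Dep X (fun σ => f (neg σ)) := hfX.neg
  have hφX : Dep X φ := by
    intro σ τ hst
    have h1 := hfX σ τ hst
    have h2 : f (neg σ) = f (neg τ) := hfn σ τ hst
    simp only [hφdef]
    rw [h1, h2]
  have hψX : Dep X ψ := by
    intro σ τ hst
    have h1 := hfX σ τ hst
    have h2 : f (neg σ) = f (neg τ) := hfn σ τ hst
    simp only [hψdef, sy]
    rw [h1, h2]
  have hψ0 : tot S ψ = 0 := by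
    rw [hψdef, tot_add]
    have h5 : tot S (fun _ => -c) = -c * Z := by
      unfold tot
      rw [← Finset.sum_mul, ← hZdef, mul_comm]
    rw [h5, hc]
    field_simp
    ring
  have hmono : Monotone (fun σ => φ σ + ψ σ) := by
    intro σ τ hst
    show φ σ + ψ σ ≤ φ τ + ψ τ
    rw [hsum, hsum]
    have := hf hst
    linarith
  have h1 := h φ ψ hφ hφX hψ hψX hψ0 hmono
  obtain ⟨h2, h3⟩ := Good_parts hS hO lam hφ hψ hψ0
  have h4 : (fun σ => φ σ + ψ σ) = fun σ => f σ + (-c) := funext hsum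
  rw [← h2, ← h3, h4, Good_shift, Good_mass hS hO, ← hZdef] at h1
  have h5 : tot (fun σ => S σ * (1 + O σ)) (fun σ => f σ + -c) = -c * Z := by
    rw [tot_add, hf0, zero_add]
    unfold tot
    rw [← Finset.sum_mul, Good_mass hS hO, ← hZdef, mul_comm]
  rw [h5, hf0] at h1
  have h6 : qf lam (fun σ => S σ * (1 + O σ)) f f - lam * (2 * -c * 0 + (-c) ^ 2 * Z) + lam / Z * (-c * Z) ^ 2 =
      qf lam (fun σ => S σ * (1 + O σ)) f f := by
    field_simp
    ring
  rw [h6] at h1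
  exact h1

end Pool.Agent.Lib.MP_f82811_pr.TC
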