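import Pool.Agent.Lib.MP_f82811_pr.TC.HBm
import Pool.Agent.Lib.MP_f82811_pr.TC.Cyc

/-!
# Raising the coupling of an edge of a triangle in a cactus component of a graph
-/

set_option autoImplicit false

namespace Pool.Agent.Lib.MP_f82811_pr.TC

open Finset HT

variable {V : Type*} [Fintype V] [DecidableEq V]

omit [Fintype V] in
theorem mat_update (G : SimpleGraph V) [DecidableRel G.Adj] (J : Sym2 V → ℝ) {k l : V}
    (h : G.Adj k l) (x : ℝ) :
    mat G (Function.update J s(k, l) x) = setc (mat G J) k l x := by
  funext a b
  unfold setc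
  by_cases hab : (a = k ∧ b = l) ∨ (a = l ∧ b = k)
  · rw [if_pos hab]
    unfold mat
    rcases hab with ⟨h1, h2⟩ | ⟨h1, h2⟩
    · rw [h1, h2, if_pos h, Function.update_self]
    · rw [h1, h2, if_pos h.symm, Sym2.eq_swap, Function.update_self]
  · rw [if_neg hab]
    unfold mat
    by_cases hadj : G.Adj a b
    · rw [if_pos hadj, if_pos hadj, Function.update_of_ne]
      intro hc
      rw [Sym2.eq_iff] at hc
      exact hab hc
    · rw [if_neg hadj, if_neg hadj]

theorem sh_of_cactus (G : SimpleGraph V) [DecidableRel G.Adj] (J : Sym2 V → ℝ) {k l m : V}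
    (hkl : G.Adj k l) (hkm : G.Adj k m) (hlm : G.Adj l m) (h : CactusAt G k) :
    Sh (mat G J) k l := by
  have hone : ∀ a b, G.Adj a b → mat G (fun _ => 1) a b ≠ 0 := fun a b hab => by
    unfold mat
    rw [if_pos hab]
    exact one_ne_zero
  have h1 : Sh (mat G (fun _ => 1)) k l :=
    cac_short (coup_mat G fun _ _ => zero_le_one) (hone _ _ hkl) (cac_of_cactus G _ h)
      (hone _ _ hkm) (hone _ _ hlm)
  refine h1.mono fun a b hab => ?_
  unfold mat at hab
  split_ifs at hab with hadj
  · exact hone a b hadj
  · exact absurd rfl hab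

theorem gap_triangle [Nonempty V] (G : SimpleGraph V) [DecidableRel G.Adj] (J : Sym2 V → ℝ)
    (hJ : ∀ e ∈ G.edgeSet, 0 ≤ J e) {k l m : V}
    (hkl : G.Adj k l) (hkm : G.Adj k m) (hlm : G.Adj l m) (h : CactusAt G k) {x y : ℝ}
    (hx : 0 ≤ x) (hxy : x ≤ y) :
    gap (gibbs G (Function.update J s(k, l) y)) ≤ gap (gibbs G (Function.update J s(k, l) x)) := by
  have hJy : ∀ e ∈ G.edgeSet, 0 ≤ Function.update J s(k, l) y e := by
    intro e he
    by_cases h : e = s(k, l)
    · rw [h, Function.update_self]
      exact hx.trans hxy
    · rw [Function.update_of_ne h]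
      exact hJ e he
  have hA := coup_mat G hJy
  have h1 := gap_short hA hkl.ne (cac_of_cactus G _ h) (sh_of_cactus G _ hkl hkm hlm h) hx
    (by
      unfold mat
      rw [if_pos hkl, Function.update_self]
      exact hxy)
  rw [gibbs_eq, gibbs_eq, weight_eq_W, weight_eq_W]
  have h2 : setc (mat G (Function.update J s(k, l) y)) k l x =
      mat G (Function.update J s(k, l) x) := by
    rw [mat_update G J hkl, mat_update G J hkl, setc_setc]
  rw [h2] at h1
  exact h1

/-- Raising the couplings of bridges and of edges of triangles of cactus components. -/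
theorem gap_raise [Nonempty V] (G : SimpleGraph V) [DecidableRel G.Adj] {J J' : Sym2 V → ℝ}
    (hJ : ∀ e ∈ G.edgeSet, 0 ≤ J e) (hJJ' : ∀ e ∈ G.edgeSet, J e ≤ J' e)
    (hbr : ∀ k l, G.Adj k l → J s(k, l) ≠ J' s(k, l) →
      G.IsBridge s(k, l) ∨ ((∃ m, G.Adj k m ∧ G.Adj l m) ∧ CactusAt G k)) :
    gap (gibbs G J') ≤ gap (gibbs G J) := by
  have main : ∀ s : Finset (Sym2 V), s ⊆ G.edgeFinset →
      gap (gibbs G (fun e => if e ∈ s then J' e else J e)) ≤ gap (gibbs G J) := by
    intro s
    induction s using Finset.induction with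
    | empty =>
      intro _
      simp
    | insert e s hes ih =>
      intro hsub
      have he : e ∈ G.edgeSet := SimpleGraph.mem_edgeFinset.1 (hsub (Finset.mem_insert_self _ _))
      have hs : s ⊆ G.edgeFinset := fun x hx => hsub (Finset.mem_insert_of_mem hx)
      refine le_trans ?_ (ih hs)
      have e1 : (fun e' => if e' ∈ insert e s then J' e' else J e') =
          Function.update (fun e' => if e' ∈ s then J' e' else J e') e (J' e) := by
        funext e'
        by_cases h : e' = e
        · subst h
          simp
        · rw [Function.update_of_ne h]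
          simp [Finset.mem_insert, h]
      have e2 : (fun e' => if e' ∈ s then J' e' else J e') =
          Function.update (fun e' => if e' ∈ s then J' e' else J e') e (J e) := by
        funext e'
        by_cases h : e' = e
        · subst h
          simp [hes]
        · rw [Function.update_of_ne h]
      have hpos : ∀ e' ∈ G.edgeSet, 0 ≤ (fun e' => if e' ∈ s then J' e' else J e') e' := by
        intro e' he'
        by_cases h : e' ∈ s
        · simp only [h, if_true]
          exact (hJ e' he').trans (hJJ' e' he')
        · simp only [h, if_false]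
          exact hJ e' he'
      by_cases hne : J e = J' e
      · rw [e1, ← hne, ← e2]
      · rw [e1]
        conv_rhs => rw [e2]
        induction e with
        | h k l =>
          rcases hbr k l he hne with h | ⟨⟨m, hkm, hlm⟩, hc⟩
          · exact gap_bridge G _ _ he h hpos (hJ _ he) (hJJ' _ he)
          · exact gap_triangle G _ hpos he hkm hlm hc (hJ _ he) (hJJ' _ he)
  have h1 := main G.edgeFinset (Finset.Subset.refl _)
  have h2 : weight G (fun e => if e ∈ G.edgeFinset then J' e else J e) = weight G J' := by
    apply weight_congr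
    intro e he
    simp only [SimpleGraph.mem_edgeFinset, he, if_true]
  have h3 : gibbs G (fun e => if e ∈ G.edgeFinset then J' e else J e) = gibbs G J' := by
    rw [gibbs_eq, gibbs_eq, h2]
  rw [h3] at h1
  exact h1

end Pool.Agent.Lib.MP_f82811_pr.TC
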