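import Pool.Agent.Lib.MP_f82811_pr.TC.IncMean

/-!
# Module Ground: the odd monotone ground state

Proof. The set of odd monotone `f` with `ip w f f = 1` is compact (closed: `isClosed_odd_mono` in
HT/Eig.lean; bounded) and not empty (normalised magnetisation). `am w f f` is continuous; let `g` be a
minimum point, `lam0 = am w g g ≥ 0`. Every odd monotone `f` satisfies `lam0 * ip w f f ≤ am w f f`
(scaling), so `OddR w univ lam0` by `inc_odd`. (Copy of `exists_max_cone` in HT/Eig.lean.)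
-/

set_option autoImplicit false

namespace Pool.Agent.Lib.MP_f82811_pr.TC

open Finset HT

variable {V : Type*} [Fintype V] [DecidableEq V] {w : (V → Bool) → ℝ}

private theorem ground_am_smul (c : ℝ) (f : (V → Bool) → ℝ) :
    am w (fun σ => c * f σ) (fun σ => c * f σ) = c * (c * am w f f) := by
  unfold am
  simp only [Finset.mul_sum]
  refine Finset.sum_congr rfl fun v _ => Finset.sum_congr rfl fun σ _ => ?_
  unfold D
  ring

private theorem ground_am_nonneg (hw : ∀ σ, 0 < w σ) (f : (V → Bool) → ℝ) : 0 ≤ am w f f :=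
  Finset.sum_nonneg fun _ _ => Finset.sum_nonneg fun σ _ =>
    mul_nonneg (hw σ).le (mul_self_nonneg _)

private theorem ground_am_cont : Continuous fun f : (V → Bool) → ℝ => am w f f := by
  unfold am D
  fun_prop

theorem exists_ground [Nonempty V] (hF : Fkg w) (hev : Even' w) :
    ∃ (lam0 : ℝ) (g : (V → Bool) → ℝ), 0 ≤ lam0 ∧ Odd' g ∧ Monotone g ∧ ip w g g = 1 ∧
      qf lam0 w g g = 0 ∧ OddR w Finset.univ lam0 := by
  have hw := hF.pos
  obtain ⟨S, hS⟩ : ∃ S : Set ((V → Bool) → ℝ), S = {f | (Odd' f ∧ Monotone f) ∧ ip w f f = 1} :=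
    ⟨_, rfl⟩
  have hclosedS : IsClosed S := by
    rw [hS]
    have h3 : IsClosed {f : (V → Bool) → ℝ | ip w f f = 1} :=
      isClosed_eq continuous_ip_self continuous_const
    exact isClosed_odd_mono.inter h3
  have hbdd : ∃ B : ℝ, ∀ f ∈ S, ∀ σ, |f σ| ≤ B := by
    refine ⟨∑ σ, (1 / w σ + 1), fun f hf σ => ?_⟩
    rw [hS] at hf
    have h1 : w σ * (f σ * f σ) ≤ 1 := by
      rw [← hf.2]
      exact Finset.single_le_sum (f := fun σ => w σ * (f σ * f σ))
        (fun σ _ => mul_nonneg (hw σ).le (mul_self_nonneg _)) (Finset.mem_univ σ)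
    have h2 : f σ * f σ ≤ 1 / w σ := by
      rw [le_div_iff₀ (hw σ)]
      linarith
    have h3 : |f σ| ≤ 1 / w σ + 1 := by
      have h4 : 0 ≤ 1 / w σ := (one_div_pos.2 (hw σ)).le
      apply abs_le_of_sq_le_sq
      · nlinarith
      · linarith
    refine h3.trans ?_
    exact Finset.single_le_sum (f := fun σ => 1 / w σ + 1)
      (fun σ _ => by have := one_div_pos.2 (hw σ); linarith) (Finset.mem_univ σ)
  obtain ⟨B, hB⟩ := hbdd
  have hcompact : IsCompact S := by
    apply IsCompact.of_isClosed_subset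
      (isCompact_Icc (a := fun _ : V → Bool => -B) (b := fun _ : V → Bool => B)) hclosedS
    intro f hf
    rw [Set.mem_Icc]
    exact ⟨fun σ => (abs_le.1 (hB f hf σ)).1, fun σ => (abs_le.1 (hB f hf σ)).2⟩
  have hscaleS : ∀ g : (V → Bool) → ℝ, Odd' g → Monotone g → ip w g g ≠ 0 →
      (fun σ => (1 / Real.sqrt (ip w g g)) * g σ) ∈ S := by
    intro g hg1 hg2 hg3
    have hpos : 0 < ip w g g := lt_of_le_of_ne (ip_self_nonneg hw g) (Ne.symm hg3)
    have hs : 0 < Real.sqrt (ip w g g) := Real.sqrt_pos.2 hpos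
    have hs' : 0 ≤ 1 / Real.sqrt (ip w g g) := (one_div_pos.2 hs).le
    rw [hS]
    refine ⟨⟨fun σ => ?_, fun σ τ h => mul_le_mul_of_nonneg_left (hg2 h) hs'⟩, ?_⟩
    · show 1 / Real.sqrt (ip w g g) * g (neg σ) = -(1 / Real.sqrt (ip w g g) * g σ)
      rw [hg1 σ]
      ring
    rw [ip_smul_left, ip_smul_right]
    have h1 : Real.sqrt (ip w g g) * Real.sqrt (ip w g g) = ip w g g :=
      Real.mul_self_sqrt hpos.le
    field_simp
    nlinarith [h1]
  have hne : S.Nonempty := by
    refine ⟨_, hscaleS mag mag_odd mag_magMono.monotone ?_⟩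
    have h1 : mag (V := V) (fun _ => true) ≠ 0 := by
      unfold mag
      simp
    exact (ip_self_pos hw h1).ne'
  obtain ⟨g, hgS, hmin⟩ := hcompact.exists_isMinOn hne (ground_am_cont (w := w)).continuousOn
  have hgS' := hgS
  rw [hS] at hgS'
  refine ⟨am w g g, g, ground_am_nonneg hw g, hgS'.1.1, hgS'.1.2, hgS'.2, ?_, ?_⟩
  · unfold qf
    rw [hgS'.2]
    ring
  refine inc_odd hF hev fun f hf1 hf2 => ?_
  unfold qf
  by_cases hf3 : ip w f f = 0
  · rw [hf3, mul_zero, sub_zero]
    exact ground_am_nonneg hw f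
  · have hpos : 0 < ip w f f := lt_of_le_of_ne (ip_self_nonneg hw f) (Ne.symm hf3)
    have h1 := hmin (hscaleS f hf2 hf1 hf3)
    have h1' : am w g g ≤ am w (fun σ => (1 / Real.sqrt (ip w f f)) * f σ)
        (fun σ => (1 / Real.sqrt (ip w f f)) * f σ) := h1
    rw [ground_am_smul] at h1'
    have hs : 0 < Real.sqrt (ip w f f) := Real.sqrt_pos.2 hpos
    have h3 : Real.sqrt (ip w f f) * Real.sqrt (ip w f f) = ip w f f :=
      Real.mul_self_sqrt hpos.le
    have h4 : 1 / Real.sqrt (ip w f f) * (1 / Real.sqrt (ip w f f) * am w f f) =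
        am w f f / (Real.sqrt (ip w f f) * Real.sqrt (ip w f f)) := by
      field_simp
    rw [h4, h3, le_div_iff₀ hpos] at h1'
    linarith

end Pool.Agent.Lib.MP_f82811_pr.TC
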