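import Pool.Agent.Lib.MP_f82811_pr.TC.Tri
import Pool.Agent.Lib.MP_f82811_pr.TC.DblLow
import Pool.Agent.Lib.MP_f82811_pr.TC.DblUp

/-!
# Short edges of cactus components, heat bath dynamics
-/

set_option autoImplicit false

namespace Pool.Agent.Lib.MP_f82811_pr.TC

open Finset HT

variable {V : Type*} [Fintype V] [DecidableEq V] {A : V → V → ℝ}

theorem short_hb [Nonempty V] (hA : Coup A) {k l : V} (hkl : k ≠ l) (hC : Cac A k)
    (hsh : Sh A k l) {s lamh : ℝ} (hs : 0 ≤ s) (hs' : s ≤ A k l) (h0 : 0 ≤ lamh)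
    (h : ∀ f : (V → Bool) → ℝ, Odd' f → lamh * ip (W A) f f ≤ dir (W A) f) :
    ∀ f : (V → Bool) → ℝ, Odd' f →
      lamh * ip (W (setc A k l s)) f f ≤ dir (W (setc A k l s)) f := by
  intro f hf
  have hB : Coup (setc A k l s) := coup_setc hA hkl hs
  have hip : 0 ≤ ip (W (setc A k l s)) f f := ip_self_nonneg (W_pos _) f
  have hdir : 0 ≤ dir (W (setc A k l s)) f := dir_nonneg (W_pos _) f
  have key : ∀ eps : ℝ, 0 < eps → eps ≤ lamh →
      (lamh - eps) * ip (W (setc A k l s)) f f ≤ dir (W (setc A k l s)) f := by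
    intro eps he he'
    obtain ⟨K0, hK0, hK⟩ := dbl_low hA h0 h he
    have h1 : ∀ K, K0 ≤ K → OddR (W (dbl (setc A k l s) K)) Finset.univ ((lamh - eps) / 4) := by
      intro K hKK
      rw [dbl_setc A K hkl s]
      have hKn : 0 ≤ K := hK0.trans hKK
      refine short_am (coup_dbl hA hKn) (fun h => hkl (Prod.ext_iff.1 h).1) (cac_dbl hA hC)
        (sh_dbl hA hkl hsh) hs ?_ (hK K hKK)
      unfold dbl
      simp only [and_self, if_true]
      exact hs'
    have h2 := dbl_up hB (by linarith : 0 ≤ (lamh - eps) / 4) h1 hf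
    have h3 : 4 * ((lamh - eps) / 4) = lamh - eps := by ring
    rwa [h3] at h2
  rcases h0.lt_or_eq with hl | hl
  · by_contra hcon
    push Not at hcon
    -- choose eps small
    set I := ip (W (setc A k l s)) f f with hI
    set E := dir (W (setc A k l s)) f with hE
    have hd : 0 < lamh * I - E := by linarith
    have he1 : 0 < (lamh * I - E) / (2 * (I + 1)) := by positivity
    have hmin : 0 < min lamh ((lamh * I - E) / (2 * (I + 1))) := lt_min hl he1
    have h1 := key _ hmin (min_le_left _ _)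
    have h2 : min lamh ((lamh * I - E) / (2 * (I + 1))) * I ≤ (lamh * I - E) / 2 := by
      have h3 : min lamh ((lamh * I - E) / (2 * (I + 1))) * I ≤
          (lamh * I - E) / (2 * (I + 1)) * I :=
        mul_le_mul_of_nonneg_right (min_le_right _ _) hip
      have h4 : (lamh * I - E) / (2 * (I + 1)) * I ≤ (lamh * I - E) / 2 := by
        rw [div_mul_eq_mul_div, div_le_div_iff₀ (by positivity) (by norm_num)]
        nlinarith
      exact h3.trans h4
    nlinarith
  · rw [← hl, zero_mul]
    exact hdir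

/-- Comparison of the gaps. -/
theorem gap_short [Nonempty V] (hA : Coup A) {k l : V} (hkl : k ≠ l) (hC : Cac A k)
    (hsh : Sh A k l) {s : ℝ} (hs : 0 ≤ s) (hs' : s ≤ A k l) :
    gap (normalize (W A)) ≤ gap (normalize (W (setc A k l s))) := by
  have hB : Coup (setc A k l s) := coup_setc hA hkl hs
  have hn : (0 : ℝ) < Fintype.card V := by exact_mod_cast Fintype.card_pos
  have h0 : 0 ≤ 2 * (Fintype.card V : ℝ) * gap (normalize (W A)) :=
    mul_nonneg (by positivity) (gap_nonneg (W_pos A))
  have h1 : ∀ f : (V → Bool) → ℝ, Odd' f →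
      (2 * (Fintype.card V : ℝ) * gap (normalize (W A))) * ip (W A) f f ≤ dir (W A) f :=
    fun f hf => poincare_of_gap (W_pos A) (ip_odd_even (fun σ => W_neg σ) hf (fun _ => rfl))
  have h2 := short_hb hA hkl hC hsh hs hs' h0 h1
  have h3 : 2 * (Fintype.card V : ℝ) * gap (normalize (W A)) ≤
      2 * (Fintype.card V : ℝ) * gap (normalize (W (setc A k l s))) :=
    le_gap (W_pos _) fun g hg =>
      poincare_of_odd (W_pos _) (fun σ => W_neg σ) (W_fkg hB) h2 hg
  exact le_of_mul_le_mul_left h3 (by positivity)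

end Pool.Agent.Lib.MP_f82811_pr.TC
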