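import Pool.Agent.Lib.MP_f82811_pr.TC.Alg

/-!
# Module Hopm: the generator of the arithmetic mean dynamics

Proof. `ip w g (Hop w f) = ∑ v, ∑ σ, (w σ + w (flip v σ)) * g σ * (f σ - f (flip v σ)) / 4`.
Exchange `σ` and `flip v σ` (`sum_flip`) and take the half sum:
`∑ v, ∑ σ, (w σ + w (flip v σ)) * (g σ - g (flip v σ)) * (f σ - f (flip v σ)) / 8`, and by the same
exchange this is `∑ v, ∑ σ, w σ * (g σ - g (flip v σ)) * (f σ - f (flip v σ)) / 4`, and
`D v f σ * D v g σ = (f σ - f (flip v σ)) * (g σ - g (flip v σ)) / 4` (both have the sign of the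
spin at `v`). For `am_le`: `w (flip v σ) ≤ R * w σ` for a constant `R` (finitely many ratios), and
`D v f σ ^ 2 ≤ (f σ ^ 2 + f (flip v σ) ^ 2) / 2`.
-/

set_option autoImplicit false

namespace Pool.Agent.Lib.MP_f82811_pr.TC

open Finset HT

variable {V : Type*} [Fintype V] [DecidableEq V] {w : (V → Bool) → ℝ}

theorem Hopm_D_mul (v : V) (f g : (V → Bool) → ℝ) (σ : V → Bool) :
    D v g σ * D v f σ = (g σ - g (flip v σ)) * (f σ - f (flip v σ)) / 4 := by
  rw [sub_flip, sub_flip]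
  have h := sp_sq v σ
  linear_combination (-(D v g σ * D v f σ)) * h

theorem ip_Hop (hw : ∀ σ, 0 < w σ) (f g : (V → Bool) → ℝ) : ip w g (Hop w f) = am w g f := by
  have h1 : ip w g (Hop w f) =
      ∑ v, ∑ σ, (w σ + w (flip v σ)) * g σ * (f σ - f (flip v σ)) / 4 := by
    unfold ip Hop
    rw [Finset.sum_comm]
    refine Finset.sum_congr rfl fun σ _ => ?_
    rw [Finset.mul_sum, Finset.mul_sum]
    refine Finset.sum_congr rfl fun v _ => ?_
    have := (hw σ).ne'
    field_simp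
  rw [h1]
  unfold am
  refine Finset.sum_congr rfl fun v _ => ?_
  have hA : ∑ σ, (w σ + w (flip v σ)) * g σ * (f σ - f (flip v σ)) / 4 =
      ∑ σ, (w (flip v σ) + w σ) * g (flip v σ) * (f (flip v σ) - f σ) / 4 := by
    rw [← sum_flip v]
    refine Finset.sum_congr rfl fun σ _ => ?_
    rw [flip_flip]
  have hB0 : ∑ σ, w σ * (D v g σ * D v f σ) =
      ∑ σ, w σ * ((g σ - g (flip v σ)) * (f σ - f (flip v σ)) / 4) := by
    refine Finset.sum_congr rfl fun σ _ => ?_
    rw [Hopm_D_mul]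
  have hB : ∑ σ, w σ * ((g σ - g (flip v σ)) * (f σ - f (flip v σ)) / 4) =
      ∑ σ, w (flip v σ) * ((g (flip v σ) - g σ) * (f (flip v σ) - f σ) / 4) := by
    rw [← sum_flip v]
    refine Finset.sum_congr rfl fun σ _ => ?_
    rw [flip_flip]
  rw [hB0]
  have h2 : (∑ σ, (w σ + w (flip v σ)) * g σ * (f σ - f (flip v σ)) / 4) +
      (∑ σ, (w (flip v σ) + w σ) * g (flip v σ) * (f (flip v σ) - f σ) / 4) =
      (∑ σ, w σ * ((g σ - g (flip v σ)) * (f σ - f (flip v σ)) / 4)) +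
      ∑ σ, w (flip v σ) * ((g (flip v σ) - g σ) * (f (flip v σ) - f σ) / 4) := by
    rw [← Finset.sum_add_distrib, ← Finset.sum_add_distrib]
    refine Finset.sum_congr rfl fun σ _ => ?_
    ring
  rw [← hA, ← hB] at h2
  linarith

omit [Fintype V] in
theorem Hopm_flip_agree {X : Finset V} {σ τ : V → Bool} (h : ∀ v ∈ X, σ v = τ v) (v : V) :
    ∀ u ∈ X, flip v σ u = flip v τ u := by
  intro u hu
  by_cases huv : u = v
  · subst huv
    simp [flip, h u hu]
  · simp [flip, huv, h u hu]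

theorem Hop_dep {X : Finset V} (hw : Dep X w) {f : (V → Bool) → ℝ} (hf : Dep X f) :
    Dep X (Hop w f) := by
  intro σ τ h
  unfold Hop
  refine Finset.sum_congr rfl fun v _ => ?_
  rw [hw σ τ h, hf σ τ h, hw _ _ (Hopm_flip_agree h v), hf _ _ (Hopm_flip_agree h v)]

theorem Hop_lin (a b : ℝ) (f g : (V → Bool) → ℝ) (σ : V → Bool) :
    Hop w (fun σ => a * f σ + b * g σ) σ = a * Hop w f σ + b * Hop w g σ := by
  unfold Hop
  rw [Finset.mul_sum, Finset.mul_sum, ← Finset.sum_add_distrib]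
  refine Finset.sum_congr rfl fun v _ => ?_
  ring

theorem Hop_odd (hw : Even' w) {f : (V → Bool) → ℝ} (hf : Odd' f) : Odd' (Hop w f) := by
  intro σ
  unfold Hop
  rw [← Finset.sum_neg_distrib]
  refine Finset.sum_congr rfl fun v _ => ?_
  rw [← neg_flip, hw, hw, hf, hf]
  ring

theorem Hop_even (hw : Even' w) {f : (V → Bool) → ℝ} (hf : Even' f) : Even' (Hop w f) := by
  intro σ
  unfold Hop
  refine Finset.sum_congr rfl fun v _ => ?_
  rw [← neg_flip, hw, hw, hf, hf]

theorem am_le (hw : ∀ σ, 0 < w σ) : ∃ C : ℝ, 0 ≤ C ∧ ∀ f : (V → Bool) → ℝ,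
    am w f f ≤ C * ip w f f := by
  set R : ℝ := ∑ v : V, ∑ σ : V → Bool, w (flip v σ) / w σ with hR
  have hR0 : 0 ≤ R := Finset.sum_nonneg fun v _ => Finset.sum_nonneg fun σ _ =>
    (div_pos (hw _) (hw _)).le
  have hRle : ∀ (v : V) (σ : V → Bool), w (flip v σ) ≤ R * w σ := by
    intro v σ
    have h1 : w (flip v σ) / w σ ≤ ∑ σ : V → Bool, w (flip v σ) / w σ :=
      Finset.single_le_sum (f := fun σ : V → Bool => w (flip v σ) / w σ)
        (fun σ _ => (div_pos (hw _) (hw _)).le) (Finset.mem_univ σ)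
    have h2 : ∑ σ : V → Bool, w (flip v σ) / w σ ≤ R :=
      Finset.single_le_sum (f := fun v : V => ∑ σ : V → Bool, w (flip v σ) / w σ)
        (fun v _ => Finset.sum_nonneg fun σ _ => (div_pos (hw _) (hw _)).le) (Finset.mem_univ v)
    exact (div_le_iff₀ (hw σ)).1 (h1.trans h2)
  refine ⟨(Fintype.card V : ℝ) * ((1 + R) / 2), by positivity, fun f => ?_⟩
  have hv : ∀ v : V, ∑ σ, w σ * (D v f σ * D v f σ) ≤ (1 + R) / 2 * ip w f f := by
    intro v
    have h1 : ∑ σ, w σ * (D v f σ * D v f σ) ≤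
        ∑ σ, (w σ * (f σ * f σ) / 2 + w σ * (f (flip v σ) * f (flip v σ)) / 2) := by
      refine Finset.sum_le_sum fun σ _ => ?_
      rw [Hopm_D_mul]
      have := (hw σ).le
      have h3 : 0 ≤ w σ * (f σ + f (flip v σ)) ^ 2 := by positivity
      nlinarith
    have h2 : ∑ σ, w σ * (f (flip v σ) * f (flip v σ)) / 2 = ∑ σ, w (flip v σ) * (f σ * f σ) / 2 := by
      rw [← sum_flip v]
      refine Finset.sum_congr rfl fun σ _ => ?_
      rw [flip_flip]
    have h3 : ∑ σ, w (flip v σ) * (f σ * f σ) / 2 ≤ ∑ σ, R * (w σ * (f σ * f σ)) / 2 := by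
      refine Finset.sum_le_sum fun σ _ => ?_
      have := mul_le_mul_of_nonneg_right (hRle v σ) (mul_self_nonneg (f σ))
      linarith
    rw [Finset.sum_add_distrib, h2] at h1
    refine h1.trans ((add_le_add_right h3 _).trans (le_of_eq ?_))
    unfold ip
    rw [Finset.mul_sum, ← Finset.sum_add_distrib]
    refine Finset.sum_congr rfl fun σ _ => ?_
    ring
  unfold am
  calc ∑ v, ∑ σ, w σ * (D v f σ * D v f σ) ≤ ∑ _v : V, (1 + R) / 2 * ip w f f :=
        Finset.sum_le_sum fun v _ => hv v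
    _ = (Fintype.card V : ℝ) * ((1 + R) / 2) * ip w f f := by
        rw [Finset.sum_const, Finset.card_univ, nsmul_eq_mul]
        ring

end Pool.Agent.Lib.MP_f82811_pr.TC
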