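import Pool.Agent.Lib.MP_f82811_pr.TC.Attr

/-!
# Module Inc: from the cone to its differences

Proof. Put `T f σ = c * f σ - Hop w f σ` with `c` large: `c ≥ C` of the hypothesis, `c ≥` the constant
of `am_le` (so `ip w f (T f) = c * ip w f f - am w f f ≥ 0`), `c ≥ lam`. `T` is symmetric and positive
semidefinite for `ip w`. For `h` in `K` and `ρ = c - lam ≥ 0`: `ip w h (T h) ≤ ρ * ip w h h`. As in
`odd_step` (OddSector.lean), with Cauchy-Schwarz for the form `ip w x (T y)`: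
`ip w (T h) (T h) ≤ ρ ^ 2 * ip w h h` for `h` in `K`, so `ip w (T^n h) (T^n h) ≤ ip w h h * (ρ ^ 2) ^ n`.
For `k = f - g`: `ip w (T^n k) (T^n k) ≤ 2 * (.. f ..) + 2 * (.. g ..) ≤ B * (ρ ^ 2) ^ n`, and the
sequence is log convex, so `log_convex_bound` gives `ip w (T k) (T k) ≤ ρ ^ 2 * ip w k k`, hence
`ip w k (T k) ≤ ρ * ip w k k`, which is `0 ≤ qf lam w k k`. (Copy of `odd_step`, `odd_iter`,
`even_bound`; all of it for `T` in place of `ceSum`.)
-/

set_option autoImplicit false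

namespace Pool.Agent.Lib.MP_f82811_pr.TC

open Finset HT

variable {V : Type*} [Fintype V] [DecidableEq V] {w : (V → Bool) → ℝ}

/-- The shifted generator. -/
noncomputable def Top (w : (V → Bool) → ℝ) (c : ℝ) (f : (V → Bool) → ℝ) (σ : V → Bool) : ℝ :=
  c * f σ - Hop w f σ

theorem Top_lin (c a b : ℝ) (f g : (V → Bool) → ℝ) :
    Top w c (fun σ => a * f σ + b * g σ) = fun σ => a * Top w c f σ + b * Top w c g σ := by
  funext σ
  unfold Top
  rw [Hop_lin]
  ring

theorem ip_Top_right (hw : ∀ σ, 0 < w σ) (c : ℝ) (f g : (V → Bool) → ℝ) :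
    ip w g (Top w c f) = c * ip w g f - am w g f := by
  rw [← ip_Hop hw]
  unfold ip Top
  rw [Finset.mul_sum, ← Finset.sum_sub_distrib]
  exact Finset.sum_congr rfl fun σ _ => by ring

theorem ip_Top_symm (hw : ∀ σ, 0 < w σ) (c : ℝ) (f g : (V → Bool) → ℝ) :
    ip w g (Top w c f) = ip w (Top w c g) f := by
  rw [ip_comm (Top w c g) f, ip_Top_right hw, ip_Top_right hw, ip_comm, am_comm]

theorem ip_Top_nonneg (hw : ∀ σ, 0 < w σ) {c C' : ℝ}
    (hC' : ∀ f : (V → Bool) → ℝ, am w f f ≤ C' * ip w f f) (hc : C' ≤ c)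
    (f : (V → Bool) → ℝ) : 0 ≤ ip w f (Top w c f) := by
  rw [ip_Top_right hw]
  have h1 := hC' f
  have h2 := mul_le_mul_of_nonneg_right hc (ip_self_nonneg hw f)
  linarith

/-- Cauchy-Schwarz for the form of the shifted generator. -/
theorem ip_Top_sq_le (hw : ∀ σ, 0 < w σ) {c C' : ℝ}
    (hC' : ∀ f : (V → Bool) → ℝ, am w f f ≤ C' * ip w f f) (hc : C' ≤ c)
    (x y : (V → Bool) → ℝ) :
    ip w x (Top w c y) ^ 2 ≤ ip w x (Top w c x) * ip w y (Top w c y) := by
  have hlin : ∀ t : ℝ, 0 ≤ ip w y (Top w c y) * (t * t) +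
      (2 * ip w x (Top w c y)) * t + ip w x (Top w c x) := by
    intro t
    have h0 := ip_Top_nonneg hw hC' hc (fun σ => x σ + t * y σ)
    have hA : Top w c (fun σ => x σ + t * y σ) =
        fun σ => Top w c x σ + t * Top w c y σ := by
      have := Top_lin (w := w) c 1 t x y
      simp only [one_mul] at this
      exact this
    rw [hA] at h0
    have h1 : ip w (fun σ => x σ + t * y σ) (fun σ => Top w c x σ + t * Top w c y σ) =
        ip w x (Top w c x) + t * ip w x (Top w c y) + t * ip w y (Top w c x) +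
          t * t * ip w y (Top w c y) := by
      unfold ip
      rw [Finset.mul_sum, Finset.mul_sum, Finset.mul_sum, ← Finset.sum_add_distrib,
        ← Finset.sum_add_distrib, ← Finset.sum_add_distrib]
      exact Finset.sum_congr rfl fun σ _ => by ring
    have h2 : ip w y (Top w c x) = ip w x (Top w c y) := by
      rw [ip_Top_symm hw, ip_comm]
    rw [h1, h2] at h0
    linarith
  have hd := discrim_le_zero hlin
  unfold discrim at hd
  nlinarith

/-- The iterates of the shifted generator. -/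
noncomputable def TopIt (w : (V → Bool) → ℝ) (c : ℝ) (n : ℕ) (f : (V → Bool) → ℝ) :
    (V → Bool) → ℝ := (Top w c)^[n] f

theorem TopIt_zero (c : ℝ) (f : (V → Bool) → ℝ) : TopIt w c 0 f = f := rfl

theorem TopIt_succ (c : ℝ) (n : ℕ) (f : (V → Bool) → ℝ) :
    TopIt w c (n + 1) f = Top w c (TopIt w c n f) :=
  Function.iterate_succ_apply' _ _ _

theorem TopIt_lin (c : ℝ) (n : ℕ) (a b : ℝ) (f g : (V → Bool) → ℝ) :
    TopIt w c n (fun σ => a * f σ + b * g σ) =
      fun σ => a * TopIt w c n f σ + b * TopIt w c n g σ := by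
  induction n with
  | zero => rfl
  | succ n ih => rw [TopIt_succ, ih, Top_lin, TopIt_succ, TopIt_succ]

theorem TopIt_mem {K : ((V → Bool) → ℝ) → Prop} {c : ℝ} (hK : ∀ f, K f → K (Top w c f))
    {f : (V → Bool) → ℝ} (hf : K f) (n : ℕ) : K (TopIt w c n f) := by
  induction n with
  | zero => exact hf
  | succ n ih => rw [TopIt_succ]; exact hK _ ih

/-- One step. -/
theorem Top_step (hw : ∀ σ, 0 < w σ) {c C' ρ : ℝ}
    (hC' : ∀ f : (V → Bool) → ℝ, am w f f ≤ C' * ip w f f) (hc : C' ≤ c) (hρ0 : 0 ≤ ρ)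
    {K : ((V → Bool) → ℝ) → Prop} (hK : ∀ f, K f → K (Top w c f))
    (hρ : ∀ f, K f → ip w f (Top w c f) ≤ ρ * ip w f f) {g : (V → Bool) → ℝ} (hg : K g) :
    ip w (Top w c g) (Top w c g) ≤ ρ ^ 2 * ip w g g := by
  set N := ip w (Top w c g) (Top w c g) with hN
  have h1 : ip w g (Top w c (Top w c g)) = N := by
    rw [ip_Top_symm hw]
  have h2 := ip_Top_sq_le hw hC' hc g (Top w c g)
  rw [h1] at h2
  have h3 := hρ g hg
  have h4 := hρ (Top w c g) (hK g hg)
  have h5 : 0 ≤ ip w g g := ip_self_nonneg hw g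
  have h6 : 0 ≤ N := ip_self_nonneg hw _
  have h7 : 0 ≤ ip w g (Top w c g) := ip_Top_nonneg hw hC' hc g
  have h8 : ip w g (Top w c g) * ip w (Top w c g) (Top w c (Top w c g)) ≤
      (ρ * ip w g g) * (ρ * N) :=
    mul_le_mul h3 h4 (ip_Top_nonneg hw hC' hc _) (mul_nonneg hρ0 h5)
  have h9 : N * N ≤ (ρ ^ 2 * ip w g g) * N := by nlinarith
  rcases h6.lt_or_eq with h | h
  · exact le_of_mul_le_mul_right h9 h
  · rw [← h]; positivity

theorem TopIt_bound (hw : ∀ σ, 0 < w σ) {c C' ρ : ℝ}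
    (hC' : ∀ f : (V → Bool) → ℝ, am w f f ≤ C' * ip w f f) (hc : C' ≤ c) (hρ0 : 0 ≤ ρ)
    {K : ((V → Bool) → ℝ) → Prop} (hK : ∀ f, K f → K (Top w c f))
    (hρ : ∀ f, K f → ip w f (Top w c f) ≤ ρ * ip w f f) {g : (V → Bool) → ℝ} (hg : K g)
    (n : ℕ) : ip w (TopIt w c n g) (TopIt w c n g) ≤ ip w g g * (ρ ^ 2) ^ n := by
  induction n with
  | zero => simp [TopIt_zero]
  | succ n ih =>
    rw [TopIt_succ]
    have h1 := Top_step hw hC' hc hρ0 hK hρ (TopIt_mem hK hg n)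
    calc _ ≤ ρ ^ 2 * ip w (TopIt w c n g) (TopIt w c n g) := h1
      _ ≤ ρ ^ 2 * (ip w g g * (ρ ^ 2) ^ n) := mul_le_mul_of_nonneg_left ih (sq_nonneg ρ)
      _ = _ := by ring

/-- A geometric bound of the iterates gives the inequality. -/
theorem Top_conclude (hw : ∀ σ, 0 < w σ) {c ρ B : ℝ} (hρ0 : 0 ≤ ρ) {g : (V → Bool) → ℝ}
    (hdom : ∀ n, ip w (TopIt w c n g) (TopIt w c n g) ≤ B * (ρ ^ 2) ^ n) :
    ip w g (Top w c g) ≤ ρ * ip w g g := by
  have hlc : ∀ k, ip w (TopIt w c (k + 1) g) (TopIt w c (k + 1) g) ^ 2 ≤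
      ip w (TopIt w c k g) (TopIt w c k g) *
        ip w (TopIt w c (k + 2) g) (TopIt w c (k + 2) g) := by
    intro k
    have h1 : ip w (TopIt w c (k + 1) g) (TopIt w c (k + 1) g) =
        ip w (TopIt w c k g) (TopIt w c (k + 2) g) := by
      rw [TopIt_succ c (k + 1) g, ip_Top_symm hw, TopIt_succ c k g]
    rw [h1]
    exact ip_sq_le hw _ _
  have h1 := log_convex_bound (fun k => ip w (TopIt w c k g) (TopIt w c k g))
    (fun k => ip_self_nonneg hw _) hlc _ (ρ ^ 2) (sq_nonneg ρ) hdom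
  simp only [TopIt_zero] at h1
  have h1' : ip w (Top w c g) (Top w c g) ≤ ρ ^ 2 * ip w g g := h1
  have h2 := ip_sq_le hw g (Top w c g)
  have h3 : 0 ≤ ip w g g := ip_self_nonneg hw g
  have h4 : ip w g (Top w c g) ^ 2 ≤ (ρ * ip w g g) ^ 2 := by
    calc _ ≤ ip w g g * ip w (Top w c g) (Top w c g) := h2
      _ ≤ ip w g g * (ρ ^ 2 * ip w g g) := mul_le_mul_of_nonneg_left h1' h3
      _ = _ := by ring
  exact le_of_abs_le (abs_le_of_sq_le_sq h4 (mul_nonneg hρ0 h3))

theorem inc_cone (hw : ∀ σ, 0 < w σ) {lam : ℝ} (K : ((V → Bool) → ℝ) → Prop) {C : ℝ}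
    (hK : ∀ c, C ≤ c → ∀ f, K f → K (Top w c f))
    (hineq : ∀ f, K f → 0 ≤ qf lam w f f) {f g : (V → Bool) → ℝ} (hf : K f) (hg : K g) :
    0 ≤ qf lam w (fun σ => f σ - g σ) (fun σ => f σ - g σ) := by
  obtain ⟨C', _, hC'⟩ := am_le (V := V) hw
  obtain ⟨c, hcdef⟩ : ∃ c : ℝ, c = max C (max C' lam) := ⟨_, rfl⟩
  have hcC : C ≤ c := by rw [hcdef]; exact le_max_left _ _
  have hcC' : C' ≤ c := by rw [hcdef]; exact (le_max_left _ _).trans (le_max_right _ _)
  have hcl : lam ≤ c := by rw [hcdef]; exact (le_max_right _ _).trans (le_max_right _ _)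
  have hρ0 : 0 ≤ c - lam := sub_nonneg.2 hcl
  have hρ : ∀ f, K f → ip w f (Top w c f) ≤ (c - lam) * ip w f f := by
    intro f hf
    have h1 := hineq f hf
    unfold qf at h1
    rw [ip_Top_right hw]
    linarith
  have hdom : ∀ n, ip w (TopIt w c n (fun σ => f σ - g σ)) (TopIt w c n (fun σ => f σ - g σ)) ≤
      (2 * ip w f f + 2 * ip w g g) * ((c - lam) ^ 2) ^ n := by
    intro n
    have e1 : (fun σ => f σ - g σ) = fun σ => 1 * f σ + (-1) * g σ := by
      funext σ; ring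
    rw [e1, TopIt_lin]
    have h1 := TopIt_bound hw hC' hcC' hρ0 (hK c hcC) hρ hf n
    have h2 := TopIt_bound hw hC' hcC' hρ0 (hK c hcC) hρ hg n
    have h3 : ip w (fun σ => 1 * TopIt w c n f σ + (-1) * TopIt w c n g σ)
        (fun σ => 1 * TopIt w c n f σ + (-1) * TopIt w c n g σ) ≤
        2 * ip w (TopIt w c n f) (TopIt w c n f) + 2 * ip w (TopIt w c n g) (TopIt w c n g) := by
      unfold ip
      rw [Finset.mul_sum, Finset.mul_sum, ← Finset.sum_add_distrib]
      refine Finset.sum_le_sum fun σ _ => ?_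
      have h4 := mul_nonneg (hw σ).le (sq_nonneg (TopIt w c n f σ + TopIt w c n g σ))
      nlinarith
    calc _ ≤ 2 * ip w (TopIt w c n f) (TopIt w c n f) +
          2 * ip w (TopIt w c n g) (TopIt w c n g) := h3
      _ ≤ 2 * (ip w f f * ((c - lam) ^ 2) ^ n) + 2 * (ip w g g * ((c - lam) ^ 2) ^ n) := by
          linarith
      _ = _ := by ring
  have h1 := Top_conclude hw hρ0 hdom
  rw [ip_Top_right hw] at h1
  unfold qf
  linarith

end Pool.Agent.Lib.MP_f82811_pr.TC
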