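import Pool.Agent.Lib.MP_f82811_pr.TC.IncMean

/-!
# Module IncOdd: for even weights with the lattice condition the odd functions suffice

Proof. By `inc_mean` let `f` be monotone, depending on `X`, with integral zero; write `f = φ + ψ` with
`φ σ = (f σ - f (neg σ)) / 2` odd and monotone, `ψ = sy f` even, integral zero. `qf lam w f f =
qf lam w φ φ + qf lam w ψ ψ` (`qf_odd_even`), the first term is nonnegative. For the second, as in
`even_bound` (OddSector.lean): with `T = Top w c` of the module Inc, `T^n f` and `T^n f'`,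
`f' σ = - f (neg σ) = φ σ - ψ σ`, are monotone with integral zero, so by `fkg_ip`
`0 ≤ ip w (T^n f) (T^n f') = ip w (T^n φ) (T^n φ) - ip w (T^n ψ) (T^n ψ)`, and
`ip w (T^n φ) (T^n φ) ≤ ip w φ φ * (ρ ^ 2) ^ n` because all `T^n φ` are odd and depend on `X`. Then
`log_convex_bound`. (The module Inc contains the iteration lemmas for `T`, they may be used.)
-/

set_option autoImplicit false

namespace Pool.Agent.Lib.MP_f82811_pr.TC

open Finset HT

variable {V : Type*} [Fintype V] [DecidableEq V] {w : (V → Bool) → ℝ}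

private theorem IncOdd_Top_lin (c a b : ℝ) (f g : (V → Bool) → ℝ) :
    Top w c (fun σ => a * f σ + b * g σ) = fun σ => a * Top w c f σ + b * Top w c g σ := by
  funext σ
  unfold Top
  rw [Hop_lin]
  ring

private theorem IncOdd_ip_Top (hw : ∀ σ, 0 < w σ) (c : ℝ) (f g : (V → Bool) → ℝ) :
    ip w g (Top w c f) = c * ip w g f - am w g f := by
  have h1 : Top w c f = fun σ => (fun σ => c * f σ) σ + (fun σ => (-1) * Hop w f σ) σ := by
    funext σ
    unfold Top
    ring
  rw [h1, ip_add_right, ip_smul_right, ip_smul_right, ip_Hop hw]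
  ring

private theorem IncOdd_symm (hw : ∀ σ, 0 < w σ) (c : ℝ) (f g : (V → Bool) → ℝ) :
    ip w g (Top w c f) = ip w (Top w c g) f := by
  rw [IncOdd_ip_Top hw, ip_comm (Top w c g) f, IncOdd_ip_Top hw, ip_comm g f, am_comm g f]

/-- Cauchy-Schwarz for a symmetric positive semidefinite form, from the discriminant. -/
private theorem IncOdd_disc {a b c : ℝ} (h : ∀ s : ℝ, 0 ≤ a + 2 * s * b + s ^ 2 * c) :
    b ^ 2 ≤ a * c := by
  by_cases hc : c = 0
  · subst hc
    have hb : b = 0 := by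
      by_contra hb
      have h1 := h (-(a + 1) / (2 * b))
      have h2 : 2 * (-(a + 1) / (2 * b)) * b = -(a + 1) := by
        field_simp
      rw [h2] at h1
      linarith
    rw [hb]
    norm_num
  · have hc0 : 0 < c := by
      by_contra hneg
      have hneg' : c < 0 := lt_of_le_of_ne (not_lt.1 hneg) hc
      have h0 := h 0
      have ha : 0 ≤ a := by simpa using h0
      -- take s large
      have h1 := h ((|b| * 2 + a + 1) / (-c))
      set s := (|b| * 2 + a + 1) / (-c) with hs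
      have hs0 : 0 < s := by
        rw [hs]
        exact div_pos (by positivity) (by linarith)
      have h2 : s * (-c) = |b| * 2 + a + 1 := by
        rw [hs]
        exact div_mul_cancel₀ _ (by linarith)
      have h3 := le_abs_self b
      -- also s ≥ 1 or use h (s+1)
      have h4 := h (s + 1)
      nlinarith [mul_pos hs0 hs0, abs_nonneg b, mul_nonneg hs0.le (abs_nonneg b),
        mul_le_mul_of_nonneg_left h3 hs0.le]
    have h1 := h (-b / c)
    have h2 : a + 2 * (-b / c) * b + (-b / c) ^ 2 * c = (a * c - b ^ 2) / c := by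
      field_simp
      ring
    rw [h2] at h1
    have h3 := mul_nonneg h1 hc0.le
    rw [div_mul_cancel₀ _ hc] at h3
    linarith

private theorem IncOdd_cs (hw : ∀ σ, 0 < w σ) {c : ℝ}
    (hpsd : ∀ f : (V → Bool) → ℝ, 0 ≤ ip w f (Top w c f)) (x y : (V → Bool) → ℝ) :
    ip w x (Top w c y) ^ 2 ≤ ip w x (Top w c x) * ip w y (Top w c y) := by
  refine IncOdd_disc fun s => ?_
  have h1 := hpsd (fun σ => 1 * x σ + s * y σ)
  rw [IncOdd_Top_lin, ip_add_left, ip_add_right, ip_add_right, ip_smul_left, ip_smul_left,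
    ip_smul_left, ip_smul_left, ip_smul_right, ip_smul_right, ip_smul_right, ip_smul_right,
    IncOdd_symm hw c x y, ip_comm (Top w c y) x] at h1
  linarith

private theorem IncOdd_step (hw : ∀ σ, 0 < w σ) {c rho : ℝ} (hr : 0 ≤ rho)
    (hpsd : ∀ f : (V → Bool) → ℝ, 0 ≤ ip w f (Top w c f)) {g : (V → Bool) → ℝ}
    (h3 : ip w g (Top w c g) ≤ rho * ip w g g)
    (h4 : ip w (Top w c g) (Top w c (Top w c g)) ≤ rho * ip w (Top w c g) (Top w c g)) :
    ip w (Top w c g) (Top w c g) ≤ rho ^ 2 * ip w g g := by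
  set N := ip w (Top w c g) (Top w c g) with hN
  have h1 : ip w g (Top w c (Top w c g)) = N := by
    rw [IncOdd_symm hw]
  have h2 := IncOdd_cs hw hpsd g (Top w c g)
  rw [h1] at h2
  have h5 : 0 ≤ ip w g g := ip_self_nonneg hw g
  have h6 : 0 ≤ N := ip_self_nonneg hw _
  have h8 : ip w g (Top w c g) * ip w (Top w c g) (Top w c (Top w c g)) ≤
      (rho * ip w g g) * (rho * N) :=
    mul_le_mul h3 h4 (hpsd _) (mul_nonneg hr h5)
  have h9 : N * N ≤ (rho ^ 2 * ip w g g) * N := by nlinarith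
  rcases h6.lt_or_eq with h | h
  · exact le_of_mul_le_mul_right h9 h
  · rw [← h]; positivity

/-- The iterates. -/
private noncomputable def IncOdd_it (w : (V → Bool) → ℝ) (c : ℝ) (k : ℕ)
    (f : (V → Bool) → ℝ) : (V → Bool) → ℝ := (Top w c)^[k] f

private theorem IncOdd_it_zero (c : ℝ) (f : (V → Bool) → ℝ) : IncOdd_it w c 0 f = f := rfl

private theorem IncOdd_it_succ (c : ℝ) (k : ℕ) (f : (V → Bool) → ℝ) :
    IncOdd_it w c (k + 1) f = Top w c (IncOdd_it w c k f) :=
  Function.iterate_succ_apply' _ _ _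

private theorem IncOdd_it_lin (c : ℝ) (k : ℕ) (a b : ℝ) (f g : (V → Bool) → ℝ) :
    IncOdd_it w c k (fun σ => a * f σ + b * g σ) =
      fun σ => a * IncOdd_it w c k f σ + b * IncOdd_it w c k g σ := by
  induction k with
  | zero => rfl
  | succ k ih => rw [IncOdd_it_succ, ih, IncOdd_Top_lin, IncOdd_it_succ, IncOdd_it_succ]

/-- A property kept by `Top` is kept by the iterates. -/
private theorem IncOdd_it_prop (c : ℝ) {P : ((V → Bool) → ℝ) → Prop}
    (hP : ∀ f, P f → P (Top w c f)) {f : (V → Bool) → ℝ} (hf : P f) (k : ℕ) :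
    P (IncOdd_it w c k f) := by
  induction k with
  | zero => exact hf
  | succ k ih => rw [IncOdd_it_succ]; exact hP _ ih

private theorem IncOdd_Top_odd (hev : Even' w) (c : ℝ) {f : (V → Bool) → ℝ} (hf : Odd' f) :
    Odd' (Top w c f) := by
  intro σ
  unfold Top
  rw [hf σ, Hop_odd hev hf σ]
  ring

private theorem IncOdd_Top_even (hev : Even' w) (c : ℝ) {f : (V → Bool) → ℝ} (hf : Even' f) :
    Even' (Top w c f) := by
  intro σ
  unfold Top
  rw [hf σ, Hop_even hev hf σ]

private theorem IncOdd_Top_dep {X : Finset V} (hX : Dep X w) (c : ℝ) {f : (V → Bool) → ℝ}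
    (hf : Dep X f) : Dep X (Top w c f) := by
  intro σ τ hst
  unfold Top
  rw [hf σ τ hst, Hop_dep hX hf σ τ hst]

private theorem IncOdd_Top_tot (hw : ∀ σ, 0 < w σ) (c : ℝ) {f : (V → Bool) → ℝ}
    (hf : ip w f (fun _ => 1) = 0) : ip w (Top w c f) (fun _ => 1) = 0 := by
  rw [ip_comm, IncOdd_ip_Top hw, am_const_left, ip_comm, hf]
  ring

theorem frz_of_odd (hF : Fkg w) (hev : Even' w) {X : Finset V} (hX : Dep X w) {lam : ℝ}
    (h : OddR w X lam) : FrzR w X lam := by
  refine inc_mean hF hX fun f hfm hfd hft => ?_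
  have hw := hF.pos
  obtain ⟨C1, -, hC1⟩ := Attr_mono hF
  obtain ⟨C2, -, hC2⟩ := am_le (w := w) hw
  obtain ⟨c, hc1, hc2, hc3⟩ : ∃ c : ℝ, C1 ≤ c ∧ C2 ≤ c ∧ lam ≤ c :=
    ⟨max C1 (max C2 lam), le_max_left _ _, (le_max_left _ _).trans (le_max_right _ _),
      (le_max_right _ _).trans (le_max_right _ _)⟩
  have hpsd : ∀ g : (V → Bool) → ℝ, 0 ≤ ip w g (Top w c g) := by
    intro g
    rw [IncOdd_ip_Top hw]
    have h1 := hC2 g
    have h2 := mul_le_mul_of_nonneg_right hc2 (ip_self_nonneg hw g)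
    linarith
  obtain ⟨rho, hrho⟩ : ∃ rho : ℝ, rho = c - lam := ⟨_, rfl⟩
  have hr0 : 0 ≤ rho := by rw [hrho]; linarith
  -- parity decomposition
  obtain ⟨φ, hφ⟩ : ∃ φ : (V → Bool) → ℝ, φ = fun σ => (f σ - f (neg σ)) / 2 := ⟨_, rfl⟩
  obtain ⟨ψ, hψ⟩ : ∃ ψ : (V → Bool) → ℝ, ψ = fun σ => (f σ + f (neg σ)) / 2 := ⟨_, rfl⟩
  have hφo : Odd' φ := by
    intro σ
    simp only [hφ, neg_neg']
    ring
  have hψe : Even' ψ := by
    intro σ
    simp only [hψ, neg_neg']
    ring
  have hnd : ∀ σ τ : V → Bool, (∀ v ∈ X, σ v = τ v) → f (neg σ) = f (neg τ) := by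
    intro σ τ hst
    exact hfd _ _ fun v hv => by
      show (!σ v) = !τ v
      rw [hst v hv]
  have hφd : Dep X φ := by
    intro σ τ hst
    simp only [hφ]
    rw [hfd σ τ hst, hnd σ τ hst]
  have hdec : f = fun σ => 1 * φ σ + 1 * ψ σ := by
    funext σ
    simp only [hφ, hψ]
    ring
  obtain ⟨f', hf'⟩ : ∃ f' : (V → Bool) → ℝ, f' = fun σ => 1 * φ σ + (-1) * ψ σ := ⟨_, rfl⟩
  have hf'e : f' = fun σ => -f (neg σ) := by
    funext σ
    simp only [hf', hφ, hψ]
    ring
  have hf'm : Monotone f' := by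
    intro σ τ hst
    rw [hf'e]
    have h1 : neg τ ≤ neg σ := by
      intro v
      have key : ∀ a b : Bool, a ≤ b → (!b) ≤ !a := by decide
      exact key _ _ (hst v)
    have h2 := hfm h1
    show -f (neg σ) ≤ -f (neg τ)
    linarith
  have hf0 : ip w f (fun _ => 1) = 0 := by
    rw [ip_const_right, hft]
    ring
  -- the odd part
  have hqφ : 0 ≤ qf lam w φ φ := h φ hφo hφd
  -- iteration of the odd part
  have hφit : ∀ k, ip w (IncOdd_it w c k φ) (IncOdd_it w c k φ) ≤
      ip w φ φ * (rho ^ 2) ^ k := by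
    have hbase : ∀ g : (V → Bool) → ℝ, Odd' g → Dep X g →
        ip w g (Top w c g) ≤ rho * ip w g g := by
      intro g hgo hgd
      rw [IncOdd_ip_Top hw, hrho]
      have h1 := h g hgo hgd
      unfold qf at h1
      linarith
    intro k
    induction k with
    | zero => simp [IncOdd_it_zero]
    | succ k ih =>
      rw [IncOdd_it_succ]
      have hP := IncOdd_it_prop (w := w) c (P := fun g => Odd' g ∧ Dep X g)
        (fun g hg => ⟨IncOdd_Top_odd hev c hg.1, IncOdd_Top_dep hX c hg.2⟩)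
        (f := φ) ⟨hφo, hφd⟩ k
      have h1 := IncOdd_step hw hr0 hpsd (hbase _ hP.1 hP.2)
        (hbase _ (IncOdd_Top_odd hev c hP.1) (IncOdd_Top_dep hX c hP.2))
      calc _ ≤ rho ^ 2 * ip w (IncOdd_it w c k φ) (IncOdd_it w c k φ) := h1
        _ ≤ rho ^ 2 * (ip w φ φ * (rho ^ 2) ^ k) :=
            mul_le_mul_of_nonneg_left ih (sq_nonneg rho)
        _ = _ := by ring
  have hdom : ∀ k, ip w (IncOdd_it w c k ψ) (IncOdd_it w c k ψ) ≤
      ip w φ φ * (rho ^ 2) ^ k := by
    intro k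
    have hmonP : ∀ g : (V → Bool) → ℝ, Monotone g → Monotone (Top w c g) :=
      fun g hg => hC1 c hc1 g hg
    have h1 := fkg_ip hw hF.lat
      (IncOdd_it_prop (w := w) c (P := Monotone) hmonP hfm k)
      (IncOdd_it_prop (w := w) c (P := Monotone) hmonP hf'm k)
      (IncOdd_it_prop (w := w) c (P := fun g => ip w g (fun _ => 1) = 0)
        (fun g hg => IncOdd_Top_tot hw c hg) hf0 k)
    rw [hdec, hf', IncOdd_it_lin, IncOdd_it_lin] at h1
    have hcross : ip w (IncOdd_it w c k φ) (IncOdd_it w c k ψ) = 0 :=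
      ip_odd_even hev
        (IncOdd_it_prop (w := w) c (P := Odd') (fun g hg => IncOdd_Top_odd hev c hg) hφo k)
        (IncOdd_it_prop (w := w) c (P := Even') (fun g hg => IncOdd_Top_even hev c hg) hψe k)
    rw [ip_add_left, ip_add_right, ip_add_right, ip_smul_left, ip_smul_left, ip_smul_left,
      ip_smul_left, ip_smul_right, ip_smul_right, ip_smul_right, ip_smul_right,
      ip_comm (IncOdd_it w c k ψ) (IncOdd_it w c k φ), hcross] at h1
    have h3 := hφit k
    linarith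
  have hlc : ∀ k, ip w (IncOdd_it w c (k + 1) ψ) (IncOdd_it w c (k + 1) ψ) ^ 2 ≤
      ip w (IncOdd_it w c k ψ) (IncOdd_it w c k ψ) *
        ip w (IncOdd_it w c (k + 2) ψ) (IncOdd_it w c (k + 2) ψ) := by
    intro k
    have h1 : ip w (IncOdd_it w c (k + 1) ψ) (IncOdd_it w c (k + 1) ψ) =
        ip w (IncOdd_it w c k ψ) (IncOdd_it w c (k + 2) ψ) := by
      rw [IncOdd_it_succ c (k + 1) ψ, IncOdd_symm hw, IncOdd_it_succ c k ψ]
    rw [h1]
    exact ip_sq_le hw _ _
  have h1 := log_convex_bound (fun k => ip w (IncOdd_it w c k ψ) (IncOdd_it w c k ψ))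
    (fun k => ip_self_nonneg hw _) hlc _ (rho ^ 2) (sq_nonneg rho) hdom
  simp only [IncOdd_it_zero] at h1
  have h1' : ip w (Top w c ψ) (Top w c ψ) ≤ rho ^ 2 * ip w ψ ψ := h1
  have h2 := ip_sq_le hw ψ (Top w c ψ)
  have h3 : 0 ≤ ip w ψ ψ := ip_self_nonneg hw ψ
  have h4 : ip w ψ (Top w c ψ) ^ 2 ≤ (rho * ip w ψ ψ) ^ 2 := by
    calc _ ≤ ip w ψ ψ * ip w (Top w c ψ) (Top w c ψ) := h2
      _ ≤ ip w ψ ψ * (rho ^ 2 * ip w ψ ψ) := mul_le_mul_of_nonneg_left h1' h3
      _ = _ := by ring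
  have h5 : ip w ψ (Top w c ψ) ≤ rho * ip w ψ ψ :=
    le_of_abs_le (abs_le_of_sq_le_sq h4 (mul_nonneg hr0 h3))
  have hqψ : 0 ≤ qf lam w ψ ψ := by
    rw [IncOdd_ip_Top hw, hrho] at h5
    unfold qf
    linarith
  rw [hdec]
  have h6 : qf lam w (fun σ => 1 * φ σ + 1 * ψ σ) (fun σ => 1 * φ σ + 1 * ψ σ) =
      qf lam w φ φ + qf lam w ψ ψ := by
    rw [qf_add_left, qf_add_right, qf_add_right, qf_smul_left, qf_smul_left, qf_smul_left,
      qf_smul_left, qf_smul_right, qf_smul_right, qf_smul_right, qf_smul_right,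
      qf_comm ψ φ, qf_odd_even hev hφo hψe]
    ring
  rw [h6]
  exact add_nonneg hqφ hqψ

end Pool.Agent.Lib.MP_f82811_pr.TC
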