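import Pool.Agent.Lib.MP_f82811_pr.TC.Part
import Pool.Agent.Lib.MP_f82811_pr.TC.Fact

/-!
# Module Low: the reduced couplings

`J` are the couplings without the edge (`J k l = 0`), `P`, `N` as in `part`.
`coup_low`: symmetric because the case distinctions are symmetric; nonnegative by `hP`, `hN` (a vertex different
from `k, l` and not in `P` is in `N`).
`low_eq_one`: on `P` the coupling `J l p ≤ J k p` vanishes unless `p = m`, on `N` the coupling `J k n`
vanishes unless `n = m`. So `low J k l P` is `J` with the couplings of `k, m` and `l, m` changed to the smaller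
values `low J k l P k m` and `low J k l P l m`.
`low_no`: no couplings of `low` between `insert k P` and the rest.
`nuw_eq`: for `A = res (low J k l P) (insert k P)` and `B = res (low J k l P) (insert l N)`:
`nuw J k l σ = Fw A k σ * Fw B l (neg σ)`: the energy of `off (off J k) l` is the sum of the energies of `off A k`
(inside `P`) and `off B l` (inside `N`, even), `fld J k σ - fld J l σ = fld A k σ - fld B l σ`, `fld B l (neg σ) =
- fld B l σ`.
-/

set_option autoImplicit false

namespace Pool.Agent.Lib.MP_f82811_pr.TC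

open Finset HT

variable {V : Type*} [Fintype V] [DecidableEq V] {J : V → V → ℝ} {k l : V} {P N : Finset V}

omit [Fintype V] in
private theorem low_in {a b : V} (ha : a = k ∨ a = l) (hb : b = k ∨ b = l) :
    low J k l P a b = 0 := if_pos ⟨ha, hb⟩

omit [Fintype V] in
private theorem low_k {b : V} (h1 : b ≠ k) (h2 : b ≠ l) :
    low J k l P k b = if b ∈ P then J k b - J l b else 0 := by
  unfold low
  rw [if_neg, if_pos rfl]
  rintro ⟨_, h | h⟩
  · exact h1 h
  · exact h2 h

omit [Fintype V] in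
private theorem low_k' {b : V} (h1 : b ≠ k) (h2 : b ≠ l) :
    low J k l P b k = if b ∈ P then J k b - J l b else 0 := by
  unfold low
  rw [if_neg, if_neg h1, if_pos rfl]
  rintro ⟨h | h, _⟩
  · exact h1 h
  · exact h2 h

omit [Fintype V] in
private theorem low_l (hkl : k ≠ l) {b : V} (h1 : b ≠ k) (h2 : b ≠ l) :
    low J k l P l b = if b ∈ P then 0 else J l b - J k b := by
  unfold low
  rw [if_neg, if_neg hkl.symm, if_neg h1, if_pos rfl]
  rintro ⟨_, h | h⟩
  · exact h1 h
  · exact h2 h

omit [Fintype V] in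
private theorem low_l' (hkl : k ≠ l) {b : V} (h1 : b ≠ k) (h2 : b ≠ l) :
    low J k l P b l = if b ∈ P then 0 else J l b - J k b := by
  unfold low
  rw [if_neg, if_neg h1, if_neg hkl.symm, if_neg h2, if_pos rfl]
  rintro ⟨h | h, _⟩
  · exact h1 h
  · exact h2 h

omit [Fintype V] in
private theorem low_out {a b : V} (h1 : a ≠ k) (h2 : a ≠ l) (h3 : b ≠ k) (h4 : b ≠ l) :
    low J k l P a b = J a b := by
  unfold low
  rw [if_neg, if_neg h1, if_neg h3, if_neg h2, if_neg h4]
  rintro ⟨h | h, _⟩
  · exact h1 h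
  · exact h2 h

theorem coup_low (hJ : Coup J) (hkl : k ≠ l) (hall : ∀ v, v ≠ k → v ≠ l → v ∈ P ∪ N)
    (hP : ∀ p ∈ P, J l p ≤ J k p) (hN : ∀ n ∈ N, J k n ≤ J l n) : Coup (low J k l P) := by
  have hcl : ∀ v, (v = k ∨ v = l) ∨ (v ≠ k ∧ v ≠ l) := fun v => by tauto
  refine ⟨fun a b => ?_, fun a b => ?_, fun a => ?_⟩
  · rcases hcl a with ha | ⟨ha1, ha2⟩
    · rcases hcl b with hb | ⟨hb1, hb2⟩
      · rw [low_in ha hb, low_in hb ha]
      · rcases ha with rfl | rfl
        · rw [low_k hb1 hb2, low_k' hb1 hb2]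
        · rw [low_l hkl hb1 hb2, low_l' hkl hb1 hb2]
    · rcases hcl b with (rfl | rfl) | ⟨hb1, hb2⟩
      · rw [low_k ha1 ha2, low_k' ha1 ha2]
      · rw [low_l hkl ha1 ha2, low_l' hkl ha1 ha2]
      · rw [low_out ha1 ha2 hb1 hb2, low_out hb1 hb2 ha1 ha2, hJ.symm]
  · have hkb : ∀ b, b ≠ k → b ≠ l → (0 : ℝ) ≤ if b ∈ P then J k b - J l b else 0 := by
      intro b _ _
      split_ifs with h
      · exact sub_nonneg.2 (hP b h)
      · exact le_rfl
    have hlb : ∀ b, b ≠ k → b ≠ l → (0 : ℝ) ≤ if b ∈ P then 0 else J l b - J k b := by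
      intro b h1 h2
      split_ifs with h
      · exact le_rfl
      · refine sub_nonneg.2 (hN b ?_)
        rcases Finset.mem_union.1 (hall b h1 h2) with h3 | h3
        · exact absurd h3 h
        · exact h3
    rcases hcl a with ha | ⟨ha1, ha2⟩
    · rcases hcl b with hb | ⟨hb1, hb2⟩
      · rw [low_in ha hb]
      · rcases ha with rfl | rfl
        · rw [low_k hb1 hb2]
          exact hkb b hb1 hb2
        · rw [low_l hkl hb1 hb2]
          exact hlb b hb1 hb2
    · rcases hcl b with (rfl | rfl) | ⟨hb1, hb2⟩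
      · rw [low_k' ha1 ha2]
        exact hkb a ha1 ha2
      · rw [low_l' hkl ha1 ha2]
        exact hlb a ha1 ha2
      · rw [low_out ha1 ha2 hb1 hb2]
        exact hJ.nonneg a b
  · rcases hcl a with ha | ⟨ha1, ha2⟩
    · exact low_in ha ha
    · rw [low_out ha1 ha2 ha1 ha2]
      exact hJ.diag a

/-- `low` has no new couplings. -/
theorem low_supp (hJ : Coup J) (hkP : k ∉ P) (hlP : l ∉ P)
    (hall : ∀ v, v ≠ k → v ≠ l → v ∈ P ∪ N)
    (hP : ∀ p ∈ P, J l p ≤ J k p) (hN : ∀ n ∈ N, J k n ≤ J l n) {a b : V}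
    (h : low J k l P a b ≠ 0) : J a b ≠ 0 := by
  have hcl : ∀ v, (v = k ∨ v = l) ∨ (v ≠ k ∧ v ≠ l) := fun v => by tauto
  have hkb : ∀ b, (if b ∈ P then J k b - J l b else 0) ≠ 0 → J k b ≠ 0 := by
    intro b h h0
    split_ifs at h with h1
    · have h2 := hP b h1
      have h3 := hJ.nonneg l b
      rw [h0] at h h2
      exact h (by linarith)
    · exact h rfl
  have hlb : ∀ b, b ≠ k → b ≠ l → (if b ∈ P then 0 else J l b - J k b) ≠ 0 → J l b ≠ 0 := by
    intro b hb1 hb2 h h0
    split_ifs at h with h1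
    · exact h rfl
    · have hb : b ∈ N := by
        rcases Finset.mem_union.1 (hall b hb1 hb2) with h3 | h3
        · exact absurd h3 h1
        · exact h3
      have h2 := hN b hb
      have h3 := hJ.nonneg k b
      rw [h0] at h h2
      exact h (by linarith)
  by_cases hkl : k = l
  · -- degenerate case
    subst hkl
    rcases hcl a with ha | ⟨ha1, ha2⟩
    · rcases hcl b with hb | ⟨hb1, hb2⟩
      · exact absurd (low_in ha hb) h
      · have ha' : a = k := by tauto
        subst ha'
        rw [low_k hb1 hb2] at h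
        exact hkb b h
    · rcases hcl b with hb | ⟨hb1, hb2⟩
      · have hb' : b = k := by tauto
        subst hb'
        rw [low_k' ha1 ha2] at h
        rw [hJ.symm]
        exact hkb a h
      · rwa [low_out ha1 ha2 hb1 hb2] at h
  rcases hcl a with ha | ⟨ha1, ha2⟩
  · rcases hcl b with hb | ⟨hb1, hb2⟩
    · exact absurd (low_in ha hb) h
    · rcases ha with rfl | rfl
      · rw [low_k hb1 hb2] at h
        exact hkb b h
      · rw [low_l hkl hb1 hb2] at h
        exact hlb b hb1 hb2 h
  · rcases hcl b with (rfl | rfl) | ⟨hb1, hb2⟩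
    · rw [low_k' ha1 ha2] at h
      rw [hJ.symm]
      exact hkb a h
    · rw [low_l' hkl ha1 ha2] at h
      rw [hJ.symm]
      exact hlb a ha1 ha2 h
    · rwa [low_out ha1 ha2 hb1 hb2] at h

theorem low_no (hJ : Coup J) (hkl : k ≠ l) (hd : Disjoint P N) (hkP : k ∉ P) (hlP : l ∉ P)
    (hkN : k ∉ N) (hall : ∀ v, v ≠ k → v ≠ l → v ∈ P ∪ N) (hPN : ∀ p ∈ P, ∀ n ∈ N, J p n = 0) :
    (∀ a ∈ insert k P, ∀ b, b ∉ insert k P → low J k l P a b = 0) ∧
    (∀ a ∈ insert l N, ∀ b, b ∉ insert l N → low J k l P a b = 0) := by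
  constructor
  · intro a ha b hb
    have hbk : b ≠ k := fun h => hb (Finset.mem_insert.2 (Or.inl h))
    have hbP : b ∉ P := fun h => hb (Finset.mem_insert.2 (Or.inr h))
    rcases Finset.mem_insert.1 ha with rfl | haP
    · by_cases hbl : b = l
      · exact low_in (Or.inl rfl) (Or.inr hbl)
      · rw [low_k hbk hbl, if_neg hbP]
    · have hak : a ≠ k := fun h => hkP (h ▸ haP)
      have hal : a ≠ l := fun h => hlP (h ▸ haP)
      by_cases hbl : b = l
      · subst hbl
        rw [low_l' hkl hak hal, if_pos haP]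
      · rw [low_out hak hal hbk hbl]
        rcases Finset.mem_union.1 (hall b hbk hbl) with h3 | h3
        · exact absurd h3 hbP
        · exact hPN a haP b h3
  · intro a ha b hb
    have hbl : b ≠ l := fun h => hb (Finset.mem_insert.2 (Or.inl h))
    have hbN : b ∉ N := fun h => hb (Finset.mem_insert.2 (Or.inr h))
    rcases Finset.mem_insert.1 ha with rfl | haN
    · by_cases hbk : b = k
      · exact low_in (Or.inr rfl) (Or.inl hbk)
      · have hbP : b ∈ P := by
          rcases Finset.mem_union.1 (hall b hbk hbl) with h3 | h3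
          · exact h3
          · exact absurd h3 hbN
        rw [low_l hkl hbk hbl, if_pos hbP]
    · have hak : a ≠ k := fun h => hkN (h ▸ haN)
      have haP : a ∉ P := fun h => (Finset.disjoint_left.1 hd) h haN
      by_cases hal : a = l
      · subst hal
        by_cases hbk : b = k
        · exact low_in (Or.inr rfl) (Or.inl hbk)
        · have hbP : b ∈ P := by
            rcases Finset.mem_union.1 (hall b hbk hbl) with h3 | h3
            · exact h3
            · exact absurd h3 hbN
          rw [low_l hkl hbk hbl, if_pos hbP]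
      · by_cases hbk : b = k
        · subst hbk
          rw [low_k' hak hal, if_neg haP]
        · have hbP : b ∈ P := by
            rcases Finset.mem_union.1 (hall b hbk hbl) with h3 | h3
            · exact h3
            · exact absurd h3 hbN
          rw [low_out hak hal hbk hbl, hJ.symm]
          exact hPN b hbP a haN

/-- One common neighbour: two couplings change. -/
theorem low_eq_one (hJ : Coup J) (hkl : k ≠ l) (h0 : J k l = 0) (hd : Disjoint P N)
    (hkP : k ∉ P) (hlP : l ∉ P) (hall : ∀ v, v ≠ k → v ≠ l → v ∈ P ∪ N)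
    (hP : ∀ p ∈ P, J l p ≤ J k p) (hN : ∀ n ∈ N, J k n ≤ J l n) {m : V}
    (hkm : J k m ≠ 0) (hlm : J l m ≠ 0) (huniq : ∀ m', J k m' ≠ 0 → J l m' ≠ 0 → m' = m) :
    ∃ s r : ℝ, 0 ≤ s ∧ s ≤ J k m ∧ 0 ≤ r ∧ r ≤ J l m ∧
      low J k l P = setc (setc J k m s) l m r := by
  have hmk : m ≠ k := by
    rintro rfl
    exact hkm (hJ.diag m)
  have hml : m ≠ l := by
    rintro rfl
    exact hlm (hJ.diag m)
  have hlk0 : J l k = 0 := by rw [hJ.symm, h0]
  have hNof : ∀ b, b ≠ k → b ≠ l → b ∉ P → b ∈ N := by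
    intro b h1 h2 h3
    rcases Finset.mem_union.1 (hall b h1 h2) with h4 | h4
    · exact absurd h4 h3
    · exact h4
  have hkb : ∀ b, b ≠ k → b ≠ l → b ≠ m →
      (if b ∈ P then J k b - J l b else 0) = J k b := by
    intro b h1 h2 h3
    split_ifs with h4
    · by_cases h5 : J k b = 0
      · have h6 := hP b h4
        have h7 := hJ.nonneg l b
        rw [h5] at h6
        rw [h5]
        linarith
      · have h6 : J l b = 0 := by
          by_contra h7
          exact h3 (huniq b h5 h7)
        rw [h6, sub_zero]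
    · by_contra h5
      have h6 := hN b (hNof b h1 h2 h4)
      have h7 := hJ.nonneg k b
      have h8 : J l b ≠ 0 := by
        intro h9
        rw [h9] at h6
        exact h5 (le_antisymm h7 h6)
      exact h3 (huniq b (fun h => h5 h.symm) h8)
  have hlb : ∀ b, b ≠ k → b ≠ l → b ≠ m →
      (if b ∈ P then 0 else J l b - J k b) = J l b := by
    intro b h1 h2 h3
    split_ifs with h4
    · by_contra h5
      have h6 := hP b h4
      have h7 := hJ.nonneg l b
      have h8 : J k b ≠ 0 := by
        intro h9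
        rw [h9] at h6
        exact h5 (le_antisymm h7 h6)
      exact h3 (huniq b h8 (fun h => h5 h.symm))
    · by_cases h5 : J l b = 0
      · have h6 := hN b (hNof b h1 h2 h4)
        have h7 := hJ.nonneg k b
        rw [h5] at h6
        rw [h5]
        linarith
      · have h6 : J k b = 0 := by
          by_contra h7
          exact h3 (huniq b h7 h5)
        rw [h6, sub_zero]
  obtain ⟨s, hs⟩ : ∃ s : ℝ, s = if m ∈ P then J k m - J l m else 0 := ⟨_, rfl⟩
  obtain ⟨r, hr⟩ : ∃ r : ℝ, r = if m ∈ P then 0 else J l m - J k m := ⟨_, rfl⟩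
  refine ⟨s, r, ?_, ?_, ?_, ?_, ?_⟩
  · rw [hs]
    split_ifs with h
    · exact sub_nonneg.2 (hP m h)
    · exact le_rfl
  · rw [hs]
    split_ifs with h
    · have := hJ.nonneg l m
      linarith
    · exact hJ.nonneg k m
  · rw [hr]
    split_ifs with h
    · exact le_rfl
    · exact sub_nonneg.2 (hN m (hNof m hmk hml h))
  · rw [hr]
    split_ifs with h
    · exact hJ.nonneg l m
    · have := hJ.nonneg k m
      linarith
  · have hcl : ∀ v, v = k ∨ v = l ∨ v = m ∨ (v ≠ k ∧ v ≠ l ∧ v ≠ m) := fun v => by tauto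
    funext a b
    rcases hcl a with rfl | rfl | rfl | ⟨ha1, ha2, ha3⟩ <;>
      rcases hcl b with hb | hb | hb | ⟨hb1, hb2, hb3⟩
    · subst hb
      rw [low_in (Or.inl rfl) (Or.inl rfl)]
      unfold setc
      rw [if_neg (by tauto), if_neg (by tauto), hJ.diag]
    · subst hb
      rw [low_in (Or.inl rfl) (Or.inr rfl)]
      unfold setc
      rw [if_neg (by tauto), if_neg (by tauto), h0]
    · subst hb
      rw [low_k hmk hml, ← hs]
      unfold setc
      rw [if_neg (by tauto), if_pos (by tauto)]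
    · rw [low_k hb1 hb2, hkb b hb1 hb2 hb3]
      unfold setc
      rw [if_neg (by tauto), if_neg (by tauto)]
    · subst hb
      rw [low_in (Or.inr rfl) (Or.inl rfl)]
      unfold setc
      rw [if_neg (by tauto), if_neg (by tauto), hlk0]
    · subst hb
      rw [low_in (Or.inr rfl) (Or.inr rfl)]
      unfold setc
      rw [if_neg (by tauto), if_neg (by tauto), hJ.diag]
    · subst hb
      rw [low_l hkl hmk hml, ← hr]
      unfold setc
      rw [if_pos (by tauto)]
    · rw [low_l hkl hb1 hb2, hlb b hb1 hb2 hb3]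
      unfold setc
      rw [if_neg (by tauto), if_neg (by tauto)]
    · subst hb
      rw [low_k' hmk hml, ← hs]
      unfold setc
      rw [if_neg (by tauto), if_pos (by tauto)]
    · subst hb
      rw [low_l' hkl hmk hml, ← hr]
      unfold setc
      rw [if_pos (by tauto)]
    · subst hb
      rw [low_out hmk hml hmk hml]
      unfold setc
      rw [if_neg (by tauto), if_neg (by tauto)]
    · rw [low_out hmk hml hb1 hb2]
      unfold setc
      rw [if_neg (by tauto), if_neg (by tauto)]
    · subst hb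
      rw [low_k' ha1 ha2, hkb a ha1 ha2 ha3, hJ.symm]
      unfold setc
      rw [if_neg (by tauto), if_neg (by tauto)]
    · subst hb
      rw [low_l' hkl ha1 ha2, hlb a ha1 ha2 ha3, hJ.symm]
      unfold setc
      rw [if_neg (by tauto), if_neg (by tauto)]
    · subst hb
      rw [low_out ha1 ha2 hmk hml]
      unfold setc
      rw [if_neg (by tauto), if_neg (by tauto)]
    · rw [low_out ha1 ha2 hb1 hb2]
      unfold setc
      rw [if_neg (by tauto), if_neg (by tauto)]

theorem nuw_eq (hJ : Coup J) (hkl : k ≠ l) (h0 : J k l = 0) (hd : Disjoint P N) (hkP : k ∉ P)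
    (hlP : l ∉ P) (hkN : k ∉ N) (hlN : l ∉ N) (hall : ∀ v, v ≠ k → v ≠ l → v ∈ P ∪ N)
    (hPN : ∀ p ∈ P, ∀ n ∈ N, J p n = 0) (σ : V → Bool) :
    nuw J k l σ = Fw (res (low J k l P) (insert k P)) k σ *
      Fw (res (low J k l P) (insert l N)) l (neg σ) := by
  have hlk0 : J l k = 0 := by rw [hJ.symm, h0]
  have hcl : ∀ v, v = k ∨ v = l ∨ (v ≠ k ∧ v ≠ l ∧ v ∈ P ∧ v ∉ N) ∨
      (v ≠ k ∧ v ≠ l ∧ v ∉ P ∧ v ∈ N) := by
    intro v
    by_cases h1 : v = k
    · exact Or.inl h1
    · by_cases h2 : v = l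
      · exact Or.inr (Or.inl h2)
      · rcases Finset.mem_union.1 (hall v h1 h2) with h3 | h3
        · exact Or.inr (Or.inr (Or.inl ⟨h1, h2, h3, fun h4 =>
            (Finset.disjoint_left.1 hd) h3 h4⟩))
        · exact Or.inr (Or.inr (Or.inr ⟨h1, h2, fun h4 =>
            (Finset.disjoint_left.1 hd) h4 h3, h3⟩))
  obtain ⟨A, hA⟩ : ∃ A, A = res (low J k l P) (insert k P) := ⟨_, rfl⟩
  obtain ⟨B, hB⟩ : ∃ B, B = res (low J k l P) (insert l N) := ⟨_, rfl⟩
  rw [← hA, ← hB]
  have hJs : ∀ a b, off (off J k) l a b = off A k a b + off B l a b := by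
    intro a b
    rw [hA, hB]
    unfold off res
    rcases hcl a with rfl | rfl | ⟨ha1, ha2, ha3, ha4⟩ | ⟨ha1, ha2, ha3, ha4⟩
    · simp [hkl, hkN]
    · simp [hkl.symm, hlP]
    · rcases hcl b with rfl | rfl | ⟨hb1, hb2, hb3, hb4⟩ | ⟨hb1, hb2, hb3, hb4⟩
      · simp [ha2, ha4]
      · simp [hkl.symm, hlP]
      · simp [ha1, ha2, ha3, ha4, hb1, hb2, hb3, low_out ha1 ha2 hb1 hb2]
      · simp [ha1, ha2, ha4, hb1, hb2, hb3, hPN a ha3 b hb4]
    · rcases hcl b with rfl | rfl | ⟨hb1, hb2, hb3, hb4⟩ | ⟨hb1, hb2, hb3, hb4⟩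
      · simp [hkl, hkN]
      · simp [ha1, ha3]
      · have : J a b = 0 := by rw [hJ.symm]; exact hPN b hb3 a ha4
        simp [ha1, ha2, ha3, hb1, hb2, hb4, this]
      · simp [ha1, ha2, ha3, ha4, hb1, hb2, hb4, low_out ha1 ha2 hb1 hb2]
  have hen : en (off (off J k) l) σ = en (off A k) σ + en (off B l) σ := by
    unfold en
    rw [← add_div, ← Finset.sum_add_distrib]
    congr 1
    refine Finset.sum_congr rfl fun a _ => ?_
    rw [← Finset.sum_add_distrib]
    refine Finset.sum_congr rfl fun b _ => ?_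
    rw [hJs]
    ring
  have hfl : fld J k σ - fld J l σ = fld A k σ - fld B l σ := by
    unfold fld
    rw [← Finset.sum_sub_distrib, ← Finset.sum_sub_distrib]
    refine Finset.sum_congr rfl fun b _ => ?_
    have hb0 : J k b - J l b = A k b - B l b := by
      rw [hA, hB]
      unfold res
      rcases hcl b with rfl | rfl | ⟨hb1, hb2, hb3, hb4⟩ | ⟨hb1, hb2, hb3, hb4⟩
      · rw [low_in (Or.inl rfl) (Or.inl rfl), hJ.diag, hlk0]
        simp [hkl, hkN]
      · rw [low_in (Or.inr rfl) (Or.inr rfl), hJ.diag, h0]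
        simp [hkl.symm, hlP]
      · rw [low_k hb1 hb2]
        simp [hb2, hb3, hb4]
      · rw [low_l hkl hb1 hb2]
        simp [hb1, hb3, hb4]
    linear_combination (sp b σ) * hb0
  have hneg : fld B l (neg σ) = -fld B l σ := by
    unfold fld
    rw [← Finset.sum_neg_distrib]
    refine Finset.sum_congr rfl fun b _ => ?_
    rw [sp_neg]
    ring
  unfold nuw Fw
  rw [W_neg, hneg, hfl]
  unfold W
  rw [hen, ← Real.exp_add, ← Real.exp_add, ← Real.exp_add, ← Real.exp_add]
  congr 1
  ring

end Pool.Agent.Lib.MP_f82811_pr.TC
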