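import Pool.Agent.Lib.MP_f82811_pr.TC.Alg

/-!
# Module Pin: weights and pinning

`W_off`: the energy of `J` is the energy of `off J u` plus `sp u σ * fld J u σ` (symmetric `J`, zero
diagonal). `Fw` and `Sw` do not depend on the spin at `u` and `(W J σ + W J (flip u σ)) / 2 = Sw J u σ`;
`odd_marg` is then `qf_marg`. `pin_good`: the weight `W J σ * (1 + sp z σ)` vanishes for `σ z = false`
and is `2 * Fw J z σ` for `σ z = true`. For `f` depending on `X` let `f1 σ = f (update σ z true)`: it
depends on `X.erase z`, `tot (Fw J z) f1 = tot (W J * (1 + sp z)) f` (pair `σ`, `flip z σ`), the same for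
`ip`, and `am` of the first weight is at least `am (Fw J z) f1 f1` (drop the site `z`, for the other
sites `D v f σ = D v f1 σ` if `σ z = true`).
-/

set_option autoImplicit false

namespace Pool.Agent.Lib.MP_f82811_pr.TC

open Finset HT

variable {V : Type*} [Fintype V] [DecidableEq V] {J : V → V → ℝ}

theorem coup_off (hJ : Coup J) (u : V) : Coup (off J u) := by
  refine ⟨fun a b => ?_, fun a b => ?_, fun a => ?_⟩
  · unfold off
    rw [hJ.symm a b]
    simp only [or_comm]
  · unfold off
    split_ifs
    · exact le_rfl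
    · exact hJ.nonneg a b
  · unfold off
    split_ifs
    · rfl
    · exact hJ.diag a

theorem supp_off {X : Finset V} (hJ : Supp J X) (u : V) : Supp (off J u) (X.erase u) := by
  intro a b h
  unfold off at h
  split_ifs at h with h1
  · exact absurd rfl h
  · push Not at h1
    have h2 := hJ a b h
    exact ⟨Finset.mem_erase.2 ⟨h1.1, h2.1⟩, Finset.mem_erase.2 ⟨h1.2, h2.2⟩⟩

/-- A weight of couplings living on `X` depends on `X`. -/
theorem dep_W {X : Finset V} (hJ : Supp J X) : Dep X (W J) := by
  intro σ τ h
  unfold W en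
  congr 2
  refine Finset.sum_congr rfl fun a _ => Finset.sum_congr rfl fun b _ => ?_
  by_cases hab : J a b = 0
  · rw [hab]
    ring
  · have h2 := hJ a b hab
    unfold sp
    rw [h a h2.1, h b h2.2]

theorem W_off (hJ : Coup J) (u : V) (σ : V → Bool) :
    W J σ = W (off J u) σ * Real.exp (sp u σ * fld J u σ) := by
  unfold W
  rw [← Real.exp_add]
  congr 1
  have h1 : ∀ a b, J a b * sp a σ * sp b σ = off J u a b * sp a σ * sp b σ +
      ((if a = u then J u b * sp u σ * sp b σ else 0) +
        (if b = u then J a u * sp a σ * sp u σ else 0)) := by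
    intro a b
    unfold off
    by_cases ha : a = u
    · subst ha
      by_cases hb : b = a
      · subst hb
        rw [hJ.diag]
        simp
      · simp [hb]
    · by_cases hb : b = u
      · subst hb
        simp [ha]
      · simp [ha, hb]
  have h2 : ∑ a, ∑ b, J a b * sp a σ * sp b σ = ∑ a, ∑ b, off J u a b * sp a σ * sp b σ +
      (∑ b, J u b * sp u σ * sp b σ + ∑ a, J a u * sp a σ * sp u σ) := by
    rw [Finset.sum_congr rfl fun a _ => Finset.sum_congr rfl fun b _ => h1 a b]
    simp only [Finset.sum_add_distrib]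
    congr 2
    · rw [Finset.sum_comm]
      refine Finset.sum_congr rfl fun b _ => ?_
      rw [Finset.sum_ite_eq' univ u (fun _ => J u b * sp u σ * sp b σ),
        if_pos (Finset.mem_univ u)]
    · refine Finset.sum_congr rfl fun a _ => ?_
      rw [Finset.sum_ite_eq' univ u (fun _ => J a u * sp a σ * sp u σ),
        if_pos (Finset.mem_univ u)]
  unfold en fld
  rw [h2, Finset.mul_sum]
  have h3 : ∑ b, J u b * sp u σ * sp b σ = ∑ b, sp u σ * (J u b * sp b σ) :=
    Finset.sum_congr rfl fun b _ => by ring
  have h4 : ∑ a, J a u * sp a σ * sp u σ = ∑ b, sp u σ * (J u b * sp b σ) :=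
    Finset.sum_congr rfl fun b _ => by rw [hJ.symm b u]; ring
  rw [h3, h4]
  ring

private theorem supp_off_univ (J : V → V → ℝ) (u : V) :
    Supp (off J u) (univ.erase u) :=
  supp_off (fun a b _ => ⟨Finset.mem_univ a, Finset.mem_univ b⟩) u

private theorem W_off_eq (J : V → V → ℝ) (u : V) {σ τ : V → Bool} (h : ∀ v, v ≠ u → σ v = τ v) :
    W (off J u) σ = W (off J u) τ :=
  dep_W (supp_off_univ J u) σ τ fun v hv => h v (Finset.ne_of_mem_erase hv)

private theorem fld_eq' (hJ : Coup J) (u : V) {σ τ : V → Bool} (h : ∀ v, v ≠ u → σ v = τ v) :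
    fld J u σ = fld J u τ := by
  unfold fld
  refine Finset.sum_congr rfl fun b _ => ?_
  by_cases hb : b = u
  · rw [hb, hJ.diag]
    ring
  · unfold sp
    rw [h b hb]

theorem W_flip (hJ : Coup J) (u : V) (σ : V → Bool) :
    W J σ + W J (flip u σ) = 2 * Sw J u σ := by
  have hfl : ∀ v, v ≠ u → flip u σ v = σ v := fun v hv => by
    unfold flip
    rw [Function.update_of_ne hv]
  rw [W_off hJ u σ, W_off hJ u (flip u σ), W_off_eq J u hfl, fld_eq' hJ u hfl, sp_flip_self]
  unfold Sw
  have h1 : Real.cosh (fld J u σ) = Real.cosh (sp u σ * fld J u σ) := by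
    unfold sp spin
    cases σ u
    · simp
    · simp
  rw [h1, Real.cosh_eq, neg_mul]
  ring

theorem fkg_W (hJ : Coup J) : Fkg (W J) := by
  exact ⟨W_pos J, W_fkg hJ⟩

theorem even_W (J : V → V → ℝ) : Even' (W J) := by
  intro σ
  exact W_neg σ

theorem even_Sw (J : V → V → ℝ) (u : V) : Even' (Sw J u) := by
  intro σ
  unfold Sw
  rw [W_neg]
  have h1 : fld J u (neg σ) = -fld J u σ := by
    unfold fld
    rw [← Finset.sum_neg_distrib]
    refine Finset.sum_congr rfl fun b _ => ?_
    rw [sp_neg]
    ring
  rw [h1, Real.cosh_neg]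

theorem fkg_Fw (hJ : Coup J) (u : V) : Fkg (Fw J u) := by
  refine ⟨fun σ => mul_pos (W_pos _ _) (Real.exp_pos _), fun σ τ => ?_⟩
  have h1 : fld J u σ + fld J u τ = fld J u (σ ⊓ τ) + fld J u (σ ⊔ τ) := by
    unfold fld
    rw [← Finset.sum_add_distrib, ← Finset.sum_add_distrib]
    refine Finset.sum_congr rfl fun b _ => ?_
    rw [← mul_add, ← mul_add]
    congr 1
    unfold sp
    rw [Pi.inf_apply, Pi.sup_apply]
    cases σ b <;> cases τ b <;> simp [spin]
  have h2 := W_fkg (coup_off hJ u) σ τ
  unfold Fw
  calc W (off J u) σ * Real.exp (fld J u σ) * (W (off J u) τ * Real.exp (fld J u τ))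
      = W (off J u) σ * W (off J u) τ * Real.exp (fld J u σ + fld J u τ) := by
        rw [Real.exp_add]; ring
    _ ≤ W (off J u) (σ ⊓ τ) * W (off J u) (σ ⊔ τ) * Real.exp (fld J u σ + fld J u τ) :=
        mul_le_mul_of_nonneg_right h2 (Real.exp_pos _).le
    _ = _ := by rw [h1, Real.exp_add]; ring

theorem dep_Fw {X : Finset V} (hJ : Supp J X) (hc : Coup J) (u : V) : Dep (X.erase u) (Fw J u) := by
  intro σ τ h
  unfold Fw
  rw [dep_W (supp_off hJ u) σ τ h]
  congr 2
  unfold fld
  refine Finset.sum_congr rfl fun b _ => ?_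
  by_cases hb : J u b = 0
  · rw [hb]
    ring
  · have hbu : b ≠ u := by
      rintro rfl
      exact hb (hc.diag b)
    unfold sp
    rw [h b (Finset.mem_erase.2 ⟨hbu, (hJ u b hb).2⟩)]

theorem odd_marg (hJ : Coup J) {X : Finset V} {u : V} {lam : ℝ} (h : OddR (W J) (X.erase u) lam) :
    OddR (Sw J u) (X.erase u) lam := by
  intro f hf hd
  rw [← qf_marg (W_flip hJ u) (Finset.notMem_erase u X) hd hd]
  exact h f hf hd

private theorem pin_sum (hJ : Coup J) (z : V) (G : (V → Bool) → ℝ) :
    ∑ σ, W J σ * (1 + sp z σ) * G σ = ∑ σ, Fw J z σ * G (Function.update σ z true) := by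
  rw [← sum_M z (fun σ => W J σ * (1 + sp z σ) * G σ)]
  refine Finset.sum_congr rfl fun σ _ => ?_
  have hup : ∀ v, v ≠ z → Function.update σ z true v = σ v := fun v hv =>
    Function.update_of_ne hv _ _
  unfold M
  simp only
  rw [sp_update_self, sp_update_self, spin_true, spin_false, W_off hJ z (Function.update σ z true),
    sp_update_self, spin_true, one_mul, W_off_eq J z hup, fld_eq' hJ z hup]
  unfold Fw
  ring

theorem pin_good (hJ : Coup J) {X : Finset V} {z : V} {lam : ℝ}
    (h : FrzR (Fw J z) (X.erase z) lam) : FrzR (fun σ => W J σ * (1 + sp z σ)) X lam := by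
  intro f hf htot
  have hd1 : Dep (X.erase z) (fun σ => f (Function.update σ z true)) := by
    intro σ τ hst
    apply hf
    intro v hv
    by_cases hvz : v = z
    · subst hvz
      rw [Function.update_self, Function.update_self]
    · rw [Function.update_of_ne hvz, Function.update_of_ne hvz]
      exact hst v (Finset.mem_erase.2 ⟨hvz, hv⟩)
  have ht1 : tot (Fw J z) (fun σ => f (Function.update σ z true)) = 0 := by
    rw [← htot]
    unfold tot
    exact (pin_sum hJ z f).symm
  have hq := h _ hd1 ht1
  have hip : ip (fun σ => W J σ * (1 + sp z σ)) f f =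
      ip (Fw J z) (fun σ => f (Function.update σ z true))
        (fun σ => f (Function.update σ z true)) := by
    unfold ip
    exact pin_sum hJ z (fun σ => f σ * f σ)
  have ham : am (Fw J z) (fun σ => f (Function.update σ z true))
      (fun σ => f (Function.update σ z true)) ≤ am (fun σ => W J σ * (1 + sp z σ)) f f := by
    unfold am
    refine Finset.sum_le_sum fun v _ => ?_
    rw [pin_sum hJ z (fun σ => D v f σ * D v f σ)]
    refine Finset.sum_le_sum fun σ _ => ?_
    refine mul_le_mul_of_nonneg_left ?_ (mul_pos (W_pos _ _) (Real.exp_pos _)).le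
    by_cases hvz : v = z
    · subst hvz
      have : D v (fun σ => f (Function.update σ v true)) σ = 0 := by
        unfold D
        simp only
        rw [Function.update_idem, Function.update_idem]
        ring
      rw [this, mul_zero]
      exact mul_self_nonneg _
    · have : D v (fun σ => f (Function.update σ z true)) σ = D v f (Function.update σ z true) := by
        unfold D
        simp only
        rw [Function.update_comm hvz, Function.update_comm hvz]
      rw [this]
  unfold qf at hq ⊢
  rw [hip]
  linarith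

end Pool.Agent.Lib.MP_f82811_pr.TC
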