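import Pool.Agent.Lib.MP_f82811_pr.TC.Cone
import Pool.Agent.Lib.MP_f82811_pr.TC.IncMean

/-!
# Module Resol: the odd monotone resolvent function

Proof. `K` = odd monotone functions depending on `X` (a closed convex cone containing `0`). Minimise
`Φ G = qf th w G G / 2 - ip w (sp k) G` over `K`: `qf th w G G ≥ (lam - th) * ip w G G`, so
`Φ G → ∞` and the minimum is attained (restrict to the closed bounded set `Φ G ≤ 0`). Let
`ξ = sp k + th * G - Hop w G`: odd (`Hop_odd`), depends on `X` (`Hop_dep`, `k ∈ X`), and on pairs with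
`G (flip v σ) = G σ`, `σ v = false`: `Hop w G (flip v σ) ≤ Hop w G σ` (`Hop_contact`),
`sp k σ ≤ sp k (flip v σ)`, so by `contact` `G + t ξ ∈ K` for small `t ≥ 0`. Then
`0 ≤ Φ (G + t ξ) - Φ G = t * (qf th w G ξ - ip w (sp k) ξ) + O (t ^ 2)` and
`qf th w G ξ = ip w ξ (Hop w G) - th * ip w G ξ`, so the linear coefficient is `- ip w ξ ξ`. Hence
`ξ = 0`.
-/

set_option autoImplicit false

namespace Pool.Agent.Lib.MP_f82811_pr.TC

open Finset HT

variable {V : Type*} [Fintype V] [DecidableEq V] {w : (V → Bool) → ℝ}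

private theorem Resol_comb (a b : ℝ) (f g : (V → Bool) → ℝ) :
    ip w (fun σ => a * f σ + b * g σ) (fun σ => a * f σ + b * g σ) =
      a ^ 2 * ip w f f + 2 * a * b * ip w f g + b ^ 2 * ip w g g := by
  unfold ip
  rw [Finset.mul_sum, Finset.mul_sum, Finset.mul_sum, ← Finset.sum_add_distrib,
    ← Finset.sum_add_distrib]
  exact Finset.sum_congr rfl fun σ _ => by ring

private theorem Resol_right (a b : ℝ) (h f g e : (V → Bool) → ℝ) :
    ip w h (fun σ => f σ + a * g σ + b * e σ) = ip w h f + a * ip w h g + b * ip w h e := by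
  unfold ip
  rw [Finset.mul_sum, Finset.mul_sum, ← Finset.sum_add_distrib, ← Finset.sum_add_distrib]
  exact Finset.sum_congr rfl fun σ _ => by ring

omit [Fintype V] [DecidableEq V] in
private theorem Resol_closed (X : Finset V) :
    IsClosed {f : (V → Bool) → ℝ | (Odd' f ∧ Monotone f) ∧ Dep X f} := by
  have h2 : IsClosed {f : (V → Bool) → ℝ | Dep X f} := by
    unfold Dep
    simp only [Set.ofPred_forall]
    refine isClosed_iInter fun σ => isClosed_iInter fun τ => isClosed_iInter fun _ => ?_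
    exact isClosed_eq (continuous_apply _) (continuous_apply _)
  exact isClosed_odd_mono.inter h2

private theorem Resol_cont (th : ℝ) (k : V) :
    Continuous fun f : (V → Bool) → ℝ => qf th w f f - 2 * ip w (sp k) f := by
  unfold qf am ip D
  fun_prop

private theorem Resol_min (hw : ∀ σ, 0 < w σ) {X : Finset V} {k : V} {lam th : ℝ}
    (hth : th < lam) (hodd : OddR w X lam) :
    ∃ G : (V → Bool) → ℝ, (Odd' G ∧ Monotone G) ∧ Dep X G ∧
      ∀ H : (V → Bool) → ℝ, (Odd' H ∧ Monotone H) → Dep X H →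
        qf th w G G - 2 * ip w (sp k) G ≤ qf th w H H - 2 * ip w (sp k) H := by
  obtain ⟨S, hS⟩ : ∃ S : Set ((V → Bool) → ℝ), S = {f | (Odd' f ∧ Monotone f) ∧ Dep X f} ∩
      {f | qf th w f f - 2 * ip w (sp k) f ≤ 0} := ⟨_, rfl⟩
  have hclosed : IsClosed S := by
    rw [hS]
    exact (Resol_closed X).inter (isClosed_le (Resol_cont th k) continuous_const)
  have hd : 0 < lam - th := sub_pos.2 hth
  have hip : ∀ f ∈ S, ip w f f ≤ 4 / (lam - th) ^ 2 * ip w (sp k) (sp k) := by
    intro f hf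
    rw [hS] at hf
    obtain ⟨⟨⟨hf1, hf2⟩, hf3⟩, hf4⟩ := hf
    have hf4' : qf th w f f - 2 * ip w (sp k) f ≤ 0 := hf4
    have h1 := hodd f hf1 hf3
    have h2 : qf th w f f = qf lam w f f + (lam - th) * ip w f f := by
      unfold qf
      ring
    -- the square of (lam - th) * f - 2 * sp k
    have h3 : 0 ≤ ip w (fun σ => (lam - th) * f σ + (-2) * sp k σ)
        (fun σ => (lam - th) * f σ + (-2) * sp k σ) := ip_self_nonneg hw _
    rw [Resol_comb, ip_comm f (sp k)] at h3
    rw [div_mul_eq_mul_div, le_div_iff₀ (by positivity)]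
    have h5 : (lam - th) * ip w f f ≤ 2 * ip w (sp k) f := by linarith
    have h6 := mul_le_mul_of_nonneg_left h5 hd.le
    nlinarith [h3, h6]
  have hbdd : ∃ B : ℝ, ∀ f ∈ S, ∀ σ, |f σ| ≤ B := by
    set R := 4 / (lam - th) ^ 2 * ip w (sp k) (sp k) with hR
    have hR0 : 0 ≤ R := mul_nonneg (by positivity) (ip_self_nonneg hw _)
    refine ⟨∑ σ, (R / w σ + 1), fun f hf σ => ?_⟩
    have h1 : w σ * (f σ * f σ) ≤ R := by
      refine le_trans ?_ (hip f hf)
      exact Finset.single_le_sum (f := fun σ => w σ * (f σ * f σ))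
        (fun σ _ => mul_nonneg (hw σ).le (mul_self_nonneg _)) (Finset.mem_univ σ)
    have h2 : f σ * f σ ≤ R / w σ := by
      rw [le_div_iff₀ (hw σ)]
      linarith
    have h4 : ∀ σ, 0 ≤ R / w σ := fun σ => div_nonneg hR0 (hw σ).le
    have h3 : |f σ| ≤ R / w σ + 1 := by
      apply abs_le_of_sq_le_sq
      · nlinarith [h4 σ]
      · linarith [h4 σ]
    refine h3.trans ?_
    exact Finset.single_le_sum (f := fun σ => R / w σ + 1)
      (fun σ _ => by have := h4 σ; linarith) (Finset.mem_univ σ)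
  obtain ⟨B, hB⟩ := hbdd
  have hcompact : IsCompact S := by
    apply IsCompact.of_isClosed_subset
      (isCompact_Icc (a := fun _ : V → Bool => -B) (b := fun _ : V → Bool => B)) hclosed
    intro f hf
    rw [Set.mem_Icc]
    exact ⟨fun σ => (abs_le.1 (hB f hf σ)).1, fun σ => (abs_le.1 (hB f hf σ)).2⟩
  have hzero : qf th w (fun _ => 0) (fun _ => 0) - 2 * ip w (sp k) (fun _ => 0) = 0 := by
    unfold qf am ip D
    simp
  have h0 : (fun _ => (0 : ℝ)) ∈ S := by
    rw [hS]
    refine ⟨⟨⟨fun σ => by simp, fun σ τ _ => le_refl _⟩, fun σ τ _ => rfl⟩, ?_⟩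
    exact hzero.le
  obtain ⟨G, hGS, hmin⟩ := hcompact.exists_isMinOn ⟨_, h0⟩ (Resol_cont th k).continuousOn
  have hGS' := hGS
  rw [hS] at hGS'
  refine ⟨G, hGS'.1.1, hGS'.1.2, fun H hH1 hH2 => ?_⟩
  by_cases hle : qf th w H H - 2 * ip w (sp k) H ≤ 0
  · have : H ∈ S := by
      rw [hS]
      exact ⟨⟨hH1, hH2⟩, hle⟩
    exact hmin this
  · have h1 : qf th w G G - 2 * ip w (sp k) G ≤ 0 := hGS'.2
    push Not at hle
    linarith

theorem exists_resolvent (hF : Fkg w) (hev : Even' w) {X : Finset V} (hX : Dep X w) {k : V}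
    (hk : k ∈ X) {lam th : ℝ} (hth : th < lam) (hodd : OddR w X lam) :
    ∃ G : (V → Bool) → ℝ, Odd' G ∧ Monotone G ∧ Dep X G ∧
      ∀ σ, Hop w G σ - th * G σ = sp k σ := by
  have hw := hF.pos
  obtain ⟨G, ⟨hG1, hG2⟩, hG3, hmin⟩ := Resol_min (k := k) hw hth hodd
  refine ⟨G, hG1, hG2, hG3, ?_⟩
  set ξ : (V → Bool) → ℝ := fun σ => sp k σ + th * G σ + (-1) * Hop w G σ with hξ
  have hξodd : Odd' ξ := by
    intro σ
    have h1 := Hop_odd hev hG1 σ
    have h2 := hG1 σ
    simp only [hξ]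
    rw [sp_neg, h1, h2]
    ring
  have hspdep : Dep X (sp k) := by
    intro σ τ h
    unfold sp
    rw [h k hk]
  have hξdep : Dep X ξ := by
    intro σ τ h
    have h1 := Hop_dep hX hG3 σ τ h
    have h2 := hG3 σ τ h
    have h3 := hspdep σ τ h
    simp only [hξ]
    rw [h1, h2, h3]
  have hξc : ∀ (σ : V → Bool) (v : V), σ v = false → G (flip v σ) = G σ → ξ σ ≤ ξ (flip v σ) := by
    intro σ v hv hGv
    have h1 := Hop_contact hF hG2 hv hGv
    have h2 : sp k σ ≤ sp k (flip v σ) := by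
      by_cases hkv : k = v
      · subst hkv
        unfold sp flip
        rw [Function.update_self, hv]
        norm_num [spin]
      · unfold sp flip
        rw [Function.update_of_ne hkv]
    simp only [hξ]
    rw [hGv]
    linarith
  obtain ⟨t0, ht0, ht⟩ := contact hG2 hξc
  have hlin : qf th w G ξ - ip w (sp k) ξ = -ip w ξ ξ := by
    have h1 : ip w ξ (Hop w G) = am w ξ G := ip_Hop hw G ξ
    have h2 : ip w ξ ξ = ip w ξ (sp k) + th * ip w ξ G + (-1) * ip w ξ (Hop w G) :=
      Resol_right th (-1) ξ (sp k) G (Hop w G)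
    unfold qf
    rw [h2, h1, am_comm G ξ, ip_comm ξ (sp k), ip_comm ξ G]
    ring
  have hΦ : ∀ t, 0 ≤ t → t ≤ t0 → 0 ≤ t * (-2 * ip w ξ ξ + t * qf th w ξ ξ) := by
    intro t ht1 ht2
    have h1 := hmin (fun σ => G σ + t * ξ σ)
      ⟨fun σ => by
        show G (neg σ) + t * ξ (neg σ) = -(G σ + t * ξ σ)
        rw [hG1, hξodd]
        ring, ht t ht1 ht2⟩
      (fun σ τ h => by
        show G σ + t * ξ σ = G τ + t * ξ τ
        rw [hG3 σ τ h, hξdep σ τ h])
    have h2 : qf th w (fun σ => G σ + t * ξ σ) (fun σ => G σ + t * ξ σ) =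
        qf th w G G + 2 * t * qf th w G ξ + t ^ 2 * qf th w ξ ξ := by
      rw [qf_add_left G (fun σ => t * ξ σ), qf_add_right G (fun σ => t * ξ σ),
        qf_add_right G (fun σ => t * ξ σ), qf_smul_left, qf_smul_right, qf_smul_right,
        qf_smul_left, qf_comm ξ G]
      ring
    have h3 : ip w (sp k) (fun σ => G σ + t * ξ σ) = ip w (sp k) G + t * ip w (sp k) ξ := by
      rw [ip_add_right G (fun σ => t * ξ σ), ip_smul_right]
    rw [h2, h3] at h1
    nlinarith [h1, hlin]
  have hN0 : 0 ≤ ip w ξ ξ := ip_self_nonneg hw ξ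
  have hN : ip w ξ ξ = 0 := by
    by_contra hne
    have hpos : 0 < ip w ξ ξ := lt_of_le_of_ne hN0 (Ne.symm hne)
    have hq : 0 < |qf th w ξ ξ| + 1 := by positivity
    set t := min t0 (ip w ξ ξ / (|qf th w ξ ξ| + 1)) with htdef
    have ht1 : 0 < t := lt_min ht0 (div_pos hpos hq)
    have h1 := hΦ t ht1.le (min_le_left _ _)
    have h2 : t * (|qf th w ξ ξ| + 1) ≤ ip w ξ ξ := by
      rw [← le_div_iff₀ hq]
      exact min_le_right _ _
    have h3 : t * qf th w ξ ξ ≤ t * (|qf th w ξ ξ| + 1) :=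
      mul_le_mul_of_nonneg_left (by linarith [le_abs_self (qf th w ξ ξ)]) ht1.le
    have h4 : -2 * ip w ξ ξ + t * qf th w ξ ξ < 0 := by linarith
    have h5 := mul_neg_of_pos_of_neg ht1 h4
    linarith
  intro σ
  have h1 : ξ σ = 0 := by
    by_contra hcon
    exact (ip_self_pos hw hcon).ne' hN
  have h2 : ξ σ = sp k σ + th * G σ + (-1) * Hop w G σ := rfl
  linarith

end Pool.Agent.Lib.MP_f82811_pr.TC
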