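import Pool.Agent.Lib.MP_f82811_pr.TC.P0min
import Pool.Agent.Lib.MP_f82811_pr.TC.Resol
import Pool.Agent.Lib.MP_f82811_pr.TC.Pin

/-!
# Module P0: the one sided inequality

Proof. Let `nu = Fw J k`; `nu (neg σ) / nu σ = exp (-2 * fld J k σ)` decreases in `σ`. Suppose the claim
fails for `f`; take `rho, V` from `P0_min` (`V` for the function). Let `rho < th < lam`, `0 ≤ th`, and `G` from
`exists_resolvent` for the weight `W J` (even, `Fkg`, depends on `insert k P`). Put
`G1 σ = G (update σ k true)`: monotone, depends on `P`. For `σ` with `σ k = true`: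
`W J (flip v σ) / W J σ = nu (flip v σ) / nu σ` for `v ≠ k` (`W J σ = nu σ` if `σ k = true`),
`W J (flip k σ) / W J σ = nu (neg σ) / nu σ`, `G (flip k σ) = - G1 (neg σ)`. So for all `σ`
`Hop nu G1 σ + (1 + nu (neg σ) / nu σ) / 2 * sy G1 σ - th * G1 σ = 1` (both sides do not see the spin at
`k`; terms with `v ∉ P` vanish). Multiply by `nu V` and sum; multiply the equation of `V` by `nu G1`
and sum; subtract, `ip_Hop` and symmetry of `am`:
`(rho - th) * ip nu G1 V = tot nu V + ∑ nu * sy G1 * (max (sy V) 0 - sy V)`, where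
`∑ nu σ * (1 + nu (neg σ) / nu σ) / 2 * m σ * h σ = ∑ nu σ * m σ * sy h σ` for even `m`. `sy G1 ≥ 0`
because `G1 σ = G (σ, k = true) ≥ G (σ, k = false) = - G1 (neg σ)`. So the right hand side is positive,
hence `ip nu G1 V < 0`. But FKG for `nu` (`fkg_ip` after subtracting the mean of `V`):
`(∑ nu) * ip nu G1 V ≥ tot nu G1 * tot nu V ≥ 0`, as `tot nu G1 ≥ 0` (`sy G1 ≥ 0` and
`∑ nu σ G1 σ = ∑ W J-type sum`: `2 * tot nu G1 = ∑ (nu σ G1 σ + nu (neg σ) G1 (neg σ))`; simpler: apply
`ip (W J) (sp k) G ≥ 0` by `fkg_ip`, and `ip (W J) (sp k) G = tot nu G1`, pairing `σ`, `flip k σ`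
with oddness). Contradiction.
-/

set_option autoImplicit false

namespace Pool.Agent.Lib.MP_f82811_pr.TC

open Finset HT

variable {V : Type*} [Fintype V] [DecidableEq V] {J : V → V → ℝ}

omit [DecidableEq V] in
private theorem P0_fld_neg (J : V → V → ℝ) (k : V) (σ : V → Bool) :
    fld J k (neg σ) = -fld J k σ := by
  unfold fld
  rw [← Finset.sum_neg_distrib]
  refine Finset.sum_congr rfl fun u _ => ?_
  rw [sp_neg]
  ring

omit [Fintype V] [DecidableEq V] in
private theorem P0_sp_mono (u : V) {σ τ : V → Bool} (h : σ ≤ τ) : sp u σ ≤ sp u τ := by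
  have h2 : ∀ a b : Bool, a ≤ b → spin a ≤ spin b := by
    intro a b hab
    cases a
    · cases b
      · exact le_rfl
      · simp [spin]
    · cases b
      · exact absurd hab (by decide)
      · exact le_rfl
  exact h2 _ _ (h u)

private theorem P0_fld_mono (hJ : Coup J) (k : V) {σ τ : V → Bool} (h : σ ≤ τ) :
    fld J k σ ≤ fld J k τ := by
  unfold fld
  exact Finset.sum_le_sum fun u _ => mul_le_mul_of_nonneg_left (P0_sp_mono u h) (hJ.nonneg k u)

private theorem P0_ratio (J : V → V → ℝ) (k : V) (σ : V → Bool) :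
    Fw J k (neg σ) / Fw J k σ = Real.exp (-(2 * fld J k σ)) := by
  unfold Fw
  rw [even_W, P0_fld_neg]
  have h1 : W (off J k) σ ≠ 0 := (W_pos _ _).ne'
  rw [mul_div_mul_left _ _ h1, ← Real.exp_sub]
  congr 1
  ring

/-- For an even factor `m`. -/
private theorem P0_half {nu : (V → Bool) → ℝ} (hpos : ∀ σ, 0 < nu σ) {m : (V → Bool) → ℝ}
    (hm : Even' m) (h : (V → Bool) → ℝ) :
    ∑ σ, nu σ * ((1 + nu (neg σ) / nu σ) / 2 * (h σ * m σ)) = ∑ σ, nu σ * (m σ * sy h σ) := by
  have e1 : ∀ σ, nu σ * ((1 + nu (neg σ) / nu σ) / 2 * (h σ * m σ)) =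
      nu σ * (h σ * m σ) / 2 + nu (neg σ) * (h σ * m σ) / 2 := by
    intro σ
    have := (hpos σ).ne'
    field_simp
  rw [Finset.sum_congr rfl fun σ _ => e1 σ, Finset.sum_add_distrib]
  have e2 : ∑ σ, nu (neg σ) * (h σ * m σ) / 2 = ∑ σ, nu σ * (h (neg σ) * m σ) / 2 := by
    rw [← sum_neg (fun σ => nu σ * (h (neg σ) * m σ) / 2)]
    refine Finset.sum_congr rfl fun σ _ => ?_
    simp only [neg_neg', hm σ]
  rw [e2, ← Finset.sum_add_distrib]
  refine Finset.sum_congr rfl fun σ _ => ?_
  unfold sy
  ring

omit [Fintype V] in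
private theorem P0_neg_update (k : V) (b : Bool) (σ : V → Bool) :
    neg (Function.update σ k b) = Function.update (neg σ) k (!b) := by
  funext i
  unfold neg
  by_cases h : i = k
  · subst h; simp
  · simp [Function.update_of_ne h]

theorem P0_main (hJ : Coup J) {k : V} {P : Finset V} (hk : k ∉ P) (hX : Supp J (insert k P))
    {lam : ℝ} (hlam : 0 ≤ lam) (hodd : OddR (W J) (insert k P) lam)
    (hfrz : FrzR (Fw J k) P lam) {f : (V → Bool) → ℝ} (hf : Monotone f) (hfP : Dep P f)
    (hf0 : 0 ≤ tot (Fw J k) f) :
    lam * ip (Fw J k) f f ≤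
      am (Fw J k) f f + ∑ σ, Fw J k σ * (max (sy f σ) 0) ^ 2 := by
  by_contra hcon
  rw [not_le] at hcon
  have hFn : Fkg (Fw J k) := fkg_Fw hJ k
  have hdn : Dep P (Fw J k) := by
    have := dep_Fw hX hJ k
    rwa [Finset.erase_insert hk] at this
  have hr : ∀ σ τ : V → Bool, σ ≤ τ →
      Fw J k (neg τ) / Fw J k τ ≤ Fw J k (neg σ) / Fw J k σ := by
    intro σ τ h
    rw [P0_ratio, P0_ratio]
    have := P0_fld_mono hJ k h
    exact Real.exp_le_exp.2 (by linarith)
  obtain ⟨rho, g, hrho0, hrho, hgm, hgP, hgt, hgE⟩ := P0_min hFn hdn hr hfrz hf hfP hf0 hcon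
  set th : ℝ := (rho + lam) / 2 with hth
  have hth1 : rho < th := by rw [hth]; linarith
  have hth2 : th < lam := by rw [hth]; linarith
  obtain ⟨G, hGo, hGm, hGd, hGE⟩ := exists_resolvent (fkg_W hJ) (even_W J) (dep_W hX)
    (Finset.mem_insert_self k P) hth2 hodd
  have hWt : ∀ σ : V → Bool, σ k = true → W J σ = Fw J k σ := by
    intro σ h
    rw [W_off hJ k σ]
    unfold Fw
    have : sp k σ = 1 := by unfold sp; rw [h]; rfl
    rw [this, one_mul]
  have hWf : ∀ σ : V → Bool, σ k = false → W J σ = Fw J k (neg σ) := by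
    intro σ h
    rw [W_off hJ k σ]
    unfold Fw
    have : sp k σ = -1 := by unfold sp; rw [h]; simp [spin]
    rw [this, even_W, P0_fld_neg]
    congr 2
    ring
  set nu := Fw J k with hnu
  have hpos : ∀ σ, 0 < nu σ := hFn.pos
  set G1 : (V → Bool) → ℝ := fun σ => G (Function.update σ k true) with hG1
  have hG1m : Monotone G1 := by
    intro σ τ h
    exact hGm (update_le_update_iff.2 ⟨le_rfl, fun j _ => h j⟩)
  have hnuk : ∀ (σ : V → Bool) (b : Bool), nu (Function.update σ k b) = nu σ := by
    intro σ b
    refine hdn _ _ fun v hv => ?_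
    have : v ≠ k := fun h => hk (h ▸ hv)
    rw [Function.update_of_ne this]
  have hG1k : ∀ (σ : V → Bool) (b : Bool), G1 (Function.update σ k b) = G1 σ := by
    intro σ b
    rw [hG1]
    simp only [Function.update_idem]
  have hGf : ∀ σ : V → Bool, G (Function.update σ k false) = -G1 (neg σ) := by
    intro σ
    have h1 : Function.update σ k false = neg (Function.update (neg σ) k true) := by
      rw [P0_neg_update, neg_neg']
      rfl
    rw [h1, hGo]
  have hsG : ∀ σ, 0 ≤ sy G1 σ := by
    intro σ
    have h1 : Function.update σ k false ≤ Function.update σ k true :=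
      update_le_update_iff.2 ⟨Bool.false_le _, fun j _ => le_rfl⟩
    have h2 := hGm h1
    rw [hGf] at h2
    unfold sy
    have h3 : G (Function.update σ k true) = G1 σ := rfl
    rw [h3] at h2
    linarith
  -- the equation of `G1`
  have hE1 : ∀ σ, Hop nu G1 σ + (1 + nu (neg σ) / nu σ) / 2 * sy G1 σ - th * G1 σ = 1 := by
    intro σ
    have h0 := hGE (Function.update σ k true)
    rw [sp_update_true] at h0
    have h1 : Hop (W J) G (Function.update σ k true) =
        Hop nu G1 σ + (1 + nu (neg σ) / nu σ) / 2 * sy G1 σ := by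
      unfold Hop
      have h2 : ∀ v : V, (1 + W J (flip v (Function.update σ k true)) /
          W J (Function.update σ k true)) * (G (Function.update σ k true) -
          G (flip v (Function.update σ k true))) / 4 =
          (1 + nu (flip v σ) / nu σ) * (G1 σ - G1 (flip v σ)) / 4 +
          (if v = k then (1 + nu (neg σ) / nu σ) / 2 * sy G1 σ else 0) := by
        intro v
        have hw1 : W J (Function.update σ k true) = nu σ := by
          rw [hWt _ (Function.update_self _ _ _), hnuk]
        by_cases hv : v = k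
        · subst hv
          rw [if_pos rfl]
          have hfl : flip v (Function.update σ v true) = Function.update σ v false := by
            unfold flip
            rw [Function.update_self, Function.update_idem]
            rfl
          have hfl2 : G1 (flip v σ) = G1 σ := by
            unfold flip
            exact hG1k _ _
          have hw2 : W J (Function.update σ v false) = nu (neg σ) := by
            rw [hWf _ (Function.update_self _ _ _), P0_neg_update, hnuk]
          rw [hfl, hw1, hw2, hGf, hfl2]
          have h3 : G (Function.update σ v true) = G1 σ := rfl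
          rw [h3]
          unfold sy
          ring
        · rw [if_neg hv]
          have hfl : flip v (Function.update σ k true) = Function.update (flip v σ) k true := by
            unfold flip
            rw [Function.update_of_ne hv, Function.update_comm hv]
          have hw2 : W J (Function.update (flip v σ) k true) = nu (flip v σ) := by
            rw [hWt _ (Function.update_self _ _ _), hnuk]
          rw [hfl, hw1, hw2]
          have h3 : G (Function.update σ k true) = G1 σ := rfl
          have h4 : G (Function.update (flip v σ) k true) = G1 (flip v σ) := rfl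
          rw [h3, h4]
          ring
      rw [Finset.sum_congr rfl fun v _ => h2 v, Finset.sum_add_distrib, Finset.sum_ite_eq']
      simp
    rw [h1] at h0
    have h3 : G (Function.update σ k true) = G1 σ := rfl
    rw [h3] at h0
    exact h0
  -- pair the two equations
  have hme : Even' (fun σ => max (sy g σ) 0) := by
    intro σ
    show max (sy g (neg σ)) 0 = max (sy g σ) 0
    have : sy g (neg σ) = sy g σ := by
      unfold sy
      rw [neg_neg']
      ring
    rw [this]
  have hse : Even' (sy G1) := by
    intro σ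
    unfold sy
    rw [neg_neg']
    ring
  have hA := P0_half hpos hse g
  have hB := P0_half hpos hme G1
  have hC : ip nu g (Hop nu G1) = ip nu G1 (Hop nu g) := by
    rw [ip_Hop hpos, ip_Hop hpos, am_comm]
  have hS1 : ip nu g (Hop nu G1) +
      ∑ σ, nu σ * ((1 + nu (neg σ) / nu σ) / 2 * (g σ * sy G1 σ)) - th * ip nu G1 g =
      tot nu g := by
    unfold ip tot
    rw [Finset.mul_sum, ← Finset.sum_add_distrib, ← Finset.sum_sub_distrib]
    refine Finset.sum_congr rfl fun σ _ => ?_
    have := hE1 σ
    linear_combination nu σ * g σ * this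
  have hS2 : ip nu G1 (Hop nu g) +
      ∑ σ, nu σ * ((1 + nu (neg σ) / nu σ) / 2 * (G1 σ * max (sy g σ) 0)) =
      rho * ip nu G1 g := by
    unfold ip
    rw [Finset.mul_sum, ← Finset.sum_add_distrib]
    refine Finset.sum_congr rfl fun σ _ => ?_
    have := hgE σ
    linear_combination nu σ * G1 σ * this
  have hD : 0 ≤ ∑ σ, nu σ * (max (sy g σ) 0 * sy G1 σ) -
      ∑ σ, nu σ * (sy G1 σ * sy g σ) := by
    rw [← Finset.sum_sub_distrib]
    refine Finset.sum_nonneg fun σ _ => ?_
    have h1 : 0 ≤ nu σ * sy G1 σ * (max (sy g σ) 0 - sy g σ) :=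
      mul_nonneg (mul_nonneg (hpos σ).le (hsG σ)) (sub_nonneg.2 (le_max_left _ _))
    linarith
  have hneg : ip nu G1 g < 0 := by
    have h1 : (rho - th) * ip nu G1 g = tot nu g + (∑ σ, nu σ * (max (sy g σ) 0 * sy G1 σ) -
        ∑ σ, nu σ * (sy G1 σ * sy g σ)) := by
      linear_combination hS1 - hS2 - hC + hB - hA
    have h2 : 0 < (rho - th) * ip nu G1 g := by rw [h1]; linarith
    have h3 : rho - th < 0 := by linarith
    exact neg_of_mul_pos_right h2 h3.le
  -- the FKG inequality
  have hWG : 0 ≤ ip (W J) (sp k) G := by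
    refine fkg_ip (fkg_W hJ).pos (fkg_W hJ).lat ?_ hGm ?_
    · exact fun σ τ h => P0_sp_mono k h
    · refine ip_odd_even (even_W J) (fun σ => sp_neg k σ) (fun σ => rfl)
  have hT : ip (W J) (sp k) G = tot nu G1 := by
    have h1 : ∀ σ : V → Bool, W J σ * (sp k σ * G σ) +
        W J (flip k σ) * (sp k (flip k σ) * G (flip k σ)) =
        nu σ * G1 σ + nu (neg σ) * G1 (neg σ) := by
      intro σ
      have hfk : flip k σ = Function.update σ k (!σ k) := rfl
      have hnk : nu (neg (Function.update σ k (!σ k))) = nu (neg σ) := by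
        rw [P0_neg_update, hnuk]
      have hgk : G1 (neg (Function.update σ k (!σ k))) = G1 (neg σ) := by
        rw [P0_neg_update, hG1k]
      cases hb : σ k
      · have e1 : Function.update σ k false = σ := by
          rw [← hb, Function.update_eq_self]
        have e2 : G σ = -G1 (neg σ) := by
          rw [← hGf σ, e1]
        have e3 : sp k σ = -1 := by unfold sp; rw [hb]; simp [spin]
        have e4 : flip k σ = Function.update σ k true := by rw [hfk, hb]; rfl
        rw [hWf σ hb, e2, e3, e4, hWt _ (Function.update_self _ _ _), hnuk, sp_update_true]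
        have h3 : G (Function.update σ k true) = G1 σ := rfl
        rw [h3]
        ring
      · have e1 : Function.update σ k true = σ := by
          rw [← hb, Function.update_eq_self]
        have e2 : G σ = G1 σ := by
          rw [hG1]
          show G σ = G (Function.update σ k true)
          rw [e1]
        have e3 : sp k σ = 1 := by unfold sp; rw [hb]; rfl
        have e4 : flip k σ = Function.update σ k false := by rw [hfk, hb]; rfl
        rw [hWt σ hb, e2, e3, e4, hWf _ (Function.update_self _ _ _), P0_neg_update, hnuk,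
          sp_update_false, hGf]
        ring
    have h2 : ∑ σ : V → Bool, W J (flip k σ) * (sp k (flip k σ) * G (flip k σ)) =
        ∑ σ, W J σ * (sp k σ * G σ) := sum_flip k (fun σ => W J σ * (sp k σ * G σ))
    have h3 : ∑ σ : V → Bool, nu (neg σ) * G1 (neg σ) = ∑ σ, nu σ * G1 σ :=
      sum_neg (fun σ => nu σ * G1 σ)
    have h4 := Finset.sum_congr (rfl : (Finset.univ : Finset (V → Bool)) = Finset.univ)
      (fun σ _ => h1 σ)
    rw [Finset.sum_add_distrib, Finset.sum_add_distrib, h2, h3] at h4
    unfold ip tot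
    linarith
  have hT0 : 0 ≤ tot nu G1 := hT ▸ hWG
  have hZ : 0 < ∑ σ, nu σ := Finset.sum_pos (fun σ _ => hpos σ) Finset.univ_nonempty
  set c : ℝ := tot nu g / ∑ σ, nu σ with hc
  have hc0 : 0 ≤ c := div_nonneg hgt.le hZ.le
  have hF1 : 0 ≤ ip nu (fun σ => g σ - c) G1 := by
    refine fkg_ip hpos hFn.lat (fun σ τ h => sub_le_sub_right (hgm h) _) hG1m ?_
    unfold ip
    have h1 : ∑ σ, nu σ * ((g σ - c) * 1) = tot nu g - c * ∑ σ, nu σ := by
      unfold tot
      rw [Finset.mul_sum, ← Finset.sum_sub_distrib]
      exact Finset.sum_congr rfl fun σ _ => by ring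
    rw [h1, hc, div_mul_cancel₀ _ hZ.ne', sub_self]
  have hF2 : ip nu (fun σ => g σ - c) G1 = ip nu G1 g - c * tot nu G1 := by
    unfold ip tot
    rw [Finset.mul_sum, ← Finset.sum_sub_distrib]
    exact Finset.sum_congr rfl fun σ _ => by ring
  rw [hF2] at hF1
  have := mul_nonneg hc0 hT0
  linarith

end Pool.Agent.Lib.MP_f82811_pr.TC
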