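import Pool.Agent.Lib.MP_f82811_pr.TC.Cone

/-!
# Module P0min: the minimiser in the monotone cone

`E f = am nu f f + ∑ σ, nu σ * (max (sy f σ) 0) ^ 2`. Minimise `E` over the compact set of monotone `f`
depending on `P` with `0 ≤ tot nu f`, `ip nu f f = 1` (not empty: normalise `f0`, whose `ip` is
positive by `hlt`, since `0 ≤ E f0`). Let `f` be a minimum point and `rho = E f ≥ 0`; `rho < lam` by `hlt`
(`E` and `ip` are homogeneous of degree two under nonnegative factors), and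
`rho * ip nu h h ≤ E h` for all `h` in the cone. `tot nu f = 0` is impossible by `hfrz`
(`lam ≤ am nu f f ≤ rho`), so `0 < tot nu f`. Let `g σ = (1 + nu (neg σ) / nu σ) / 2 * max (sy f σ) 0` and
`ξ = rho * f - Hop nu f - g`, which depends on `P`. On pairs `σ`, `τ = flip v σ` with `σ v = false`, `f τ = f σ`:
`Hop nu f τ ≤ Hop nu f σ` (`Hop_contact`); `nu (neg τ) / nu τ ≤ nu (neg σ) / nu σ` (`hr`),
`sy f τ ≤ sy f σ` because `f (neg τ) ≤ f (neg σ)`; so `g τ ≤ g σ` (products of nonnegative factors) and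
`ξ σ ≤ ξ τ`. By `contact`, and `0 < tot nu f`, `f + t ξ` is in the cone for small `t ≥ 0`. Then
`0 ≤ E (f + t ξ) - rho * ip nu (f + t ξ) (f + t ξ)`, and `max (a + t b) 0 ^ 2 ≤ (max a 0 + t b) ^ 2`
(`max (a + t b) 0` is at most `|max a 0 + t b|` in absolute value), so this is at most
`2 t * (am nu f ξ + ∑ nu * max (sy f) 0 * sy ξ - rho * ip nu f ξ) + t ^ 2 * B`. The bracket is
`ip nu ξ (Hop nu f + g - rho f) = - ip nu ξ ξ`: indeed `∑ nu σ * m σ * sy ξ σ` with `m = max (sy f) 0` even is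
`∑ (nu σ + nu (neg σ)) / 2 * m σ * ξ σ` (`sum_neg`). Hence `ip nu ξ ξ = 0`, `ξ = 0`.
-/

set_option autoImplicit false

namespace Pool.Agent.Lib.MP_f82811_pr.TC

open Finset HT

variable {V : Type*} [Fintype V] [DecidableEq V] {nu : (V → Bool) → ℝ}

/-- The one sided energy. -/
noncomputable def P0min_E (nu f : (V → Bool) → ℝ) : ℝ :=
  am nu f f + ∑ σ, nu σ * (max (sy f σ) 0) ^ 2

theorem P0min_cont_ip (nu : (V → Bool) → ℝ) :
    Continuous fun f : (V → Bool) → ℝ => ip nu f f := by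
  unfold ip
  fun_prop

theorem P0min_cont_tot (nu : (V → Bool) → ℝ) :
    Continuous fun f : (V → Bool) → ℝ => tot nu f := by
  unfold tot
  fun_prop

theorem P0min_cont_E (nu : (V → Bool) → ℝ) :
    Continuous fun f : (V → Bool) → ℝ => P0min_E nu f := by
  unfold P0min_E am D sy
  fun_prop

omit [Fintype V] in
theorem P0min_le_flip {σ : V → Bool} {v : V} (hv : σ v = false) : σ ≤ flip v σ := by
  intro i
  by_cases h : i = v
  · rw [h, hv]
    exact Bool.false_le _
  · unfold flip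
    rw [Function.update_of_ne h]

omit [Fintype V] [DecidableEq V] in
theorem P0min_neg_le {σ τ : V → Bool} (h : σ ≤ τ) : neg τ ≤ neg σ := by
  intro i
  have key : ∀ x y : Bool, x ≤ y → (!y) ≤ (!x) := by decide
  exact key _ _ (h i)

omit [Fintype V] [DecidableEq V] in
theorem P0min_sy_neg (f : (V → Bool) → ℝ) (σ : V → Bool) : sy f (neg σ) = sy f σ := by
  unfold sy
  rw [neg_neg']
  ring

theorem P0min_E_smul {c : ℝ} (hc : 0 ≤ c) (f : (V → Bool) → ℝ) :
    P0min_E nu (fun σ => c * f σ) = c ^ 2 * P0min_E nu f := by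
  unfold P0min_E
  rw [am_smul_left, am_comm, am_smul_left, mul_add, Finset.mul_sum]
  congr 1
  · ring
  · refine Finset.sum_congr rfl fun σ _ => ?_
    have h1 : sy (fun σ => c * f σ) σ = c * sy f σ := by
      unfold sy
      ring
    have h2 : max (c * sy f σ) 0 = c * max (sy f σ) 0 := by
      rw [mul_max_of_nonneg _ _ hc, mul_zero]
    rw [h1, h2]
    ring

theorem P0min_E_nonneg (hF : Fkg nu) (f : (V → Bool) → ℝ) : 0 ≤ P0min_E nu f :=
  add_nonneg (am_nonneg (fun σ => (hF.pos σ).le) f)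
    (Finset.sum_nonneg fun σ _ => mul_nonneg (hF.pos σ).le (sq_nonneg _))

/-- Cone of monotone functions of the spins in `P` with nonnegative integral. -/
def P0min_K (nu : (V → Bool) → ℝ) (P : Finset V) (f : (V → Bool) → ℝ) : Prop :=
  Monotone f ∧ Dep P f ∧ 0 ≤ tot nu f

theorem P0min_K_smul {P : Finset V} {c : ℝ} (hc : 0 ≤ c) {f : (V → Bool) → ℝ}
    (hf : P0min_K nu P f) : P0min_K nu P (fun σ => c * f σ) := by
  refine ⟨fun σ τ h => mul_le_mul_of_nonneg_left (hf.1 h) hc, fun σ τ h => ?_, ?_⟩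
  · show c * f σ = c * f τ
    rw [hf.2.1 σ τ h]
  · rw [tot_smul]
    exact mul_nonneg hc hf.2.2

theorem P0min_K_closed (nu : (V → Bool) → ℝ) (P : Finset V) :
    IsClosed {f : (V → Bool) → ℝ | P0min_K nu P f} := by
  have c1 : IsClosed {f : (V → Bool) → ℝ | Monotone f} := by
    have : {f : (V → Bool) → ℝ | Monotone f} =
        ⋂ σ : V → Bool, ⋂ τ : V → Bool, ⋂ _ : σ ≤ τ, {f | f σ ≤ f τ} := by
      ext f
      simp only [Set.mem_iInter]
      exact ⟨fun h σ τ hst => h hst, fun h σ τ hst => h σ τ hst⟩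
    rw [this]
    exact isClosed_iInter fun σ => isClosed_iInter fun τ => isClosed_iInter fun _ =>
      isClosed_le (continuous_apply _) (continuous_apply _)
  have c2 : IsClosed {f : (V → Bool) → ℝ | Dep P f} := by
    have : {f : (V → Bool) → ℝ | Dep P f} =
        ⋂ σ : V → Bool, ⋂ τ : V → Bool, ⋂ _ : ∀ v ∈ P, σ v = τ v, {f | f σ = f τ} := by
      ext f
      simp only [Set.mem_iInter]
      exact ⟨fun h σ τ hst => h σ τ hst, fun h σ τ hst => h σ τ hst⟩
    rw [this]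
    exact isClosed_iInter fun σ => isClosed_iInter fun τ => isClosed_iInter fun _ =>
      isClosed_eq (continuous_apply _) (continuous_apply _)
  have c3 : IsClosed {f : (V → Bool) → ℝ | 0 ≤ tot nu f} :=
    isClosed_le continuous_const (P0min_cont_tot nu)
  exact c1.inter (c2.inter c3)

/-- The minimiser. -/
theorem P0min_exists (hF : Fkg nu) {P : Finset V} {f0 : (V → Bool) → ℝ}
    (hf0 : P0min_K nu P f0) (h0 : 0 < ip nu f0 f0) :
    ∃ f : (V → Bool) → ℝ, P0min_K nu P f ∧ ip nu f f = 1 ∧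
      ∀ h, P0min_K nu P h → P0min_E nu f * ip nu h h ≤ P0min_E nu h := by
  obtain ⟨S, hS⟩ : ∃ S : Set ((V → Bool) → ℝ), S = {f | P0min_K nu P f ∧ ip nu f f = 1} :=
    ⟨_, rfl⟩
  have hclosedS : IsClosed S := by
    rw [hS]
    exact (P0min_K_closed nu P).inter (isClosed_eq (P0min_cont_ip nu) continuous_const)
  have hbdd : ∃ B : ℝ, ∀ f ∈ S, ∀ σ, |f σ| ≤ B := by
    refine ⟨∑ σ, (1 / nu σ + 1), fun f hf σ => ?_⟩
    rw [hS] at hf
    have h1 : nu σ * (f σ * f σ) ≤ 1 := by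
      rw [← hf.2]
      exact Finset.single_le_sum (f := fun σ => nu σ * (f σ * f σ))
        (fun σ _ => mul_nonneg (hF.pos σ).le (mul_self_nonneg _)) (Finset.mem_univ σ)
    have h2 : f σ * f σ ≤ 1 / nu σ := by
      rw [le_div_iff₀ (hF.pos σ)]
      linarith
    have h3 : |f σ| ≤ 1 / nu σ + 1 := by
      have h4 : 0 ≤ 1 / nu σ := (one_div_pos.2 (hF.pos σ)).le
      apply abs_le_of_sq_le_sq
      · nlinarith
      · linarith
    refine h3.trans ?_
    exact Finset.single_le_sum (f := fun σ => 1 / nu σ + 1)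
      (fun σ _ => by have := one_div_pos.2 (hF.pos σ); linarith) (Finset.mem_univ σ)
  obtain ⟨B, hB⟩ := hbdd
  have hcompact : IsCompact S := by
    apply IsCompact.of_isClosed_subset
      (isCompact_Icc (a := fun _ : V → Bool => -B) (b := fun _ : V → Bool => B)) hclosedS
    intro f hf
    rw [Set.mem_Icc]
    exact ⟨fun σ => (abs_le.1 (hB f hf σ)).1, fun σ => (abs_le.1 (hB f hf σ)).2⟩
  have hscale : ∀ g : (V → Bool) → ℝ, P0min_K nu P g → 0 < ip nu g g →
      (fun σ => (1 / Real.sqrt (ip nu g g)) * g σ) ∈ S := by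
    intro g hg hpos
    have hs : 0 < Real.sqrt (ip nu g g) := Real.sqrt_pos.2 hpos
    rw [hS]
    refine ⟨P0min_K_smul (one_div_pos.2 hs).le hg, ?_⟩
    rw [ip_smul_left, ip_smul_right]
    have h1 : Real.sqrt (ip nu g g) * Real.sqrt (ip nu g g) = ip nu g g :=
      Real.mul_self_sqrt hpos.le
    field_simp
    nlinarith [h1]
  obtain ⟨f, hfS, hmin⟩ := hcompact.exists_isMinOn ⟨_, hscale f0 hf0 h0⟩
    (P0min_cont_E nu).continuousOn
  have hfS' := hfS
  rw [hS] at hfS'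
  refine ⟨f, hfS'.1, hfS'.2, fun h hh => ?_⟩
  rcases (ip_self_nonneg hF.pos h).lt_or_eq with hpos | hzero
  · have h1 : P0min_E nu f ≤ P0min_E nu (fun σ => (1 / Real.sqrt (ip nu h h)) * h σ) :=
      hmin (hscale h hh hpos)
    have hs : 0 < Real.sqrt (ip nu h h) := Real.sqrt_pos.2 hpos
    rw [P0min_E_smul (one_div_pos.2 hs).le, div_pow, Real.sq_sqrt hpos.le, one_pow,
      one_div_mul_eq_div, le_div_iff₀ hpos] at h1
    exact h1
  · rw [← hzero, mul_zero]
    exact P0min_E_nonneg hF h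

theorem P0_min (hF : Fkg nu) {P : Finset V} (hP : Dep P nu)
    (hr : ∀ σ τ : V → Bool, σ ≤ τ → nu (neg τ) / nu τ ≤ nu (neg σ) / nu σ) {lam : ℝ}
    (hfrz : FrzR nu P lam) {f0 : (V → Bool) → ℝ} (hf0 : Monotone f0) (hf0P : Dep P f0)
    (hf0t : 0 ≤ tot nu f0)
    (hlt : am nu f0 f0 + ∑ σ, nu σ * (max (sy f0 σ) 0) ^ 2 < lam * ip nu f0 f0) :
    ∃ (rho : ℝ) (f : (V → Bool) → ℝ), 0 ≤ rho ∧ rho < lam ∧ Monotone f ∧ Dep P f ∧
      0 < tot nu f ∧
      ∀ σ, Hop nu f σ + (1 + nu (neg σ) / nu σ) / 2 * max (sy f σ) 0 = rho * f σ := by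
  have hE0 : P0min_E nu f0 < lam * ip nu f0 f0 := hlt
  have hip0 : 0 < ip nu f0 f0 := by
    rcases (ip_self_nonneg hF.pos f0).lt_or_eq with h | h
    · exact h
    · rw [← h, mul_zero] at hE0
      exact absurd (P0min_E_nonneg hF f0) (not_le.2 hE0)
  obtain ⟨f, ⟨hfm, hfP, hft⟩, hf1, hmin⟩ := P0min_exists hF ⟨hf0, hf0P, hf0t⟩ hip0
  have hrho0 : 0 ≤ P0min_E nu f := P0min_E_nonneg hF f
  have hrho : P0min_E nu f < lam := by
    have h1 := hmin f0 ⟨hf0, hf0P, hf0t⟩
    exact lt_of_mul_lt_mul_right (h1.trans_lt hE0) hip0.le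
  have htot : 0 < tot nu f := by
    rcases hft.lt_or_eq with h | h
    · exact h
    · exfalso
      have h1 := hfrz f hfP h.symm
      unfold qf at h1
      rw [hf1, mul_one] at h1
      have h2 : am nu f f ≤ P0min_E nu f := by
        unfold P0min_E
        have : 0 ≤ ∑ σ, nu σ * (max (sy f σ) 0) ^ 2 :=
          Finset.sum_nonneg fun σ _ => mul_nonneg (hF.pos σ).le (sq_nonneg _)
        linarith
      linarith
  obtain ⟨rho, hrhodef⟩ : ∃ rho : ℝ, rho = P0min_E nu f := ⟨_, rfl⟩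
  rw [← hrhodef] at hrho0 hrho hmin
  refine ⟨rho, f, hrho0, hrho, hfm, hfP, htot, ?_⟩
  -- the direction
  obtain ⟨m, hm⟩ : ∃ m : (V → Bool) → ℝ, m = fun σ => max (sy f σ) 0 := ⟨_, rfl⟩
  obtain ⟨g, hg⟩ : ∃ g : (V → Bool) → ℝ, g = fun σ => (1 + nu (neg σ) / nu σ) / 2 * m σ :=
    ⟨_, rfl⟩
  obtain ⟨ξ, hξ⟩ : ∃ ξ : (V → Bool) → ℝ, ξ = fun σ => rho * f σ - Hop nu f σ - g σ := ⟨_, rfl⟩
  have hm0 : ∀ σ, 0 ≤ m σ := fun σ => by rw [hm]; exact le_max_right _ _
  have hmneg : ∀ σ, m (neg σ) = m σ := fun σ => by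
    rw [hm]
    show max (sy f (neg σ)) 0 = max (sy f σ) 0
    rw [P0min_sy_neg]
  have hcont : ∀ (σ : V → Bool) (v : V), σ v = false → f (flip v σ) = f σ →
      ξ σ ≤ ξ (flip v σ) := by
    intro σ v hv hfe
    have hle := P0min_le_flip hv
    have h1 := Hop_contact hF hfm hv hfe
    have h2 : m (flip v σ) ≤ m σ := by
      rw [hm]
      show max (sy f (flip v σ)) 0 ≤ max (sy f σ) 0
      apply max_le_max _ le_rfl
      unfold sy
      rw [hfe]
      have h3 := hfm (P0min_neg_le hle)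
      linarith
    have h3 := hr _ _ hle
    have h4 : g (flip v σ) ≤ g σ := by
      rw [hg]
      show (1 + nu (neg (flip v σ)) / nu (flip v σ)) / 2 * m (flip v σ) ≤
        (1 + nu (neg σ) / nu σ) / 2 * m σ
      apply mul_le_mul
      · linarith
      · exact h2
      · exact hm0 _
      · have := div_pos (hF.pos (neg σ)) (hF.pos σ)
        linarith
    rw [hξ]
    show rho * f σ - Hop nu f σ - g σ ≤
      rho * f (flip v σ) - Hop nu f (flip v σ) - g (flip v σ)
    rw [hfe]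
    linarith
  have hξP : Dep P ξ := by
    intro σ τ h
    rw [hξ, hg, hm]
    show rho * f σ - Hop nu f σ - (1 + nu (neg σ) / nu σ) / 2 * max (sy f σ) 0 =
      rho * f τ - Hop nu f τ - (1 + nu (neg τ) / nu τ) / 2 * max (sy f τ) 0
    have e1 : nu (neg σ) = nu (neg τ) := hP.neg σ τ h
    have e2 : f (neg σ) = f (neg τ) := hfP.neg σ τ h
    unfold sy
    rw [hfP σ τ h, Hop_dep hP hfP σ τ h, hP σ τ h, e1, e2]
  obtain ⟨t0, ht0, hmono⟩ := contact hfm hcont
  -- the bracket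
  have hbr : am nu f ξ + ∑ σ, nu σ * (m σ * sy ξ σ) - rho * ip nu f ξ = -ip nu ξ ξ := by
    have h1 : am nu f ξ = ip nu ξ (Hop nu f) := by rw [ip_Hop hF.pos, am_comm]
    have h2 : ∑ σ, nu σ * (m σ * sy ξ σ) = ip nu g ξ := by
      have h3 : ∑ σ, nu σ * (m σ * ξ (neg σ)) = ∑ σ, nu (neg σ) * (m σ * ξ σ) := by
        rw [← sum_neg (fun σ => nu σ * (m σ * ξ (neg σ)))]
        refine Finset.sum_congr rfl fun σ _ => ?_
        rw [neg_neg', hmneg]
      have h4 : ∑ σ, nu σ * (m σ * sy ξ σ) =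
          (∑ σ, nu σ * (m σ * ξ σ) + ∑ σ, nu σ * (m σ * ξ (neg σ))) / 2 := by
        rw [← Finset.sum_add_distrib, Finset.sum_div]
        refine Finset.sum_congr rfl fun σ _ => ?_
        unfold sy
        ring
      rw [h4, h3, ← Finset.sum_add_distrib, Finset.sum_div]
      unfold ip
      refine Finset.sum_congr rfl fun σ _ => ?_
      rw [hg]
      have := (hF.pos σ).ne'
      field_simp
    have h5 : ip nu ξ ξ = rho * ip nu f ξ - ip nu ξ (Hop nu f) - ip nu g ξ := by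
      unfold ip
      rw [Finset.mul_sum, ← Finset.sum_sub_distrib, ← Finset.sum_sub_distrib]
      refine Finset.sum_congr rfl fun σ _ => ?_
      have h6 : ξ σ = rho * f σ - Hop nu f σ - g σ := by rw [hξ]
      calc nu σ * (ξ σ * ξ σ) = nu σ * (ξ σ * (rho * f σ - Hop nu f σ - g σ)) := by rw [← h6]
        _ = _ := by ring
    rw [h1, h2, h5]
    ring
  -- the inequality for small t
  obtain ⟨B, hB⟩ : ∃ B : ℝ, B = am nu ξ ξ + ∑ σ, nu σ * sy ξ σ ^ 2 - rho * ip nu ξ ξ := ⟨_, rfl⟩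
  have hineq : ∀ t, 0 ≤ t → t ≤ t0 → 0 ≤ tot nu f + t * tot nu ξ →
      0 ≤ 2 * t * (-ip nu ξ ξ) + t ^ 2 * B := by
    intro t ht ht' htt
    have hK : P0min_K nu P (fun σ => f σ + t * ξ σ) := by
      refine ⟨hmono t ht ht', fun σ τ h => ?_, ?_⟩
      · show f σ + t * ξ σ = f τ + t * ξ τ
        rw [hfP σ τ h, hξP σ τ h]
      · have h1 := tot_add (w := nu) f (fun σ => t * ξ σ)
        rw [h1, tot_smul]
        exact htt
    have h1 := hmin _ hK
    have e1 : ip nu (fun σ => f σ + t * ξ σ) (fun σ => f σ + t * ξ σ) =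
        1 + 2 * t * ip nu f ξ + t ^ 2 * ip nu ξ ξ := by
      have h2 := ip_add_left (w := nu) f (fun σ => t * ξ σ) (fun σ => f σ + t * ξ σ)
      have h3 := ip_add_right (w := nu) f (fun σ => t * ξ σ) f
      have h4 := ip_add_right (w := nu) f (fun σ => t * ξ σ) (fun σ => t * ξ σ)
      rw [h2, h3, h4, hf1, ip_smul_right, ip_smul_left, ip_smul_left, ip_smul_right,
        ip_comm ξ f]
      ring
    have e2 : am nu (fun σ => f σ + t * ξ σ) (fun σ => f σ + t * ξ σ) =
        am nu f f + 2 * t * am nu f ξ + t ^ 2 * am nu ξ ξ := by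
      have h2 := am_add_left (w := nu) f (fun σ => t * ξ σ) (fun σ => f σ + t * ξ σ)
      have h3 : ∀ h : (V → Bool) → ℝ, am nu h (fun σ => f σ + t * ξ σ) =
          am nu h f + t * am nu h ξ := by
        intro h
        rw [am_comm]
        have h4 := am_add_left (w := nu) f (fun σ => t * ξ σ) h
        rw [h4, am_smul_left, am_comm f, am_comm ξ]
      rw [h2, h3, h3, am_smul_left, am_smul_left, am_comm ξ f]
      ring
    have e3 : ∑ σ, nu σ * (max (sy (fun σ => f σ + t * ξ σ) σ) 0) ^ 2 ≤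
        ∑ σ, nu σ * m σ ^ 2 + 2 * t * ∑ σ, nu σ * (m σ * sy ξ σ) +
          t ^ 2 * ∑ σ, nu σ * sy ξ σ ^ 2 := by
      rw [Finset.mul_sum, Finset.mul_sum, ← Finset.sum_add_distrib, ← Finset.sum_add_distrib]
      refine Finset.sum_le_sum fun σ _ => ?_
      have h2 : sy (fun σ => f σ + t * ξ σ) σ = sy f σ + t * sy ξ σ := by
        unfold sy
        ring
      have h3 : sy f σ ≤ m σ := by rw [hm]; exact le_max_left _ _
      have h4 : (max (sy f σ + t * sy ξ σ) 0) ^ 2 ≤ (m σ + t * sy ξ σ) ^ 2 := by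
        rcases le_total (sy f σ + t * sy ξ σ) 0 with h | h
        · rw [max_eq_right h]
          nlinarith [sq_nonneg (m σ + t * sy ξ σ)]
        · rw [max_eq_left h]
          exact pow_le_pow_left₀ h (by linarith) 2
      rw [h2]
      calc nu σ * (max (sy f σ + t * sy ξ σ) 0) ^ 2 ≤ nu σ * (m σ + t * sy ξ σ) ^ 2 :=
            mul_le_mul_of_nonneg_left h4 (hF.pos σ).le
        _ = _ := by ring
    have e4 : P0min_E nu f = am nu f f + ∑ σ, nu σ * m σ ^ 2 := by
      rw [hm]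
      rfl
    have e5 : P0min_E nu (fun σ => f σ + t * ξ σ) =
        am nu (fun σ => f σ + t * ξ σ) (fun σ => f σ + t * ξ σ) +
          ∑ σ, nu σ * (max (sy (fun σ => f σ + t * ξ σ) σ) 0) ^ 2 := rfl
    rw [e1, e5, e2] at h1
    have h5 : 2 * t * (-ip nu ξ ξ) =
        2 * t * (am nu f ξ + ∑ σ, nu σ * (m σ * sy ξ σ) - rho * ip nu f ξ) := by rw [hbr]
    rw [h5, hB]
    have h6 : rho = am nu f f + ∑ σ, nu σ * m σ ^ 2 := by rw [hrhodef, e4]
    nlinarith [h1, e3, h6]
  -- conclude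
  have hI0 : ip nu ξ ξ = 0 := by
    by_contra hne
    have hI : 0 < ip nu ξ ξ := lt_of_le_of_ne (ip_self_nonneg hF.pos ξ) (Ne.symm hne)
    obtain ⟨t, ht⟩ : ∃ t : ℝ, t = min t0 (min (tot nu f / (1 + |tot nu ξ|))
      (ip nu ξ ξ / (1 + |B|))) := ⟨_, rfl⟩
    have hp1 : 0 < tot nu f / (1 + |tot nu ξ|) := div_pos htot (by positivity)
    have hp2 : 0 < ip nu ξ ξ / (1 + |B|) := div_pos hI (by positivity)
    have htpos : 0 < t := by
      rw [ht]
      exact lt_min ht0 (lt_min hp1 hp2)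
    have ht1 : t ≤ t0 := by rw [ht]; exact min_le_left _ _
    have ht2 : t ≤ tot nu f / (1 + |tot nu ξ|) := by
      rw [ht]
      exact (min_le_right _ _).trans (min_le_left _ _)
    have ht3 : t ≤ ip nu ξ ξ / (1 + |B|) := by
      rw [ht]
      exact (min_le_right _ _).trans (min_le_right _ _)
    rw [le_div_iff₀ (by positivity)] at ht2 ht3
    have h1 : 0 ≤ tot nu f + t * tot nu ξ := by
      have h2 : -(t * |tot nu ξ|) ≤ t * tot nu ξ := by
        have := neg_abs_le (tot nu ξ)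
        nlinarith
      nlinarith
    have h2 := hineq t htpos.le ht1 h1
    have h3 : t * B ≤ t * |B| := mul_le_mul_of_nonneg_left (le_abs_self B) htpos.le
    have h4 : t * (2 * (-ip nu ξ ξ) + t * B) < 0 := by
      apply mul_neg_of_pos_of_neg htpos
      nlinarith
    nlinarith
  intro σ
  by_contra hcon
  have h1 : ξ σ ≠ 0 := by
    rw [hξ, hg, hm]
    intro h
    apply hcon
    have h' : rho * f σ - Hop nu f σ - (1 + nu (neg σ) / nu σ) / 2 * max (sy f σ) 0 = 0 := h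
    linarith
  exact (ip_self_pos hF.pos h1).ne' hI0

end Pool.Agent.Lib.MP_f82811_pr.TC
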