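import Pool.Agent.Lib.MP_f82811_pr.HT.Pair
import Pool.Agent.Lib.MP_f82811_pr.TC.Pin
import Pool.Agent.Lib.MP_f82811_pr.TC.Num

/-!
# Module Virt: one or two neighbours

Proof. If `J u b ≠ 0` only for `b = z` then `fld J u σ = J u z * sp z σ` (`exp_one`, `cosh` is even). If
only for `b = z1, z2` then `fld J u σ = J u z1 * sp z1 σ + J u z2 * sp z2 σ` (`exp_two`, `cosh_two`).
`W (setc A z1 z2 (A z1 z2 + t)) σ = W A σ * exp (t * (sp z1 σ * sp z2 σ))` and
`exp (t * s) = cosh t * (1 + tanh t * s)` (`exp_one`).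
-/

set_option autoImplicit false

namespace Pool.Agent.Lib.MP_f82811_pr.TC

open Finset HT

variable {V : Type*} [Fintype V] [DecidableEq V] {J : V → V → ℝ}

theorem virt_zero {u : V} (hu : ∀ b, J u b = 0) (hJ : Coup J) :
    Fw J u = W J ∧ off J u = J := by
  have h1 : off J u = J := by
    funext a b
    unfold off
    by_cases h : a = u ∨ b = u
    · rw [if_pos h]
      rcases h with rfl | rfl
      · exact (hu b).symm
      · rw [hJ.symm]; exact (hu a).symm
    · rw [if_neg h]
  refine ⟨?_, h1⟩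
  funext σ
  unfold Fw
  rw [h1]
  have h2 : fld J u σ = 0 := by
    unfold fld
    exact Finset.sum_eq_zero fun b _ => by rw [hu b, zero_mul]
  rw [h2, Real.exp_zero, mul_one]

omit [Fintype V] [DecidableEq V] in
theorem Virt_sp (v : V) (σ : V → Bool) : sp v σ = 1 ∨ sp v σ = -1 := by
  unfold sp spin
  cases σ v
  · right; simp
  · left; simp

theorem Virt_fld_one {u z : V} (hu : ∀ b, J u b ≠ 0 → b = z) (σ : V → Bool) :
    fld J u σ = J u z * sp z σ := by
  unfold fld
  refine Finset.sum_eq_single z (fun b _ hb => ?_) (fun h => absurd (Finset.mem_univ z) h)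
  by_contra h
  exact hb (hu b (left_ne_zero_of_mul h))

theorem Virt_fld_two {u z1 z2 : V} (h12 : z1 ≠ z2) (hu : ∀ b, J u b ≠ 0 → b = z1 ∨ b = z2)
    (σ : V → Bool) : fld J u σ = J u z1 * sp z1 σ + J u z2 * sp z2 σ := by
  unfold fld
  rw [← Finset.sum_pair h12 (f := fun b => J u b * sp b σ)]
  symm
  refine Finset.sum_subset (Finset.subset_univ _) fun b _ hb => ?_
  by_contra h
  apply hb
  rcases hu b (left_ne_zero_of_mul h) with rfl | rfl
  · simp
  · simp

theorem virt_one {u z : V} (hu : ∀ b, J u b ≠ 0 → b = z) (σ : V → Bool) :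
    Sw J u σ = Real.cosh (J u z) * W (off J u) σ ∧
    Fw J u σ = Real.cosh (J u z) * (W (off J u) σ * (1 + Real.tanh (J u z) * sp z σ)) := by
  constructor
  · unfold Sw
    rw [Virt_fld_one hu]
    rcases Virt_sp z σ with h | h
    · rw [h, mul_one, mul_comm]
    · rw [h, mul_neg, mul_one, Real.cosh_neg, mul_comm]
  · unfold Fw
    rw [Virt_fld_one hu, exp_one _ _ (Virt_sp z σ)]
    ring

omit [Fintype V] in
theorem Virt_setc (hJ : Coup J) {k l : V} (t : ℝ) :
    setc J k l t = fun a b => J a b + (t - J k l) * pairMat k l a b := by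
  funext a b
  unfold setc pairMat
  by_cases h : (a = k ∧ b = l) ∨ (a = l ∧ b = k)
  · rw [if_pos h, if_pos h]
    rcases h with ⟨rfl, rfl⟩ | ⟨rfl, rfl⟩
    · ring
    · rw [hJ.symm a b]; ring
  · rw [if_neg h, if_neg h]
    ring

theorem coup_setc (hJ : Coup J) {k l : V} (hkl : k ≠ l) {t : ℝ} (ht : 0 ≤ t) :
    Coup (setc J k l t) := by
  refine ⟨fun u v => ?_, fun u v => ?_, fun v => ?_⟩
  · rw [Virt_setc hJ]
    show J u v + (t - J k l) * pairMat k l u v = J v u + (t - J k l) * pairMat k l v u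
    rw [hJ.symm u v, (coup_pairMat hkl).symm u v]
  · unfold setc
    split_ifs
    · exact ht
    · exact hJ.nonneg u v
  · unfold setc
    rw [if_neg]
    · exact hJ.diag v
    · rintro (⟨rfl, h⟩ | ⟨rfl, h⟩)
      · exact hkl h
      · exact hkl h.symm

theorem Virt_en_pair {k l : V} (hkl : k ≠ l) (σ : V → Bool) : en (pairMat k l) σ = sp k σ * sp l σ := by
  unfold en
  have h1 : ∀ u : V, ∑ v, pairMat k l u v * sp u σ * sp v σ =
      (if u = k then sp k σ * sp l σ else 0) + (if u = l then sp l σ * sp k σ else 0) := by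
    intro u
    by_cases hu : u = k
    · subst hu
      rw [if_pos rfl, if_neg hkl, add_zero]
      rw [Finset.sum_eq_single l]
      · unfold pairMat
        rw [if_pos (Or.inl ⟨rfl, rfl⟩), one_mul]
      · intro b _ hb
        unfold pairMat
        rw [if_neg, zero_mul, zero_mul]
        rintro (⟨_, h⟩ | ⟨h, _⟩)
        · exact hb h
        · exact hkl h
      · intro h; exact absurd (Finset.mem_univ l) h
    · by_cases hu2 : u = l
      · subst hu2
        rw [if_neg hu, if_pos rfl, zero_add]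
        rw [Finset.sum_eq_single k]
        · unfold pairMat
          rw [if_pos (Or.inr ⟨rfl, rfl⟩), one_mul]
        · intro b _ hb
          unfold pairMat
          rw [if_neg, zero_mul, zero_mul]
          rintro (⟨h, _⟩ | ⟨_, h⟩)
          · exact hu h
          · exact hb h
        · intro h; exact absurd (Finset.mem_univ k) h
      · rw [if_neg hu, if_neg hu2, add_zero]
        refine Finset.sum_eq_zero fun b _ => ?_
        unfold pairMat
        rw [if_neg, zero_mul, zero_mul]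
        rintro (⟨h, _⟩ | ⟨h, _⟩)
        · exact hu h
        · exact hu2 h
  rw [Finset.sum_congr rfl fun u _ => h1 u, Finset.sum_add_distrib, Finset.sum_ite_eq' Finset.univ k,
    Finset.sum_ite_eq' Finset.univ l, if_pos (Finset.mem_univ _), if_pos (Finset.mem_univ _)]
  ring

theorem W_setc (hJ : Coup J) {k l : V} (hkl : k ≠ l) (t : ℝ) (σ : V → Bool) :
    W (setc J k l t) σ = W J σ * Real.exp ((t - J k l) * (sp k σ * sp l σ)) := by
  rw [Virt_setc hJ, W_add, Virt_en_pair hkl]

theorem virt_two (hJ : Coup J) {u z1 z2 : V} (h12 : z1 ≠ z2) (hu : ∀ b, J u b ≠ 0 → b = z1 ∨ b = z2)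
    (h1 : 0 < J u z1) (h2 : 0 < J u z2) {t : ℝ}
    (ht : Real.tanh t = Real.tanh (J u z1) * Real.tanh (J u z2)) (σ : V → Bool) :
    Sw J u σ = Real.cosh (J u z1) * Real.cosh (J u z2) * (W (off J u) σ *
      (1 + Real.tanh (J u z1) * Real.tanh (J u z2) * (sp z1 σ * sp z2 σ))) ∧
    W (setc (off J u) z1 z2 (off J u z1 z2 + t)) σ = Real.cosh t * (W (off J u) σ *
      (1 + Real.tanh (J u z1) * Real.tanh (J u z2) * (sp z1 σ * sp z2 σ))) ∧
    Fw J u σ = Real.cosh (J u z1) * Real.cosh (J u z2) * (W (off J u) σ *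
      (1 + Real.tanh (J u z1) * Real.tanh (J u z2) * (sp z1 σ * sp z2 σ)) *
      (1 + (Real.tanh (J u z1) * (1 - Real.tanh (J u z2) ^ 2) /
          (1 - (Real.tanh (J u z1) * Real.tanh (J u z2)) ^ 2) * sp z1 σ +
        Real.tanh (J u z2) * (1 - Real.tanh (J u z1) ^ 2) /
          (1 - (Real.tanh (J u z1) * Real.tanh (J u z2)) ^ 2) * sp z2 σ))) := by
  refine ⟨?_, ?_, ?_⟩
  · unfold Sw
    rw [Virt_fld_two h12 hu, cosh_two _ _ _ _ (Virt_sp z1 σ) (Virt_sp z2 σ)]
    ring
  · rw [W_setc (coup_off hJ u) h12, add_sub_cancel_left, ← ht]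
    have h3 : sp z1 σ * sp z2 σ = 1 ∨ sp z1 σ * sp z2 σ = -1 := by
      rcases Virt_sp z1 σ with h | h <;> rcases Virt_sp z2 σ with h' | h' <;> rw [h, h'] <;> simp
    rw [exp_one _ _ h3]
    ring
  · unfold Fw
    rw [Virt_fld_two h12 hu, exp_two h1 h2 _ _ (Virt_sp z1 σ) (Virt_sp z2 σ)]
    generalize Real.tanh (J u z1) * (1 - Real.tanh (J u z2) ^ 2) /
          (1 - (Real.tanh (J u z1) * Real.tanh (J u z2)) ^ 2) = c1
    generalize Real.tanh (J u z2) * (1 - Real.tanh (J u z1) ^ 2) /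
          (1 - (Real.tanh (J u z1) * Real.tanh (J u z2)) ^ 2) = c2
    ring

end Pool.Agent.Lib.MP_f82811_pr.TC
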