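import Pool.Agent.Lib.MP_f82811_pr.TC.Rchm
import Pool.Agent.Lib.MP_f82811_pr.TC.Virt

/-!
# Module Part: the two sides of an edge of a triangle in a cactus

`J` are the couplings with the edge `k l` (`J k l ≠ 0`), `setc J k l 0` without it.
`cac_short`: let `J k a ≠ 0`, `J l b ≠ 0`, `a ≠ l`, `b ≠ k`, `a` reachable from `b` outside `k, l`, and `m` a
common neighbour. If `a ≠ m`: at `k` the neighbours `a, m, l` are mutually reachable outside `k` (`a` to `b`
to `l`, `m` to `l`), contradiction with `Cac`. So `a = m`, and symmetrically `b = m`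
(neighbours `b, m, k` of `l`). So every pair `a, b` as above is equal.
`short_bridge`: a path from `k` to `l` in `setc J k l 0`: `rch_last` at `k` gives a neighbour `a` of `k`, and
`rch_last` (reversed, `rch_symm`) at `l` a neighbour `b` of `l`, reachable from each other outside `k, l`; so
`a = b` is a common neighbour.
`part`: `P = {z ≠ k, l : ∀ b, Rch J {k, l} z b → b ≠ k → b ≠ l → J l b ≤ J k b}` and `N` the other vertices
different from `k, l`. No coupling between `P` and `N` (a coupled pair is mutually reachable). If `z ∈ N` there is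
`b` with `J k b < J l b`; if `J k z ≠ 0` then `z = b` by `hsh`, otherwise `J k z = 0 ≤ J l z`.
`bridge_k`, `bridge_l`: `rch_last`: a path from `k` to `m` without the edge `k m` and without `k l` gives a neighbour `a ≠ m, l` of
`k` with `Rch J {k} a m`; and `J m l ≠ 0`: three neighbours `a, m, l` of `k`.
`unique_common`: neighbours `l, m, m'` of `k`.
-/

set_option autoImplicit false

namespace Pool.Agent.Lib.MP_f82811_pr.TC

open Finset HT

variable {V : Type*} [Fintype V] [DecidableEq V] {J : V → V → ℝ}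

private theorem Part_zero {k l a b : V} (h : setc J k l 0 a b ≠ 0) :
    J a b ≠ 0 ∧ ¬ (a = k ∧ b = l) ∧ ¬ (a = l ∧ b = k) := by
  unfold setc at h
  by_cases hc : (a = k ∧ b = l) ∨ (a = l ∧ b = k)
  · rw [if_pos hc] at h
    exact absurd rfl h
  · rw [if_neg hc] at h
    exact ⟨h, fun h1 => hc (Or.inl h1), fun h1 => hc (Or.inr h1)⟩

private theorem Part_ne (hJ : Coup J) {a b : V} (h : J a b ≠ 0) : a ≠ b := by
  rintro rfl
  exact h (hJ.diag a)

private theorem Part_sy (hJ : Coup J) {a b : V} (h : J a b ≠ 0) : J b a ≠ 0 := by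
  rw [hJ.symm]
  exact h

theorem cac_short (hJ : Coup J) {k l m : V} (hkl : J k l ≠ 0) (hC : Cac J k) (hkm : J k m ≠ 0)
    (hlm : J l m ≠ 0) : Sh J k l := by
  intro a b ha hb hal hbk hab
  have hkl' : k ≠ l := Part_ne hJ hkl
  have hkm' : k ≠ m := Part_ne hJ hkm
  have hlm' : l ≠ m := Part_ne hJ hlm
  have hCl : Cac J l := Cac.adj hJ hkl hC
  have h1 : a = m := by
    by_contra ham
    refine hC k a l m Relation.ReflTransGen.refl ha hkl hkm hal hlm' ham ?_ ?_
    · exact (rch_mono (fun _ _ h => h) (by simp) hab).trans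
        (rch_edge (Part_sy hJ hb) (by simpa using hbk) (by simpa using hkl'.symm))
    · exact rch_edge hlm (by simpa using hkl'.symm) (by simpa using hkm'.symm)
  have h2 : b = m := by
    by_contra hbm
    refine hCl l b k m Relation.ReflTransGen.refl hb (Part_sy hJ hkl) hlm hbk hkm' hbm ?_ ?_
    · exact (rch_symm hJ (rch_mono (fun _ _ h => h) (by simp) hab)).trans
        (rch_edge (Part_sy hJ ha) (by simpa using hal) (by simpa using hkl'))
    · exact rch_edge hkm (by simpa using hkl') (by simpa using hlm'.symm)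
  rw [h1, h2]

/-- A short pair without a common neighbour is a bridge. -/
theorem short_bridge (hJ : Coup J) {k l : V} (hkl : k ≠ l) (hsh : Sh J k l)
    (hno : ∀ m, J k m ≠ 0 → J l m ≠ 0 → False) : ¬ Rch (setc J k l 0) ∅ k l := by
  intro h
  have hJ' : Coup (setc J k l 0) := coup_setc hJ hkl le_rfl
  obtain ⟨y, hy1, _, hy2⟩ := rch_last hkl h
  obtain ⟨hy3, hy4, _⟩ := Part_zero hy1
  have hyl : y ≠ l := fun h1 => hy4 ⟨rfl, h1⟩
  obtain ⟨b, hb1, hb2, hb3⟩ := rch_last hyl.symm (rch_symm hJ' hy2)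
  obtain ⟨hb4, _, _⟩ := Part_zero hb1
  have hbk : b ≠ k := by
    rintro rfl
    exact hb2 (Finset.mem_insert_self _ _)
  have hyb : Rch J {k, l} y b := by
    refine rch_symm hJ (rch_mono (fun _ _ h => (Part_zero h).1) ?_ hb3)
    intro v hv
    simp only [Finset.mem_insert, Finset.mem_singleton] at hv ⊢
    tauto
  have hyb' : y = b := hsh y b hy3 hb4 hyl hbk hyb
  rw [← hyb'] at hb4
  exact hno y hy3 hb4

/-- The two sides. -/
theorem part (hJ : Coup J) {k l : V} (hkl : k ≠ l) (h0 : J k l = 0) (hsh : Sh J k l) :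
    ∃ P N : Finset V, Disjoint P N ∧ k ∉ P ∧ l ∉ P ∧ k ∉ N ∧ l ∉ N ∧
      (∀ v, v ≠ k → v ≠ l → v ∈ P ∪ N) ∧ (∀ p ∈ P, ∀ n ∈ N, J p n = 0) ∧
      (∀ p ∈ P, J l p ≤ J k p) ∧ (∀ n ∈ N, J k n ≤ J l n) := by
  classical
  have hP : ∀ v, v ∈ Finset.univ.filter (fun z => z ≠ k ∧ z ≠ l ∧
      ∀ b, Rch J {k, l} z b → b ≠ k → b ≠ l → J l b ≤ J k b) ↔ (v ≠ k ∧ v ≠ l ∧
      ∀ b, Rch J {k, l} v b → b ≠ k → b ≠ l → J l b ≤ J k b) := by
    intro v
    simp
  have hN : ∀ v, v ∈ Finset.univ.filter (fun z => z ≠ k ∧ z ≠ l ∧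
      ¬ ∀ b, Rch J {k, l} z b → b ≠ k → b ≠ l → J l b ≤ J k b) ↔ (v ≠ k ∧ v ≠ l ∧
      ¬ ∀ b, Rch J {k, l} v b → b ≠ k → b ≠ l → J l b ≤ J k b) := by
    intro v
    rw [Finset.mem_filter]
    simp only [Finset.mem_univ, true_and]
  refine ⟨Finset.univ.filter (fun z => z ≠ k ∧ z ≠ l ∧
      ∀ b, Rch J {k, l} z b → b ≠ k → b ≠ l → J l b ≤ J k b),
    Finset.univ.filter (fun z => z ≠ k ∧ z ≠ l ∧
      ¬ ∀ b, Rch J {k, l} z b → b ≠ k → b ≠ l → J l b ≤ J k b), ?_, ?_, ?_, ?_, ?_, ?_, ?_, ?_, ?_⟩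
  · rw [Finset.disjoint_left]
    intro v hv hv'
    rw [hP] at hv
    rw [hN] at hv'
    exact hv'.2.2 hv.2.2
  · rw [hP]
    exact fun h => h.1 rfl
  · rw [hP]
    exact fun h => h.2.1 rfl
  · rw [hN]
    exact fun h => h.1 rfl
  · rw [hN]
    exact fun h => h.2.1 rfl
  · intro v h1 h2
    rw [Finset.mem_union, hP, hN]
    by_cases h3 : ∀ b, Rch J {k, l} v b → b ≠ k → b ≠ l → J l b ≤ J k b
    · exact Or.inl ⟨h1, h2, h3⟩
    · exact Or.inr ⟨h1, h2, h3⟩
  · intro p hp n hn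
    rw [hP] at hp
    rw [hN] at hn
    by_contra hpn
    refine hn.2.2 (fun b hb hbk hbl => hp.2.2 b ?_ hbk hbl)
    refine Relation.ReflTransGen.trans (rch_edge hpn ?_ ?_) hb
    · simp only [Finset.mem_insert, Finset.mem_singleton, not_or]
      exact ⟨hp.1, hp.2.1⟩
    · simp only [Finset.mem_insert, Finset.mem_singleton, not_or]
      exact ⟨hn.1, hn.2.1⟩
  · intro p hp
    rw [hP] at hp
    exact hp.2.2 p Relation.ReflTransGen.refl hp.1 hp.2.1
  · intro n hn
    rw [hN] at hn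
    obtain ⟨hnk, hnl, hn3⟩ := hn
    push Not at hn3
    obtain ⟨b, hb, hbk, hbl, hlt⟩ := hn3
    by_cases hkn : J k n = 0
    · rw [hkn]
      exact hJ.nonneg l n
    · have hlb : J l b ≠ 0 := (lt_of_le_of_lt (hJ.nonneg k b) hlt).ne'
      have hnb : n = b := hsh n b hkn hlb hnl hbk hb
      rw [hnb]
      exact hlt.le

theorem unique_common (hJ : Coup J) {k l m m' : V} (hkl : J k l ≠ 0) (hC : Cac J k)
    (hkm : J k m ≠ 0) (hlm : J l m ≠ 0) (hkm' : J k m' ≠ 0) (hlm' : J l m' ≠ 0) : m = m' := by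
  by_contra hmm
  have h1 : k ≠ l := Part_ne hJ hkl
  have h2 : k ≠ m := Part_ne hJ hkm
  have h3 : k ≠ m' := Part_ne hJ hkm'
  exact hC k m l m' Relation.ReflTransGen.refl hkm hkl hkm' (Part_ne hJ hlm).symm
    (Part_ne hJ hlm') hmm
    (rch_edge (Part_sy hJ hlm) (by simpa using h2.symm) (by simpa using h1.symm))
    (rch_edge hlm' (by simpa using h1.symm) (by simpa using h3.symm))

theorem bridge_k (hJ : Coup J) {k l m : V} (hkl : J k l ≠ 0) (hC : Cac J k) (hkm : J k m ≠ 0)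
    (hlm : J l m ≠ 0) : ¬ Rch (setc (setc J k l 0) k m 0) ∅ k m := by
  intro h
  have h1 : k ≠ l := Part_ne hJ hkl
  have h2 : k ≠ m := Part_ne hJ hkm
  obtain ⟨a, ha1, _, ha2⟩ := rch_last h2 h
  obtain ⟨ha3, ha4, _⟩ := Part_zero ha1
  obtain ⟨ha5, ha6, _⟩ := Part_zero ha3
  have ham : a ≠ m := fun h3 => ha4 ⟨rfl, h3⟩
  have hal : a ≠ l := fun h3 => ha6 ⟨rfl, h3⟩
  refine hC k a m l Relation.ReflTransGen.refl ha5 hkm hkl ham (Part_ne hJ hlm).symm hal ?_ ?_
  · refine rch_mono (fun _ _ h => (Part_zero (Part_zero h).1).1) ?_ ha2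
    intro v hv
    rw [Finset.mem_singleton] at hv
    rw [hv]
    exact Finset.mem_insert_self _ _
  · exact rch_edge (Part_sy hJ hlm) (by simpa using h2.symm) (by simpa using h1.symm)

theorem bridge_l (hJ : Coup J) {k l m : V} (hkl : J k l ≠ 0) (hC : Cac J k) (hkm : J k m ≠ 0)
    (hlm : J l m ≠ 0) (s : ℝ) : ¬ Rch (setc (setc (setc J k l 0) k m s) l m 0) ∅ l m := by
  intro h
  have h1 : k ≠ l := Part_ne hJ hkl
  have h2 : k ≠ m := Part_ne hJ hkm
  have h3 : l ≠ m := Part_ne hJ hlm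
  have key : ∀ a b, setc (setc (setc J k l 0) k m s) l m 0 a b ≠ 0 →
      J a b ≠ 0 ∧ ¬ (a = l ∧ b = m) ∧ ¬ (a = l ∧ b = k) := by
    intro a b hab
    obtain ⟨hab1, hab2, _⟩ := Part_zero hab
    unfold setc at hab1
    by_cases hc : (a = k ∧ b = m) ∨ (a = m ∧ b = k)
    · refine ⟨?_, hab2, ?_⟩
      · rcases hc with ⟨h4, h5⟩ | ⟨h4, h5⟩
        · rw [h4, h5]; exact hkm
        · rw [h4, h5]; exact Part_sy hJ hkm
      · rintro ⟨h4, h5⟩
        rcases hc with ⟨h6, _⟩ | ⟨h6, _⟩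
        · exact h1 (h6.symm.trans h4)
        · exact h3 (h4.symm.trans h6)
    · rw [if_neg hc] at hab1
      by_cases hd : (a = k ∧ b = l) ∨ (a = l ∧ b = k)
      · rw [if_pos hd] at hab1
        exact absurd rfl hab1
      · rw [if_neg hd] at hab1
        exact ⟨hab1, hab2, fun h4 => hd (Or.inr h4)⟩
  obtain ⟨a, ha1, _, ha2⟩ := rch_last h3 h
  obtain ⟨ha3, ha4, ha5⟩ := key l a ha1
  have ham : a ≠ m := fun h4 => ha4 ⟨rfl, h4⟩
  have hak : a ≠ k := fun h4 => ha5 ⟨rfl, h4⟩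
  refine Cac.adj hJ hkl hC l a m k Relation.ReflTransGen.refl ha3 hlm (Part_sy hJ hkl) ham
    h2.symm hak ?_ ?_
  · refine rch_mono (fun a b h => (key a b h).1) ?_ ha2
    intro v hv
    rw [Finset.mem_singleton] at hv
    rw [hv]
    exact Finset.mem_insert_self _ _
  · exact rch_edge (Part_sy hJ hkm) (by simpa using h3.symm) (by simpa using h1)

end Pool.Agent.Lib.MP_f82811_pr.TC
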