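import Pool.Agent.Lib.MP_f82811_pr.TC.Tensor

/-!
# Module Prod: product laws

Proof. `c = (∑ b) / 2 ^ |V| > 0`, `f = avg P b v` is monotone, depends on `P`, `0 ≤ tot a f` (`tot_avg`).
`am (a b) v v` is the sum over the sites in `P` and in `N` (the other sites give zero, `D_of_dep`):
`≥ c * am a f f + lam * (ip (a b) v v - c * ip a f f)` (`am_avg`, `var_avg`). Furthermore
`∑ a σ b σ (sy v σ) ^ 2 ≥ c * ∑ a σ (max (sy f σ) 0) ^ 2`: by the involution of `sum_mix` type the left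
hand side is `2 ^ (-|V|) * ∑_σ a σ ∑_τ b τ (sy v (mix P σ τ)) ^ 2`; Cauchy-Schwarz in `τ`; and
`(∑_τ b τ * sy v (mix P σ τ)) / ∑ b = (f σ + B σ) / 2` with `B σ = (∑_τ b τ * v (mix P (neg σ) (neg τ))) / ∑ b ≥
f (neg σ)` by `hb` applied to the monotone function `τ ↦ v (mix P (neg σ) τ)`; so the mean is at least `sy f σ`, and
`x ≥ y` gives `x ^ 2 ≥ (max y 0) ^ 2` if `y ≥ 0` (otherwise trivial). Add up and use `hP0` for `f`.
-/

set_option autoImplicit false

namespace Pool.Agent.Lib.MP_f82811_pr.TC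

open Finset HT

variable {V : Type*} [Fintype V] [DecidableEq V] {a b : (V → Bool) → ℝ} {P N : Finset V}

omit [Fintype V] in
private theorem Prod_neg_mix (P : Finset V) (σ τ : V → Bool) :
    neg (mix P σ τ) = mix P (neg σ) (neg τ) := by
  funext i
  unfold neg mix
  by_cases h : i ∈ P <;> simp [h]

omit [Fintype V] in
private theorem Prod_mix_mono (P : Finset V) (σ : V → Bool) {τ τ' : V → Bool} (h : τ ≤ τ') :
    mix P σ τ ≤ mix P σ τ' := by
  intro i
  unfold mix
  by_cases hi : i ∈ P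
  · simp [hi]
  · simpa [hi] using h i

/-- Jensen. -/
private theorem Prod_jensen (hbp : ∀ σ, 0 < b σ) (h : (V → Bool) → ℝ) (σ : V → Bool) :
    avg P b h σ ^ 2 ≤ avg P b (fun σ => h σ ^ 2) σ := by
  have hB : 0 < ∑ τ, b τ := Finset.sum_pos (fun σ _ => hbp σ) Finset.univ_nonempty
  set m := avg P b h σ with hm
  have h1 : (∑ τ, b τ * h (mix P σ τ)) = m * ∑ τ, b τ := by
    rw [hm]
    unfold avg
    rw [div_mul_cancel₀ _ hB.ne']
  have h2 : 0 ≤ ∑ τ, b τ * (h (mix P σ τ) - m) ^ 2 :=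
    Finset.sum_nonneg fun τ _ => mul_nonneg (hbp τ).le (sq_nonneg _)
  have h3 : ∑ τ, b τ * (h (mix P σ τ) - m) ^ 2 = ∑ τ, b τ * h (mix P σ τ) ^ 2 -
      2 * m * (∑ τ, b τ * h (mix P σ τ)) + m ^ 2 * ∑ τ, b τ := by
    rw [Finset.mul_sum, Finset.mul_sum, ← Finset.sum_sub_distrib, ← Finset.sum_add_distrib]
    exact Finset.sum_congr rfl fun τ _ => by ring
  rw [h3, h1] at h2
  unfold avg
  rw [le_div_iff₀ hB]
  nlinarith

theorem prod_case (ha : Dep P a) (hap : ∀ σ, 0 < a σ) (hbN : Dep N b) (hbp : ∀ σ, 0 < b σ)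
    (hd : Disjoint P N) {lam : ℝ} (hlam : 0 ≤ lam)
    (hP0 : ∀ f : (V → Bool) → ℝ, Monotone f → Dep P f → 0 ≤ tot a f →
      lam * ip a f f ≤ am a f f + ∑ σ, a σ * (max (sy f σ) 0) ^ 2)
    (hfrz : FrzR b N lam)
    (hb : ∀ f : (V → Bool) → ℝ, Monotone f → tot b f ≤ tot (fun σ => b (neg σ)) f)
    {v : (V → Bool) → ℝ} (hv : Monotone v) (hvd : Dep (P ∪ N) v)
    (hv0 : 0 ≤ tot (fun σ => a σ * b σ) v) :
    0 ≤ am (fun σ => a σ * b σ) v v + ∑ σ, a σ * b σ * sy v σ ^ 2 -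
      lam * ip (fun σ => a σ * b σ) v v := by
  have _ := hlam
  have hB : 0 < ∑ τ, b τ := Finset.sum_pos (fun σ _ => hbp σ) Finset.univ_nonempty
  set c : ℝ := (∑ σ, b σ) / 2 ^ Fintype.card V with hc
  have hc0 : 0 < c := div_pos hB (by positivity)
  set f := avg P b v with hf
  have hfm : Monotone f := mono_avg hbp hv
  have hfd : Dep P f := dep_avg hbp v
  have ht : tot (fun σ => a σ * b σ) v = c * tot a f := tot_avg ha hbN hbp hd v
  have hft : 0 ≤ tot a f := by
    rw [ht] at hv0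
    exact nonneg_of_mul_nonneg_right hv0 hc0
  have h1 := hP0 f hfm hfd hft
  have h2 := am_avg ha hap hbN hbp hd v
  have h3 := var_avg ha hap hbN hbp hd hfrz hvd
  rw [← hc, ← hf] at h2 h3
  -- the sites
  have h4 : am (fun σ => a σ * b σ) v v =
      ∑ u ∈ P, ∑ σ, a σ * b σ * (D u v σ * D u v σ) +
        ∑ u ∈ N, ∑ σ, a σ * b σ * (D u v σ * D u v σ) := by
    rw [← Finset.sum_union hd]
    unfold am
    symm
    refine Finset.sum_subset (Finset.subset_univ _) fun u _ hu => ?_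
    refine Finset.sum_eq_zero fun σ _ => ?_
    rw [D_of_dep hvd hu]
    ring
  -- the even part
  have h5 : ∀ σ, (max (sy f σ) 0) ^ 2 ≤ avg P b (fun σ => sy v σ ^ 2) σ := by
    intro σ
    refine le_trans ?_ (Prod_jensen hbp (sy v) σ)
    have h6 : sy f σ ≤ avg P b (sy v) σ := by
      have e1 : avg P b (sy v) σ = (f σ +
          (∑ τ, b (neg τ) * v (mix P (neg σ) τ)) / ∑ τ, b τ) / 2 := by
        rw [hf]
        unfold avg
        have e2 : ∑ τ, b (neg τ) * v (mix P (neg σ) τ) =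
            ∑ τ, b τ * v (mix P (neg σ) (neg τ)) := by
          rw [← sum_neg (fun τ => b (neg τ) * v (mix P (neg σ) τ))]
          exact Finset.sum_congr rfl fun τ _ => by simp only [neg_neg']
        have e6 : ∑ τ, b τ * sy v (mix P σ τ) = (∑ τ, b τ * v (mix P σ τ) +
            ∑ τ, b τ * v (mix P (neg σ) (neg τ))) / 2 := by
          rw [← Finset.sum_add_distrib, Finset.sum_div]
          refine Finset.sum_congr rfl fun τ _ => ?_
          unfold sy
          rw [Prod_neg_mix]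
          ring
        rw [e2, e6]
        ring
      have e3 := hb (fun τ => v (mix P (neg σ) τ))
        (fun τ τ' h => hv (Prod_mix_mono P (neg σ) h))
      have e4 : f (neg σ) = tot b (fun τ => v (mix P (neg σ) τ)) / ∑ τ, b τ := rfl
      have e5 : f (neg σ) ≤ (∑ τ, b (neg τ) * v (mix P (neg σ) τ)) / ∑ τ, b τ := by
        rw [e4]
        exact div_le_div_of_nonneg_right e3 hB.le
      rw [e1]
      unfold sy
      linarith
    by_cases hs : 0 ≤ sy f σ
    · rw [max_eq_left hs]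
      exact pow_le_pow_left₀ hs h6 2
    · rw [max_eq_right (not_le.1 hs).le]
      simp only [ne_eq, OfNat.ofNat_ne_zero, not_false_eq_true, zero_pow]
      exact sq_nonneg _
  have h7 : c * ∑ σ, a σ * (max (sy f σ) 0) ^ 2 ≤ ∑ σ, a σ * b σ * sy v σ ^ 2 := by
    have e1 : ∑ σ, a σ * b σ * sy v σ ^ 2 = c * tot a (avg P b (fun σ => sy v σ ^ 2)) :=
      tot_avg ha hbN hbp hd (fun σ => sy v σ ^ 2)
    rw [e1]
    refine mul_le_mul_of_nonneg_left ?_ hc0.le
    unfold tot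
    exact Finset.sum_le_sum fun σ _ => mul_le_mul_of_nonneg_left (h5 σ) (hap σ).le
  have h8 := mul_le_mul_of_nonneg_left h1 hc0.le
  rw [h4]
  nlinarith

end Pool.Agent.Lib.MP_f82811_pr.TC
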