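import Pool.Agent.Lib.MP_f82811_pr.TC.Ground
import Pool.Agent.Lib.MP_f82811_pr.TC.Virt

/-!
# Module Step: from the derivative at zero to monotonicity in one coupling

Proof. `W (setc J k l r) σ = W J σ * exp (r * χ σ)`, `χ = sp k * sp l = ±1`, `J k l = 0` (`W_setc`), and
`exp (r χ) = cosh r + sinh r * χ`. Take `lam0, g` from `exists_ground` for `W J`. `hA` gives
`∑ W J σ * χ σ * (∑ v, D v g σ * D v g σ - lam0 * (g σ * g σ)) = 0 - 2 * (sum over σ k ≠ σ l) ≤ 0`, so
`qf lam0 (W (setc J k l t)) g g ≤ 0`. If `lam0 < lam` then `qf lam (..) g g < 0` (`ip > 0`),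
contradiction with the hypothesis; so `lam ≤ lam0` and `OddR (W J) univ lam`. For `0 ≤ s ≤ t`,
`0 < t`: `exp (s χ) = α * 1 + β * exp (t χ)` with `β = sinh s / sinh t`,
`α = sinh (t - s) / sinh t ≥ 0` (both signs of `χ`), so `qf_weight`.
-/

set_option autoImplicit false

namespace Pool.Agent.Lib.MP_f82811_pr.TC

open Finset HT

variable {V : Type*} [Fintype V] [DecidableEq V] {J : V → V → ℝ}

private theorem step_qf_sum (lam : ℝ) (w f : (V → Bool) → ℝ) :
    qf lam w f f = ∑ σ, w σ * ((∑ v, D v f σ * D v f σ) - lam * (f σ * f σ)) := by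
  unfold qf am ip
  rw [Finset.sum_comm, Finset.mul_sum, ← Finset.sum_sub_distrib]
  refine Finset.sum_congr rfl fun σ _ => ?_
  rw [mul_sub, Finset.mul_sum]
  ring

private theorem step_qf_lam (lam lam' : ℝ) (w f : (V → Bool) → ℝ) :
    qf lam w f f = qf lam' w f f + (lam' - lam) * ip w f f := by
  unfold qf
  ring

private theorem step_ip_nonneg {w : (V → Bool) → ℝ} (hw : ∀ σ, 0 < w σ) (f : (V → Bool) → ℝ) :
    0 ≤ ip w f f :=
  Finset.sum_nonneg fun σ _ => mul_nonneg (hw σ).le (mul_self_nonneg _)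

private theorem step_ip_pos {w u : (V → Bool) → ℝ} (hw : ∀ σ, 0 < w σ) {f : (V → Bool) → ℝ}
    (hf : ip u f f = 1) : 0 < ip w f f := by
  rcases (step_ip_nonneg hw f).eq_or_lt with h | h
  · exfalso
    have h1 : ∀ σ ∈ Finset.univ, w σ * (f σ * f σ) = 0 :=
      (Finset.sum_eq_zero_iff_of_nonneg
        (fun σ _ => mul_nonneg (hw σ).le (mul_self_nonneg _))).1 h.symm
    have h2 : ip u f f = 0 := by
      unfold ip
      refine Finset.sum_eq_zero fun σ hσ => ?_
      have h3 : f σ * f σ = 0 := (mul_eq_zero.1 (h1 σ hσ)).resolve_left (hw σ).ne'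
      rw [h3, mul_zero]
    rw [hf] at h2
    exact one_ne_zero h2
  · exact h

private theorem step_chi (k l : V) (σ : V → Bool) :
    sp k σ * sp l σ = if σ k = σ l then 1 else -1 := by
  unfold sp
  cases σ k <;> cases σ l <;> simp [spin]

theorem edge_step (hJ : Coup J) {k l : V} (hkl : k ≠ l) (h0 : J k l = 0)
    (hA : ∀ (lam0 : ℝ) (g : (V → Bool) → ℝ), 0 ≤ lam0 → Odd' g → Monotone g →
      OddR (W J) Finset.univ lam0 → qf lam0 (W J) g g = 0 →
      0 ≤ ∑ σ, (if σ k = σ l then 0 else W J σ) *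
        ((∑ v, D v g σ * D v g σ) - lam0 * (g σ * g σ)))
    {s t lam : ℝ} (hs : 0 ≤ s) (hst : s ≤ t)
    (h : OddR (W (setc J k l t)) Finset.univ lam) :
    OddR (W (setc J k l s)) Finset.univ lam := by
  have hne : Nonempty V := ⟨k⟩
  obtain ⟨lam0, g, hlam0, hodd, hmono, hip, hq, hR⟩ := exists_ground (fkg_W hJ) (even_W J)
  have hA' := hA lam0 g hlam0 hodd hmono hR hq
  have ht : 0 ≤ t := hs.trans hst
  have hWt : ∀ (t : ℝ) (σ : V → Bool), W (setc J k l t) σ =
      W J σ * Real.exp (t * (sp k σ * sp l σ)) := fun t σ => by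
    rw [W_setc hJ hkl t σ, h0, sub_zero]
  have hWpos : ∀ σ, 0 < W J σ := (fkg_W hJ).pos
  have hWtpos : ∀ (t : ℝ) (σ : V → Bool), 0 < W (setc J k l t) σ := fun t σ => by
    rw [hWt]
    exact mul_pos (hWpos σ) (Real.exp_pos _)
  -- the form at `t` is not positive
  have hqt : qf lam0 (W (setc J k l t)) g g ≤ 0 := by
    have e1 : qf lam0 (W (setc J k l t)) g g = Real.exp t * qf lam0 (W J) g g -
        (Real.exp t - Real.exp (-t)) * ∑ σ, (if σ k = σ l then 0 else W J σ) *
        ((∑ v, D v g σ * D v g σ) - lam0 * (g σ * g σ)) := by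
      rw [step_qf_sum, step_qf_sum, Finset.mul_sum, Finset.mul_sum, ← Finset.sum_sub_distrib]
      refine Finset.sum_congr rfl fun σ _ => ?_
      rw [hWt, step_chi]
      split_ifs with hσ
      · rw [mul_one]
        ring
      · rw [mul_neg, mul_one]
        ring
    rw [e1, hq, mul_zero, zero_sub, neg_nonpos]
    refine mul_nonneg ?_ hA'
    have : Real.exp (-t) ≤ Real.exp t := Real.exp_le_exp.2 (by linarith)
    linarith
  have hlam : lam ≤ lam0 := by
    by_contra hlt
    rw [not_le] at hlt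
    have h1 := h g hodd (fun σ τ hst => by
      have : σ = τ := funext fun v => hst v (Finset.mem_univ v)
      rw [this])
    rw [step_qf_lam lam lam0] at h1
    have h2 : 0 < ip (W (setc J k l t)) g g := step_ip_pos (hWtpos t) hip
    have h3 : (lam0 - lam) * ip (W (setc J k l t)) g g < 0 :=
      mul_neg_of_neg_of_pos (by linarith) h2
    linarith
  have hR0 : OddR (W J) Finset.univ lam := by
    intro f hf hd
    rw [step_qf_lam lam lam0]
    exact add_nonneg (hR f hf hd) (mul_nonneg (by linarith) (step_ip_nonneg hWpos f))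
  rcases ht.eq_or_lt with ht0 | htpos
  · have e : s = t := le_antisymm hst (ht0 ▸ hs)
    rw [e]
    exact h
  have hsinh : 0 < Real.sinh (t - 0) := Real.sinh_pos_iff.2 (sub_pos.2 htpos)
  have hα : 0 ≤ Real.sinh (t - s) / Real.sinh (t - 0) :=
    div_nonneg (Real.sinh_nonneg_iff.2 (sub_nonneg.2 hst)) hsinh.le
  have hβ : 0 ≤ Real.sinh (s - 0) / Real.sinh (t - 0) :=
    div_nonneg (Real.sinh_nonneg_iff.2 (by linarith)) hsinh.le
  have hw : W (setc J k l s) = fun σ => Real.sinh (t - s) / Real.sinh (t - 0) * W J σ +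
      Real.sinh (s - 0) / Real.sinh (t - 0) * W (setc J k l t) σ := by
    funext σ
    have hsq : sp k σ * sp l σ = 1 ∨ sp k σ * sp l σ = -1 := by
      rw [step_chi]
      split_ifs
      · exact Or.inl rfl
      · exact Or.inr rfl
    rw [hWt, hWt, exp_combination htpos hsq (y := s), zero_mul, Real.exp_zero]
    ring
  intro f hf hd
  rw [hw, qf_weight]
  exact add_nonneg (mul_nonneg hα (hR0 f hf hd)) (mul_nonneg hβ (h f hf hd))

end Pool.Agent.Lib.MP_f82811_pr.TC
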