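import Pool.Agent.Lib.MP_f82811_pr.TC.Alg

/-!
# Module Tensor: products

`a` depends on `C`, `b` on `D`, `C` and `D` are disjoint, both positive. `avg C b f` is the average over
the spins outside `C` with the weight `b`. With `n = 2 ^ |V|` and `c = (∑ b) / n`:
`∑ σ, a σ * b σ * f σ = c * ∑ σ, a σ * avg C b f σ` for every `f` (involution
`(σ, τ) ↦ (mix C σ τ, mix C τ σ)`; `a (mix C σ τ) = a σ`, `b (mix C σ τ) = b τ`).
Sites in `C`: `D v (avg C b f) σ` is the average of `τ ↦ D v f (mix C σ τ)`, Cauchy-Schwarz.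
Sites in `D`: for fixed `σ` the function `τ ↦ f (mix C σ τ)`, `f` depending on `C ∪ D`, depends on `D`;
subtract its mean and use `FrzR b D lam`; sum over `σ` with the weight `a σ`.
`tensor`: `tot (a b) f = 0` gives `tot a (avg C b f) = 0`, add the two estimates.
-/

set_option autoImplicit false

namespace Pool.Agent.Lib.MP_f82811_pr.TC

open Finset HT

variable {V : Type*} [Fintype V] [DecidableEq V] {a b : (V → Bool) → ℝ} {C D' : Finset V}

omit [Fintype V] in
theorem Tensor_mix_mix (C : Finset V) (σ τ : V → Bool) :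
    mix C (mix C σ τ) (mix C τ σ) = σ := by
  funext v
  unfold mix
  by_cases h : v ∈ C
  · simp [h]
  · simp [h]

omit [Fintype V] in
theorem Tensor_mix_update_in {C : Finset V} {v : V} (hv : v ∈ C) (σ τ : V → Bool) (c : Bool) :
    mix C (Function.update σ v c) τ = Function.update (mix C σ τ) v c := by
  funext u
  by_cases hu : u = v
  · subst hu
    simp [mix, hv]
  · rw [Function.update_of_ne hu]
    unfold mix
    rw [Function.update_of_ne hu]

omit [Fintype V] in
theorem Tensor_mix_update_out {C : Finset V} {v : V} (hv : v ∉ C) (σ τ : V → Bool) (c : Bool) :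
    mix C σ (Function.update τ v c) = Function.update (mix C σ τ) v c := by
  funext u
  by_cases hu : u = v
  · subst hu
    simp [mix, hv]
  · rw [Function.update_of_ne hu]
    unfold mix
    rw [Function.update_of_ne hu]

omit [Fintype V] in
theorem Tensor_mix_left {C : Finset V} (ha : Dep C a) (σ τ : V → Bool) :
    a (mix C σ τ) = a σ := by
  apply ha
  intro v hv
  simp [mix, hv]

omit [Fintype V] in
theorem Tensor_mix_right {C D' : Finset V} (hb : Dep D' b) (hd : Disjoint C D')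
    (σ τ : V → Bool) : b (mix C σ τ) = b τ := by
  apply hb
  intro v hv
  have hvC : v ∉ C := fun h => (Finset.disjoint_left.1 hd) h hv
  simp [mix, hvC]

/-- The exchange of the spins outside `C`. -/
theorem Tensor_sum_mix (C : Finset V) (F : (V → Bool) → ℝ) :
    ∑ σ : V → Bool, ∑ τ : V → Bool, F (mix C σ τ) =
      2 ^ Fintype.card V * ∑ σ : V → Bool, F σ := by
  have h1 : ∑ σ : V → Bool, ∑ τ : V → Bool, F (mix C σ τ) =
      ∑ p : (V → Bool) × (V → Bool), F (mix C p.1 p.2) :=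
    (Fintype.sum_prod_type (fun p : (V → Bool) × (V → Bool) => F (mix C p.1 p.2))).symm
  have h2 : ∑ p : (V → Bool) × (V → Bool), F (mix C p.1 p.2) =
      ∑ p : (V → Bool) × (V → Bool), F p.1 := by
    let e : (V → Bool) × (V → Bool) ≃ (V → Bool) × (V → Bool) :=
      { toFun := fun p => (mix C p.1 p.2, mix C p.2 p.1)
        invFun := fun p => (mix C p.1 p.2, mix C p.2 p.1)
        left_inv := fun p => Prod.ext (Tensor_mix_mix C p.1 p.2) (Tensor_mix_mix C p.2 p.1)
        right_inv := fun p => Prod.ext (Tensor_mix_mix C p.1 p.2) (Tensor_mix_mix C p.2 p.1) }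
    exact Equiv.sum_comp e (fun p => F p.1)
  have h3 : ∑ p : (V → Bool) × (V → Bool), F p.1 =
      ∑ σ : V → Bool, ∑ _τ : V → Bool, F σ :=
    Fintype.sum_prod_type (fun p : (V → Bool) × (V → Bool) => F p.1)
  rw [h1, h2, h3, mul_sum]
  refine sum_congr rfl fun σ _ => ?_
  rw [sum_const, nsmul_eq_mul]
  congr 1
  rw [card_univ, Fintype.card_fun, Fintype.card_bool]
  push_cast
  rfl

theorem Tensor_master (ha : Dep C a) (hb : Dep D' b) (hd : Disjoint C D')
    (g : (V → Bool) → ℝ) :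
    ∑ σ : V → Bool, ∑ τ : V → Bool, a σ * (b τ * g (mix C σ τ)) =
      2 ^ Fintype.card V * ∑ σ : V → Bool, a σ * b σ * g σ := by
  rw [← Tensor_sum_mix C (fun σ => a σ * b σ * g σ)]
  refine sum_congr rfl fun σ _ => sum_congr rfl fun τ _ => ?_
  rw [Tensor_mix_left ha, Tensor_mix_right hb hd]
  ring

omit [DecidableEq V] in
theorem Tensor_pow_pos : (0 : ℝ) < 2 ^ Fintype.card V := by positivity

theorem Tensor_B_pos (hbp : ∀ σ, 0 < b σ) : 0 < ∑ τ : V → Bool, b τ :=
  sum_pos (fun τ _ => hbp τ) univ_nonempty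

theorem dep_avg (hb : ∀ σ, 0 < b σ) (f : (V → Bool) → ℝ) : Dep C (avg C b f) := by
  intro σ σ' h
  have h1 : ∀ τ, mix C σ τ = mix C σ' τ := by
    intro τ
    funext v
    unfold mix
    by_cases hv : v ∈ C
    · rw [if_pos hv, if_pos hv, h v hv]
    · rw [if_neg hv, if_neg hv]
  unfold avg
  congr 1
  exact sum_congr rfl fun τ _ => by rw [h1 τ]

theorem mono_avg (hb : ∀ σ, 0 < b σ) {f : (V → Bool) → ℝ} (hf : Monotone f) :
    Monotone (avg C b f) := by
  intro σ σ' h
  unfold avg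
  apply div_le_div_of_nonneg_right _ (Tensor_B_pos hb).le
  refine sum_le_sum fun τ _ => mul_le_mul_of_nonneg_left (hf ?_) (hb τ).le
  intro v
  unfold mix
  by_cases hv : v ∈ C
  · rw [if_pos hv, if_pos hv]; exact h v
  · rw [if_neg hv, if_neg hv]

theorem Tensor_avg_mul (hb : ∀ σ, 0 < b σ) (f : (V → Bool) → ℝ) (σ : V → Bool) :
    (∑ τ, b τ) * avg C b f σ = ∑ τ, b τ * f (mix C σ τ) := by
  unfold avg
  rw [mul_div_cancel₀]
  exact (Tensor_B_pos hb).ne'

theorem tot_avg (ha : Dep C a) (hb : Dep D' b) (hbp : ∀ σ, 0 < b σ) (hd : Disjoint C D')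
    (f : (V → Bool) → ℝ) :
    tot (fun σ => a σ * b σ) f = (∑ σ, b σ) / 2 ^ Fintype.card V * tot a (avg C b f) := by
  have h := Tensor_master ha hb hd f
  have h1 : ∑ σ : V → Bool, ∑ τ : V → Bool, a σ * (b τ * f (mix C σ τ)) =
      (∑ σ, b σ) * tot a (avg C b f) := by
    unfold tot
    rw [mul_sum]
    refine sum_congr rfl fun σ _ => ?_
    rw [← mul_sum, ← Tensor_avg_mul hbp f σ]
    ring
  have hN := (Tensor_pow_pos (V := V)).ne'
  rw [h1] at h
  unfold tot at h ⊢
  rw [div_mul_eq_mul_div, eq_div_iff hN, h]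
  ring

theorem Tensor_D_avg (f : (V → Bool) → ℝ) {v : V} (hv : v ∈ C)
    (σ : V → Bool) : D v (avg C b f) σ = avg C b (D v f) σ := by
  unfold avg D
  rw [← sub_div, ← sum_sub_distrib, div_right_comm, sum_div]
  congr 1
  refine sum_congr rfl fun τ _ => ?_
  rw [Tensor_mix_update_in hv, Tensor_mix_update_in hv]
  ring

theorem Tensor_avg_sq (hb : ∀ σ, 0 < b σ) (g : (V → Bool) → ℝ) (σ : V → Bool) :
    (∑ τ, b τ) * (avg C b g σ * avg C b g σ) ≤
      ∑ τ, b τ * (g (mix C σ τ) * g (mix C σ τ)) := by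
  have h0 : 0 ≤ ∑ τ, b τ * ((g (mix C σ τ) - avg C b g σ) * (g (mix C σ τ) - avg C b g σ)) :=
    sum_nonneg fun τ _ => mul_nonneg (hb τ).le (mul_self_nonneg _)
  have h1 : ∑ τ, b τ * ((g (mix C σ τ) - avg C b g σ) * (g (mix C σ τ) - avg C b g σ)) =
      ∑ τ, b τ * (g (mix C σ τ) * g (mix C σ τ)) -
        2 * avg C b g σ * (∑ τ, b τ * g (mix C σ τ)) +
        (∑ τ, b τ) * (avg C b g σ * avg C b g σ) := by
    rw [mul_sum, sum_mul, ← sum_sub_distrib, ← sum_add_distrib]
    exact sum_congr rfl fun τ _ => by ring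
  rw [h1, ← Tensor_avg_mul hb g σ] at h0
  linarith

theorem am_avg (ha : Dep C a) (hap : ∀ σ, 0 < a σ) (hb : Dep D' b) (hbp : ∀ σ, 0 < b σ)
    (hd : Disjoint C D') (f : (V → Bool) → ℝ) :
    (∑ σ, b σ) / 2 ^ Fintype.card V * am a (avg C b f) (avg C b f) ≤
      ∑ v ∈ C, ∑ σ, a σ * b σ * (D v f σ * D v f σ) := by
  have hN := Tensor_pow_pos (V := V)
  have h1 : am a (avg C b f) (avg C b f) =
      ∑ v ∈ C, ∑ σ, a σ * (D v (avg C b f) σ * D v (avg C b f) σ) := by
    unfold am
    symm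
    apply sum_subset (subset_univ C)
    intro v _ hv
    refine sum_eq_zero fun σ _ => ?_
    rw [D_of_dep (dep_avg hbp f) hv σ]
    ring
  rw [h1, mul_sum]
  refine sum_le_sum fun v hv => ?_
  have h := Tensor_master ha hb hd (fun σ => D v f σ * D v f σ)
  have h2 : (∑ σ, b σ) * ∑ σ, a σ * (D v (avg C b f) σ * D v (avg C b f) σ) ≤
      ∑ σ : V → Bool, ∑ τ : V → Bool, a σ * (b τ * (D v f (mix C σ τ) * D v f (mix C σ τ))) := by
    rw [mul_sum]
    refine sum_le_sum fun σ _ => ?_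
    rw [← mul_sum, Tensor_D_avg f hv σ]
    have h3 := mul_le_mul_of_nonneg_left (Tensor_avg_sq (C := C) hbp (D v f) σ) (hap σ).le
    calc (∑ σ, b σ) * (a σ * (avg C b (D v f) σ * avg C b (D v f) σ))
        = a σ * ((∑ τ, b τ) * (avg C b (D v f) σ * avg C b (D v f) σ)) := by ring
      _ ≤ _ := h3
  rw [h] at h2
  rw [div_mul_eq_mul_div, div_le_iff₀ hN]
  calc _ ≤ _ := h2
    _ = _ := by ring

theorem var_avg (ha : Dep C a) (hap : ∀ σ, 0 < a σ) (hb : Dep D' b) (hbp : ∀ σ, 0 < b σ)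
    (hd : Disjoint C D') {lam : ℝ} (hfrz : FrzR b D' lam) {f : (V → Bool) → ℝ}
    (hf : Dep (C ∪ D') f) :
    lam * (ip (fun σ => a σ * b σ) f f -
        (∑ σ, b σ) / 2 ^ Fintype.card V * ip a (avg C b f) (avg C b f)) ≤
      ∑ v ∈ D', ∑ σ, a σ * b σ * (D v f σ * D v f σ) := by
  have hN := Tensor_pow_pos (V := V)
  -- one slice
  have key : ∀ σ : V → Bool,
      lam * (∑ τ, b τ * (f (mix C σ τ) * f (mix C σ τ)) -
        (∑ τ, b τ) * (avg C b f σ * avg C b f σ)) ≤
      ∑ v ∈ D', ∑ τ, b τ * (D v f (mix C σ τ) * D v f (mix C σ τ)) := by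
    intro σ
    have hdep : Dep D' (fun τ => f (mix C σ τ) - avg C b f σ) := by
      intro τ τ' h
      show f (mix C σ τ) - avg C b f σ = f (mix C σ τ') - avg C b f σ
      congr 1
      apply hf
      intro v hv
      unfold mix
      by_cases hvC : v ∈ C
      · rw [if_pos hvC, if_pos hvC]
      · rw [if_neg hvC, if_neg hvC]
        exact h v ((mem_union.1 hv).resolve_left hvC)
    have htot : tot b (fun τ => f (mix C σ τ) - avg C b f σ) = 0 := by
      unfold tot
      have h1 : ∑ τ, b τ * (f (mix C σ τ) - avg C b f σ) =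
          ∑ τ, b τ * f (mix C σ τ) - (∑ τ, b τ) * avg C b f σ := by
        rw [sum_mul, ← sum_sub_distrib]
        exact sum_congr rfl fun τ _ => by ring
      rw [h1, ← Tensor_avg_mul hbp f σ]
      ring
    have hq := hfrz _ hdep htot
    unfold qf at hq
    have h1 : ip b (fun τ => f (mix C σ τ) - avg C b f σ) (fun τ => f (mix C σ τ) - avg C b f σ) =
        ∑ τ, b τ * (f (mix C σ τ) * f (mix C σ τ)) -
        (∑ τ, b τ) * (avg C b f σ * avg C b f σ) := by
      have h2 : ip b (fun τ => f (mix C σ τ) - avg C b f σ)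
          (fun τ => f (mix C σ τ) - avg C b f σ) =
        ∑ τ, b τ * (f (mix C σ τ) * f (mix C σ τ)) -
        2 * avg C b f σ * (∑ τ, b τ * f (mix C σ τ)) +
        (∑ τ, b τ) * (avg C b f σ * avg C b f σ) := by
        unfold ip
        rw [mul_sum, sum_mul, ← sum_sub_distrib, ← sum_add_distrib]
        exact sum_congr rfl fun τ _ => by ring
      rw [h2, ← Tensor_avg_mul hbp f σ]
      ring
    have h3 : am b (fun τ => f (mix C σ τ) - avg C b f σ) (fun τ => f (mix C σ τ) - avg C b f σ) =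
        ∑ v ∈ D', ∑ τ, b τ * (D v f (mix C σ τ) * D v f (mix C σ τ)) := by
      unfold am
      symm
      have h4 : ∀ v ∈ D', ∀ τ : V → Bool,
          D v f (mix C σ τ) = D v (fun τ => f (mix C σ τ) - avg C b f σ) τ := by
        intro v hv τ
        have hvC : v ∉ C := fun h => (Finset.disjoint_left.1 hd) h hv
        unfold D
        show _ = ((f (mix C σ (Function.update τ v true)) - avg C b f σ) -
          (f (mix C σ (Function.update τ v false)) - avg C b f σ)) / 2
        rw [Tensor_mix_update_out hvC, Tensor_mix_update_out hvC]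
        ring
      rw [sum_congr rfl fun v hv => sum_congr rfl fun τ _ => by rw [h4 v hv τ]]
      apply sum_subset (subset_univ D')
      intro v _ hv
      refine sum_eq_zero fun τ _ => ?_
      rw [D_of_dep hdep hv τ]
      ring
    rw [h1, h3] at hq
    linarith
  -- sum of the slices
  have hsum : ∑ σ, a σ * (lam * (∑ τ, b τ * (f (mix C σ τ) * f (mix C σ τ)) -
        (∑ τ, b τ) * (avg C b f σ * avg C b f σ))) ≤
      ∑ σ, a σ * ∑ v ∈ D', ∑ τ, b τ * (D v f (mix C σ τ) * D v f (mix C σ τ)) :=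
    sum_le_sum fun σ _ => mul_le_mul_of_nonneg_left (key σ) (hap σ).le
  have hL : ∑ σ, a σ * (lam * (∑ τ, b τ * (f (mix C σ τ) * f (mix C σ τ)) -
        (∑ τ, b τ) * (avg C b f σ * avg C b f σ))) =
      lam * (2 ^ Fintype.card V * ip (fun σ => a σ * b σ) f f -
        (∑ τ, b τ) * ip a (avg C b f) (avg C b f)) := by
    have h1 := Tensor_master ha hb hd (fun σ => f σ * f σ)
    have h2 : ip (fun σ => a σ * b σ) f f = ∑ σ, a σ * b σ * (f σ * f σ) := rfl
    rw [h2, ← h1]
    unfold ip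
    rw [mul_sum univ, ← sum_sub_distrib, mul_sum univ]
    refine sum_congr rfl fun σ _ => ?_
    rw [← mul_sum]
    ring
  have hR : ∑ σ, a σ * ∑ v ∈ D', ∑ τ, b τ * (D v f (mix C σ τ) * D v f (mix C σ τ)) =
      2 ^ Fintype.card V * ∑ v ∈ D', ∑ σ, a σ * b σ * (D v f σ * D v f σ) := by
    rw [mul_sum D']
    rw [sum_congr rfl fun v _ => (Tensor_master ha hb hd (fun σ => D v f σ * D v f σ)).symm]
    rw [sum_comm]
    refine sum_congr rfl fun σ _ => ?_
    rw [mul_sum]
    refine sum_congr rfl fun v _ => ?_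
    rw [mul_sum]
  rw [hL, hR] at hsum
  have h5 : lam * (ip (fun σ => a σ * b σ) f f -
        (∑ σ, b σ) / 2 ^ Fintype.card V * ip a (avg C b f) (avg C b f)) =
      (lam * (2 ^ Fintype.card V * ip (fun σ => a σ * b σ) f f -
        (∑ τ, b τ) * ip a (avg C b f) (avg C b f))) / 2 ^ Fintype.card V := by
    field_simp
  rw [h5, div_le_iff₀ hN]
  linarith

theorem tensor (ha : Dep C a) (hap : ∀ σ, 0 < a σ) (hb : Dep D' b) (hbp : ∀ σ, 0 < b σ)
    (hd : Disjoint C D') {lam : ℝ} (hC : FrzR a C lam) (hD : FrzR b D' lam) :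
    FrzR (fun σ => a σ * b σ) (C ∪ D') lam := by
  intro f hf ht
  have hN := Tensor_pow_pos (V := V)
  have hB := Tensor_B_pos hbp
  have hc : 0 < (∑ σ, b σ) / 2 ^ Fintype.card V := div_pos hB hN
  have h1 := tot_avg ha hb hbp hd f
  rw [ht] at h1
  have h2 : tot a (avg C b f) = 0 := by
    rcases mul_eq_zero.1 h1.symm with h | h
    · exact absurd h hc.ne'
    · exact h
  have h3 := hC _ (dep_avg hbp f) h2
  unfold qf at h3
  have h4 := mul_nonneg hc.le h3
  have h5 := am_avg ha hap hb hbp hd f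
  have h6 := var_avg ha hap hb hbp hd hD hf
  have h7 : ∑ v ∈ C, ∑ σ, a σ * b σ * (D v f σ * D v f σ) +
      ∑ v ∈ D', ∑ σ, a σ * b σ * (D v f σ * D v f σ) ≤ am (fun σ => a σ * b σ) f f := by
    rw [← sum_union hd]
    unfold am
    apply sum_le_sum_of_subset_of_nonneg (subset_univ _)
    intro v _ _
    exact sum_nonneg fun σ _ => mul_nonneg (mul_pos (hap σ) (hbp σ)).le (mul_self_nonneg _)
  unfold qf
  nlinarith [h4, h5, h6, h7]

end Pool.Agent.Lib.MP_f82811_pr.TC
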