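import Pool.Agent.Lib.MP_f82811_pr.TC.Rchm

/-!
# Module Tri3: the three cases of the induction

Proof. If `J u b = 0` for all `b`: first case. Otherwise let `J u z1 ≠ 0` and `C = {x ∈ X.erase u :
Rch J {u} z1 x}`, `R` = the rest of `X.erase u`. There is no coupling between `C` and `R` (`Rch` could be
extended), `z1 ∈ C`. If `R` is not empty: second case. If `R` is empty all neighbours of `u` are in `C`,
so they are mutually reachable outside `u` (symmetry), and by `Cac J u` (with `x = u`) there are at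
most two of them: third and fourth case.
-/

set_option autoImplicit false

namespace Pool.Agent.Lib.MP_f82811_pr.TC

open Finset HT

variable {V : Type*} [Fintype V] [DecidableEq V] {J : V → V → ℝ}

theorem trichotomy (hJ : Coup J) {X : Finset V} (hX : Supp J X) {u : V} (hC : Cac J u) :
    (∀ b, J u b = 0) ∨
    (∃ C R : Finset V, X.erase u = C ∪ R ∧ Disjoint C R ∧ C.Nonempty ∧ R.Nonempty ∧
      ∀ a ∈ C, ∀ b ∈ R, J a b = 0) ∨
    (∃ z, J u z ≠ 0 ∧ ∀ b, J u b ≠ 0 → b = z) ∨
    (∃ z1 z2, z1 ≠ z2 ∧ J u z1 ≠ 0 ∧ J u z2 ≠ 0 ∧ ∀ b, J u b ≠ 0 → b = z1 ∨ b = z2) := by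
  classical
  by_cases h0 : ∀ b, J u b = 0
  · exact Or.inl h0
  push Not at h0
  obtain ⟨z1, hz1⟩ := h0
  right
  have hz1u : z1 ≠ u := by
    rintro rfl
    exact hz1 (hJ.diag z1)
  have hz1X : z1 ∈ X := (hX u z1 hz1).2
  by_cases hRne : ((X.erase u).filter (fun x => ¬ Rch J {u} z1 x)).Nonempty
  · refine Or.inl ⟨(X.erase u).filter (fun x => Rch J {u} z1 x),
      (X.erase u).filter (fun x => ¬ Rch J {u} z1 x), ?_, ?_, ⟨z1, ?_⟩, hRne, ?_⟩
    · ext x
      simp only [Finset.mem_union, Finset.mem_filter]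
      tauto
    · rw [Finset.disjoint_left]
      intro x hx hx'
      rw [Finset.mem_filter] at hx hx'
      exact hx'.2 hx.2
    · rw [Finset.mem_filter, Finset.mem_erase]
      exact ⟨⟨hz1u, hz1X⟩, Relation.ReflTransGen.refl⟩
    · intro a ha b hb
      by_contra hab
      rw [Finset.mem_filter, Finset.mem_erase] at ha hb
      exact hb.2 (ha.2.trans (rch_edge hab (by simpa using ha.1.1) (by simpa using hb.1.1)))
  right
  have hall : ∀ b, J u b ≠ 0 → Rch J {u} z1 b := by
    intro b hb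
    by_contra hn
    apply hRne
    refine ⟨b, ?_⟩
    rw [Finset.mem_filter, Finset.mem_erase]
    exact ⟨⟨fun h => hb (by rw [h]; exact hJ.diag u), (hX u b hb).2⟩, hn⟩
  by_cases h2 : ∀ b, J u b ≠ 0 → b = z1
  · exact Or.inl ⟨z1, hz1, h2⟩
  right
  push Not at h2
  obtain ⟨z2, hz2, h12⟩ := h2
  refine ⟨z1, z2, h12.symm, hz1, hz2, fun b hb => ?_⟩
  by_contra hne
  push Not at hne
  exact hC u z1 z2 b Relation.ReflTransGen.refl hz1 hz2 hb h12.symm hne.2.symm hne.1.symm
    (hall z2 hz2) ((rch_symm hJ (hall z2 hz2)).trans (hall b hb))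

end Pool.Agent.Lib.MP_f82811_pr.TC
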