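import Pool.Agent.Lib.MP_f82811_pr.TC.F12
import Pool.Agent.Lib.MP_f82811_pr.TC.IncOdd
import Pool.Agent.Lib.MP_f82811_pr.TC.Virt
import Pool.Agent.Lib.MP_f82811_pr.TC.Fact
import Pool.Agent.Lib.MP_f82811_pr.TC.Tensor
import Pool.Agent.Lib.MP_f82811_pr.TC.CacC
import Pool.Agent.Lib.MP_f82811_pr.TC.Tri3

/-!
# The pinned gap of a cactus is at least its odd gap
-/

set_option autoImplicit false

namespace Pool.Agent.Lib.MP_f82811_pr.TC

open Finset HT

variable {V : Type*} [Fintype V] [DecidableEq V]

theorem supp_erase_of_zero {J : V → V → ℝ} (hJ : Coup J) {X : Finset V} (hX : Supp J X) {u : V}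
    (hu : ∀ b, J u b = 0) : Supp J (X.erase u) := by
  intro a b hab
  have h := hX a b hab
  refine ⟨Finset.mem_erase.2 ⟨fun h1 => hab (by rw [h1, hu b]), h.1⟩,
    Finset.mem_erase.2 ⟨fun h1 => hab (by rw [h1, hJ.symm, hu a]), h.2⟩⟩

theorem pinned : ∀ (n : ℕ) (X : Finset V) (J : V → V → ℝ) (u : V) (lam : ℝ), X.card = n →
    0 ≤ lam → Coup J → Supp J X → u ∈ X → Cac J u → OddR (W J) (X.erase u) lam →
    FrzR (Fw J u) (X.erase u) lam := by
  intro n
  induction n using Nat.strong_induction_on with
  | _ n ih =>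
    intro X J u lam hcard hlam hJ hX hu hC hodd
    rcases trichotomy hJ hX hC with h0 | ⟨C, R, hCR, hd, hCn, hRn, hno⟩ | ⟨z, hz, hz'⟩ |
      ⟨z1, z2, h12, hz1, hz2, hz'⟩
    · obtain ⟨hFw, hoff⟩ := virt_zero h0 hJ
      rw [hFw]
      exact frz_of_odd (fkg_W hJ) (even_W J) (dep_W (supp_erase_of_zero hJ hX h0)) hodd
    · have huC : u ∉ C := fun h => by
        have : u ∈ X.erase u := by rw [hCR]; exact Finset.mem_union_left _ h
        exact (Finset.notMem_erase u X) this
      have huR : u ∉ R := fun h => by
        have : u ∈ X.erase u := by rw [hCR]; exact Finset.mem_union_right _ h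
        exact (Finset.notMem_erase u X) this
      have hcardCR : C.card + R.card + 1 = n := by
        rw [← Finset.card_union_of_disjoint hd, ← hCR, Finset.card_erase_add_one hu, hcard]
      have hc1 : (insert u C).card < n := by
        rw [Finset.card_insert_of_notMem huC]
        have := Finset.card_pos.2 hRn
        omega
      have hc2 : (insert u R).card < n := by
        rw [Finset.card_insert_of_notMem huR]
        have := Finset.card_pos.2 hCn
        omega
      have hRC : X.erase u = R ∪ C := by rw [hCR, Finset.union_comm]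
      have hno' : ∀ a ∈ R, ∀ b ∈ C, J a b = 0 := fun a ha b hb => by
        rw [hJ.symm]; exact hno b hb a ha
      have key : ∀ Y : Finset V, Cac (res J Y) u := fun Y =>
        hC.mono fun a b hab => by
          unfold res at hab
          split_ifs at hab with h
          · exact hab
          · exact absurd rfl hab
      have e1 : (insert u C).erase u = C := Finset.erase_insert huC
      have e2 : (insert u R).erase u = R := Finset.erase_insert huR
      have f1 := ih _ hc1 (insert u C) (res J (insert u C)) u lam rfl hlam (coup_res hJ _)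
        (supp_res J _) (Finset.mem_insert_self _ _) (key _)
        (by rw [e1]; exact odd_split hJ hX hu hCR hd hno hodd)
      have f2 := ih _ hc2 (insert u R) (res J (insert u R)) u lam rfl hlam (coup_res hJ _)
        (supp_res J _) (Finset.mem_insert_self _ _) (key _)
        (by rw [e2]; exact odd_split hJ hX hu hRC hd.symm hno' hodd)
      have d1 := dep_Fw (supp_res J (insert u C)) (coup_res hJ _) u
      have d2 := dep_Fw (supp_res J (insert u R)) (coup_res hJ _) u
      rw [e1] at f1 d1
      rw [e2] at f2 d2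
      have h := tensor d1 (fkg_Fw (coup_res hJ _) u).pos d2 (fkg_Fw (coup_res hJ _) u).pos hd f1 f2
      have hw : Fw J u = fun σ => Fw (res J (insert u C)) u σ * Fw (res J (insert u R)) u σ := by
        funext σ
        exact Fw_split hJ hX hu hCR hd hno σ
      rw [hCR, hw]
      exact h
    · -- one neighbour
      have hzX : z ∈ X.erase u :=
        Finset.mem_erase.2 ⟨fun h => hz (by rw [h, hJ.diag]), (hX u z hz).2⟩
      have hS : Sw J u = fun σ => Real.cosh (J u z) * W (off J u) σ :=
        funext fun σ => (virt_one hz' σ).1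
      have hFw : Fw J u = fun σ => Real.cosh (J u z) *
          (W (off J u) σ * (1 + Real.tanh (J u z) * sp z σ)) :=
        funext fun σ => (virt_one hz' σ).2
      have hc : 0 < Real.cosh (J u z) := Real.cosh_pos _
      have hoddS := odd_marg hJ hodd
      have hodd0 : OddR (W (off J u)) (X.erase u) lam := by
        have h1 := hoddS.scale (inv_pos.2 hc)
        have h2 : (fun σ => (Real.cosh (J u z))⁻¹ * Sw J u σ) = W (off J u) := by
          funext σ
          rw [hS]
          field_simp
        rwa [h2] at h1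
      have hcard' : (X.erase u).card < n := by
        rw [← hcard]
        exact Finset.card_erase_lt_of_mem hu
      have f1 := ih _ hcard' (X.erase u) (off J u) z lam rfl hlam (coup_off hJ u)
        (supp_off hX u) hzX (cac_off hJ hz hC) (hodd0.mono (Finset.erase_subset _ _))
      have g1 := pin_good (coup_off hJ u) f1
      have hpos : 0 ≤ J u z := hJ.nonneg u z
      have hν : Fkg (fun σ => W (off J u) σ * (1 + Real.tanh (J u z) * sp z σ)) := by
        have h1 := fkg_Fw hJ u
        rw [hFw] at h1
        refine ⟨fun σ => ?_, fun σ τ => ?_⟩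
        · exact (pos_iff_pos_of_mul_pos (h1.pos σ)).1 hc
        · have h2 := h1.lat σ τ
          have h3 : 0 < Real.cosh (J u z) * Real.cosh (J u z) := mul_pos hc hc
          have h4 : (Real.cosh (J u z) * Real.cosh (J u z)) *
              ((W (off J u) σ * (1 + Real.tanh (J u z) * sp z σ)) *
              (W (off J u) τ * (1 + Real.tanh (J u z) * sp z τ))) ≤
              (Real.cosh (J u z) * Real.cosh (J u z)) *
              ((W (off J u) (σ ⊓ τ) * (1 + Real.tanh (J u z) * sp z (σ ⊓ τ))) *
              (W (off J u) (σ ⊔ τ) * (1 + Real.tanh (J u z) * sp z (σ ⊔ τ)))) := by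
            linarith
          exact le_of_mul_le_mul_left h4 h3
      have h := F_one (even_W (off J u)) hlam (tanh_nonneg' hpos)
        (Real.tanh_lt_one _).le (dep_W (supp_off hX u)) hzX hν (fkg_W (coup_off hJ u)).pos hodd0 g1
      rw [hFw]
      exact h.scale hc
    · -- two neighbours
      have hz1X : z1 ∈ X.erase u :=
        Finset.mem_erase.2 ⟨fun h => hz1 (by rw [h, hJ.diag]), (hX u z1 hz1).2⟩
      have hz2X : z2 ∈ X.erase u :=
        Finset.mem_erase.2 ⟨fun h => hz2 (by rw [h, hJ.diag]), (hX u z2 hz2).2⟩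
      have p1 : 0 < J u z1 := lt_of_le_of_ne (hJ.nonneg _ _) (Ne.symm hz1)
      have p2 : 0 < J u z2 := lt_of_le_of_ne (hJ.nonneg _ _) (Ne.symm hz2)
      have t1 : 0 < Real.tanh (J u z1) := tanh_pos' p1
      have t2 : 0 < Real.tanh (J u z2) := tanh_pos' p2
      have t1' := Real.tanh_lt_one (J u z1)
      have t2' := Real.tanh_lt_one (J u z2)
      have τ0 : 0 < Real.tanh (J u z1) * Real.tanh (J u z2) := mul_pos t1 t2
      have τ1 : Real.tanh (J u z1) * Real.tanh (J u z2) < 1 := by nlinarith
      obtain ⟨t, ht0, ht⟩ := exists_tanh τ0 τ1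
      obtain ⟨cα, cβ, cαβ⟩ := num_coef t1 t1' t2 t2'
      set J' := setc (off J u) z1 z2 (off J u z1 z2 + t) with hJ'
      have hcp : 0 < Real.cosh (J u z1) * Real.cosh (J u z2) :=
        mul_pos (Real.cosh_pos _) (Real.cosh_pos _)
      have hct : 0 < Real.cosh t := Real.cosh_pos _
      set S0 := W (off J u) with hS0
      set τ := Real.tanh (J u z1) * Real.tanh (J u z2) with hτ
      set α := Real.tanh (J u z1) * (1 - Real.tanh (J u z2) ^ 2) / (1 - τ ^ 2) with hα
      set β := Real.tanh (J u z2) * (1 - Real.tanh (J u z1) ^ 2) / (1 - τ ^ 2) with hβ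
      have hv := virt_two hJ h12 hz' p1 p2 ht
      have hS : Sw J u = fun σ => Real.cosh (J u z1) * Real.cosh (J u z2) *
          (S0 σ * (1 + τ * (sp z1 σ * sp z2 σ))) := funext fun σ => (hv σ).1
      have hW : W J' = fun σ => Real.cosh t * (S0 σ * (1 + τ * (sp z1 σ * sp z2 σ))) :=
        funext fun σ => (hv σ).2.1
      have hFw : Fw J u = fun σ => Real.cosh (J u z1) * Real.cosh (J u z2) *
          (S0 σ * (1 + τ * (sp z1 σ * sp z2 σ)) * (1 + (α * sp z1 σ + β * sp z2 σ))) :=
        funext fun σ => (hv σ).2.2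
      have hJ'c : Coup J' := coup_setc (coup_off hJ u) h12
        (add_nonneg ((coup_off hJ u).nonneg _ _) ht0.le)
      have hJ's : Supp J' (X.erase u) := by
        intro a b hab
        rw [hJ'] at hab
        unfold setc at hab
        split_ifs at hab with h
        · rcases h with ⟨ha, hb⟩ | ⟨ha, hb⟩
          · rw [ha, hb]; exact ⟨hz1X, hz2X⟩
          · rw [ha, hb]; exact ⟨hz2X, hz1X⟩
        · exact supp_off hX u a b hab
      have hodd0 : OddR (fun σ => S0 σ * (1 + τ * (sp z1 σ * sp z2 σ))) (X.erase u) lam := by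
        have h1 := (odd_marg hJ hodd).scale (inv_pos.2 hcp)
        have h2 : (fun σ => (Real.cosh (J u z1) * Real.cosh (J u z2))⁻¹ * Sw J u σ) =
            fun σ => S0 σ * (1 + τ * (sp z1 σ * sp z2 σ)) := by
          funext σ
          rw [hS, ← mul_assoc, inv_mul_cancel₀ hcp.ne', one_mul]
        rwa [h2] at h1
      have hoddW : OddR (W J') (X.erase u) lam := by
        rw [hW]
        exact hodd0.scale hct
      have hcard' : (X.erase u).card < n := by
        rw [← hcard]
        exact Finset.card_erase_lt_of_mem hu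
      have hcac := cac_virt hJ h12 hz1 hz2 hC (off J u z1 z2 + t)
      have f1 := pin_good hJ'c (ih _ hcard' (X.erase u) J' z1 lam rfl hlam hJ'c hJ's hz1X hcac.1
        (hoddW.mono (Finset.erase_subset _ _)))
      have f2 := pin_good hJ'c (ih _ hcard' (X.erase u) J' z2 lam rfl hlam hJ'c hJ's hz2X hcac.2
        (hoddW.mono (Finset.erase_subset _ _)))
      have conv : ∀ z : V, FrzR (fun σ => W J' σ * (1 + sp z σ)) (X.erase u) lam →
          FrzR (fun σ => S0 σ * (1 + τ * (sp z1 σ * sp z2 σ)) * (1 + sp z σ)) (X.erase u) lam := by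
        intro z hz
        have h1 := hz.scale (inv_pos.2 hct)
        have h2 : (fun σ => (Real.cosh t)⁻¹ * (W J' σ * (1 + sp z σ))) =
            fun σ => S0 σ * (1 + τ * (sp z1 σ * sp z2 σ)) * (1 + sp z σ) := by
          funext σ
          rw [hW]
          field_simp
        rwa [h2] at h1
      have hν : Fkg (fun σ => S0 σ * (1 + τ * (sp z1 σ * sp z2 σ)) *
          (1 + (α * sp z1 σ + β * sp z2 σ))) := by
        have h1 := fkg_Fw hJ u
        rw [hFw] at h1
        refine ⟨fun σ => ?_, fun σ τ' => ?_⟩
        · exact (pos_iff_pos_of_mul_pos (h1.pos σ)).1 hcp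
        · have h2 := h1.lat σ τ'
          have h3 := mul_pos hcp hcp
          refine le_of_mul_le_mul_left ?_ h3
          linarith [h2]
      have h := F_two (even_W (off J u)) (fkg_W (coup_off hJ u)) hlam τ0 τ1 cα cβ cαβ
        (dep_W (supp_off hX u)) hz1X hz2X hν hodd0 (conv z1 f1) (conv z2 f2)
      rw [hFw]
      exact h.scale hcp

/-- The pinned gap is at least the odd gap. -/
theorem pinned_frz {X : Finset V} {J : V → V → ℝ} {u : V} {lam : ℝ} (hlam : 0 ≤ lam)
    (hJ : Coup J) (hX : Supp J X) (hu : u ∈ X) (hC : Cac J u)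
    (h : OddR (W J) (X.erase u) lam) : FrzR (Fw J u) (X.erase u) lam :=
  pinned _ X J u lam rfl hlam hJ hX hu hC h

end Pool.Agent.Lib.MP_f82811_pr.TC
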