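import Pool.Agent.Lib.MP_f82811_pr.TC.T1
import Pool.Agent.Lib.MP_f82811_pr.TC.P0
import Pool.Agent.Lib.MP_f82811_pr.TC.Amin
import Pool.Agent.Lib.MP_f82811_pr.TC.Prod
import Pool.Agent.Lib.MP_f82811_pr.TC.Dom
import Pool.Agent.Lib.MP_f82811_pr.TC.Step
import Pool.Agent.Lib.MP_f82811_pr.TC.BrAM
import Pool.Agent.Lib.MP_f82811_pr.TC.Low

/-!
# Short edges of cactus components, arithmetic mean dynamics
-/

set_option autoImplicit false

namespace Pool.Agent.Lib.MP_f82811_pr.TC

open Finset HT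

variable {V : Type*} [Fintype V] [DecidableEq V] {J : V → V → ℝ}

omit [Fintype V] in
theorem setc_setc (k l : V) (s t : ℝ) : setc (setc J k l s) k l t = setc J k l t := by
  funext a b
  unfold setc
  split_ifs <;> rfl

omit [Fintype V] in
theorem setc_self (hJ : Coup J) (k l : V) : setc J k l (J k l) = J := by
  funext a b
  unfold setc
  split_ifs with h
  · rcases h with ⟨h1, h2⟩ | ⟨h1, h2⟩
    · rw [h1, h2]
    · rw [h1, h2, hJ.symm]
  · rfl

omit [Fintype V] in
theorem setc_supp {k l : V} {a b : V} (h : setc J k l 0 a b ≠ 0) : J a b ≠ 0 := by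
  unfold setc at h
  split_ifs at h with h1
  · exact absurd rfl h
  · exact h

omit [Fintype V] in
theorem res_supp {X : Finset V} {a b : V} (h : res J X a b ≠ 0) : J a b ≠ 0 := by
  unfold res at h
  split_ifs at h with h1
  · exact h
  · exact absurd rfl h

/-- The form on the product law is nonnegative, both signs of the mean. -/
theorem sector_nonneg {a b : (V → Bool) → ℝ} {P N : Finset V} (ha : Dep P a)
    (hap : ∀ σ, 0 < a σ) (hb : Dep N b) (hbp : ∀ σ, 0 < b σ) (hd : Disjoint P N) {lam : ℝ}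
    (hlam : 0 ≤ lam)
    (hPa : ∀ f : (V → Bool) → ℝ, Monotone f → Dep P f → 0 ≤ tot a f →
      lam * ip a f f ≤ am a f f + ∑ σ, a σ * (max (sy f σ) 0) ^ 2)
    (hPb : ∀ f : (V → Bool) → ℝ, Monotone f → Dep N f → 0 ≤ tot b f →
      lam * ip b f f ≤ am b f f + ∑ σ, b σ * (max (sy f σ) 0) ^ 2)
    (hfa : FrzR a P lam) (hfb : FrzR b N lam)
    (hda : ∀ f : (V → Bool) → ℝ, Monotone f →
      tot (fun σ => a (neg σ)) f ≤ tot (fun σ => a (neg (neg σ))) f)
    (hdb : ∀ f : (V → Bool) → ℝ, Monotone f →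
      tot (fun σ => b (neg σ)) f ≤ tot (fun σ => b (neg (neg σ))) f)
    {v : (V → Bool) → ℝ} (hv : Monotone v) (hvd : Dep (P ∪ N) v) :
    0 ≤ am (fun σ => a σ * b (neg σ)) v v + ∑ σ, a σ * b (neg σ) * sy v σ ^ 2 -
      lam * ip (fun σ => a σ * b (neg σ)) v v := by
  rcases le_total 0 (tot (fun σ => a σ * b (neg σ)) v) with h0 | h0
  · exact prod_case ha hap hb.neg (fun σ => hbp _) hd hlam hPa hfb.neg hdb hv hvd h0
  · -- reflect and exchange the roles
    have hv' : Monotone (fun σ => -v (neg σ)) := by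
      intro σ τ hst
      have h1 : neg τ ≤ neg σ := by
        intro i
        have key : ∀ x y : Bool, x ≤ y → (!y) ≤ (!x) := by decide
        exact key _ _ (hst i)
      exact neg_le_neg (hv h1)
    have hvd' : Dep (N ∪ P) (fun σ => -v (neg σ)) := by
      intro σ τ h
      have h1 := hvd.neg σ τ (fun i hi => h i (by rw [Finset.union_comm]; exact hi))
      simp only at h1 ⊢
      rw [h1]
    have htot : tot (fun σ => b σ * a (neg σ)) (fun σ => -v (neg σ)) =
        -tot (fun σ => a σ * b (neg σ)) v := by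
      unfold tot
      rw [← sum_neg (fun σ => a σ * b (neg σ) * v σ), ← Finset.sum_neg_distrib]
      refine Finset.sum_congr rfl fun σ _ => ?_
      rw [neg_neg']
      ring
    have h1 := prod_case hb hbp ha.neg (fun σ => hap _) hd.symm hlam hPb hfa.neg hda hv' hvd'
      (by rw [htot]; linarith)
    have e0 : (fun σ => -v (neg σ)) = fun σ => (-1 : ℝ) * (fun τ => v (neg τ)) σ := by
      funext σ
      ring
    have e1 : am (fun σ => b σ * a (neg σ)) (fun σ => -v (neg σ)) (fun σ => -v (neg σ)) =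
        am (fun σ => a σ * b (neg σ)) v v := by
      rw [e0, am_smul_left, am_comm, am_smul_left]
      have h2 := am_neg (w := fun σ => a σ * b (neg σ)) v v
      have h3 : (fun σ => a (neg σ) * b (neg (neg σ))) = fun σ => b σ * a (neg σ) := by
        funext σ
        rw [neg_neg', mul_comm]
      rw [← h2]
      simp only [neg_neg'] at h3 ⊢
      rw [h3]
      ring
    have e2 : ip (fun σ => b σ * a (neg σ)) (fun σ => -v (neg σ)) (fun σ => -v (neg σ)) =
        ip (fun σ => a σ * b (neg σ)) v v := by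
      unfold ip
      rw [← sum_neg (fun σ => a σ * b (neg σ) * (v σ * v σ))]
      refine Finset.sum_congr rfl fun σ _ => ?_
      rw [neg_neg']
      ring
    have e3 : ∑ σ, b σ * a (neg σ) * sy (fun σ => -v (neg σ)) σ ^ 2 =
        ∑ σ, a σ * b (neg σ) * sy v σ ^ 2 := by
      rw [← sum_neg (fun σ => a σ * b (neg σ) * sy v σ ^ 2)]
      refine Finset.sum_congr rfl fun σ _ => ?_
      unfold sy
      simp only [neg_neg']
      ring
    rw [e1, e2, e3] at h1
    exact h1

theorem tri_sector (hJ : Coup J) {k l m : V} (hkl : k ≠ l) (hkl0 : J k l ≠ 0) (hC : Cac J k)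
    (hsh : Sh J k l) (hkm : J k m ≠ 0) (hlm : J l m ≠ 0) {lam0 : ℝ} {g : (V → Bool) → ℝ}
    (h0 : 0 ≤ lam0) (hg : Odd' g) (hm : Monotone g)
    (hodd : OddR (W (setc J k l 0)) Finset.univ lam0) :
    0 ≤ ∑ σ, (if σ k = σ l then 0 else W (setc J k l 0) σ) *
        ((∑ v, D v g σ * D v g σ) - lam0 * (g σ * g σ)) := by
  set J0 := setc J k l 0 with hJ0
  have hJ0c : Coup J0 := coup_setc hJ hkl le_rfl
  have hJ0kl : J0 k l = 0 := by
    rw [hJ0]; unfold setc; simp
  have hmk : m ≠ k := fun h => hkm (by rw [h, hJ.diag])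
  have hml : m ≠ l := fun h => hlm (by rw [h, hJ.diag])
  have hJ0km : J0 k m = J k m := by
    rw [hJ0]; unfold setc
    rw [if_neg]
    rintro (⟨_, h⟩ | ⟨h, _⟩)
    · exact hml h
    · exact hkl h
  have hJ0lm : J0 l m = J l m := by
    rw [hJ0]; unfold setc
    rw [if_neg]
    rintro (⟨h, _⟩ | ⟨_, h⟩)
    · exact hkl h.symm
    · exact hmk h
  have hsub : ∀ a b, J0 a b ≠ 0 → J a b ≠ 0 := fun a b h => setc_supp h
  have hsh0 : Sh J0 k l := hsh.mono hsub
  obtain ⟨P, N, hd, hkP, hlP, hkN, hlN, hall, hPN, hP, hN⟩ := part hJ0c hkl hJ0kl hsh0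
  have huniq : ∀ m', J0 k m' ≠ 0 → J0 l m' ≠ 0 → m' = m := fun m' h1 h2 =>
    unique_common hJ hkl0 hC (hsub _ _ h1) (hsub _ _ h2) hkm hlm
  obtain ⟨s, r, hs0, hs1, hr0, hr1, hlow⟩ := low_eq_one hJ0c hkl hJ0kl hd hkP hlP hall hP hN
    (m := m) (by rw [hJ0km]; exact hkm) (by rw [hJ0lm]; exact hlm) huniq
  have hoddlow : OddR (W (low J0 k l P)) Finset.univ lam0 := by
    rw [hlow]
    have h1 := bridge_low hJ0c (Ne.symm hmk) (bridge_k hJ hkl0 hC hkm hlm) hs0 hs1 hodd
    have hc1 : Coup (setc J0 k m s) := coup_setc hJ0c (Ne.symm hmk) hs0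
    refine bridge_low hc1 (Ne.symm hml) (bridge_l hJ hkl0 hC hkm hlm s) hr0 ?_ h1
    refine hr1.trans (le_of_eq ?_)
    unfold setc
    rw [if_neg]
    rintro (⟨h, _⟩ | ⟨_, h⟩)
    · exact hkl h.symm
    · exact hmk h
  have hlowc := coup_low hJ0c hkl hall hP hN
  obtain ⟨hn1, hn2⟩ := low_no hJ0c hkl hd hkP hlP hkN hall hPN
  have hlowsub : ∀ a b, low J0 k l P a b ≠ 0 → J a b ≠ 0 := fun a b h =>
    hsub a b (low_supp hJ0c hkP hlP hall hP hN h)
  set A := res (low J0 k l P) (insert k P) with hA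
  set B := res (low J0 k l P) (insert l N) with hB
  have hAc : Coup A := coup_res hlowc _
  have hBc : Coup B := coup_res hlowc _
  have hAs : Supp A (insert k P) := supp_res _ _
  have hBs : Supp B (insert l N) := supp_res _ _
  have hAo : OddR (W A) (insert k P) lam0 := odd_restrict hlowc hn1 hoddlow
  have hBo : OddR (W B) (insert l N) lam0 := odd_restrict hlowc hn2 hoddlow
  have hAC : Cac A k := hC.mono fun a b h => hlowsub a b (res_supp h)
  have hBC : Cac B l := (hC.adj hJ hkl0).mono fun a b h => hlowsub a b (res_supp h)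
  have eA : (insert k P).erase k = P := Finset.erase_insert hkP
  have eB : (insert l N).erase l = N := Finset.erase_insert hlN
  have fA := pinned_frz h0 hAc hAs (Finset.mem_insert_self _ _) hAC
    (hAo.mono (Finset.erase_subset _ _))
  have fB := pinned_frz h0 hBc hBs (Finset.mem_insert_self _ _) hBC
    (hBo.mono (Finset.erase_subset _ _))
  have dA := dep_Fw hAs hAc k
  have dB := dep_Fw hBs hBc l
  rw [eA] at fA dA
  rw [eB] at fB dB
  have hv := slc_mono (k := k) (l := l) hm
  have hvd : Dep (P ∪ N) (slc k l g) := slc_dep hall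
  have key := sector_nonneg dA (fkg_Fw hAc k).pos dB (fkg_Fw hBc l).pos hd h0
    (fun f hf hfd hf0 => P0_main hAc hkP hAs h0 hAo fA hf hfd hf0)
    (fun f hf hfd hf0 => P0_main hBc hlN hBs h0 hBo fB hf hfd hf0) fA fB
    (fun f hf => tot_dom hAc k hf) (fun f hf => tot_dom hBc l hf) hv hvd
  have hnu : nuw J0 k l = fun σ => Fw A k σ * Fw B l (neg σ) := by
    funext σ
    exact nuw_eq hJ0c hkl hJ0kl hd hkP hlP hkN hlN hall hPN σ
  have hmin := Amin hJ0c hkl hJ0kl hg hm lam0
  rw [hnu] at hmin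
  linarith

/-- Lowering the coupling of a short edge of a cactus component preserves the odd Poincare
inequality of the arithmetic mean dynamics. -/
theorem short_am (hJ : Coup J) {k l : V} (hkl : k ≠ l) (hC : Cac J k) (hsh : Sh J k l)
    {s lam : ℝ} (hs : 0 ≤ s) (hs' : s ≤ J k l)
    (h : OddR (W J) Finset.univ lam) : OddR (W (setc J k l s)) Finset.univ lam := by
  by_cases hkl0 : J k l = 0
  · have : s = J k l := le_antisymm hs' (by rw [hkl0]; exact hs)
    rw [this, setc_self hJ]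
    exact h
  by_cases hex : ∃ m, J k m ≠ 0 ∧ J l m ≠ 0
  · obtain ⟨m, hkm, hlm⟩ := hex
    have h1 := edge_step (coup_setc hJ hkl (le_refl (0 : ℝ))) hkl (by unfold setc; simp)
      (fun lam0 g h0 hg hm hodd _ => tri_sector hJ hkl hkl0 hC hsh hkm hlm h0 hg hm hodd)
      (t := J k l) (lam := lam) hs hs' (by rw [setc_setc, setc_self hJ]; exact h)
    rwa [setc_setc] at h1
  · push Not at hex
    have hno : ∀ m, J k m ≠ 0 → J l m ≠ 0 → False := fun m h1 h2 => h2 (hex m h1)
    exact bridge_low hJ hkl (short_bridge hJ hkl hsh hno) hs hs' h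

end Pool.Agent.Lib.MP_f82811_pr.TC
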